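import Mathlib

set_option autoImplicit false

/-!
# Jensen polynomials of the Riemann xi function: definitions and specifications

Every task is one `Prop` below (`S...`); a task proves it from earlier ones given as hypotheses.
-/

namespace Pool.Agent.H24R2.JP

open Complex Filter Topology Polynomial

/-- `8 ξ(1/2 + z)`, that is `(4 z ^ 2 - 1) Λ(1/2 + z)`, as an entire function. -/
noncomputable def XX (z : ℂ) : ℂ := (4 * z ^ 2 - 1) * completedRiemannZeta₀ (1 / 2 + z) + 4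

/-- `γ(k) = k! / (2k)! * XX^(2k)(0)`, so that `XX z = ∑ γ(k) z ^ (2k) / k!`. -/
noncomputable def gam (k : ℕ) : ℝ :=
  (k.factorial : ℝ) / ((2 * k).factorial : ℝ) * (iteratedDeriv (2 * k) XX 0).re

/-- The Jensen polynomial of degree `d` and shift `n`. -/
noncomputable def jensen (d n : ℕ) : ℝ[X] :=
  ∑ j ∈ Finset.range (d + 1), Polynomial.C ((d.choose j : ℝ) * gam (n + j)) * Polynomial.X ^ j

/-- All complex roots are real. -/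
def Hyperbolic (P : ℝ[X]) : Prop := ∀ z : ℂ, aeval z P = 0 → z.im = 0

/-- `FF x = ∑ γ(k) x ^ k / k!`, so that `FF (z ^ 2) = XX z`. -/
noncomputable def FF (x : ℂ) : ℂ := ∑' k : ℕ, ((gam k : ℝ) : ℂ) / (k.factorial : ℂ) * x ^ k

/-- The closed (convex) parabola region `{z ^ 2 : |Re z| ≤ 1/2}`. -/
def Par : Set ℂ := {x | x.re + x.im ^ 2 ≤ 1 / 4}

/-! ## A. General facts about polynomials and entire functions -/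

/-- (D - a)(D - conj a) preserves real-rootedness in degree at most `d` if `d (Im a)^2 ≤ |a|^2`. -/
def SChasse : Prop := ∀ (P : ℂ[X]) (d : ℕ) (a : ℂ), P.natDegree ≤ d →
  (∀ z, P.IsRoot z → z.im = 0) → a ≠ 0 → (d : ℝ) * a.im ^ 2 ≤ ‖a‖ ^ 2 →
  ∀ z, (Polynomial.C ((‖a‖ ^ 2 : ℝ) : ℂ) * P - Polynomial.C ((2 * a.re : ℝ) : ℂ) * derivative P +
    derivative (derivative P)).IsRoot z → z.im = 0

/-- `f(D) x^d` is real-rooted if the roots of `f` are in the sector. -/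
def SSector : Prop := ∀ (f : ℝ[X]) (d : ℕ), f.coeff 0 ≠ 0 →
  (∀ a : ℂ, aeval a f = 0 → (d : ℝ) * a.im ^ 2 ≤ ‖a‖ ^ 2) →
  ∀ z : ℂ, (∑ j ∈ Finset.range (d + 1),
    (d.choose j : ℂ) * ((j.factorial : ℂ) * ((f.coeff j : ℝ) : ℂ)) * z ^ (d - j)) = 0 → z.im = 0

/-- Limits of real-rooted polynomials, and reversal. -/
def SLimit : Prop := ∀ (d : ℕ) (g : ℕ → ℕ → ℂ) (g' : ℕ → ℂ), g' 0 ≠ 0 →
  (∀ j ≤ d, Tendsto (fun N => g N j) atTop (𝓝 (g' j))) →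
  (∀ᶠ N in atTop, ∀ z : ℂ,
    (∑ j ∈ Finset.range (d + 1), (d.choose j : ℂ) * g N j * z ^ (d - j)) = 0 → z.im = 0) →
  ∀ z : ℂ, (∑ j ∈ Finset.range (d + 1), (d.choose j : ℂ) * g' j * z ^ j) = 0 → z.im = 0

/-- Hadamard factorisation (genus 0), in the form of polynomial approximation. -/
def SHad : Prop := ∀ (f : ℂ → ℂ) (K : ℝ), Differentiable ℂ f → f 0 ≠ 0 →
  (∀ x, f ((starRingEnd ℂ) x) = (starRingEnd ℂ) (f x)) →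
  (∀ x, ‖f x‖ ≤ Real.exp (K * (1 + ‖x‖) ^ (3 / 4 : ℝ))) →
  ∃ P : ℕ → ℝ[X], (∀ (N : ℕ) (x : ℂ), aeval x (P N) = 0 → f x = 0) ∧
    TendstoLocallyUniformly (fun (N : ℕ) (x : ℂ) => aeval x (P N)) f atTop

/-- `P` approximates `f` locally uniformly, all roots in `Par`. -/
def App (f : ℂ → ℂ) (P : ℕ → ℝ[X]) : Prop :=
  (∀ (N : ℕ) (x : ℂ), aeval x (P N) = 0 → x ∈ Par) ∧
    TendstoLocallyUniformly (fun (N : ℕ) (x : ℂ) => aeval x (P N)) f atTop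

/-- Derivatives of the approximants. -/
def SDer : Prop := ∀ (f : ℂ → ℂ) (P : ℕ → ℝ[X]), App f P → ∀ n : ℕ,
  TendstoLocallyUniformly (fun (N : ℕ) (x : ℂ) => aeval x (derivative^[n] (P N)))
    (iteratedDeriv n f) atTop ∧
  ∀ j : ℕ, Tendsto (fun N : ℕ => (j.factorial : ℂ) * (((derivative^[n] (P N)).coeff j : ℝ) : ℂ)) atTop
    (𝓝 (iteratedDeriv (n + j) f 0))

/-- Gauss-Lucas for the convex set `Par`. -/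
def SGL : Prop := ∀ (P : ℝ[X]) (n : ℕ), (∀ x : ℂ, aeval x P = 0 → x ∈ Par) → derivative^[n] P ≠ 0 →
  ∀ x : ℂ, aeval x (derivative^[n] P) = 0 → x ∈ Par

/-- Jensen circles. -/
def SJen : Prop := ∀ P : ℝ[X], derivative P ≠ 0 → ∀ w : ℂ, w.im ≠ 0 → aeval w (derivative P) = 0 →
  ∃ z : ℂ, z.im ≠ 0 ∧ aeval z P = 0 ∧ ‖w - (z.re : ℂ)‖ ≤ |z.im|

/-- The standing hypothesis on the entire function. -/
def Good (f : ℂ → ℂ) : Prop := Differentiable ℂ f ∧ (∃ P : ℕ → ℝ[X], App f P) ∧ ∀ k, iteratedDeriv k f 0 ≠ 0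

def SPar : Prop := ∀ f : ℂ → ℂ, Good f → ∀ (n : ℕ) (w : ℂ), iteratedDeriv n f w = 0 → w ∈ Par

def SCircle : Prop := ∀ f : ℂ → ℂ, Good f → ∀ (n : ℕ) (w : ℂ), w.im ≠ 0 → iteratedDeriv (n + 1) f w = 0 →
  ∃ z : ℂ, z.im ≠ 0 ∧ iteratedDeriv n f z = 0 ∧ ‖w - (z.re : ℂ)‖ ≤ |z.im|

def SJensen : Prop := ∀ f : ℂ → ℂ, Good f → ∀ (n d : ℕ) (R : ℝ), 0 < R → (d : ℝ) * (R + 1 / 4) ≤ R ^ 2 →
  (∀ w : ℂ, ‖w‖ ≤ R → iteratedDeriv n f w = 0 → w.im = 0) →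
  ∀ z : ℂ, (∑ j ∈ Finset.range (d + 1), (d.choose j : ℂ) * iteratedDeriv (n + j) f 0 * z ^ j) = 0 → z.im = 0

def SNewton : Prop := ∀ f : ℂ → ℂ, Good f → ∀ n : ℕ,
  (∀ w : ℂ, ‖w‖ ≤ 2 → iteratedDeriv n f w ≠ 0) → ∀ w : ℂ, iteratedDeriv n f w = 0 →
  1 / (8 * ‖w‖ ^ 2) ≤ ((iteratedDeriv (n + 1) f 0 / iteratedDeriv n f 0) ^ 2 -
    iteratedDeriv (n + 2) f 0 / iteratedDeriv n f 0).re

/-! ## B. The function `FF` -/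

def SB1 : Prop := Differentiable ℂ FF ∧ (∀ z, FF (z ^ 2) = XX z) ∧
  (∀ x, FF ((starRingEnd ℂ) x) = (starRingEnd ℂ) (FF x)) ∧
  ∀ n, iteratedDeriv n FF 0 = ((gam n : ℝ) : ℂ)

/-- The moments of the kernel. -/
def SMom : Prop := ∃ M : ℕ → ℝ, (∀ k, 0 < M k) ∧
  (∀ k, gam k = (k.factorial : ℝ) / ((2 * k).factorial : ℝ) * M k) ∧
  (∀ k, M (k + 1) ^ 2 ≤ M k * M (k + 2)) ∧
  ∃ K : ℝ, 0 < K ∧ ∀ k : ℕ, M (k + 1) ≤ K * ((k : ℝ) + 1) ^ (1 / 4 : ℝ) * M k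

def SGam : Prop := (∀ k, 0 < gam k) ∧
  (∃ K : ℝ, 0 < K ∧ ∀ n : ℕ, 1 ≤ n →
    (gam (n + 1) / gam n) ^ 2 - gam (n + 2) / gam n ≤ K * (n : ℝ) ^ (-(5 / 2) : ℝ)) ∧
  Tendsto (fun n => gam (n + 1) / gam n) atTop (𝓝 0)

def SGrow : Prop := ∃ K : ℝ, ∀ x, ‖FF x‖ ≤ Real.exp (K * (1 + ‖x‖) ^ (3 / 4 : ℝ))

def SZeros : Prop := ∀ x, FF x = 0 → x ∈ Par

def SGood : Prop := Good FF

def SLow : Prop := ∀ C : ℝ, ∃ N0 : ℕ, ∀ n : ℕ, N0 ≤ n → ∀ w : ℂ, iteratedDeriv n FF w = 0 → C * n < ‖w‖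

/-! ## C. The window -/

/-- `(4 z ^ 2 - 1) Γ_ℝ(1/2 + z)`. -/
noncomputable def HH (z : ℂ) : ℂ := (4 * z ^ 2 - 1) * Gammaℝ (1 / 2 + z)

noncomputable def be (t : ℝ) : ℂ := logDeriv HH (I * t)

noncomputable def Om (t : ℝ) : ℝ := Real.log t / 2

def SStir : Prop := (∀ z : ℂ, 0 < z.im → DifferentiableAt ℂ HH z) ∧
  ∃ K T0 : ℝ, 1 ≤ K ∧ 1 ≤ T0 ∧ ∀ t : ℝ, T0 ≤ t → HH (I * t) ≠ 0 ∧ ‖be t - (Om t : ℂ)‖ ≤ K ∧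
    ∀ u : ℂ, ‖u‖ ≤ 50 →
      ‖HH (I * t + u) - HH (I * t) * cexp (be t * u)‖ ≤ K / t * ‖HH (I * t) * cexp (be t * u)‖

def SZeta : Prop := (∀ z : ℂ, 0 < z.im → XX z = HH z * riemannZeta (1 / 2 + z)) ∧
  ∃ K : ℝ, 1 ≤ K ∧ ∀ (s : ℂ) (M : ℕ), 1 / 2 ≤ s.re → 1 ≤ s.im → 1 ≤ M →
    ‖riemannZeta s - ∑ m ∈ Finset.Icc 1 M, (m : ℂ) ^ (-s)‖ ≤ K * ‖s‖ * (M : ℝ) ^ (1 - s.re)

/-- The branch of `√ξ` in the upper half plane. -/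
noncomputable def sq (ξ : ℂ) : ℂ := I * (-ξ) ^ (1 / 2 : ℂ)

/-- The `m`-th piece. -/
noncomputable def GG (m : ℕ) (ξ : ℂ) : ℂ := HH (sq ξ) * (m : ℂ) ^ (-(1 / 2) - sq ξ)

/-- The main term. -/
noncomputable def mt (n : ℕ) (t : ℝ) (z : ℂ) : ℂ :=
  HH (I * t) * cexp (be t * (z - I * t)) * (be t / (2 * (I * t))) ^ n

/-- The window: `n ∈ [19.5 Ω, 20.5 Ω]`, `Ω = (log t)/2`, and `z` is near `i t`. -/
def Win (t : ℝ) (n : ℕ) (z : ℂ) : Prop :=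
  39 / 2 * Om t ≤ n ∧ (n : ℝ) ≤ 41 / 2 * Om t ∧ ‖z - I * t‖ ≤ 3 / 4

def SPiece : Prop := ∃ K T0 : ℝ, 1 ≤ K ∧ 1 ≤ T0 ∧ ∀ (t : ℝ) (n m : ℕ) (z : ℂ), T0 ≤ t → Win t n z →
  1 ≤ m → (m : ℝ) ≤ t ^ (1 / 5 : ℝ) →
  ‖iteratedDeriv n (GG m) (z ^ 2) -
      HH (I * t) * cexp (be t * (z - I * t)) * (m : ℂ) ^ (-(1 / 2) - z) *
        ((be t - (Real.log m : ℂ)) / (2 * (I * t))) ^ n‖ ≤
    K * (n : ℝ) ^ 2 / t * ‖HH (I * t) * cexp (be t * (z - I * t)) * (m : ℂ) ^ (-(1 / 2) - z) *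
        ((be t - (Real.log m : ℂ)) / (2 * (I * t))) ^ n‖

/-- Part of Cauchy's integral for the `n`-th derivative at `x`: the arc `a ≤ θ ≤ b` of the circle
with centre `x0` and radius `ρ`. -/
noncomputable def arc (f : ℂ → ℂ) (n : ℕ) (x0 ρ a b : ℝ) (x : ℂ) : ℂ :=
  (n.factorial : ℂ) / (2 * Real.pi) * ∫ θ in a..b,
    f ((x0 : ℂ) + ρ * cexp (I * θ)) * (ρ * cexp (I * θ)) / ((x0 : ℂ) + ρ * cexp (I * θ) - x) ^ (n + 1)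

def SArc : Prop := ∀ (f : ℂ → ℂ) (n : ℕ) (x0 ρ : ℝ) (x : ℂ), 0 < ρ →
  (∀ ξ ∈ Metric.closedBall (x0 : ℂ) ρ, DifferentiableAt ℂ f ξ) → x ∈ Metric.ball (x0 : ℂ) ρ →
  iteratedDeriv n f x = arc f n x0 ρ 0 Real.pi x + arc f n x0 ρ Real.pi (2 * Real.pi) x ∧
  ((∀ ξ, f ((starRingEnd ℂ) ξ) = (starRingEnd ℂ) (f ξ)) →
    arc f n x0 ρ Real.pi (2 * Real.pi) x = (starRingEnd ℂ) (arc f n x0 ρ 0 Real.pi ((starRingEnd ℂ) x)))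

/-- The upper arc: `FF` is the sum of its first pieces up to a small error. -/
def SUp : Prop := ∀ ε : ℝ, 0 < ε → ∃ T0 : ℝ, 1 ≤ T0 ∧ ∀ (t : ℝ) (n : ℕ) (z : ℂ), T0 ≤ t → Win t n z →
  ‖arc FF n (-t ^ 2) (40 * t) 0 Real.pi (z ^ 2) - ∑ m ∈ Finset.Icc 1 ⌊t ^ (1 / 5 : ℝ)⌋₊,
    arc (GG m) n (-t ^ 2) (40 * t) 0 Real.pi (z ^ 2)‖ ≤ ε * ‖mt n t z‖

/-- The lower arc of the pieces is negligible. -/
def SDown : Prop := ∀ ε : ℝ, 0 < ε → ∃ T0 : ℝ, 1 ≤ T0 ∧ ∀ (t : ℝ) (n : ℕ) (z : ℂ), T0 ≤ t → Win t n z →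
  ∑ m ∈ Finset.Icc 1 ⌊t ^ (1 / 5 : ℝ)⌋₊,
    ‖arc (GG m) n (-t ^ 2) (40 * t) Real.pi (2 * Real.pi) (z ^ 2)‖ ≤ ε * ‖mt n t z‖

def SMain : Prop := ∃ T0 : ℝ, 1 ≤ T0 ∧ ∀ (t : ℝ) (n : ℕ) (z : ℂ), T0 ≤ t → Win t n z →
  ‖arc FF n (-t ^ 2) (40 * t) 0 Real.pi (z ^ 2) - mt n t z‖ ≤ 1 / 10 * ‖mt n t z‖

/-- No zeros off the line at height `t` (in terms of `z`). -/
def SOff : Prop := ∃ T0 : ℝ, 1 ≤ T0 ∧ ∀ (t s : ℝ) (n : ℕ), T0 ≤ t → 39 / 2 * Om t ≤ n →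
  (n : ℝ) ≤ 41 / 2 * Om t → 0 < s → s ≤ 1 / 2 → iteratedDeriv n FF ((s + I * t) ^ 2) ≠ 0

def SWin : Prop := ∃ n1 : ℕ, ∀ n : ℕ, n1 ≤ n → ∀ x : ℂ, x ∈ Par → x.im ≠ 0 →
  Real.exp (49 / 250 * n) ≤ ‖x‖ → ‖x‖ ≤ Real.exp (51 / 250 * n) → iteratedDeriv n FF x ≠ 0

/-! ## D. Conclusion -/

def SChain : Prop := ∃ N1 : ℕ, ∀ n : ℕ, N1 ≤ n → ∀ w : ℂ, w.im ≠ 0 → iteratedDeriv n FF w = 0 →
  Real.exp (n / 5) < ‖w‖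

def SHyp : Prop := ∃ C : ℝ, 0 < C ∧ ∀ d n : ℕ, C * Real.log (d + 1) ≤ n → Hyperbolic (jensen d n)

/-! ## E. Equivalences -/

def SRH1 : Prop := RiemannHypothesis → ∀ d n : ℕ, Hyperbolic (jensen d n)

def SRH2 : Prop := (∀ d : ℕ, Hyperbolic (jensen d 0)) → RiemannHypothesis

/-- The Franel-Landau statement Q1 of MP_6c42c1_nt (the frozen statement S11927). -/
def FareyQ1 : Prop :=
  ∀ F : ℕ → Finset ℚ,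
    (∀ n : ℕ, F n = ((Finset.Icc 1 n ×ˢ Finset.Icc 1 n).image
        (fun p : ℕ × ℕ => (p.1 : ℚ) / (p.2 : ℚ))).filter (fun q : ℚ => q ≤ 1)) →
    ∀ r : ℝ, 1 / 2 < r → ∃ C : ℝ, ∀ n : ℕ, 1 ≤ n →
      ∑ j : Fin (F n).card,
        |(((F n).orderEmbOfFin rfl j : ℚ) : ℝ) - ((j : ℕ) + 1 : ℝ) / ((F n).card : ℝ)|
        < C * (n : ℝ) ^ r

def SFarey : Prop := FareyQ1 ↔ RiemannHypothesis

/-- The final composition. -/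
theorem compose (h1 : SHyp) (h2 : SRH1) (h3 : SRH2) (h4 : SFarey) :
    ∃ C : ℝ, 0 < C ∧ (∀ d n : ℕ, C * Real.log (d + 1) ≤ n → Hyperbolic (jensen d n)) ∧
      (FareyQ1 ↔ ∀ d n : ℕ, (n : ℝ) < C * Real.log (d + 1) → Hyperbolic (jensen d n)) := by
  obtain ⟨C, hC, h⟩ := h1
  refine ⟨C, hC, h, ?_, ?_⟩
  · intro hF d n _
    exact h2 (h4.1 hF) d n
  · intro hJ
    refine h4.2 (h3 fun d => ?_)
    rcases lt_or_ge (((0 : ℕ) : ℝ)) (C * Real.log (d + 1)) with hd | hd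
    · exact hJ d 0 hd
    · exact h d 0 hd

end Pool.Agent.H24R2.JP
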