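import Mathlib
import Pool.Agent.H24R2.JP.Spec

set_option autoImplicit false

/-!
# Cauchy's formula for the `n`-th derivative at a general point of the disc, split into two arcs
-/

namespace Pool.Agent.H24R2.JP

namespace ArcAux

open Complex Filter Topology Metric Set

/-- The `n`-th derivative and the coefficient of the power series. -/
theorem iter_eq {f : ℂ → ℂ} {p : FormalMultilinearSeries ℂ ℂ ℂ} {w : ℂ}
    (hp : HasFPowerSeriesAt f p w) (n : ℕ) :
    iteratedDeriv n f w = (n.factorial : ℂ) * p.coeff n := by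
  obtain ⟨r, hr⟩ := hp
  have h := hr.factorial_smul 1 n
  rw [iteratedFDeriv_apply_eq_iteratedDeriv_mul_prod, Finset.prod_const_one, one_smul] at h
  rw [← h, nsmul_eq_mul]
  rfl

theorem iter_dslope {h : ℂ → ℂ} {w : ℂ} (ha : AnalyticAt ℂ h w) (n : ℕ) :
    iteratedDeriv (n + 1) h w = ((n : ℂ) + 1) * iteratedDeriv n (dslope h w) w := by
  obtain ⟨p, hp⟩ := ha
  rw [iter_eq hp, iter_eq hp.has_fpower_series_dslope_fslope,
    FormalMultilinearSeries.coeff_fslope, Nat.factorial_succ]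
  push_cast
  ring

theorem cauchy_all (c w : ℂ) (R : ℝ) (hw : w ∈ ball c R) (n : ℕ) :
    ∀ h : ℂ → ℂ, DifferentiableOn ℂ h (closedBall c R) →
      (∮ z in C(c, R), h z / (z - w) ^ (n + 1)) =
        2 * Real.pi * I / (n.factorial : ℂ) * iteratedDeriv n h w := by
  have hR : 0 < R := pos_of_mem_ball hw
  have hnhds : closedBall c R ∈ 𝓝 w :=
    mem_of_superset (isOpen_ball.mem_nhds hw) ball_subset_closedBall
  induction n with
  | zero =>
    intro h hh
    have h1 := hh.circleIntegral_sub_inv_smul hw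
    simp only [smul_eq_mul] at h1
    simp only [zero_add, pow_one, Nat.factorial_zero, Nat.cast_one, div_one, iteratedDeriv_zero]
    rw [← h1]
    refine circleIntegral.integral_congr hR.le fun z _ => ?_
    simp only [div_eq_mul_inv]
    ring
  | succ n ih =>
    intro h hh
    have hd : DifferentiableOn ℂ (dslope h w) (closedBall c R) :=
      (Complex.differentiableOn_dslope hnhds).2 hh
    have ha : AnalyticAt ℂ h w := hh.analyticAt hnhds
    have hne : ∀ z ∈ sphere c R, z ≠ w := by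
      intro z hz he
      rw [he] at hz
      exact (ne_of_lt (mem_ball.1 hw)) (mem_sphere.1 hz)
    have e1 : (∮ z in C(c, R), h z / (z - w) ^ (n + 1 + 1)) =
        ∮ z in C(c, R), (h w * (z - w) ^ (-((n : ℤ) + 2)) + dslope h w z / (z - w) ^ (n + 1)) := by
      refine circleIntegral.integral_congr hR.le fun z hz => ?_
      have hzw : z - w ≠ 0 := sub_ne_zero.2 (hne z hz)
      have e2 : h z = h w + (z - w) * dslope h w z := by
        have := sub_smul_dslope h w z
        rw [smul_eq_mul] at this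
        rw [this]
        ring
      have e3 : (z - w) ^ (-((n : ℤ) + 2)) = ((z - w) ^ (n + 2))⁻¹ := by
        rw [zpow_neg]
        norm_cast
      simp only [e3]
      nth_rewrite 1 [e2]
      field_simp
      ring
    have c1 : CircleIntegrable (fun z => h w * (z - w) ^ (-((n : ℤ) + 2))) c R := by
      apply ContinuousOn.circleIntegrable hR.le
      apply ContinuousOn.mul continuousOn_const
      apply ContinuousOn.zpow₀ (by fun_prop)
      intro z hz
      exact Or.inl (sub_ne_zero.2 (hne z hz))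
    have c2 : CircleIntegrable (fun z => dslope h w z / (z - w) ^ (n + 1)) c R := by
      apply ContinuousOn.circleIntegrable hR.le
      apply ContinuousOn.div (hd.continuousOn.mono sphere_subset_closedBall) (by fun_prop)
      intro z hz
      exact pow_ne_zero _ (sub_ne_zero.2 (hne z hz))
    have e4 : (∮ z in C(c, R), h w * (z - w) ^ (-((n : ℤ) + 2))) = 0 := by
      have := circleIntegral.integral_const_mul (h w) (fun z => (z - w) ^ (-((n : ℤ) + 2))) c R
      rw [this, circleIntegral.integral_sub_zpow_of_ne (by omega), mul_zero]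
    rw [e1, circleIntegral.integral_add c1 c2, e4, zero_add, ih _ hd, iter_dslope ha]
    rw [Nat.factorial_succ]
    have hn : (n : ℂ) + 1 ≠ 0 := by exact_mod_cast Nat.succ_ne_zero n
    have hf : (n.factorial : ℂ) ≠ 0 := by exact_mod_cast n.factorial_ne_zero
    push_cast
    field_simp

/-- The integrand in `arc`. -/
noncomputable def ig (f : ℂ → ℂ) (n : ℕ) (x0 ρ : ℝ) (x : ℂ) (θ : ℝ) : ℂ :=
  f ((x0 : ℂ) + ρ * cexp (I * θ)) * (ρ * cexp (I * θ)) / ((x0 : ℂ) + ρ * cexp (I * θ) - x) ^ (n + 1)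

theorem circ_eq (f : ℂ → ℂ) (n : ℕ) (x0 ρ : ℝ) (x : ℂ) :
    (∮ z in C((x0 : ℂ), ρ), f z / (z - x) ^ (n + 1)) = I * ∫ θ in (0 : ℝ)..2 * Real.pi, ig f n x0 ρ x θ := by
  rw [circleIntegral, ← intervalIntegral.integral_const_mul]
  refine intervalIntegral.integral_congr fun θ _ => ?_
  simp only [deriv_circleMap, circleMap, circleMap, smul_eq_mul, ig, zero_add]
  rw [show (θ : ℂ) * I = I * θ by ring]
  ring

theorem cont_ig (f : ℂ → ℂ) (n : ℕ) (x0 ρ : ℝ) (x : ℂ) (hρ : 0 < ρ)
    (hf : ∀ ξ ∈ closedBall (x0 : ℂ) ρ, DifferentiableAt ℂ f ξ) (hx : x ∈ ball (x0 : ℂ) ρ) :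
    Continuous (ig f n x0 ρ x) := by
  have hc : Continuous fun θ : ℝ => (x0 : ℂ) + ρ * cexp (I * θ) := by fun_prop
  have hn : ∀ θ : ℝ, ‖(x0 : ℂ) + ρ * cexp (I * θ) - x0‖ = ρ := by
    intro θ
    rw [add_sub_cancel_left, norm_mul, mul_comm I, norm_exp_ofReal_mul_I, mul_one, norm_real,
      Real.norm_of_nonneg hρ.le]
  unfold ig
  refine Continuous.div (Continuous.mul ?_ (by fun_prop)) (by fun_prop) fun θ => ?_
  · rw [continuous_iff_continuousAt]
    intro θ
    have h1 : ContinuousAt f ((x0 : ℂ) + ρ * cexp (I * θ)) :=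
      (hf _ (by rw [mem_closedBall, dist_eq_norm, hn])).continuousAt
    exact ContinuousAt.comp (f := fun θ : ℝ => (x0 : ℂ) + ρ * cexp (I * θ)) h1 hc.continuousAt
  · apply pow_ne_zero
    intro h0
    have : x = (x0 : ℂ) + ρ * cexp (I * θ) := (sub_eq_zero.1 h0).symm
    rw [this, mem_ball, dist_eq_norm, hn] at hx
    exact lt_irrefl _ hx

theorem ig_conj (f : ℂ → ℂ) (n : ℕ) (x0 ρ : ℝ) (x : ℂ)
    (hf : ∀ ξ, f ((starRingEnd ℂ) ξ) = (starRingEnd ℂ) (f ξ)) (θ : ℝ) :
    ig f n x0 ρ x (2 * Real.pi - θ) = (starRingEnd ℂ) (ig f n x0 ρ ((starRingEnd ℂ) x) θ) := by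
  have h1 : cexp (I * ((2 * Real.pi - θ : ℝ) : ℂ)) = (starRingEnd ℂ) (cexp (I * θ)) := by
    rw [← exp_conj, map_mul, conj_I, conj_ofReal]
    have : I * ((2 * Real.pi - θ : ℝ) : ℂ) = -I * θ + 2 * Real.pi * I := by push_cast; ring
    rw [this, exp_add, exp_two_pi_mul_I, mul_one]
  have h2 : (x0 : ℂ) + ρ * (starRingEnd ℂ) (cexp (I * θ)) =
      (starRingEnd ℂ) ((x0 : ℂ) + ρ * cexp (I * θ)) := by
    rw [map_add, map_mul, conj_ofReal, conj_ofReal]
  unfold ig
  rw [h1, h2, hf]
  simp only [map_div₀, map_mul, map_pow, map_sub, conj_ofReal, conj_conj, map_add]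

end ArcAux

open ArcAux Complex Metric in
theorem arcS : SArc := by
  intro f n x0 ρ x hρ hf hx
  have hc := cont_ig f n x0 ρ x hρ hf hx
  have hfac : (n.factorial : ℂ) ≠ 0 := by exact_mod_cast n.factorial_ne_zero
  have hpi : (Real.pi : ℂ) ≠ 0 := by exact_mod_cast Real.pi_ne_zero
  refine ⟨?_, fun hconj => ?_⟩
  · have h1 := cauchy_all (x0 : ℂ) x ρ hx n f
      (fun ξ hξ => (hf ξ hξ).differentiableWithinAt)
    rw [circ_eq] at h1
    have h2 : (∫ θ in (0 : ℝ)..2 * Real.pi, ig f n x0 ρ x θ) =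
        (∫ θ in (0 : ℝ)..Real.pi, ig f n x0 ρ x θ) + ∫ θ in Real.pi..2 * Real.pi, ig f n x0 ρ x θ :=
      (intervalIntegral.integral_add_adjacent_intervals (hc.intervalIntegrable _ _)
        (hc.intervalIntegrable _ _)).symm
    have h3 : iteratedDeriv n f x = (n.factorial : ℂ) / (2 * Real.pi) *
        ∫ θ in (0 : ℝ)..2 * Real.pi, ig f n x0 ρ x θ := by
      have h4 : I * (∫ θ in (0 : ℝ)..2 * Real.pi, ig f n x0 ρ x θ) =
        I * (2 * Real.pi / (n.factorial : ℂ) * iteratedDeriv n f x) := by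
        rw [h1]; ring
      have h5 := mul_left_cancel₀ I_ne_zero h4
      rw [h5]
      field_simp
    rw [h3, h2, mul_add]
    rfl
  · have h1 : (∫ θ in Real.pi..2 * Real.pi, ig f n x0 ρ x θ) =
        ∫ θ in (0 : ℝ)..Real.pi, ig f n x0 ρ x (2 * Real.pi - θ) := by
      rw [intervalIntegral.integral_comp_sub_left]
      congr 1 <;> ring
    have h2 : (∫ θ in (0 : ℝ)..Real.pi, ig f n x0 ρ x (2 * Real.pi - θ)) =
        (starRingEnd ℂ) (∫ θ in (0 : ℝ)..Real.pi, ig f n x0 ρ ((starRingEnd ℂ) x) θ) := by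
      rw [← intervalIntegral.intervalIntegral_conj]
      refine intervalIntegral.integral_congr fun θ _ => ?_
      exact ig_conj f n x0 ρ x hconj θ
    change (n.factorial : ℂ) / (2 * Real.pi) * (∫ θ in Real.pi..2 * Real.pi, ig f n x0 ρ x θ) =
      (starRingEnd ℂ) ((n.factorial : ℂ) / (2 * Real.pi) *
        (∫ θ in (0 : ℝ)..Real.pi, ig f n x0 ρ ((starRingEnd ℂ) x) θ))
    rw [h1, h2, map_mul, map_div₀, map_mul, conj_ofReal]
    congr 2
    · simp
    · congr 1
      exact (map_ofNat (starRingEnd ℂ) 2).symm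

end Pool.Agent.H24R2.JP
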