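import Pool.Agent.H24R2.JP.Spec

set_option autoImplicit false

/-!
# `(D - a)(D - conj a)` and real roots
-/

namespace Pool.Agent.H24R2.JP

open Complex Filter Topology Polynomial

namespace ChasseAux

/-- logarithmic derivatives of a product of linear factors -/
theorem derivs {ι : Type} [DecidableEq ι] (s : Finset ι) (r : ι → ℂ) (z : ℂ)
    (hz : ∀ i ∈ s, z - r i ≠ 0) :
    eval z (derivative (∏ i ∈ s, (X - C (r i)))) =
        eval z (∏ i ∈ s, (X - C (r i))) * ∑ i ∈ s, (z - r i)⁻¹ ∧
      eval z (derivative (derivative (∏ i ∈ s, (X - C (r i))))) =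
        eval z (∏ i ∈ s, (X - C (r i))) *
          ((∑ i ∈ s, (z - r i)⁻¹) ^ 2 - ∑ i ∈ s, ((z - r i)⁻¹) ^ 2) := by
  induction s using Finset.induction_on with
  | empty => simp
  | insert i s hi ih =>
    obtain ⟨h1, h2⟩ := ih fun j hj => hz j (Finset.mem_insert_of_mem hj)
    have ht : z - r i ≠ 0 := hz i (Finset.mem_insert_self _ _)
    set Q := ∏ i ∈ s, (X - C (r i)) with hQ
    rw [Finset.prod_insert hi, Finset.sum_insert hi, Finset.sum_insert hi, ← hQ]
    simp only [derivative_mul, derivative_sub, derivative_X, derivative_C, sub_zero, one_mul,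
      derivative_add, eval_add, eval_mul, eval_sub, eval_X, eval_C, derivative_one, zero_mul,
      zero_add, h1, h2]
    constructor
    · field_simp
    · field_simp
      ring

/-- the real inequality -/
theorem core {k : ℕ} (u v : Fin k → ℝ) (al be : ℝ) (d : ℕ) (hk : k ≤ d)
    (hv : ∀ i, 0 < v i) (ha : 0 < al ^ 2 + be ^ 2)
    (hd : (d : ℝ) * be ^ 2 ≤ al ^ 2 + be ^ 2)
    (h1 : (∑ i, u i - al) * ∑ i, v i = ∑ i, u i * v i)
    (h2 : (∑ i, u i - al) ^ 2 - (∑ i, v i) ^ 2 + be ^ 2 = ∑ i, (u i ^ 2 - v i ^ 2)) : False := by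
  have hkd : (k : ℝ) ≤ d := by exact_mod_cast hk
  rcases Nat.eq_zero_or_pos k with rfl | hk0
  · simp at h2
    nlinarith
  set U := ∑ i, u i with hU
  set V := ∑ i, v i with hV
  set W := ∑ i, u i ^ 2 with hW
  set S := ∑ i, v i ^ 2 with hS
  set M := ∑ i, u i * v i with hM
  set ub := U - al with hub
  have : Nonempty (Fin k) := ⟨⟨0, hk0⟩⟩
  have hVpos : 0 < V := Finset.sum_pos (fun i _ => hv i) Finset.univ_nonempty
  rw [Finset.sum_sub_distrib] at h2
  -- Cauchy
  have hvV : ∀ i, v i ≤ V := fun i =>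
    Finset.single_le_sum (f := v) (fun j _ => (hv j).le) (Finset.mem_univ i)
  have hc1 : (∑ i, (V - v i) * u i) ^ 2 ≤ (∑ i, (V - v i)) * ∑ i, (V - v i) * u i ^ 2 := by
    have := Finset.sum_sq_le_sum_mul_sum_of_sq_le_mul Finset.univ (r := fun i => (V - v i) * u i)
      (f := fun i => V - v i) (g := fun i => (V - v i) * u i ^ 2)
      (fun i _ => by linarith [hvV i]) (fun i _ => mul_nonneg (by linarith [hvV i]) (sq_nonneg _))
      (fun i _ => le_of_eq (by ring))
    exact this
  have hc2 : (∑ i, u i * v i) ^ 2 ≤ (∑ i, v i) * ∑ i, v i * u i ^ 2 := by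
    have := Finset.sum_sq_le_sum_mul_sum_of_sq_le_mul Finset.univ (r := fun i => u i * v i)
      (f := fun i => v i) (g := fun i => v i * u i ^ 2)
      (fun i _ => (hv i).le) (fun i _ => mul_nonneg (hv i).le (sq_nonneg _))
      (fun i _ => le_of_eq (by ring))
    exact this
  set Q := ∑ i, v i * u i ^ 2 with hQ
  have e1 : ∑ i, (V - v i) * u i = V * U - M := by
    rw [hU, hM, Finset.mul_sum, ← Finset.sum_sub_distrib]
    exact Finset.sum_congr rfl fun i _ => by ring
  have e2 : ∑ i, (V - v i) = (k - 1) * V := by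
    rw [Finset.sum_sub_distrib, ← hV]
    simp
    ring
  have e3 : ∑ i, (V - v i) * u i ^ 2 = V * W - Q := by
    rw [hW, hQ, Finset.mul_sum, ← Finset.sum_sub_distrib]
    exact Finset.sum_congr rfl fun i _ => by ring
  rw [e1, e2, e3] at hc1
  rw [← hM, ← hV] at hc2
  have hal : V * al = V * U - M := by
    rw [← h1, hub]; ring
  rw [← hal] at hc1
  -- `V al² ≤ (k-1) (V W - Q)` and `M² ≤ V Q`, `M = ub V`
  have hk1 : (1 : ℝ) ≤ k := by exact_mod_cast hk0
  have hQ' : ub ^ 2 * V ≤ Q := by
    have h3 : (ub * V) ^ 2 ≤ V * Q := by rw [h1]; exact hc2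
    have h4 : V * (ub ^ 2 * V) ≤ V * Q := by nlinarith
    exact le_of_mul_le_mul_left h4 hVpos
  have hal2 : al ^ 2 ≤ (k - 1) * (W - ub ^ 2) := by
    have h3 : V ^ 2 * al ^ 2 ≤ V ^ 2 * ((k - 1) * (W - ub ^ 2)) := by
      calc V ^ 2 * al ^ 2 = (V * al) ^ 2 := by ring
        _ ≤ (k - 1) * V * (V * W - Q) := hc1
        _ ≤ (k - 1) * V * (V * W - ub ^ 2 * V) := by
          refine mul_le_mul_of_nonneg_left (by linarith) ?_
          exact mul_nonneg (by linarith) hVpos.le
        _ = _ := by ring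
    exact le_of_mul_le_mul_left h3 (by positivity)
  -- `be² = (V² - S) + (W - ub²)`
  have hbe : be ^ 2 = (V ^ 2 - S) + (W - ub ^ 2) := by
    have : ∑ i, u i ^ 2 - ∑ i, v i ^ 2 = W - S := rfl
    linarith
  have hVS : V ^ 2 - S = ∑ i, v i * (V - v i) := by
    rw [hS, pow_two, hV, Finset.sum_mul, ← Finset.sum_sub_distrib, ← hV]
    exact Finset.sum_congr rfl fun i _ => by ring
  have hVS0 : 0 ≤ V ^ 2 - S := by
    rw [hVS]
    exact Finset.sum_nonneg fun i _ => mul_nonneg (hv i).le (by linarith [hvV i])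
  have hdb : (k - 1 : ℝ) * be ^ 2 ≤ al ^ 2 := by nlinarith [sq_nonneg be]
  rcases Nat.lt_or_ge k 2 with hk2 | hk2
  · have hk' : k = 1 := by omega
    subst hk'
    have hal0 : al ^ 2 ≤ 0 := by simpa using hal2
    have hal0' : al = 0 := by nlinarith [sq_nonneg al]
    have e4 : U = u 0 := by rw [hU]; simp
    have e5 : V = v 0 := by rw [hV]; simp
    have e6 : W = u 0 ^ 2 := by rw [hW]; simp
    have e7 : S = v 0 ^ 2 := by rw [hS]; simp
    have : be ^ 2 = 0 := by
      rw [hbe, hub, e4, e5, e6, e7, hal0']; ring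
    rw [hal0', this] at ha
    simp at ha
  · have hstrict : 0 < V ^ 2 - S := by
      rw [hVS]
      refine Finset.sum_pos (fun i _ => mul_pos (hv i) ?_) Finset.univ_nonempty
      obtain ⟨j, hj⟩ : ∃ j : Fin k, j ≠ i := by
        have : Nontrivial (Fin k) := Fin.nontrivial_iff_two_le.2 hk2
        exact exists_ne i
      have h3 : v i + v j ≤ V := by
        have := Finset.sum_le_sum_of_subset_of_nonneg (f := v) (Finset.subset_univ {i, j})
          (fun l _ _ => (hv l).le)
        rw [Finset.sum_pair hj.symm] at this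
        exact this
      linarith [hv j]
    have hk2' : (2 : ℝ) ≤ k := by exact_mod_cast hk2
    have h4 : (k - 1 : ℝ) * (W - ub ^ 2) < (k - 1) * be ^ 2 := by
      refine mul_lt_mul_of_pos_left ?_ (by linarith)
      linarith
    linarith

end ChasseAux

open ChasseAux in
theorem chasse : SChasse := by
  intro P d a hPd hP ha hd z hz
  by_contra hy
  have hP0 : P ≠ 0 := by
    rintro rfl
    have := hP I (by simp)
    simp at this
  -- the roots as a function
  obtain ⟨k, r, hk, hPr⟩ : ∃ (k : ℕ) (r : Fin k → ℂ), k ≤ d ∧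
      P = C P.leadingCoeff * ∏ i, (X - C (r i)) := by
    have hs : P.Splits := IsAlgClosed.splits P
    refine ⟨P.roots.toList.length, fun i => P.roots.toList.get i, ?_, ?_⟩
    · rw [Multiset.length_toList]
      exact (Polynomial.card_roots' P).trans hPd
    · conv_lhs => rw [hs.eq_prod_roots]
      congr 1
      rw [← Multiset.coe_toList P.roots, Multiset.map_coe, Multiset.prod_coe,
        Multiset.coe_toList]
      rw [← List.prod_ofFn]
      congr 1
      rw [List.ofFn_eq_map]
      apply List.ext_get <;> simp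
  set c := P.leadingCoeff with hc
  have hc0 : c ≠ 0 := by rw [hc]; exact leadingCoeff_ne_zero.2 hP0
  have hri : ∀ i, (r i).im = 0 := by
    intro i
    apply hP
    rw [hPr, IsRoot.def, eval_mul, eval_prod]
    rw [Finset.prod_eq_zero (Finset.mem_univ i) (by simp), mul_zero]
  have hne : ∀ i, z - r i ≠ 0 := by
    intro i h
    have := congrArg Complex.im h
    rw [sub_im, hri i, sub_zero, zero_im] at this
    exact hy this
  obtain ⟨e1, e2⟩ := derivs Finset.univ r z fun i _ => hne i
  set Q := ∏ i, (X - C (r i)) with hQ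
  have hQz : eval z Q ≠ 0 := by
    rw [hQ, eval_prod]
    refine Finset.prod_ne_zero_iff.2 fun i _ => ?_
    simpa using hne i
  set w : Fin k → ℂ := fun i => (z - r i)⁻¹ with hw
  have heq : ((‖a‖ ^ 2 : ℝ) : ℂ) - ((2 * a.re : ℝ) : ℂ) * ∑ i, w i +
      ((∑ i, w i) ^ 2 - ∑ i, w i ^ 2) = 0 := by
    rw [IsRoot.def, hPr] at hz
    simp only [derivative_mul, derivative_C, zero_mul, zero_add, eval_add, eval_sub, eval_mul,
      eval_C, e1, e2] at hz
    have h3 : c * eval z Q * (((‖a‖ ^ 2 : ℝ) : ℂ) - ((2 * a.re : ℝ) : ℂ) * ∑ i, w i +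
      ((∑ i, w i) ^ 2 - ∑ i, w i ^ 2)) = 0 := by
      rw [← hz]
      ring
    exact (mul_eq_zero.1 h3).resolve_left (mul_ne_zero hc0 hQz)
  have hnorm : ‖a‖ ^ 2 = a.re ^ 2 + a.im ^ 2 := by
    rw [Complex.sq_norm, Complex.normSq_apply]; ring
  have hre := congrArg Complex.re heq
  have him := congrArg Complex.im heq
  have hsq_re : (∑ i, w i ^ 2).re = ∑ i, ((w i).re ^ 2 - (w i).im ^ 2) := by
    rw [re_sum]
    exact Finset.sum_congr rfl fun i _ => by rw [pow_two, mul_re]; ring
  have hsq_im : (∑ i, w i ^ 2).im = 2 * ∑ i, (w i).re * (w i).im := by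
    rw [im_sum, Finset.mul_sum]
    exact Finset.sum_congr rfl fun i _ => by rw [pow_two, mul_im]; ring
  simp only [add_re, sub_re, mul_re, ofReal_re, ofReal_im, zero_mul, sub_zero, hsq_re, zero_re,
    pow_two (∑ i, w i)] at hre
  simp only [add_im, sub_im, mul_im, ofReal_re, ofReal_im, zero_mul, add_zero, hsq_im, zero_im,
    pow_two (∑ i, w i), zero_sub] at him
  rw [re_sum, im_sum] at hre him
  have hwim : ∀ i, (w i).im = -z.im / Complex.normSq (z - r i) := by
    intro i
    rw [hw]
    simp only [inv_im, sub_im, hri i, sub_zero]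
  have hnpos : ∀ i, 0 < Complex.normSq (z - r i) := fun i => Complex.normSq_pos.2 (hne i)
  have ha2 : 0 < a.re ^ 2 + a.im ^ 2 := by
    rw [← hnorm]
    have := norm_pos_iff.2 ha
    positivity
  rcases lt_or_gt_of_ne hy with hy' | hy'
  · refine core (fun i => (w i).re) (fun i => (w i).im) a.re a.im d hk ?_ ha2
      (by rw [← hnorm]; exact hd) ?_ ?_
    · intro i
      rw [hwim i]
      exact div_pos (by linarith) (hnpos i)
    · nlinarith [him]
    · rw [hnorm] at hre
      nlinarith [hre]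
  · refine core (fun i => (w i).re) (fun i => -(w i).im) a.re a.im d hk ?_ ha2
      (by rw [← hnorm]; exact hd) ?_ ?_
    · intro i
      rw [hwim i, neg_div, neg_neg]
      exact div_pos hy' (hnpos i)
    · simp only [mul_neg, Finset.sum_neg_distrib]
      nlinarith [him]
    · simp only [even_two, Even.neg_pow, Finset.sum_neg_distrib]
      rw [hnorm] at hre
      nlinarith [hre]

end Pool.Agent.H24R2.JP
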