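import Pool.Agent.H24R2.JP.Spec

set_option autoImplicit false

/-!
# Derivatives of the approximants
-/

namespace Pool.Agent.H24R2.JP

open Complex Filter Topology Polynomial

namespace Der

theorem deriv_ae (Q : ℝ[X]) : deriv (fun x : ℂ => aeval x Q) = fun x : ℂ => aeval x (derivative Q) := by
  funext x
  exact (Q.hasDerivAt_aeval x).deriv

theorem der1 (f : ℂ → ℂ) (P : ℕ → ℝ[X])
    (h : TendstoLocallyUniformly (fun (N : ℕ) (x : ℂ) => aeval x (P N)) f atTop) (n : ℕ) :
    TendstoLocallyUniformly (fun (N : ℕ) (x : ℂ) => aeval x (derivative^[n] (P N)))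
      (iteratedDeriv n f) atTop := by
  induction n with
  | zero => simpa using h
  | succ n ih =>
    rw [← tendstoLocallyUniformlyOn_univ] at ih ⊢
    have h1 := ih.deriv (Eventually.of_forall fun N => by
      apply Differentiable.differentiableOn
      intro x
      exact ((derivative^[n] (P N)).hasDerivAt_aeval x).differentiableAt) isOpen_univ
    have h2 : (deriv ∘ fun (N : ℕ) (x : ℂ) => aeval x (derivative^[n] (P N))) =
        fun (N : ℕ) (x : ℂ) => aeval x (derivative^[n + 1] (P N)) := by
      funext N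
      rw [Function.comp_apply, deriv_ae, Function.iterate_succ_apply']
    rw [h2] at h1
    rwa [iteratedDeriv_succ]

end Der

theorem der : SDer := by
  intro f P hP n
  refine ⟨Der.der1 f P hP.2 n, fun j => ?_⟩
  have h1 := (tendstoLocallyUniformlyOn_univ.2 (Der.der1 f P hP.2 (n + j))).tendsto_at
    (Set.mem_univ (0 : ℂ))
  have h2 : (fun N : ℕ => (j.factorial : ℂ) * (((derivative^[n] (P N)).coeff j : ℝ) : ℂ)) =
      fun N : ℕ => aeval (0 : ℂ) (derivative^[n + j] (P N)) := by
    funext N
    have h3 : ∀ Q : ℝ[X], (j.factorial : ℂ) * ((Q.coeff j : ℝ) : ℂ) =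
        aeval (0 : ℂ) (derivative^[j] Q) := by
      intro Q
      rw [← Polynomial.coeff_zero_eq_aeval_zero', Polynomial.coeff_iterate_derivative]
      simp [Nat.descFactorial_self]
    rw [h3, Nat.add_comm n j, Function.iterate_add_apply]
  rw [h2]
  exact h1

end Pool.Agent.H24R2.JP
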