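import Pool.Agent.H24R2.JP.OpLag

set_option autoImplicit false

namespace Pool.Agent.H24R2.JP

open Complex Filter Topology Polynomial OpLagAux

theorem derLag (h1 : SDer) : SDerLag := by
  intro f R x0 hf hw hR hz hx hd hdd
  by_contra h0
  obtain ⟨hfd, ⟨P, hP⟩, -⟩ := hf
  obtain ⟨w, hw⟩ := hw
  have hc := core_lt h1 hfd hP hR hz hx h0 hw
  have e1 : iteratedDeriv 1 f x0 = deriv f x0 := by rw [iteratedDeriv_one]
  have e2 : iteratedDeriv 2 f x0 = deriv (deriv f) x0 := by
    rw [iteratedDeriv_succ, iteratedDeriv_one]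
  rw [e1, e2, hd, hdd] at hc
  simp at hc

end Pool.Agent.H24R2.JP
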