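import Pool.Agent.H24R2.JP.Spec
import Pool.Agent.Helper242.KK.BC

set_option autoImplicit false

/-!
# Hadamard factorisation of genus 0, real version, as polynomial approximation
-/

namespace Pool.Agent.H24R2.JP

open Complex Filter Topology Polynomial Metric Pool.Agent.Helper242.KK

/-- a function without zeros in a disc is an exponential there -/
theorem had_base {F : ℂ → ℂ} (hF : Differentiable ℂ F) {ρ M : ℝ} (hρ : 0 < ρ)
    (hnz : ∀ u ∈ ball (0 : ℂ) ρ, F u ≠ 0) (hb : ∀ w ∈ ball (0 : ℂ) ρ, ‖F w‖ ≤ Real.exp M) :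
    ∃ L : ℂ → ℂ, 0 ≤ M - Real.log ‖F 0‖ ∧ ∀ w : ℂ, ‖w‖ < ρ → F w = F 0 * cexp (L w) ∧
      ‖L w‖ ≤ 2 * (M - Real.log ‖F 0‖) * (‖w‖ / (ρ - ‖w‖)) := by
  have h0 : F 0 ≠ 0 := hnz 0 (mem_ball_self hρ)
  have h0n : 0 < ‖F 0‖ := norm_pos_iff.2 h0
  have hg : DifferentiableOn ℂ (fun z => deriv F z / F z) (ball 0 ρ) := by
    refine DifferentiableOn.div ?_ hF.differentiableOn hnz
    exact (hF.contDiff (n := 2)).differentiable_deriv_two.differentiableOn
  obtain ⟨L0, hL0⟩ := hg.isExactOn_ball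
  set L : ℂ → ℂ := fun z => L0 z - L0 0 with hLdef
  have hL : ∀ z ∈ ball (0 : ℂ) ρ, HasDerivAt L (deriv F z / F z) z := fun z hz =>
    (hL0 z hz).sub_const _
  have hLz : L 0 = 0 := by simp [hLdef]
  have hconst : ∀ z ∈ ball (0 : ℂ) ρ, F z * cexp (-L z) = F 0 := by
    intro z hz
    have hd : ∀ x ∈ ball (0 : ℂ) ρ, HasDerivAt (fun y => F y * cexp (-L y)) 0 x := by
      intro x hx
      have h1 := (hF x).hasDerivAt.mul ((hL x hx).neg.cexp)
      have e : deriv F x * cexp (-L x) + F x * (cexp (-L x) * -(deriv F x / F x)) = 0 := by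
        have hx' := hnz x hx
        field_simp
        ring
      have h1' : HasDerivAt (fun y => F y * cexp (-L y))
        (deriv F x * cexp (-L x) + F x * (cexp (-L x) * -(deriv F x / F x))) x := h1
      rwa [e] at h1'
    have h2 := (convex_ball (0 : ℂ) ρ).is_const_of_fderivWithin_eq_zero (𝕜 := ℂ)
      (f := fun y => F y * cexp (-L y))
      (fun x hx => (hd x hx).differentiableAt.differentiableWithinAt) (by
        intro x hx
        rw [((hd x hx).hasFDerivAt.hasFDerivWithinAt (s := ball (0 : ℂ) ρ)).fderivWithin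
          (isOpen_ball.uniqueDiffWithinAt hx)]
        ext
        simp) hz (mem_ball_self hρ)
    simpa [hLz] using h2
  have hFL : ∀ z ∈ ball (0 : ℂ) ρ, F z = F 0 * cexp (L z) := by
    intro z hz
    rw [← hconst z hz, mul_assoc, ← Complex.exp_add]
    simp
  have hnorm : ∀ z ∈ ball (0 : ℂ) ρ, ‖F z‖ = Real.exp (Real.log ‖F 0‖ + (L z).re) := by
    intro z hz
    rw [hFL z hz, norm_mul, Complex.norm_exp, Real.exp_add, Real.exp_log h0n]
  set A : ℝ := M - Real.log ‖F 0‖ with hA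
  have hre : ∀ z ∈ ball (0 : ℂ) ρ, (L z).re ≤ A := by
    intro z hz
    have h1 := hb z hz
    rw [hnorm z hz, Real.exp_le_exp] at h1
    linarith
  have hA0 : 0 ≤ A := by
    have := hre 0 (mem_ball_self hρ)
    rwa [hLz] at this
  refine ⟨L, hA0, ?_⟩
  intro w hw
  have hwb : w ∈ ball (0 : ℂ) ρ := by simpa using hw
  have hden : 0 < ρ - ‖w‖ := by linarith
  refine ⟨hFL w hwb, ?_⟩
  set c : ℝ := ‖w‖ / (ρ - ‖w‖) with hc
  have hc0 : 0 ≤ c := div_nonneg (norm_nonneg _) hden.le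
  refine le_of_forall_pos_le_add (fun δ hδ => ?_)
  have hε : 0 < δ / (2 * c + 1) := by positivity
  have h1 := Complex.borelCaratheodory_zero (f := L) (R := ρ) (z := w)
    (M := A + δ / (2 * c + 1)) (by linarith)
    (fun z hz => (hL z hz).differentiableAt.differentiableWithinAt)
    (fun z hz => by
      show (L z).re ≤ _
      linarith [hre z hz]) hρ hwb hLz
  refine h1.trans ?_
  have h2 : 2 * (A + δ / (2 * c + 1)) * ‖w‖ / (ρ - ‖w‖) =
      2 * A * c + (δ / (2 * c + 1)) * (2 * c) := by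
    rw [hc]; ring
  rw [h2]
  have h3 : (δ / (2 * c + 1)) * (2 * c) ≤ (δ / (2 * c + 1)) * (2 * c + 1) :=
    mul_le_mul_of_nonneg_left (by linarith) hε.le
  have h4 : (δ / (2 * c + 1)) * (2 * c + 1) = δ := by
    field_simp
  linarith

/-- the quotient of real symmetric functions is real symmetric -/
theorem had_symm {f q G : ℂ → ℂ} (hG : Continuous G) (hfq : ∀ w, f w = q w * G w)
    (hf : ∀ x, f ((starRingEnd ℂ) x) = (starRingEnd ℂ) (f x))
    (hq : ∀ x, q ((starRingEnd ℂ) x) = (starRingEnd ℂ) (q x))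
    (hd : Dense {w | q w ≠ 0}) : ∀ x, G ((starRingEnd ℂ) x) = (starRingEnd ℂ) (G x) := by
  have h : (fun x => G ((starRingEnd ℂ) x)) = fun x => (starRingEnd ℂ) (G x) := by
    apply Continuous.ext_on hd (hG.comp Complex.continuous_conj) (Complex.continuous_conj.comp hG)
    intro w hw
    have h1 := hf w
    rw [hfq, hfq, hq, map_mul] at h1
    exact mul_left_cancel₀ ((_root_.map_ne_zero _).2 hw) h1
  exact fun x => congrFun h x

theorem had_split {ρ M : ℝ} (hρ : 0 < ρ) (n : ℕ) : ∀ F : ℂ → ℂ, Differentiable ℂ F → F 0 ≠ 0 →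
    (∀ x, F ((starRingEnd ℂ) x) = (starRingEnd ℂ) (F x)) →
    (∀ w ∈ closedBall (0 : ℂ) (2 * ρ), ‖F w‖ ≤ Real.exp M) →
    (∑ᶠ u, (MeromorphicOn.divisor F (closedBall 0 ρ) u : ℝ) * 1) ≤ n →
    ∃ (P : ℝ[X]) (G : ℂ → ℂ), Differentiable ℂ G ∧ G 0 = F 0 ∧
      (∀ w ∈ closedBall (0 : ℂ) (2 * ρ), ‖G w‖ ≤ Real.exp M) ∧ (∀ w, F w = aeval w P * G w) ∧
      (∀ u ∈ closedBall (0 : ℂ) ρ, G u ≠ 0) := by
  induction n with
  | zero =>
    intro F hF h0 _ hb hn
    by_cases hz : ∀ u ∈ closedBall (0 : ℂ) ρ, F u ≠ 0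
    · exact ⟨1, F, hF, rfl, hb, fun w => by simp, hz⟩
    · exfalso
      push Not at hz
      obtain ⟨u, hu, hFu⟩ := hz
      obtain ⟨G, hG, hG0, hGb, hFG, hdiv⟩ := lnz_split hF hρ h0 hb hu hFu
      rw [lnz_sum_split ρ u (fun _ => 1) hdiv] at hn
      have h2 : 0 ≤ ∑ᶠ u, (MeromorphicOn.divisor G (closedBall 0 ρ) u : ℝ) * 1 := by
        refine finsum_nonneg (fun u => mul_nonneg ?_ zero_le_one)
        exact_mod_cast lnz_divisor_nonneg hG _ u
      norm_num at hn
      norm_num at h2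
      linarith
  | succ n ih =>
    intro F hF h0 hsym hb hn
    by_cases hz : ∀ u ∈ closedBall (0 : ℂ) ρ, F u ≠ 0
    · exact ⟨1, F, hF, rfl, hb, fun w => by simp, hz⟩
    push Not at hz
    obtain ⟨u, hu, hFu⟩ := hz
    obtain ⟨G, hG, hG0, hGb, hFG, hdiv⟩ := lnz_split hF hρ h0 hb hu hFu
    have hu0 : u ≠ 0 := by
      rintro rfl
      exact h0 hFu
    rw [lnz_sum_split ρ u (fun _ => 1) hdiv] at hn
    by_cases hreal : (starRingEnd ℂ) u = u
    · have hur : ((u.re : ℝ) : ℂ) = u := Complex.conj_eq_iff_re.1 hreal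
      have hGs : ∀ x, G ((starRingEnd ℂ) x) = (starRingEnd ℂ) (G x) := by
        refine had_symm (q := fun w => 1 - w / u) hG.continuous hFG hsym ?_ ?_
        · intro x
          simp only [map_sub, map_one, map_div₀, hreal]
        · refine (dense_compl_singleton u).mono ?_
          intro w hw h
          apply hw
          have h' : w / u = 1 := by linear_combination -h
          rw [div_eq_one_iff_eq hu0] at h'
          exact h'
      obtain ⟨P, G', hG', hG0', hGb', hFG', hnz⟩ := ih G hG (by rw [hG0]; exact h0) hGs hGb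
        (by push_cast at hn; linarith)
      refine ⟨(1 - Polynomial.C (u.re)⁻¹ * Polynomial.X) * P, G', hG', by rw [hG0', hG0], hGb',
        ?_, hnz⟩
      intro w
      rw [hFG w, hFG' w]
      simp only [map_mul, map_sub, map_one, aeval_C, aeval_X, Complex.coe_algebraMap,
        Complex.ofReal_inv, hur]
      field_simp
    · have hcu0 : (starRingEnd ℂ) u ≠ 0 := (_root_.map_ne_zero _).2 hu0
      have hGc : G ((starRingEnd ℂ) u) = 0 := by
        have h1 : F ((starRingEnd ℂ) u) = 0 := by rw [hsym, hFu, map_zero]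
        rw [hFG] at h1
        rcases mul_eq_zero.1 h1 with h | h
        · exfalso
          apply hreal
          have h' : (starRingEnd ℂ) u / u = 1 := by linear_combination -h
          rwa [div_eq_one_iff_eq hu0] at h'
        · exact h
      have hcu : (starRingEnd ℂ) u ∈ closedBall (0 : ℂ) ρ := by
        simp only [mem_closedBall, dist_zero_right, Complex.norm_conj]
        simpa using hu
      obtain ⟨G2, hG2, hG20, hG2b, hGG2, hdiv2⟩ :=
        lnz_split hG hρ (by rw [hG0]; exact h0) hGb hcu hGc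
      rw [lnz_sum_split ρ _ (fun _ => 1) hdiv2] at hn
      have hFG2 : ∀ w, F w = ((1 - w / u) * (1 - w / (starRingEnd ℂ) u)) * G2 w := by
        intro w
        rw [hFG w, hGG2 w]
        ring
      have hGs : ∀ x, G2 ((starRingEnd ℂ) x) = (starRingEnd ℂ) (G2 x) := by
        refine had_symm (q := fun w => (1 - w / u) * (1 - w / (starRingEnd ℂ) u)) hG2.continuous
          hFG2 hsym ?_ ?_
        · intro x
          simp only [map_sub, map_one, map_div₀, map_mul, Complex.conj_conj]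
          ring
        · refine ((dense_univ (X := ℂ)).sdiff_finite
            (Set.toFinite {u, (starRingEnd ℂ) u})).mono ?_
          intro w hw h
          apply hw.2
          rcases mul_eq_zero.1 h with h | h
          · have h' : w / u = 1 := by linear_combination -h
            rw [div_eq_one_iff_eq hu0] at h'
            simp [h']
          · have h' : w / (starRingEnd ℂ) u = 1 := by linear_combination -h
            rw [div_eq_one_iff_eq hcu0] at h'
            simp [h']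
      obtain ⟨P, G', hG', hG0', hGb', hFG', hnz⟩ := ih G2 hG2
        (by rw [hG20, hG0]; exact h0) hGs hG2b (by push_cast at hn; linarith)
      refine ⟨(1 - Polynomial.C (2 * u.re / Complex.normSq u) * Polynomial.X +
        Polynomial.C (1 / Complex.normSq u) * Polynomial.X ^ 2) * P, G', hG',
        by rw [hG0', hG20, hG0], hGb', ?_, hnz⟩
      intro w
      rw [hFG2 w, hFG' w]
      have e1 : ((Complex.normSq u : ℝ) : ℂ) = u * (starRingEnd ℂ) u := (Complex.mul_conj u).symm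
      have e2 : (2 : ℂ) * ((u.re : ℝ) : ℂ) = u + (starRingEnd ℂ) u := by
        rw [Complex.add_conj]
        push_cast
        ring
      simp only [map_mul, map_sub, map_add, map_one, map_pow, aeval_C, aeval_X,
        Complex.coe_algebraMap, Complex.ofReal_div, Complex.ofReal_mul, Complex.ofReal_one,
        Complex.ofReal_ofNat, e1, e2]
      field_simp
      ring

theorem had_lim {K r c : ℝ} (hK : 0 ≤ K) (hr : 0 < r) (hc : 0 ≤ c) {δ : ℝ} (hδ : 0 < δ) :
    ∀ᶠ N : ℕ in atTop, r < (N : ℝ) + 1 ∧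
      2 * (K * (1 + 2 * ((N : ℝ) + 1)) ^ (3/4 : ℝ) + c) * (r / (((N : ℝ) + 1) - r)) < δ := by
  have t1 : Tendsto (fun N : ℕ => (N : ℝ) + 1) atTop atTop :=
    tendsto_atTop_add_const_right _ _ tendsto_natCast_atTop_atTop
  have t2 : Tendsto (fun N : ℕ => 12 * K * r * ((N : ℝ) + 1) ^ (-(1/4) : ℝ) +
      4 * r * c * ((N : ℝ) + 1)⁻¹) atTop (𝓝 0) := by
    have a1 := (tendsto_rpow_neg_atTop (y := 1/4) (by norm_num)).comp t1
    have a2 := tendsto_inv_atTop_zero.comp t1
    have := (a1.const_mul (12 * K * r)).add (a2.const_mul (4 * r * c))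
    simpa using this
  filter_upwards [t1.eventually_ge_atTop (2 * r), t1.eventually_gt_atTop r,
    t2.eventually (gt_mem_nhds hδ)] with N h1 h2 h3
  refine ⟨h2, lt_of_le_of_lt ?_ h3⟩
  set m : ℝ := (N : ℝ) + 1 with hm
  have hm1 : 1 ≤ m := by rw [hm]; linarith [Nat.cast_nonneg (α := ℝ) N]
  have hm0 : 0 < m := by linarith
  have e1 : (1 + 2 * m) ^ (3/4 : ℝ) ≤ 3 * m ^ (3/4 : ℝ) := by
    calc (1 + 2 * m) ^ (3/4 : ℝ) ≤ (3 * m) ^ (3/4 : ℝ) :=
          Real.rpow_le_rpow (by linarith) (by linarith) (by norm_num)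
      _ = 3 ^ (3/4 : ℝ) * m ^ (3/4 : ℝ) := Real.mul_rpow (by norm_num) hm0.le
      _ ≤ 3 * m ^ (3/4 : ℝ) := by
          apply mul_le_mul_of_nonneg_right _ (Real.rpow_nonneg hm0.le _)
          calc (3 : ℝ) ^ (3/4 : ℝ) ≤ 3 ^ (1 : ℝ) :=
                Real.rpow_le_rpow_of_exponent_le (by norm_num) (by norm_num)
            _ = 3 := Real.rpow_one 3
  have e2 : r / (m - r) ≤ 2 * r / m := by
    rw [div_le_div_iff₀ (by linarith) hm0]
    nlinarith
  have e3 : m ^ (3/4 : ℝ) / m = m ^ (-(1/4) : ℝ) := by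
    rw [show (-(1/4) : ℝ) = 3/4 - 1 by norm_num, Real.rpow_sub hm0, Real.rpow_one]
  have p0 : 0 ≤ m ^ (3/4 : ℝ) := Real.rpow_nonneg hm0.le _
  have p1 : 0 ≤ (1 + 2 * m) ^ (3/4 : ℝ) := Real.rpow_nonneg (by linarith) _
  calc 2 * (K * (1 + 2 * m) ^ (3/4 : ℝ) + c) * (r / (m - r))
      ≤ 2 * (K * (3 * m ^ (3/4 : ℝ)) + c) * (2 * r / m) := by
        apply mul_le_mul _ e2 (div_nonneg hr.le (by linarith)) (by positivity)
        have := mul_le_mul_of_nonneg_left e1 hK
        linarith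
    _ = 12 * K * r * (m ^ (3/4 : ℝ) / m) + 4 * r * c * m⁻¹ := by
        field_simp
        ring
    _ = 12 * K * r * m ^ (-(1/4) : ℝ) + 4 * r * c * m⁻¹ := by rw [e3]

theorem had : SHad := by
  intro f K hf h0 hsym hb
  set K' : ℝ := max K 0 with hK'
  have hK0 : 0 ≤ K' := le_max_right _ _
  have hbr : ∀ r : ℝ, ∀ w : ℂ, ‖w‖ ≤ r → ‖f w‖ ≤ Real.exp (K' * (1 + r) ^ (3/4 : ℝ)) := by
    intro r w hw
    refine (hb w).trans (Real.exp_le_exp.2 ?_)
    calc K * (1 + ‖w‖) ^ (3/4 : ℝ) ≤ K' * (1 + ‖w‖) ^ (3/4 : ℝ) :=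
          mul_le_mul_of_nonneg_right (le_max_left _ _)
            (Real.rpow_nonneg (by linarith [norm_nonneg w]) _)
      _ ≤ K' * (1 + r) ^ (3/4 : ℝ) :=
          mul_le_mul_of_nonneg_left (Real.rpow_le_rpow (by linarith [norm_nonneg w])
            (by linarith) (by norm_num)) hK0
  have h00 : ((f 0).re : ℂ) = f 0 := by
    apply Complex.conj_eq_iff_re.1
    rw [← hsym, map_zero]
  have hre0 : (f 0).re ≠ 0 := by
    intro h
    apply h0
    rw [← h00, h]
    simp
  set c : ℝ := |Real.log ‖f 0‖| with hc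
  have main : ∀ N : ℕ, ∃ (P : ℝ[X]) (L : ℂ → ℂ), (∀ w, aeval w P = 0 → f w = 0) ∧
      ∀ w : ℂ, ‖w‖ < (N : ℝ) + 1 → f w = aeval w P * cexp (L w) ∧
        ‖L w‖ ≤ 2 * (K' * (1 + 2 * ((N : ℝ) + 1)) ^ (3/4 : ℝ) + c) *
          (‖w‖ / (((N : ℝ) + 1) - ‖w‖)) := by
    intro N
    have hρ : 0 < (N : ℝ) + 1 := by positivity
    obtain ⟨n, hn⟩ := exists_nat_ge
      (∑ᶠ u, (MeromorphicOn.divisor f (closedBall 0 ((N : ℝ) + 1)) u : ℝ) * 1)
    obtain ⟨P, G, hG, hG0, hGb, hFG, hnz⟩ := had_split (M := K' * (1 + 2 * ((N : ℝ) + 1)) ^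
      (3/4 : ℝ)) hρ n f hf h0 hsym (fun w hw => hbr _ w (by simpa using hw)) hn
    obtain ⟨L, hA, hL⟩ := had_base hG hρ (fun u hu => hnz u (ball_subset_closedBall hu))
      (fun w hw => hGb w (ball_subset_closedBall (ball_subset_ball (by linarith) hw)))
    refine ⟨Polynomial.C (f 0).re * P, L, ?_, ?_⟩
    · intro w hw
      rw [map_mul, aeval_C, Complex.coe_algebraMap] at hw
      rw [hFG w]
      rcases mul_eq_zero.1 hw with h | h
      · exact absurd (by exact_mod_cast h) hre0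
      · rw [h, zero_mul]
    · intro w hw
      obtain ⟨h1, h2⟩ := hL w hw
      constructor
      · rw [hFG w, h1, hG0, map_mul, aeval_C, Complex.coe_algebraMap, h00]
        ring
      · refine h2.trans ?_
        apply mul_le_mul_of_nonneg_right _ (div_nonneg (norm_nonneg _) (by linarith))
        rw [hG0]
        have := neg_abs_le (Real.log ‖f 0‖)
        linarith
  choose P L h1 h2 using main
  refine ⟨P, h1, ?_⟩
  rw [Metric.tendstoLocallyUniformly_iff]
  intro ε hε x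
  set r : ℝ := ‖x‖ + 1 with hr
  have hr0 : 0 < r := by positivity
  set B : ℝ := Real.exp (K' * (1 + r) ^ (3/4 : ℝ)) with hB
  have hB0 : 0 < B := Real.exp_pos _
  refine ⟨ball 0 r, ?_, ?_⟩
  · apply isOpen_ball.mem_nhds
    simp [hr]
  have hδ : 0 < min 1 (ε / (2 * B)) := by positivity
  filter_upwards [had_lim hK0 hr0 (abs_nonneg (Real.log ‖f 0‖)) hδ] with N hN
  intro y hy
  have hyr : ‖y‖ < r := by simpa using hy
  obtain ⟨hN1, hN2⟩ := hN
  obtain ⟨h3, h4⟩ := h2 N y (hyr.trans hN1)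
  have h5 : ‖y‖ / (((N : ℝ) + 1) - ‖y‖) ≤ r / (((N : ℝ) + 1) - r) := by
    apply div_le_div₀ hr0.le hyr.le (by linarith) (by linarith)
  have h6 : 0 ≤ 2 * (K' * (1 + 2 * ((N : ℝ) + 1)) ^ (3/4 : ℝ) + c) := by positivity
  have h7 : ‖L N y‖ < min 1 (ε / (2 * B)) :=
    lt_of_le_of_lt (h4.trans (mul_le_mul_of_nonneg_left h5 h6)) hN2
  have h8 : ‖L N y‖ < 1 := h7.trans_le (min_le_left _ _)
  have h9 : ‖L N y‖ < ε / (2 * B) := h7.trans_le (min_le_right _ _)
  have h10 : aeval y (P N) = f y * cexp (-(L N y)) := by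
    rw [h3, mul_assoc, ← Complex.exp_add]
    simp
  rw [dist_eq_norm, h10]
  have h11 : f y - f y * cexp (-(L N y)) = -(f y * (cexp (-(L N y)) - 1)) := by ring
  rw [h11, norm_neg, norm_mul]
  have h12 : ‖cexp (-(L N y)) - 1‖ ≤ 2 * ‖-(L N y)‖ :=
    Complex.norm_exp_sub_one_le (by rw [norm_neg]; exact h8.le)
  rw [norm_neg] at h12
  have h13 : ‖f y‖ ≤ B := hbr r y hyr.le
  calc ‖f y‖ * ‖cexp (-(L N y)) - 1‖ ≤ B * (2 * ‖L N y‖) :=
        mul_le_mul h13 h12 (norm_nonneg _) hB0.le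
    _ < B * (2 * (ε / (2 * B))) := by
        apply mul_lt_mul_of_pos_left _ hB0
        linarith
    _ = ε := by field_simp

end Pool.Agent.H24R2.JP
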