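import Pool.Agent.H24R2.JP.Spec

/-!
# Jensen polynomials from the zeros of a derivative (task JENSEN, helper455)
-/

set_option autoImplicit false

namespace Pool.Agent.H24R2.JP

open Complex Filter Topology Polynomial

namespace Jenh

/-- The elementary inequality. -/
theorem ineq {d R x : ℝ} (hR : 0 < R) (hx : R ≤ x) (h : d * (R + 1 / 4) ≤ R ^ 2) :
    d * (x + 1 / 4) ≤ x ^ 2 := by
  have h1 : 0 < R + 1 / 4 := by linarith
  have h2 : d * (R + 1 / 4) * (x + 1 / 4) ≤ R ^ 2 * (x + 1 / 4) :=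
    mul_le_mul_of_nonneg_right h (by linarith)
  have h3 : R ^ 2 * (x + 1 / 4) ≤ x ^ 2 * (R + 1 / 4) := by
    nlinarith [mul_nonneg (mul_nonneg (hR.le.trans hx) hR.le) (sub_nonneg.2 hx),
      mul_nonneg (sub_nonneg.2 hx) (add_nonneg hR.le (hR.le.trans hx))]
  have h4 : (d * (x + 1 / 4)) * (R + 1 / 4) ≤ x ^ 2 * (R + 1 / 4) := by
    calc (d * (x + 1 / 4)) * (R + 1 / 4) = d * (R + 1 / 4) * (x + 1 / 4) := by ring
      _ ≤ _ := h2.trans h3
  exact le_of_mul_le_mul_right h4 h1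

/-- The compact set. -/
def Kc (d : ℕ) (R : ℝ) : Set ℂ := {a | ‖a‖ ≤ R ∧ ‖a‖ ^ 2 ≤ (d : ℝ) * a.im ^ 2}

theorem Kc_compact (d : ℕ) (R : ℝ) : IsCompact (Kc d R) := by
  have h1 : IsClosed {a : ℂ | ‖a‖ ^ 2 ≤ (d : ℝ) * a.im ^ 2} :=
    isClosed_le (continuous_norm.pow 2) (continuous_const.mul (continuous_im.pow 2))
  have h2 : Kc d R = Metric.closedBall (0 : ℂ) R ∩ {a : ℂ | ‖a‖ ^ 2 ≤ (d : ℝ) * a.im ^ 2} := by
    ext a
    simp [Kc]
  rw [h2]
  exact (isCompact_closedBall 0 R).inter_right h1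

/-- Eventually no zeros in a compact set on which the limit has no zeros. -/
theorem event_ne (Q : ℕ → ℂ → ℂ) (g : ℂ → ℂ) (hQ : ∀ N, Continuous (Q N))
    (h : TendstoLocallyUniformly Q g atTop) (K : Set ℂ) (hK : IsCompact K)
    (hg : ∀ a ∈ K, g a ≠ 0) : ∀ᶠ N in atTop, ∀ a ∈ K, Q N a ≠ 0 := by
  rcases K.eq_empty_or_nonempty with rfl | hne
  · exact Eventually.of_forall fun N a ha => absurd ha (Set.notMem_empty a)
  have hc : Continuous g := h.continuous (Frequently.of_forall hQ)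
  obtain ⟨a0, ha0, hmin⟩ := hK.exists_isMinOn hne (hc.norm.continuousOn)
  have hpos : 0 < ‖g a0‖ := norm_pos_iff.2 (hg a0 ha0)
  have h1 : TendstoUniformlyOn Q g atTop K :=
    (tendstoLocallyUniformlyOn_iff_tendstoUniformlyOn_of_compact hK).1 h.tendstoLocallyUniformlyOn
  have h2 := Metric.tendstoUniformlyOn_iff.1 h1 _ hpos
  filter_upwards [h2] with N hN a ha h0
  have h3 := hN a ha
  rw [h0, dist_zero_right] at h3
  exact absurd (hmin ha) (not_le.2 h3)

end Jenh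

open Jenh in
theorem jensenS (h1 : SDer) (h2 : SGL) (h3 : SSector) (h4 : SLimit) : SJensen := by
  intro f ⟨_, ⟨P, hP⟩, hf0⟩ n d R hR hdR hw
  obtain ⟨hloc, hcoef⟩ := h1 f P hP n
  refine h4 d (fun N j => (j.factorial : ℂ) * (((derivative^[n] (P N)).coeff j : ℝ) : ℂ))
    (fun j => iteratedDeriv (n + j) f 0) (by simpa using hf0 n) (fun j _ => hcoef j) ?_
  have hK : ∀ a ∈ Kc d R, iteratedDeriv n f a ≠ 0 := by
    intro a ha h0
    have him := hw a ha.1 h0
    have ha2 := ha.2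
    rw [him] at ha2
    have h5 : ‖a‖ ^ 2 = 0 := le_antisymm (by simpa using ha2) (sq_nonneg _)
    have h6 : a = 0 := by
      rw [← norm_eq_zero]
      exact pow_eq_zero_iff (two_ne_zero) |>.1 h5
    rw [h6] at h0
    exact hf0 n h0
  have hcont : ∀ N, Continuous fun x : ℂ => aeval x (derivative^[n] (P N)) := fun N =>
    (derivative^[n] (P N)).continuous_aeval
  have e1 := event_ne _ _ hcont hloc _ (Kc_compact d R) hK
  have e2 : ∀ᶠ N in atTop, (((0 : ℕ).factorial : ℂ) *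
      (((derivative^[n] (P N)).coeff 0 : ℝ) : ℂ)) ≠ 0 :=
    (hcoef 0).eventually_ne (by simpa using hf0 n)
  filter_upwards [e1, e2] with N hN1 hN2
  have hc0 : (derivative^[n] (P N)).coeff 0 ≠ 0 := by
    intro h
    rw [h] at hN2
    simp at hN2
  have hne : derivative^[n] (P N) ≠ 0 := by
    intro h
    rw [h] at hc0
    simp at hc0
  refine h3 _ d hc0 ?_
  intro a ha
  by_cases hmem : a ∈ Kc d R
  · exact absurd ha (hN1 a hmem)
  by_cases hR' : ‖a‖ ≤ R
  · by_contra hlt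
    exact hmem ⟨hR', (not_le.1 hlt).le⟩
  · have hpar : a ∈ Par := h2 (P N) n (hP.1 N) hne a ha
    have hx := ineq hR (not_le.1 hR').le hdR
    have hre : -‖a‖ ≤ a.re := by
      have := Complex.abs_re_le_norm a
      linarith [neg_abs_le a.re]
    have him : a.im ^ 2 ≤ ‖a‖ + 1 / 4 := by
      have h7 : a.re + a.im ^ 2 ≤ 1 / 4 := hpar
      linarith
    calc (d : ℝ) * a.im ^ 2 ≤ d * (‖a‖ + 1 / 4) := mul_le_mul_of_nonneg_left him (Nat.cast_nonneg _)
      _ ≤ ‖a‖ ^ 2 := hx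

end Pool.Agent.H24R2.JP
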