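import Pool.Agent.H24R2.JP.Spec

set_option autoImplicit false

namespace Pool.Agent.H24R2.JP

open Complex Filter Topology Polynomial

namespace LimitAux

/-- The reversed polynomial. -/
noncomputable def Q (d : ℕ) (c : ℕ → ℂ) : ℂ[X] :=
  ∑ j ∈ Finset.range (d + 1), Polynomial.C ((d.choose j : ℂ) * c j) * Polynomial.X ^ (d - j)

theorem eval_Q (d : ℕ) (c : ℕ → ℂ) (z : ℂ) :
    (Q d c).eval z = ∑ j ∈ Finset.range (d + 1), (d.choose j : ℂ) * c j * z ^ (d - j) := by
  simp only [Q, eval_finsetSum, eval_mul, eval_C, eval_pow, eval_X]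

theorem natDegree_Q_le (d : ℕ) (c : ℕ → ℂ) : (Q d c).natDegree ≤ d := by
  unfold Q
  refine natDegree_sum_le_of_forall_le _ _ (fun j _ => ?_)
  refine le_trans (natDegree_C_mul_X_pow_le _ _) (Nat.sub_le _ _)

theorem coeff_Q (d : ℕ) (c : ℕ → ℂ) : (Q d c).coeff d = c 0 := by
  unfold Q
  rw [finsetSum_coeff, Finset.sum_eq_single 0]
  · simp
  · intro j hj hj0
    rw [coeff_C_mul_X_pow, if_neg]
    have := Finset.mem_range.1 hj
    omega
  · intro h
    exact absurd (Finset.mem_range.2 (Nat.succ_pos d)) h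

theorem lower (d : ℕ) (c : ℕ → ℂ) (hc : c 0 ≠ 0)
    (hr : ∀ z : ℂ, (∑ j ∈ Finset.range (d + 1), (d.choose j : ℂ) * c j * z ^ (d - j)) = 0 → z.im = 0)
    (w : ℂ) : ‖c 0‖ * |w.im| ^ d ≤
      ‖∑ j ∈ Finset.range (d + 1), (d.choose j : ℂ) * c j * w ^ (d - j)‖ := by
  have hnd : (Q d c).natDegree = d := by
    refine le_antisymm (natDegree_Q_le d c) (le_natDegree_of_ne_zero ?_)
    rw [coeff_Q]; exact hc
  have hlead : (Q d c).leadingCoeff = c 0 := by
    rw [leadingCoeff, hnd, coeff_Q]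
  have hne : Q d c ≠ 0 := by
    intro h
    rw [h, leadingCoeff_zero] at hlead
    exact hc hlead.symm
  have hsplit := IsAlgClosed.splits (Q d c)
  have hcard : (Q d c).roots.card = d := by
    exact hsplit.natDegree_eq_card_roots.symm.trans hnd
  have hprod := hsplit.eq_prod_roots
  rw [← eval_Q]
  conv_rhs => rw [hprod]
  rw [eval_mul, eval_C, hlead, norm_mul, eval_multiset_prod, Multiset.map_map]
  refine mul_le_mul_of_nonneg_left ?_ (norm_nonneg _)
  have hroot : ∀ a ∈ (Q d c).roots, a.im = 0 := by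
    intro a ha
    refine hr a ?_
    rw [← eval_Q]
    exact (mem_roots'.1 ha).2
  have key : ∀ s : Multiset ℂ, (∀ a ∈ s, a.im = 0) →
      |w.im| ^ s.card ≤ ‖(s.map ((eval w) ∘ fun a => Polynomial.X - Polynomial.C a)).prod‖ := by
    intro s
    induction s using Multiset.induction_on with
    | empty => intro _; simp
    | cons a s ih =>
      intro h
      rw [Multiset.map_cons, Multiset.prod_cons, Multiset.card_cons, norm_mul, pow_succ']
      refine mul_le_mul ?_ (ih fun b hb => h b (Multiset.mem_cons_of_mem hb)) (by positivity)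
        (norm_nonneg _)
      have h1 : a.im = 0 := h a (Multiset.mem_cons_self a s)
      have h2 := Complex.abs_im_le_norm (w - a)
      simp only [Function.comp, eval_sub, eval_X, eval_C]
      rw [Complex.sub_im, h1, sub_zero] at h2
      exact h2
  have := key _ hroot
  rwa [hcard] at this

end LimitAux

theorem limit : SLimit := by
  intro d g g' hg0 hg hreal z hz
  by_contra him
  have hz0 : z ≠ 0 := by
    rintro rfl
    exact him rfl
  have hbound : ‖g' 0‖ * |(z⁻¹).im| ^ d ≤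
      ‖∑ j ∈ Finset.range (d + 1), (d.choose j : ℂ) * g' j * (z⁻¹) ^ (d - j)‖ := by
    have ht1 : Tendsto (fun N => ‖g N 0‖ * |(z⁻¹).im| ^ d) atTop (𝓝 (‖g' 0‖ * |(z⁻¹).im| ^ d)) :=
      ((hg 0 (Nat.zero_le d)).norm).mul_const _
    have ht2 : Tendsto (fun N => ‖∑ j ∈ Finset.range (d + 1), (d.choose j : ℂ) * g N j * (z⁻¹) ^ (d - j)‖)
        atTop (𝓝 ‖∑ j ∈ Finset.range (d + 1), (d.choose j : ℂ) * g' j * (z⁻¹) ^ (d - j)‖) := by
      refine Tendsto.norm (tendsto_finsetSum _ (fun j hj => ?_))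
      refine ((hg j (Nat.lt_succ_iff.1 (Finset.mem_range.1 hj))).const_mul _).mul_const _
    have hne : ∀ᶠ N in atTop, g N 0 ≠ 0 := (hg 0 (Nat.zero_le d)).eventually_ne hg0
    refine le_of_tendsto_of_tendsto ht1 ht2 ?_
    filter_upwards [hreal, hne] with N h1 h2
    exact LimitAux.lower d (g N) h2 h1 _
  have hzero : ∑ j ∈ Finset.range (d + 1), (d.choose j : ℂ) * g' j * (z⁻¹) ^ (d - j) = 0 := by
    have : ∑ j ∈ Finset.range (d + 1), (d.choose j : ℂ) * g' j * (z⁻¹) ^ (d - j) =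
        (z⁻¹) ^ d * ∑ j ∈ Finset.range (d + 1), (d.choose j : ℂ) * g' j * z ^ j := by
      rw [Finset.mul_sum]
      refine Finset.sum_congr rfl (fun j hj => ?_)
      have hj' : j ≤ d := Nat.lt_succ_iff.1 (Finset.mem_range.1 hj)
      have : (z⁻¹) ^ d = (z⁻¹) ^ (d - j) * (z⁻¹) ^ j := by rw [← pow_add, Nat.sub_add_cancel hj']
      rw [this]
      have h3 : (z⁻¹) ^ j * z ^ j = 1 := by rw [← mul_pow, inv_mul_cancel₀ hz0, one_pow]
      calc (d.choose j : ℂ) * g' j * (z⁻¹) ^ (d - j)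
          = (d.choose j : ℂ) * g' j * (z⁻¹) ^ (d - j) * ((z⁻¹) ^ j * z ^ j) := by rw [h3, mul_one]
        _ = _ := by ring
    rw [this, hz, mul_zero]
  rw [hzero, norm_zero] at hbound
  have hpos : 0 < ‖g' 0‖ * |(z⁻¹).im| ^ d := by
    have h1 : 0 < ‖g' 0‖ := norm_pos_iff.2 hg0
    have h2 : (z⁻¹).im ≠ 0 := by
      rw [Complex.inv_im]
      exact div_ne_zero (neg_ne_zero.2 him) ((fun h => hz0 (Complex.normSq_eq_zero.1 h)))
    have h3 : 0 < |(z⁻¹).im| := abs_pos.2 h2
    positivity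
  linarith

end Pool.Agent.H24R2.JP
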