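import Pool.Agent.H24R2.JP.Spec

set_option autoImplicit false

namespace Pool.Agent.H24R2.JP

namespace NewtonAux

open Complex Polynomial Filter Topology

theorem sum_inv_sq (s : Multiset ℂ) (h : ∀ z ∈ s, z ≠ 0) :
    ((s.map fun z => X - C z).prod.coeff 0) ≠ 0 ∧
    ((s.map fun z => X - C z).prod.coeff 1) ^ 2 -
      2 * ((s.map fun z => X - C z).prod.coeff 0) * ((s.map fun z => X - C z).prod.coeff 2) =
      ((s.map fun z => X - C z).prod.coeff 0) ^ 2 * (s.map fun z => 1 / z ^ 2).sum := by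
  induction s using Multiset.induction_on with
  | empty =>
    simp [coeff_one]
  | cons a s ih =>
    obtain ⟨h1, h2⟩ := ih (fun z hz => h z (Multiset.mem_cons_of_mem hz))
    have ha : a ≠ 0 := h a (Multiset.mem_cons_self a s)
    rw [Multiset.map_cons, Multiset.prod_cons, Multiset.map_cons, Multiset.sum_cons]
    set P : ℂ[X] := (s.map fun z => X - C z).prod with hP
    have e0 : ((X - C a) * P).coeff 0 = -(a * P.coeff 0) := by
      rw [sub_mul, coeff_sub, coeff_X_mul_zero, coeff_C_mul, zero_sub]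
    have e1 : ((X - C a) * P).coeff 1 = P.coeff 0 - a * P.coeff 1 := by
      rw [sub_mul, coeff_sub, coeff_X_mul, coeff_C_mul]
    have e2 : ((X - C a) * P).coeff 2 = P.coeff 1 - a * P.coeff 2 := by
      rw [sub_mul, coeff_sub, coeff_X_mul, coeff_C_mul]
    rw [e0, e1, e2]
    constructor
    · exact neg_ne_zero.2 (mul_ne_zero ha h1)
    · have e3 : (-(a * P.coeff 0)) ^ 2 * (1 / a ^ 2 + (s.map fun z => 1 / z ^ 2).sum) =
          P.coeff 0 ^ 2 + a ^ 2 * (P.coeff 0 ^ 2 * (s.map fun z => 1 / z ^ 2).sum) := by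
        field_simp
      rw [e3, ← h2]
      ring

theorem power_sum (Q : ℝ[X]) (hQ : Q.coeff 0 ≠ 0) :
    (((Q.coeff 1 : ℝ) : ℂ) / ((Q.coeff 0 : ℝ) : ℂ)) ^ 2 -
      (2 * ((Q.coeff 2 : ℝ) : ℂ)) / ((Q.coeff 0 : ℝ) : ℂ) =
      ((Q.map (algebraMap ℝ ℂ)).roots.map fun z => 1 / z ^ 2).sum := by
  set R : ℂ[X] := Q.map (algebraMap ℝ ℂ) with hR
  have hc : ∀ j, R.coeff j = ((Q.coeff j : ℝ) : ℂ) := by
    intro j
    rw [hR, coeff_map]
    rfl
  have hR0 : R.coeff 0 ≠ 0 := by
    rw [hc]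
    exact_mod_cast hQ
  have hRne : R ≠ 0 := by
    intro h
    rw [h] at hR0
    simp at hR0
  have hroots : ∀ z ∈ R.roots, z ≠ 0 := by
    intro z hz h0
    rw [mem_roots hRne, IsRoot, h0, ← coeff_zero_eq_eval_zero] at hz
    exact hR0 hz
  have hfac : R = C R.leadingCoeff * (R.roots.map fun z => X - C z).prod :=
    (IsAlgClosed.splits R).eq_prod_roots
  obtain ⟨h1, h2⟩ := sum_inv_sq R.roots hroots
  set P : ℂ[X] := (R.roots.map fun z => X - C z).prod with hP
  have hl : R.leadingCoeff ≠ 0 := leadingCoeff_ne_zero.2 hRne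
  have hcj : ∀ j, R.coeff j = R.leadingCoeff * P.coeff j := by
    intro j
    conv_lhs => rw [hfac]
    rw [coeff_C_mul]
  rw [← hc, ← hc, ← hc, hcj 0, hcj 1, hcj 2]
  have e : (R.leadingCoeff * P.coeff 1 / (R.leadingCoeff * P.coeff 0)) ^ 2 -
      2 * (R.leadingCoeff * P.coeff 2) / (R.leadingCoeff * P.coeff 0) =
      (P.coeff 1 ^ 2 - 2 * P.coeff 0 * P.coeff 2) / P.coeff 0 ^ 2 := by
    field_simp
  rw [e, h2]
  field_simp

theorem par_re (z : ℂ) (hz : z ∈ Par) (h2 : 2 ≤ ‖z‖) :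
    1 / (8 * ‖z‖ ^ 2) ≤ (1 / z ^ 2).re := by
  simp only [Par, Set.mem_ofPred_eq] at hz
  have hn : ‖z‖ ^ 2 = z.re ^ 2 + z.im ^ 2 := by
    rw [Complex.sq_norm, Complex.normSq_apply]
    ring
  have hn4 : 4 ≤ z.re ^ 2 + z.im ^ 2 := by
    rw [← hn]
    nlinarith
  have hpos : 0 < ‖z‖ ^ 2 := by
    rw [hn]
    linarith
  have hre : (1 / z ^ 2).re = (z.re ^ 2 - z.im ^ 2) / (‖z‖ ^ 2) ^ 2 := by
    rw [one_div, Complex.inv_re, map_pow, ← Complex.sq_norm]
    congr 1
    rw [pow_two, Complex.mul_re]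
    ring
  have hX : z.re ≤ -(3 / 2) := by
    by_contra hcon
    push Not at hcon
    have h1 : (z.re - 1 / 2) ^ 2 < 4 := by
      have : z.re ≤ 1 / 4 := by nlinarith [sq_nonneg z.im]
      nlinarith
    nlinarith
  rw [hre]
  rw [div_le_div_iff₀ (by positivity) (by positivity)]
  rw [hn]
  have key : z.re ^ 2 + z.im ^ 2 ≤ 8 * (z.re ^ 2 - z.im ^ 2) := by
    nlinarith
  nlinarith [mul_le_mul_of_nonneg_right key (by positivity : 0 ≤ z.re ^ 2 + z.im ^ 2)]

theorem re_sum_ge (s : Multiset ℂ) (z0 : ℂ) (hz0 : z0 ∈ s)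
    (h : ∀ z ∈ s, 0 ≤ (1 / z ^ 2).re) :
    (1 / z0 ^ 2).re ≤ ((s.map fun z => 1 / z ^ 2).sum).re := by
  have e : ∀ t : Multiset ℂ, ((t.map fun z => 1 / z ^ 2).sum).re =
      (t.map fun z => (1 / z ^ 2).re).sum := by
    intro t
    induction t using Multiset.induction_on with
    | empty => simp
    | cons a t ih =>
      rw [Multiset.map_cons, Multiset.sum_cons, Multiset.map_cons, Multiset.sum_cons,
        Complex.add_re, ih]
  obtain ⟨t, rfl⟩ := Multiset.exists_cons_of_mem hz0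
  rw [e, Multiset.map_cons, Multiset.sum_cons]
  have : 0 ≤ (t.map fun z => (1 / z ^ 2).re).sum := by
    apply Multiset.sum_nonneg
    intro x hx
    rw [Multiset.mem_map] at hx
    obtain ⟨z, hz, rfl⟩ := hx
    exact h z (Multiset.mem_cons_of_mem hz)
  linarith

/-- uniform closeness on a compact ball -/
theorem unif_ball (Q : ℕ → ℂ → ℂ) (g : ℂ → ℂ) (hlim : TendstoLocallyUniformly Q g atTop)
    (c : ℂ) (r : ℝ) (m : ℝ) (hm : 0 < m) :
    ∀ᶠ N in atTop, ∀ z ∈ Metric.closedBall c r, dist (g z) (Q N z) < m := by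
  have h1 : TendstoLocallyUniformlyOn Q g atTop (Metric.closedBall c r) :=
    hlim.tendstoLocallyUniformlyOn
  have h2 : TendstoUniformlyOn Q g atTop (Metric.closedBall c r) :=
    (tendstoLocallyUniformlyOn_iff_tendstoUniformlyOn_of_compact
      (isCompact_closedBall c r)).1 h1
  exact (Metric.tendstoUniformlyOn_iff.1 h2) m hm

theorem no_zero (Q : ℕ → ℂ → ℂ) (g : ℂ → ℂ) (hlim : TendstoLocallyUniformly Q g atTop)
    (hg : Continuous g) (c : ℂ) (r : ℝ) (hr : 0 ≤ r) (hne : ∀ z, ‖z - c‖ ≤ r → g z ≠ 0) :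
    ∀ᶠ N in atTop, ∀ z, ‖z - c‖ ≤ r → Q N z ≠ 0 := by
  obtain ⟨z0, hz0, hmin⟩ := (isCompact_closedBall c r).exists_isMinOn
    (Metric.nonempty_closedBall.2 hr) (hg.norm.continuousOn)
  have hm : 0 < ‖g z0‖ := by
    rw [norm_pos_iff]
    apply hne
    rw [Metric.mem_closedBall, dist_eq_norm] at hz0
    exact hz0
  filter_upwards [unif_ball Q g hlim c r _ hm] with N hN z hz h0
  have hz' : z ∈ Metric.closedBall c r := by
    rw [Metric.mem_closedBall, dist_eq_norm]
    exact hz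
  have h1 := hN z hz'
  have h2 := hmin hz'
  simp only [Set.mem_ofPred_eq] at h2
  rw [h0, dist_zero_right] at h1
  linarith

/-- Hurwitz, in a weak form. -/
theorem hurwitz (Q : ℕ → ℂ → ℂ) (g : ℂ → ℂ) (hQ : ∀ N, Differentiable ℂ (Q N))
    (hlim : TendstoLocallyUniformly Q g atTop) (hg : Differentiable ℂ g) (z1 : ℂ)
    (hz1 : g z1 ≠ 0) (w : ℂ) (hw : g w = 0) (ε : ℝ) (hε : 0 < ε) :
    ∀ᶠ N in atTop, ∃ z, ‖z - w‖ ≤ ε ∧ Q N z = 0 := by
  have han : AnalyticOnNhd ℂ g Set.univ := fun z _ => hg.analyticAt z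
  have hiso : ∀ᶠ z in 𝓝[≠] w, g z ≠ 0 := by
    rcases (hg.analyticAt w).eventually_eq_zero_or_eventually_ne_zero with h | h
    · exfalso
      apply hz1
      exact han.eqOn_zero_of_preconnected_of_eventuallyEq_zero isPreconnected_univ
        (Set.mem_univ w) h (Set.mem_univ z1)
    · exact h
  rw [eventually_nhdsWithin_iff, Metric.eventually_nhds_iff] at hiso
  obtain ⟨δ, hδ, hball⟩ := hiso
  set r : ℝ := min ε (δ / 2) with hr
  have hr0 : 0 < r := lt_min hε (by linarith)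
  have hrδ : r < δ := lt_of_le_of_lt (min_le_right _ _) (by linarith)
  have hrε : r ≤ ε := min_le_left _ _
  have hsph : ∀ z ∈ Metric.sphere w r, g z ≠ 0 := by
    intro z hz
    rw [Metric.mem_sphere] at hz
    apply hball (by rw [hz]; exact hrδ)
    intro h
    rw [Set.mem_singleton_iff] at h
    rw [h, dist_self] at hz
    linarith
  obtain ⟨z0, hz0, hmin⟩ := (isCompact_sphere w r).exists_isMinOn
    (NormedSpace.sphere_nonempty.2 hr0.le) (hg.continuous.norm.continuousOn)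
  have hm : 0 < ‖g z0‖ := norm_pos_iff.2 (hsph z0 hz0)
  set m : ℝ := ‖g z0‖ with hmdef
  filter_upwards [unif_ball Q g hlim w r (m / 2) (by linarith)] with N hN
  by_contra hcon
  push Not at hcon
  have hnz : ∀ z ∈ Metric.closedBall w r, Q N z ≠ 0 := by
    intro z hz
    apply hcon
    rw [Metric.mem_closedBall, dist_eq_norm] at hz
    exact hz.trans hrε
  have hdiff : DiffContOnCl ℂ (fun z => (Q N z)⁻¹) (Metric.ball w r) := by
    have h1 : DifferentiableOn ℂ (fun z => (Q N z)⁻¹) (Metric.closedBall w r) :=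
      (hQ N).differentiableOn.inv hnz
    rw [← closure_ball w hr0.ne'] at h1
    exact h1.diffContOnCl
  have hfr : ∀ z ∈ frontier (Metric.ball w r), ‖(Q N z)⁻¹‖ ≤ 2 / m := by
    intro z hz
    rw [frontier_ball w hr0.ne'] at hz
    have h1 := hmin hz
    simp only [Set.mem_ofPred_eq] at h1
    have h2 := hN z (Metric.sphere_subset_closedBall hz)
    rw [dist_eq_norm] at h2
    have h3 : m / 2 ≤ ‖Q N z‖ := by
      have := norm_sub_norm_le (g z) (Q N z)
      linarith
    rw [norm_inv, inv_eq_one_div, div_le_div_iff₀ (lt_of_lt_of_le (by linarith) h3) hm]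
    linarith
  have hmem : w ∈ closure (Metric.ball w r) := subset_closure (Metric.mem_ball_self hr0)
  have h4 := Complex.norm_le_of_forall_mem_frontier_norm_le Metric.isBounded_ball hdiff hfr hmem
  have h5 := hN w (Metric.mem_closedBall_self hr0.le)
  rw [hw, dist_zero_left] at h5
  have h6 : 0 < ‖Q N w‖ := norm_pos_iff.2 (hnz w (Metric.mem_closedBall_self hr0.le))
  rw [norm_inv, inv_eq_one_div, div_le_div_iff₀ h6 hm] at h4
  linarith

end NewtonAux

open Complex Polynomial Filter Topology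

theorem newton (h1 : SDer) (h2 : SGL) : SNewton := by
  intro f hf n hno w hw
  obtain ⟨hfd, ⟨P, hP⟩, hne⟩ := hf
  obtain ⟨hlim, hcoef⟩ := h1 f P hP n
  set g : ℂ → ℂ := iteratedDeriv n f with hg
  have hgd : Differentiable ℂ g := by
    have h3 : DifferentiableOn ℂ g Set.univ := by
      apply (tendstoLocallyUniformlyOn_univ.2 hlim).differentiableOn _ isOpen_univ
      filter_upwards with N
      exact (Polynomial.differentiable_aeval (𝕜 := ℂ) (derivative^[n] (P N))).differentiableOn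
    exact differentiableOn_univ.1 h3
  have hg0 : g 0 ≠ 0 := hne n
  have c0 : Tendsto (fun N : ℕ => (((derivative^[n] (P N)).coeff 0 : ℝ) : ℂ)) atTop
      (𝓝 (iteratedDeriv n f 0)) := by
    simpa using hcoef 0
  have c1 : Tendsto (fun N : ℕ => (((derivative^[n] (P N)).coeff 1 : ℝ) : ℂ)) atTop
      (𝓝 (iteratedDeriv (n + 1) f 0)) := by
    simpa using hcoef 1
  have c2 : Tendsto (fun N : ℕ => 2 * (((derivative^[n] (P N)).coeff 2 : ℝ) : ℂ)) atTop
      (𝓝 (iteratedDeriv (n + 2) f 0)) := by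
    simpa using hcoef 2
  have hT := ((c1.div c0 hg0).pow 2).sub (c2.div c0 hg0)
  have hTre := (Complex.continuous_re.tendsto _).comp hT
  have hw2 : 2 < ‖w‖ := by
    by_contra hcon
    push Not at hcon
    exact hno w hcon hw
  -- eventual bounds
  have hQd : ∀ N, Differentiable ℂ (fun x : ℂ => aeval x (derivative^[n] (P N))) := fun N =>
    Polynomial.differentiable_aeval (𝕜 := ℂ) (derivative^[n] (P N))
  have hnz : ∀ᶠ N in atTop, ∀ z : ℂ, ‖z - 0‖ ≤ 2 → aeval z (derivative^[n] (P N)) ≠ 0 := by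
    apply NewtonAux.no_zero (fun N x => aeval x (derivative^[n] (P N))) g hlim hgd.continuous 0 2
      (by norm_num)
    intro z hz
    rw [sub_zero] at hz
    exact hno z hz
  have key : ∀ ε : ℝ, 0 < ε → 1 / (8 * (‖w‖ + ε) ^ 2) ≤
      ((iteratedDeriv (n + 1) f 0 / iteratedDeriv n f 0) ^ 2 -
        iteratedDeriv (n + 2) f 0 / iteratedDeriv n f 0).re := by
    intro ε hε
    refine ge_of_tendsto hTre ?_
    have hhur := NewtonAux.hurwitz (fun N x => aeval x (derivative^[n] (P N))) g hQd hlim hgd 0 hg0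
      w hw ε hε
    filter_upwards [hnz, hhur] with N hN1 hN2
    obtain ⟨z0, hz0, hz0'⟩ := hN2
    have hcoeff0 : (derivative^[n] (P N)).coeff 0 ≠ 0 := by
      have h3 := hN1 0 (by simp)
      intro h4
      apply h3
      rw [← coeff_zero_eq_aeval_zero', h4]
      simp
    have hQne : derivative^[n] (P N) ≠ 0 := by
      intro h
      rw [h] at hcoeff0
      simp at hcoeff0
    have hroot : ∀ z ∈ ((derivative^[n] (P N)).map (algebraMap ℝ ℂ)).roots,
        z ∈ Par ∧ 2 ≤ ‖z‖ := by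
      intro z hz
      rw [mem_roots ((Polynomial.map_ne_zero_iff (algebraMap ℝ ℂ).injective).2 hQne), IsRoot,
        eval_map_algebraMap] at hz
      refine ⟨h2 (P N) n (hP.1 N) hQne z hz, ?_⟩
      by_contra hcon
      push Not at hcon
      exact hN1 z (by rw [sub_zero]; exact hcon.le) hz
    have hz0mem : z0 ∈ ((derivative^[n] (P N)).map (algebraMap ℝ ℂ)).roots := by
      rw [mem_roots ((Polynomial.map_ne_zero_iff (algebraMap ℝ ℂ).injective).2 hQne), IsRoot,
        eval_map_algebraMap]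
      exact hz0'
    have hps := NewtonAux.power_sum _ hcoeff0
    show _ ≤ ((((((derivative^[n] (P N)).coeff 1 : ℝ) : ℂ) /
      (((derivative^[n] (P N)).coeff 0 : ℝ) : ℂ)) ^ 2 -
      (2 * (((derivative^[n] (P N)).coeff 2 : ℝ) : ℂ)) /
        (((derivative^[n] (P N)).coeff 0 : ℝ) : ℂ))).re
    rw [hps]
    have h5 := NewtonAux.re_sum_ge _ z0 hz0mem (fun z hz => by
      have h6 := NewtonAux.par_re z (hroot z hz).1 (hroot z hz).2
      exact le_trans (by positivity) h6)
    refine le_trans ?_ h5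
    refine le_trans ?_ (NewtonAux.par_re z0 (hroot z0 hz0mem).1 (hroot z0 hz0mem).2)
    have h7 : 2 ≤ ‖z0‖ := (hroot z0 hz0mem).2
    have h8 : ‖z0‖ ≤ ‖w‖ + ε := by
      have := norm_sub_norm_le z0 w
      linarith
    apply one_div_le_one_div_of_le
    · have : 0 < ‖z0‖ := by linarith
      positivity
    · have h9 : ‖z0‖ ^ 2 ≤ (‖w‖ + ε) ^ 2 := pow_le_pow_left₀ (norm_nonneg _) h8 2
      linarith
  have hcont : Tendsto (fun ε : ℝ => 1 / (8 * (‖w‖ + ε) ^ 2)) (𝓝[>] 0)
      (𝓝 (1 / (8 * ‖w‖ ^ 2))) := by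
    have h10 : ContinuousAt (fun ε : ℝ => 1 / (8 * (‖w‖ + ε) ^ 2)) 0 := by
      apply ContinuousAt.div continuousAt_const
      · fun_prop
      · have : 0 < ‖w‖ + 0 := by linarith
        positivity
    have h11 := h10.tendsto
    rw [add_zero] at h11
    exact h11.mono_left nhdsWithin_le_nhds
  refine le_of_tendsto hcont ?_
  filter_upwards [self_mem_nhdsWithin] with ε hε
  exact key ε hε

end Pool.Agent.H24R2.JP
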