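import Pool.Agent.H24R2.JP.Spec

set_option autoImplicit false

namespace Pool.Agent.H24R2.JP.ChainAux

open Complex

/-- size of the parent in the Jensen-circle relation -/
lemma parent_norm {w z : ℂ} (hz : z ∈ Par) (h : ‖w - (z.re : ℂ)‖ ≤ |z.im|) {A : ℝ} (hw : ‖w‖ ≤ A) :
    ‖z‖ ≤ A + 1 + 2 * Real.sqrt (A + 1 / 2) := by
  have hA : 0 ≤ A := (norm_nonneg w).trans hw
  set y := |z.im| with hy
  have hy0 : 0 ≤ y := abs_nonneg _
  have h1 : |z.re| ≤ A + y := by
    have h2 : ‖((z.re : ℝ) : ℂ)‖ ≤ ‖w‖ + ‖w - (z.re : ℂ)‖ := by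
      have := norm_sub_norm_le ((z.re : ℝ) : ℂ) w
      rw [norm_sub_rev] at this
      linarith
    rw [Complex.norm_real, Real.norm_eq_abs] at h2
    linarith
  have h3 : y ^ 2 ≤ 1 / 4 + |z.re| := by
    have h4 : z.re + z.im ^ 2 ≤ 1 / 4 := hz
    have h5 : y ^ 2 = z.im ^ 2 := by rw [hy, sq_abs]
    have h6 := neg_abs_le z.re
    rw [h5]; linarith
  have h7 : (y - 1 / 2) ^ 2 ≤ A + 1 / 2 := by nlinarith
  have h8 : y ≤ 1 / 2 + Real.sqrt (A + 1 / 2) := by
    have := Real.abs_le_sqrt h7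
    have := le_abs_self (y - 1 / 2)
    linarith
  have h9 : ‖z‖ ≤ |z.re| + |z.im| := Complex.norm_le_abs_re_add_abs_im z
  rw [← hy] at h9
  linarith

end Pool.Agent.H24R2.JP.ChainAux

namespace Pool.Agent.H24R2.JP

open Complex Filter Topology ChainAux

theorem chain (h1 : SPar) (h2 : SCircle) (h3 : SWin) (h4 : SLow) (h5 : SGood) : SChain := by
  obtain ⟨n1, hwin⟩ := h3
  -- the growth comparison
  have hgr : ∃ m0 : ℕ, ∀ m : ℕ, m0 ≤ m →
      Real.exp (49 / 250 * ((m : ℝ) + 1)) + 1 + 2 * Real.sqrt (Real.exp (49 / 250 * ((m : ℝ) + 1)) + 1 / 2) ≤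
        Real.exp (51 / 250 * m) := by
    refine ⟨1000, fun m hm => ?_⟩
    have hm' : (1000 : ℝ) ≤ m := by exact_mod_cast hm
    set E := Real.exp (49 / 250 * ((m : ℝ) + 1)) with hE
    have hE1 : 1 ≤ E := Real.one_le_exp (by positivity)
    have hs : Real.sqrt (E + 1 / 2) ≤ E + 1 / 2 := by
      rw [Real.sqrt_le_left (by linarith)]
      nlinarith
    have hle : E + 1 + 2 * Real.sqrt (E + 1 / 2) ≤ 5 * E := by linarith
    have h6 : (5 : ℝ) ≤ Real.exp 2 := by
      have h7 : (2.7 : ℝ) < Real.exp 1 := by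
        have := Real.exp_one_gt_d9
        linarith
      have h8 : Real.exp 2 = Real.exp 1 * Real.exp 1 := by rw [← Real.exp_add]; norm_num
      rw [h8]; nlinarith
    calc E + 1 + 2 * Real.sqrt (E + 1 / 2) ≤ 5 * E := hle
      _ ≤ Real.exp 2 * E := by
          exact mul_le_mul_of_nonneg_right h6 (by linarith)
      _ = Real.exp (2 + 49 / 250 * ((m : ℝ) + 1)) := by rw [hE, ← Real.exp_add]
      _ ≤ Real.exp (51 / 250 * m) := Real.exp_le_exp.2 (by linarith)
  obtain ⟨m0, hm0⟩ := hgr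
  set n2 := max n1 m0 with hn2
  set A : ℝ := Real.exp (49 / 250 * (n2 : ℝ)) with hA
  have hA0 : 0 < A := Real.exp_pos _
  -- descendants of the zeros at level n2
  have key : ∀ k : ℕ, ∀ w : ℂ, w.im ≠ 0 → iteratedDeriv (n2 + k) FF w = 0 →
      ‖w‖ ≤ Real.exp (49 / 250 * ((n2 + k : ℕ) : ℝ)) → |w.im| ≤ A ∧ |w.re| ≤ A * (k + 1) := by
    intro k
    induction k with
    | zero =>
      intro w _ _ hw
      simp only [add_zero] at hw
      rw [← hA] at hw
      refine ⟨(Complex.abs_im_le_norm w).trans hw, ?_⟩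
      simpa using (Complex.abs_re_le_norm w).trans hw
    | succ k ih =>
      intro w him hw0 hw
      have hcast : ((n2 + (k + 1) : ℕ) : ℝ) = ((n2 + k : ℕ) : ℝ) + 1 := by push_cast; ring
      rw [hcast] at hw
      obtain ⟨z, hzim, hz0, hzw⟩ := h2 FF h5 (n2 + k) w him hw0
      have hzPar : z ∈ Par := h1 FF h5 (n2 + k) z hz0
      have hzn := (parent_norm hzPar hzw hw).trans (hm0 (n2 + k) (by omega))
      have hzlt : ‖z‖ ≤ Real.exp (49 / 250 * ((n2 + k : ℕ) : ℝ)) := by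
        by_contra hcon
        push Not at hcon
        exact hwin (n2 + k) (by omega) z hzPar hzim hcon.le hzn hz0
      obtain ⟨i1, i2⟩ := ih z hzim hz0 hzlt
      have j1 : |w.im| ≤ |z.im| := by
        have := Complex.abs_im_le_norm (w - (z.re : ℂ))
        simp only [Complex.sub_im, Complex.ofReal_im, sub_zero] at this
        exact this.trans hzw
      have j2 : |w.re - z.re| ≤ |z.im| := by
        have := Complex.abs_re_le_norm (w - (z.re : ℂ))
        simp only [Complex.sub_re, Complex.ofReal_re] at this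
        exact this.trans hzw
      refine ⟨j1.trans i1, ?_⟩
      have j3 : |w.re| ≤ |z.re| + |w.re - z.re| := by
        have := abs_add_le z.re (w.re - z.re)
        simpa using this
      push_cast
      linarith [mul_add A ((k : ℝ) + 1) 1]
  obtain ⟨N0, hN0⟩ := h4 (3 * A)
  refine ⟨max (max n2 N0) 1, fun n hn w him hw0 => ?_⟩
  by_contra hcon
  push Not at hcon
  have hn1 : 1 ≤ n := (le_max_right _ _).trans hn
  have hnn2 : n2 ≤ n := ((le_max_left _ _).trans (le_max_left _ _)).trans hn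
  have hnN0 : N0 ≤ n := ((le_max_right _ _).trans (le_max_left _ _)).trans hn
  have hwPar : w ∈ Par := h1 FF h5 n w hw0
  have hup : ‖w‖ ≤ Real.exp (51 / 250 * (n : ℝ)) :=
    hcon.trans (Real.exp_le_exp.2 (by
      have : (0 : ℝ) ≤ n := Nat.cast_nonneg n
      linarith))
  have hlow : ‖w‖ ≤ Real.exp (49 / 250 * (n : ℝ)) := by
    by_contra hc
    push Not at hc
    exact hwin n (by omega) w hwPar him hc.le hup hw0
  obtain ⟨k, rfl⟩ := Nat.exists_eq_add_of_le hnn2
  obtain ⟨i1, i2⟩ := key k w him hw0 hlow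
  have h9 : ‖w‖ ≤ |w.re| + |w.im| := Complex.norm_le_abs_re_add_abs_im w
  have h10 := hN0 (n2 + k) hnN0 w hw0
  have h11 : (1 : ℝ) ≤ ((n2 + k : ℕ) : ℝ) := by exact_mod_cast hn1
  have h12 : (k : ℝ) ≤ ((n2 + k : ℕ) : ℝ) := by push_cast; linarith [Nat.cast_nonneg (α := ℝ) n2]
  nlinarith

end Pool.Agent.H24R2.JP
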