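import Pool.Agent.H24R2.JP.Spec2
import Pool.Agent.H24R2.JP.Chain

set_option autoImplicit false

/-!
# The chain for the operators `T_a f = a f + x f'`
-/

namespace Pool.Agent.H24R2.JP

open Complex Filter Topology Polynomial

namespace OpChainAux

theorem good_zero {f : ℂ → ℂ} (hf : Good f) : f 0 ≠ 0 := by
  have := hf.2.2 0
  rwa [iteratedDeriv_zero] at this

/-- one step: nonreal zeros -/
theorem step_real (h0 : SPar) (h2 : SOpCircle) {f : ℂ → ℂ} {a r : ℝ} (hf : Good f) (ha : 0 < a)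
    (hr : 6 ≤ r) (h : ∀ w : ℂ, ‖w‖ ≤ r ^ 2 → f w = 0 → w.im = 0) :
    ∀ w : ℂ, ‖w‖ ≤ (r - 2) ^ 2 → TT a f w = 0 → w.im = 0 := by
  intro w hw hw0
  by_contra him
  obtain ⟨z, hzim, hz0, hzw⟩ := h2 f a hf ha w him hw0
  have hzP : z ∈ Par := h0 f hf 0 z (by rw [iteratedDeriv_zero]; exact hz0)
  have hn := ChainAux.parent_norm hzP hzw hw
  have hs : Real.sqrt ((r - 2) ^ 2 + 1 / 2) ≤ (r - 2) + 1 / 2 := by
    rw [Real.sqrt_le_left (by linarith)]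
    nlinarith
  have hz : ‖z‖ ≤ r ^ 2 := by nlinarith
  exact hzim (h z hz hz0)

/-- one step: multiple zeros -/
theorem step_simple (h3 : SOpLag) {f : ℂ → ℂ} {a r ρ : ℝ} (hf : Good f) (ha : 0 < a)
    (hr : 6 ≤ r) (h : ∀ w : ℂ, ‖w‖ ≤ r ^ 2 → f w = 0 → w.im = 0)
    (hρ : ρ ≤ r ^ 2 / 2) (hs : ∀ w : ℂ, ‖w‖ ≤ ρ → f w = 0 → deriv f w ≠ 0)
    (hg : ∀ w : ℂ, ‖w‖ ≤ ρ → TT a f w = 0 → w.im = 0) :
    ∀ w : ℂ, ‖w‖ ≤ ρ → TT a f w = 0 → deriv (TT a f) w ≠ 0 := by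
  intro w hw hw0 hd
  have him := hg w hw hw0
  obtain ⟨x, rfl⟩ : ∃ x : ℝ, (x : ℂ) = w := ⟨w.re, Complex.ext rfl him.symm⟩
  have hx0 : x ≠ 0 := by
    rintro rfl
    unfold TT at hw0
    simp only [ofReal_zero, zero_mul, add_zero, mul_eq_zero, ofReal_eq_zero] at hw0
    rcases hw0 with h4 | h4
    · exact ha.ne' h4
    · exact good_zero hf h4
  have hxρ : |x| ≤ ρ := by
    rwa [Complex.norm_real, Real.norm_eq_abs] at hw
  have hf0 : f (x : ℂ) = 0 :=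
    h3 f a (r ^ 2) x hf ha (by nlinarith) h hx0 (hxρ.trans hρ) hw0 hd
  refine hs (x : ℂ) hw hf0 ?_
  unfold TT at hw0
  rw [hf0, mul_zero, zero_add, mul_eq_zero] at hw0
  rcases hw0 with h4 | h4
  · exact absurd (by exact_mod_cast h4) hx0
  · exact h4

theorem chain_ind (h0 : SPar) (h1 : SOpGood) (h2 : SOpCircle) (h3 : SOpLag) (m : ℕ) :
    ∀ (f : ℂ → ℂ) (b r ρ : ℝ), Good f → 0 < b → 2 * (m : ℝ) + 4 ≤ r →
      ρ ≤ (r - 2 * m) ^ 2 / 2 →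
      (∀ w : ℂ, ‖w‖ ≤ r ^ 2 → f w = 0 → w.im = 0) →
      (∀ w : ℂ, ‖w‖ ≤ ρ → f w = 0 → deriv f w ≠ 0) →
      Good (TI b m f) ∧ (∀ w : ℂ, ‖w‖ ≤ (r - 2 * m) ^ 2 → TI b m f w = 0 → w.im = 0) ∧
        ∀ w : ℂ, ‖w‖ ≤ ρ → TI b m f w = 0 → deriv (TI b m f) w ≠ 0 := by
  induction m with
  | zero =>
    intro f b r ρ hf _ _ _ hr hs
    simp only [TI, Nat.cast_zero, mul_zero, sub_zero]
    exact ⟨hf, hr, hs⟩
  | succ m ih =>
    intro f b r ρ hf hb hr hρ hre hs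
    push_cast at hr hρ
    have hm0 : (0 : ℝ) ≤ m := Nat.cast_nonneg m
    have ha : 0 < b + m := by linarith
    have h6 : 6 ≤ r := by linarith
    have hreg := step_real h0 h2 hf ha h6 hre
    have hb1 : (r - 2 * ((m : ℝ) + 1)) ^ 2 ≤ (r - 2) ^ 2 :=
      pow_le_pow_left₀ (by linarith) (by linarith) 2
    have hb2 : (r - 2) ^ 2 ≤ r ^ 2 := pow_le_pow_left₀ (by linarith) (by linarith) 2
    have hb3 : 0 ≤ (r - 2) ^ 2 := sq_nonneg _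
    have hsg := step_simple h3 hf ha h6 hre (by linarith : ρ ≤ r ^ 2 / 2) hs
      (fun w hw => hreg w (hw.trans (by linarith)))
    have key := ih (TT (b + m) f) b (r - 2) ρ (h1 f _ hf ha) hb (by linarith)
      (by rw [show r - 2 - 2 * (m : ℝ) = r - 2 * ((m : ℝ) + 1) by ring]; exact hρ) hreg hsg
    rw [show r - 2 - 2 * (m : ℝ) = r - 2 * ((m : ℝ) + 1) by ring] at key
    simp only [TI]
    push_cast
    exact key

end OpChainAux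

open OpChainAux in
theorem opChain (h0 : SPar) (h1 : SOpGood) (h2 : SOpCircle) (h3 : SOpLag) : SOpChain := by
  intro f b r m hf hb hr h
  have hm0 : (0 : ℝ) ≤ m := Nat.cast_nonneg m
  have hb1 : (r - 2 * (m : ℝ)) ^ 2 ≤ r ^ 2 := pow_le_pow_left₀ (by linarith) (by linarith) 2
  have hb3 : 0 ≤ (r - 2 * (m : ℝ)) ^ 2 := sq_nonneg _
  obtain ⟨k1, k2, k3⟩ := chain_ind h0 h1 h2 h3 m f b r ((r - 2 * m) ^ 2 / 2) hf hb hr le_rfl
    (fun w hw hw0 => (h w hw hw0).1) (fun w hw hw0 => (h w (hw.trans (by linarith)) hw0).2)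
  exact ⟨k1, fun w hw hw0 => ⟨k2 w (hw.trans (by linarith)) hw0, k3 w hw hw0⟩⟩

end Pool.Agent.H24R2.JP
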