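import Pool.Agent.H24R2.JP.Spec

set_option autoImplicit false

namespace Pool.Agent.H24R2.JP.ParCircAux

open Complex Filter Metric Topology Polynomial Set

/-- Hurwitz for entire functions: a zero of the limit is a limit of zeros. -/
theorem hurw {F : ℕ → ℂ → ℂ} {f : ℂ → ℂ} (hd : ∀ i, Differentiable ℂ (F i))
    (hlim : TendstoLocallyUniformly F f atTop) (hf : Differentiable ℂ f) {a b : ℂ} (h0 : f a = 0)
    (hb : f b ≠ 0) {ε : ℝ} (hε : 0 < ε) : ∀ᶠ i in atTop, ∃ z, ‖z - a‖ < ε ∧ F i z = 0 := by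
  have hana : AnalyticOnNhd ℂ f univ := fun z _ => hf.analyticAt z
  have hfa : AnalyticAt ℂ f a := hf.analyticAt a
  rcases hfa.eventually_eq_zero_or_eventually_ne_zero with h | h
  · exfalso
    have h1 := hana.eqOn_zero_of_preconnected_of_eventuallyEq_zero isPreconnected_univ
      (mem_univ a) h
    exact hb (by simpa using h1 (mem_univ b))
  rw [eventually_nhdsWithin_iff, Metric.eventually_nhds_iff_ball] at h
  obtain ⟨r1, hr1, h1⟩ := h
  set r : ℝ := min r1 ε / 2 with hr
  have hmp : 0 < min r1 ε := lt_min hr1 hε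
  have hrp : 0 < r := by positivity
  have hr1' : r < r1 := by
    have := min_le_left r1 ε
    linarith
  have hr2' : r < ε := by
    have := min_le_right r1 ε
    linarith
  have hsph : IsCompact (sphere a r) := isCompact_sphere a r
  have hne' : (sphere a r).Nonempty := NormedSpace.sphere_nonempty.2 hrp.le
  have hcont : ContinuousOn (fun z => ‖f z‖) (sphere a r) := hf.continuous.norm.continuousOn
  obtain ⟨w, hw, hwmin⟩ := hsph.exists_isMinOn hne' hcont
  have hδ : 0 < ‖f w‖ := by
    rw [norm_pos_iff]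
    apply h1 w
    · have : dist w a = r := hw
      rw [mem_ball, this]; exact hr1'
    · intro hwa
      have : dist w a = r := hw
      rw [hwa, dist_self] at this
      linarith
  set δ := ‖f w‖ with hδdef
  have hunif : TendstoUniformlyOn F f atTop (closedBall a r) :=
    (tendstoLocallyUniformlyOn_iff_forall_isCompact isOpen_univ).1
      (hlim.tendstoLocallyUniformlyOn) _ (subset_univ _) (isCompact_closedBall a r)
  have hev := (Metric.tendstoUniformlyOn_iff.1 hunif) (δ / 2) (by positivity)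
  filter_upwards [hev] with i hi
  by_contra hcon
  push Not at hcon
  have hne : ∀ z ∈ closedBall a r, F i z ≠ 0 := by
    intro z hz
    refine hcon z ?_
    have : dist z a ≤ r := hz
    rw [dist_eq_norm] at this
    linarith
  have hsphb : ∀ z ∈ sphere a r, δ / 2 ≤ ‖F i z‖ := by
    intro z hz
    have h3 := hi z (sphere_subset_closedBall hz)
    have h4 : δ ≤ ‖f z‖ := hwmin hz
    rw [dist_eq_norm] at h3
    have h5 : ‖f z‖ - ‖F i z‖ ≤ ‖f z - F i z‖ := norm_sub_norm_le _ _
    linarith
  have hctr : ‖F i a‖ < δ / 2 := by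
    have h3 := hi a (mem_closedBall_self hrp.le)
    rw [dist_eq_norm, h0, zero_sub, norm_neg] at h3
    exact h3
  have hdc : DiffContOnCl ℂ (fun z => (F i z)⁻¹) (ball a r) := by
    apply DifferentiableOn.diffContOnCl
    rw [closure_ball a hrp.ne']
    exact (hd i).differentiableOn.inv hne
  have hmax := Complex.norm_le_of_forall_mem_frontier_norm_le (C := 2 / δ) isBounded_ball hdc
    (by
      intro z hz
      rw [frontier_ball a hrp.ne'] at hz
      rw [norm_inv]
      have h3 := hsphb z hz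
      rw [inv_le_comm₀ (by linarith) (by positivity)]
      rw [inv_div]
      exact h3) (subset_closure (mem_ball_self hrp))
  rw [norm_inv] at hmax
  have hpos : 0 < ‖F i a‖ := norm_pos_iff.2 (hne a (mem_closedBall_self hrp.le))
  rw [inv_le_comm₀ hpos (by positivity), inv_div] at hmax
  linarith

theorem diff_iter {f : ℂ → ℂ} (hf : Differentiable ℂ f) (n : ℕ) :
    Differentiable ℂ (iteratedDeriv n f) :=
  (hf.contDiff (n := (⊤ : ℕ∞))).differentiable_iteratedDeriv n (by exact_mod_cast WithTop.coe_lt_top n)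

theorem diff_aeval (Q : ℝ[X]) : Differentiable ℂ (fun x : ℂ => aeval x Q) :=
  Polynomial.differentiable_aeval Q

theorem closed_par : IsClosed Par := by
  have : Continuous fun x : ℂ => x.re + x.im ^ 2 := by fun_prop
  exact isClosed_le this continuous_const

/-- nonzero derivatives -/
theorem ev_ne {f : ℂ → ℂ} (h1 : SDer) {P : ℕ → ℝ[X]} (hP : App f P) (n : ℕ)
    (hn : iteratedDeriv n f 0 ≠ 0) : ∀ᶠ N in atTop, derivative^[n] (P N) ≠ 0 := by
  have h := (h1 f P hP n).2 0
  rw [add_zero] at h
  filter_upwards [h.eventually_ne hn] with N hN h0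
  apply hN
  rw [h0]
  simp

end Pool.Agent.H24R2.JP.ParCircAux

namespace Pool.Agent.H24R2.JP

open Complex Filter Topology Polynomial ParCircAux

theorem par (h1 : SDer) (h2 : SGL) : SPar := by
  intro f hf n w hw
  obtain ⟨hfd, ⟨P, hP⟩, hne⟩ := hf
  have hder := (h1 f P hP n).1
  have hev0 := ev_ne h1 hP n (hne n)
  have key : w ∈ closure Par := by
    rw [Metric.mem_closure_iff]
    intro ε hε
    have hh := hurw (F := fun (N : ℕ) (x : ℂ) => aeval x (derivative^[n] (P N)))
      (fun N => diff_aeval _) hder (diff_iter hfd n) hw (hne n) hε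
    obtain ⟨N, ⟨z, hz, hz0⟩, hN⟩ := (hh.and hev0).exists
    refine ⟨z, h2 (P N) n (hP.1 N) hN z hz0, ?_⟩
    rw [dist_comm, dist_eq_norm]
    exact hz
  rwa [closed_par.closure_eq] at key

theorem circ (h1 : SDer) (h2 : SGL) (h3 : SJen) : SCircle := by
  intro f hf n w hwim hw
  obtain ⟨hfd, ⟨P, hP⟩, hne⟩ := hf
  have hder := (h1 f P hP (n + 1)).1
  have hder0 := (h1 f P hP n).1
  have hev1 := ev_ne h1 hP (n + 1) (hne (n + 1))
  have hev0 := ev_ne h1 hP n (hne n)
  have hwpos : 0 < |w.im| := abs_pos.2 hwim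
  have step : ∀ k : ℕ, ∃ (N : ℕ) (v z : ℂ), k ≤ N ∧ ‖v - w‖ < 1 / ((k : ℝ) + 1) ∧ z.im ≠ 0 ∧
      aeval z (derivative^[n] (P N)) = 0 ∧ ‖v - (z.re : ℂ)‖ ≤ |z.im| ∧ z ∈ Par := by
    intro k
    have hkpos : (0 : ℝ) < 1 / ((k : ℝ) + 1) := by positivity
    have hh := hurw (F := fun (N : ℕ) (x : ℂ) => aeval x (derivative^[n + 1] (P N)))
      (fun N => diff_aeval _) hder (diff_iter hfd (n + 1)) hw (hne (n + 1))
      (lt_min hkpos hwpos)
    obtain ⟨N, ⟨⟨⟨v, hv, hv0⟩, hN1⟩, hN0⟩, hkN⟩ :=
      (((hh.and hev1).and hev0).and (eventually_ge_atTop k)).exists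
    have hvim : v.im ≠ 0 := by
      intro h0
      have h4 : |(v - w).im| ≤ ‖v - w‖ := Complex.abs_im_le_norm _
      have h5 : ‖v - w‖ < |w.im| := hv.trans_le (min_le_right _ _)
      rw [Complex.sub_im, h0, zero_sub, abs_neg] at h4
      linarith
    rw [Function.iterate_succ_apply'] at hv0 hN1
    obtain ⟨z, hzim, hz0, hzv⟩ := h3 (derivative^[n] (P N)) hN1 v hvim hv0
    exact ⟨N, v, z, hkN, hv.trans_le (min_le_left _ _), hzim, hz0, hzv,
      h2 (P N) n (hP.1 N) hN0 z hz0⟩
  choose N v z hN hv hzim hz0 hzv hzP using step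
  -- boundedness
  set W : ℝ := ‖w‖ + 1 with hW
  have hW1 : 1 ≤ W := by
    have := norm_nonneg w
    linarith
  have hbd : ∀ k, z k ∈ Metric.closedBall (0 : ℂ) (4 + 3 * W) := by
    intro k
    rw [mem_closedBall_zero_iff]
    have hv1 : ‖v k‖ ≤ W := by
      have h4 : ‖v k‖ ≤ ‖v k - w‖ + ‖w‖ := by
        have := norm_add_le (v k - w) w
        simpa using this
      have h5 : 1 / ((k : ℝ) + 1) ≤ 1 := by
        rw [div_le_one (by positivity)]
        have := Nat.cast_nonneg (α := ℝ) k
        linarith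
      have := hv k
      linarith
    have h6 : |(v k).re - (z k).re| ≤ |(z k).im| := by
      have h7 := Complex.abs_re_le_norm (v k - ((z k).re : ℂ))
      simp only [Complex.sub_re, Complex.ofReal_re] at h7
      exact h7.trans (hzv k)
    have h8 : |(v k).re| ≤ W := (Complex.abs_re_le_norm _).trans hv1
    have h9 : |(z k).re| ≤ W + |(z k).im| := by
      have h10 : (z k).re = (v k).re - ((v k).re - (z k).re) := by ring
      rw [h10]
      exact (abs_sub _ _).trans (by linarith)
    have h10 : (z k).re + (z k).im ^ 2 ≤ 1 / 4 := hzP k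
    have h11 : |(z k).im| ≤ 2 + W := by
      by_contra hcon
      push Not at hcon
      have h12 : (z k).im ^ 2 = |(z k).im| ^ 2 := (sq_abs _).symm
      have h13 := neg_abs_le (z k).re
      nlinarith
    have h14 := Complex.norm_le_abs_re_add_abs_im (z k)
    linarith
  obtain ⟨z', -, φ, hφ, hlim⟩ := (isCompact_closedBall (0 : ℂ) (4 + 3 * W)).tendsto_subseq hbd
  have hNt : Tendsto (fun k => N (φ k)) atTop atTop :=
    tendsto_atTop_mono (fun k => (hφ.id_le k).trans (hN (φ k))) tendsto_id
  have hvt : Tendsto v atTop (𝓝 w) := by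
    rw [tendsto_iff_norm_sub_tendsto_zero]
    exact squeeze_zero (fun _ => norm_nonneg _) (fun k => (hv k).le)
      tendsto_one_div_add_atTop_nhds_zero_nat
  refine ⟨z', ?_, ?_, ?_⟩
  rotate_left
  · -- zero of the derivative
    have hcomp : TendstoLocallyUniformly
        (fun (k : ℕ) (x : ℂ) => aeval x (derivative^[n] (P (N (φ k))))) (iteratedDeriv n f) atTop := by
      intro u hu x
      obtain ⟨t, ht, h⟩ := hder0 u hu x
      exact ⟨t, ht, hNt.eventually h⟩
    have ht := hcomp.tendsto_comp (diff_iter hfd n).continuous.continuousAt hlim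
    have hzero : (fun k => aeval ((z ∘ φ) k) (derivative^[n] (P (N (φ k))))) = fun _ => (0 : ℂ) := by
      funext k
      exact hz0 (φ k)
    rw [hzero] at ht
    exact (tendsto_nhds_unique ht tendsto_const_nhds)
  · have ha : Tendsto (fun k => ‖v (φ k) - ((z (φ k)).re : ℂ)‖) atTop (𝓝 ‖w - (z'.re : ℂ)‖) := by
      have h4 : Tendsto (fun k => (((z (φ k)).re : ℝ) : ℂ)) atTop (𝓝 (z'.re : ℂ)) :=
        (Complex.continuous_ofReal.tendsto _).comp ((Complex.continuous_re.tendsto _).comp hlim)
      exact ((hvt.comp hφ.tendsto_atTop).sub h4).norm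
    have hb : Tendsto (fun k => |(z (φ k)).im|) atTop (𝓝 |z'.im|) :=
      ((Complex.continuous_im.tendsto _).comp hlim).abs
    exact le_of_tendsto_of_tendsto' ha hb (fun k => hzv (φ k))
  · have ha : Tendsto (fun k => ‖v (φ k) - ((z (φ k)).re : ℂ)‖) atTop (𝓝 ‖w - (z'.re : ℂ)‖) := by
      have h4 : Tendsto (fun k => (((z (φ k)).re : ℝ) : ℂ)) atTop (𝓝 (z'.re : ℂ)) :=
        (Complex.continuous_ofReal.tendsto _).comp ((Complex.continuous_re.tendsto _).comp hlim)
      exact ((hvt.comp hφ.tendsto_atTop).sub h4).norm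
    have hb : Tendsto (fun k => |(z (φ k)).im|) atTop (𝓝 |z'.im|) :=
      ((Complex.continuous_im.tendsto _).comp hlim).abs
    have hc := le_of_tendsto_of_tendsto' ha hb (fun k => hzv (φ k))
    intro h0
    have h5 := Complex.abs_im_le_norm (w - (z'.re : ℂ))
    simp only [Complex.sub_im, Complex.ofReal_im, sub_zero] at h5
    rw [h0, abs_zero] at hc
    linarith

end Pool.Agent.H24R2.JP
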