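import Pool.Agent.H24R2.JP.Spec

set_option autoImplicit false

namespace Pool.Agent.H24R2.JP

namespace PolysAux

open Complex Polynomial

theorem convex_par : Convex ℝ Par := by
  intro x hx y hy a b ha hb hab
  simp only [Par, Set.mem_setOf_eq] at hx hy ⊢
  simp only [Complex.add_re, Complex.add_im, Complex.real_smul, Complex.mul_re, Complex.mul_im,
    Complex.ofReal_re, Complex.ofReal_im, zero_mul, sub_zero, add_zero]
  have hb' : b = 1 - a := by linarith
  subst hb'
  nlinarith [mul_nonneg (mul_nonneg ha hb) (sq_nonneg (x.im - y.im)),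
    mul_le_mul_of_nonneg_left hx ha, mul_le_mul_of_nonneg_left hy hb]

theorem gl_step (Q : ℝ[X]) (hQ : derivative Q ≠ 0)
    (h : ∀ x : ℂ, aeval x Q = 0 → x ∈ Par) (x : ℂ) (hx : aeval x (derivative Q) = 0) :
    x ∈ Par := by
  set P : ℂ[X] := Q.map (algebraMap ℝ ℂ) with hP
  have hd : 0 < P.degree := by
    rw [hP, degree_map]
    by_contra hcon
    push Not at hcon
    apply hQ
    rw [eq_C_of_degree_le_zero hcon, derivative_C]
  have hP0 : P ≠ 0 := by
    intro h0
    rw [h0] at hd
    simp at hd
  have hPd : derivative P ≠ 0 := by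
    rw [hP, derivative_map]
    exact (Polynomial.map_ne_zero_iff (algebraMap ℝ ℂ).injective).2 hQ
  have hmem : x ∈ P.derivative.rootSet ℂ := by
    rw [mem_rootSet]
    refine ⟨hPd, ?_⟩
    rw [hP, derivative_map, aeval_map_algebraMap]
    exact hx
  have h1 := rootSet_derivative_subset_convexHull_rootSet hd hmem
  refine convexHull_min ?_ convex_par h1
  intro z hz
  rw [mem_rootSet] at hz
  apply h z
  have := hz.2
  rw [hP, aeval_map_algebraMap] at this
  exact this

theorem sum_neg_of_pos (s : Multiset ℂ) (f : ℂ → ℝ) (hs : s ≠ 0) (h : ∀ z ∈ s, 0 < f z) :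
    0 < (s.map f).sum := by
  induction s using Multiset.induction_on with
  | empty => exact absurd rfl hs
  | cons a s ih =>
    rw [Multiset.map_cons, Multiset.sum_cons]
    have ha := h a (Multiset.mem_cons_self a s)
    by_cases hs' : s = 0
    · subst hs'
      simpa using ha
    · have := ih hs' (fun z hz => h z (Multiset.mem_cons_of_mem hz))
      linarith

/-- the imaginary part of `1/(w-z) + 1/(w - conj z)` -/
theorem term_sign (w z : ℂ) (hw : 0 < w.im) (h : |z.im| < ‖w - (z.re : ℂ)‖) :
    0 < -(1 / (w - z) + 1 / (w - (starRingEnd ℂ) z)).im := by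
  have hsq : z.im ^ 2 < (w.re - z.re) ^ 2 + w.im ^ 2 := by
    have h1 : ‖w - (z.re : ℂ)‖ ^ 2 = (w.re - z.re) ^ 2 + w.im ^ 2 := by
      rw [Complex.sq_norm, Complex.normSq_apply]
      simp
      ring
    rw [← h1, ← sq_abs z.im]
    exact pow_lt_pow_left₀ h (abs_nonneg _) two_ne_zero
  have hne1 : 0 < Complex.normSq (w - z) := by
    rw [Complex.normSq_pos]
    intro h0
    have h2 : w = z := sub_eq_zero.1 h0
    subst h2
    simp at hsq
  have hne2 : 0 < Complex.normSq (w - (starRingEnd ℂ) z) := by
    rw [Complex.normSq_pos]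
    intro h0
    have h2 : w = (starRingEnd ℂ) z := sub_eq_zero.1 h0
    rw [h2] at hsq
    simp at hsq
  have e : -(1 / (w - z) + 1 / (w - (starRingEnd ℂ) z)).im =
      2 * w.im * ((w.re - z.re) ^ 2 + w.im ^ 2 - z.im ^ 2) /
        (Complex.normSq (w - z) * Complex.normSq (w - (starRingEnd ℂ) z)) := by
    rw [one_div, one_div, Complex.add_im, Complex.inv_im, Complex.inv_im]
    rw [div_add_div _ _ hne1.ne' hne2.ne', ← neg_div]
    congr 1
    simp only [Complex.normSq_apply, Complex.sub_re, Complex.sub_im, Complex.conj_re,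
      Complex.conj_im]
    ring
  rw [e]
  apply div_pos
  · apply mul_pos (by linarith)
    linarith
  · exact mul_pos hne1 hne2

theorem jen_pos (P : ℝ[X]) (hP : derivative P ≠ 0) (w : ℂ) (hw : 0 < w.im)
    (h0 : aeval w (derivative P) = 0) :
    ∃ z : ℂ, z.im ≠ 0 ∧ aeval z P = 0 ∧ ‖w - (z.re : ℂ)‖ ≤ |z.im| := by
  by_contra hcon
  push Not at hcon
  set Q : ℂ[X] := P.map (algebraMap ℝ ℂ) with hQ
  have hQe : ∀ z : ℂ, Q.eval z = aeval z P := by
    intro z
    rw [hQ, eval_map_algebraMap]
  have hQd : ∀ z : ℂ, Q.derivative.eval z = aeval z (derivative P) := by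
    intro z
    rw [hQ, derivative_map, eval_map_algebraMap]
  have hPw : Q.eval w ≠ 0 := by
    intro h
    rw [hQe] at h
    have := hcon w hw.ne' h
    have e : w - (w.re : ℂ) = w.im * I := by
      apply Complex.ext <;> simp
    rw [e, norm_mul, Complex.norm_I, mul_one, Complex.norm_real, Real.norm_eq_abs] at this
    exact lt_irrefl _ this
  have hconj : ∀ (R : ℝ[X]) (z : ℂ), aeval ((starRingEnd ℂ) z) R = (starRingEnd ℂ) (aeval z R) := by
    intro R z
    exact Polynomial.aeval_conj R z
  have hPw' : Q.eval ((starRingEnd ℂ) w) ≠ 0 := by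
    rw [hQe, hconj]
    rw [hQe] at hPw
    intro h
    exact hPw ((map_eq_zero _).1 h)
  have hQ0 : Q ≠ 0 := by
    intro h
    rw [h] at hPw
    simp at hPw
  have hroots : Q.roots ≠ 0 := by
    intro h
    have hd : Q.degree ≤ 0 := by
      have h1 := (IsAlgClosed.splits Q).natDegree_eq_card_roots
      rw [h] at h1
      simp only [Multiset.card_zero] at h1
      exact natDegree_eq_zero_iff_degree_le_zero.1 h1
    apply hP
    rw [hQ, degree_map] at hd
    rw [eq_C_of_degree_le_zero hd, derivative_C]
  have e1 : (Q.roots.map fun z => 1 / (w - z)).sum = 0 := by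
    rw [← (IsAlgClosed.splits Q).eval_derivative_div_eval_of_ne_zero hPw, hQd, h0, zero_div]
  have e2 : (Q.roots.map fun z => 1 / ((starRingEnd ℂ) w - z)).sum = 0 := by
    rw [← (IsAlgClosed.splits Q).eval_derivative_div_eval_of_ne_zero hPw', hQd, hconj, h0,
      map_zero, zero_div]
  have e3 : (Q.roots.map fun z => 1 / (w - (starRingEnd ℂ) z)).sum = 0 := by
    have h1 := congrArg (starRingEnd ℂ) e2
    rw [map_zero, map_multiset_sum, Multiset.map_map] at h1
    rw [← h1]
    congr 1
    apply Multiset.map_congr rfl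
    intro z _
    simp
  have e4 : (Q.roots.map fun z => 1 / (w - z) + 1 / (w - (starRingEnd ℂ) z)).sum = 0 := by
    rw [Multiset.sum_map_add, e1, e3, add_zero]
  have e5 : (Q.roots.map fun z => -(1 / (w - z) + 1 / (w - (starRingEnd ℂ) z)).im).sum = 0 := by
    have h1 := congrArg (fun c : ℂ => -(Complex.imAddGroupHom c)) e4
    simp only [map_multiset_sum, Multiset.map_map, map_zero, neg_zero] at h1
    rw [← Multiset.sum_map_neg] at h1
    simpa using h1
  have h6 : 0 < (Q.roots.map fun z => -(1 / (w - z) + 1 / (w - (starRingEnd ℂ) z)).im).sum := by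
    apply sum_neg_of_pos _ _ hroots
    intro z hz
    apply term_sign w z hw
    by_cases hz0 : z.im = 0
    · rw [hz0, abs_zero]
      rw [norm_pos_iff]
      intro h
      have := congrArg Complex.im h
      simp at this
      exact hw.ne' this
    · apply hcon z hz0
      rw [mem_roots hQ0, IsRoot, hQe] at hz
      exact hz
  linarith

end PolysAux

open Complex Polynomial

theorem gl : SGL := by
  intro P n h
  induction n with
  | zero =>
    intro _ x hx
    exact h x hx
  | succ n ih =>
    intro hne x hx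
    rw [Function.iterate_succ_apply'] at hne hx
    apply PolysAux.gl_step _ hne _ x hx
    apply ih
    intro h0
    rw [h0] at hne
    simp at hne

theorem jen : SJen := by
  intro P hP w hw h0
  rcases lt_or_gt_of_ne hw with h | h
  · have h1 : 0 < ((starRingEnd ℂ) w).im := by simpa using h
    have h2 : aeval ((starRingEnd ℂ) w) (derivative P) = 0 := by
      rw [Polynomial.aeval_conj, h0, map_zero]
    obtain ⟨z, hz1, hz2, hz3⟩ := PolysAux.jen_pos P hP _ h1 h2
    refine ⟨z, hz1, hz2, ?_⟩
    have e : ‖w - (z.re : ℂ)‖ = ‖(starRingEnd ℂ) w - (z.re : ℂ)‖ := by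
      rw [← Complex.norm_conj (w - (z.re : ℂ)), map_sub, Complex.conj_ofReal]
    rw [e]
    exact hz3
  · exact PolysAux.jen_pos P hP w h h0

end Pool.Agent.H24R2.JP
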