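import Pool.Agent.H24R2.JP.OpGood
import Pool.Agent.H24R2.JP.Polys
import Pool.Agent.H24R2.JP.ParCirc

set_option autoImplicit false

/-!
# Jensen circles for `a f + x f'`
-/

namespace Pool.Agent.H24R2.JP

open Complex Filter Topology Polynomial

namespace OpCircAux

open PolysAux OpGoodAux

theorem sum_nonneg (s : Multiset ℂ) (f : ℂ → ℝ) (h : ∀ z ∈ s, 0 < f z) :
    0 ≤ (s.map f).sum := by
  by_cases hs : s = 0
  · subst hs
    simp
  · exact (sum_neg_of_pos s f hs h).le

/-- Jensen circles for `a P + X P'`, upper half plane -/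
theorem opjen_pos (P : ℝ[X]) (a : ℝ) (ha : 0 < a) (w : ℂ) (hw : 0 < w.im)
    (h0 : aeval w (QQ a P) = 0) :
    ∃ z : ℂ, z.im ≠ 0 ∧ aeval z P = 0 ∧ ‖w - (z.re : ℂ)‖ ≤ |z.im| := by
  by_contra hcon
  push Not at hcon
  set Q : ℂ[X] := P.map (algebraMap ℝ ℂ) with hQ
  have hQe : ∀ z : ℂ, Q.eval z = aeval z P := by
    intro z
    rw [hQ, eval_map_algebraMap]
  have hQd : ∀ z : ℂ, Q.derivative.eval z = aeval z (derivative P) := by
    intro z
    rw [hQ, derivative_map, eval_map_algebraMap]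
  have hPw : Q.eval w ≠ 0 := by
    intro h
    rw [hQe] at h
    have := hcon w hw.ne' h
    have e : w - (w.re : ℂ) = w.im * I := by
      apply Complex.ext <;> simp
    rw [e, norm_mul, Complex.norm_I, mul_one, Complex.norm_real, Real.norm_eq_abs] at this
    exact lt_irrefl _ this
  have hconj : ∀ (R : ℝ[X]) (z : ℂ), aeval ((starRingEnd ℂ) z) R = (starRingEnd ℂ) (aeval z R) := by
    intro R z
    exact Polynomial.aeval_conj R z
  have hPw' : Q.eval ((starRingEnd ℂ) w) ≠ 0 := by
    rw [hQe, hconj]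
    rw [hQe] at hPw
    intro h
    exact hPw ((map_eq_zero _).1 h)
  have hQ0 : Q ≠ 0 := by
    intro h
    rw [h] at hPw
    simp at hPw
  have hw0 : w ≠ 0 := by
    intro h
    rw [h] at hw
    simp at hw
  rw [aeval_QQ] at h0
  have e1 : (Q.roots.map fun z => 1 / (w - z)).sum = -(a / w) := by
    rw [← (IsAlgClosed.splits Q).eval_derivative_div_eval_of_ne_zero hPw, hQd, hQe]
    rw [hQe] at hPw
    field_simp
    linear_combination h0
  have e2 : (Q.roots.map fun z => 1 / ((starRingEnd ℂ) w - z)).sum =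
      (starRingEnd ℂ) (-(a / w)) := by
    rw [← (IsAlgClosed.splits Q).eval_derivative_div_eval_of_ne_zero hPw', hQd, hQe, hconj, hconj,
      ← map_div₀]
    congr 1
    rw [hQe] at hPw
    field_simp
    linear_combination h0
  have e3 : (Q.roots.map fun z => 1 / (w - (starRingEnd ℂ) z)).sum = -(a / w) := by
    have h1 := congrArg (starRingEnd ℂ) e2
    rw [Complex.conj_conj, map_multiset_sum, Multiset.map_map] at h1
    rw [← h1]
    congr 1
    apply Multiset.map_congr rfl
    intro z _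
    simp
  have e4 : (Q.roots.map fun z => 1 / (w - z) + 1 / (w - (starRingEnd ℂ) z)).sum =
      -(a / w) + -(a / w) := by
    rw [Multiset.sum_map_add, e1, e3]
  have e5 : (Q.roots.map fun z => -(1 / (w - z) + 1 / (w - (starRingEnd ℂ) z)).im).sum =
      -(-(a / w) + -(a / w)).im := by
    have h1 := congrArg (fun c : ℂ => -(Complex.imAddGroupHom c)) e4
    simp only [map_multiset_sum, Multiset.map_map] at h1
    rw [← Multiset.sum_map_neg] at h1
    simpa using h1
  have h6 : 0 ≤ (Q.roots.map fun z => -(1 / (w - z) + 1 / (w - (starRingEnd ℂ) z)).im).sum := by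
    apply sum_nonneg
    intro z hz
    apply term_sign w z hw
    by_cases hz0 : z.im = 0
    · rw [hz0, abs_zero]
      rw [norm_pos_iff]
      intro h
      have := congrArg Complex.im h
      simp at this
      exact hw.ne' this
    · apply hcon z hz0
      rw [mem_roots hQ0, IsRoot, hQe] at hz
      exact hz
  have h7 : -(-(a / w) + -(a / w) : ℂ).im = -(2 * a * (w.im / Complex.normSq w)) := by
    have e : (a / w : ℂ) = (a : ℂ) * w⁻¹ := div_eq_mul_inv _ _
    rw [e]
    simp only [Complex.add_im, Complex.neg_im, Complex.im_ofReal_mul, Complex.inv_im]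
    ring
  have h8 : 0 < 2 * a * (w.im / Complex.normSq w) := by
    have := Complex.normSq_pos.2 hw0
    positivity
  linarith

theorem opjen (P : ℝ[X]) (a : ℝ) (ha : 0 < a) (w : ℂ) (hw : w.im ≠ 0)
    (h0 : aeval w (QQ a P) = 0) :
    ∃ z : ℂ, z.im ≠ 0 ∧ aeval z P = 0 ∧ ‖w - (z.re : ℂ)‖ ≤ |z.im| := by
  rcases lt_or_gt_of_ne hw with h | h
  · have h1 : 0 < ((starRingEnd ℂ) w).im := by simpa using h
    have h2 : aeval ((starRingEnd ℂ) w) (QQ a P) = 0 := by
      rw [Polynomial.aeval_conj, h0, map_zero]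
    obtain ⟨z, hz1, hz2, hz3⟩ := opjen_pos P a ha _ h1 h2
    refine ⟨z, hz1, hz2, ?_⟩
    have e : ‖w - (z.re : ℂ)‖ = ‖(starRingEnd ℂ) w - (z.re : ℂ)‖ := by
      rw [← Complex.norm_conj (w - (z.re : ℂ)), map_sub, Complex.conj_ofReal]
    rw [e]
    exact hz3
  · exact opjen_pos P a ha w h h0

end OpCircAux

open OpCircAux OpGoodAux ParCircAux

theorem opCirc (h1 : SDer) : SOpCircle := by
  intro f a hf ha w hwim hw
  obtain ⟨hfd, ⟨P, hP⟩, hne⟩ := hf
  have hder := tend_QQ h1 hP a
  have hder0 := hP.2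
  have hwpos : 0 < |w.im| := abs_pos.2 hwim
  have hT0 : TT a f 0 ≠ 0 := by
    have h2 := hne 0
    rw [iteratedDeriv_zero] at h2
    unfold TT
    rw [zero_mul, add_zero]
    exact mul_ne_zero (by exact_mod_cast ha.ne') h2
  have step : ∀ k : ℕ, ∃ (N : ℕ) (v z : ℂ), k ≤ N ∧ ‖v - w‖ < 1 / ((k : ℝ) + 1) ∧ z.im ≠ 0 ∧
      aeval z (P N) = 0 ∧ ‖v - (z.re : ℂ)‖ ≤ |z.im| ∧ z ∈ Par := by
    intro k
    have hkpos : (0 : ℝ) < 1 / ((k : ℝ) + 1) := by positivity
    have hh := hurw (F := fun (N : ℕ) (x : ℂ) => aeval x (QQ a (P N)))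
      (fun N => diff_aeval _) hder (OpBase.TT_diff a hfd) hw hT0
      (lt_min hkpos hwpos)
    obtain ⟨N, ⟨v, hv, hv0⟩, hkN⟩ := (hh.and (eventually_ge_atTop k)).exists
    have hvim : v.im ≠ 0 := by
      intro h0
      have h4 : |(v - w).im| ≤ ‖v - w‖ := Complex.abs_im_le_norm _
      have h5 : ‖v - w‖ < |w.im| := hv.trans_le (min_le_right _ _)
      rw [Complex.sub_im, h0, zero_sub, abs_neg] at h4
      linarith
    obtain ⟨z, hzim, hz0, hzv⟩ := opjen (P N) a ha v hvim hv0
    exact ⟨N, v, z, hkN, hv.trans_le (min_le_left _ _), hzim, hz0, hzv, hP.1 N z hz0⟩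
  choose N v z hN hv hzim hz0 hzv hzP using step
  -- boundedness
  set W : ℝ := ‖w‖ + 1 with hW
  have hW1 : 1 ≤ W := by
    have := norm_nonneg w
    linarith
  have hbd : ∀ k, z k ∈ Metric.closedBall (0 : ℂ) (4 + 3 * W) := by
    intro k
    rw [mem_closedBall_zero_iff]
    have hv1 : ‖v k‖ ≤ W := by
      have h4 : ‖v k‖ ≤ ‖v k - w‖ + ‖w‖ := by
        have := norm_add_le (v k - w) w
        simpa using this
      have h5 : 1 / ((k : ℝ) + 1) ≤ 1 := by
        rw [div_le_one (by positivity)]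
        have := Nat.cast_nonneg (α := ℝ) k
        linarith
      have := hv k
      linarith
    have h6 : |(v k).re - (z k).re| ≤ |(z k).im| := by
      have h7 := Complex.abs_re_le_norm (v k - ((z k).re : ℂ))
      simp only [Complex.sub_re, Complex.ofReal_re] at h7
      exact h7.trans (hzv k)
    have h8 : |(v k).re| ≤ W := (Complex.abs_re_le_norm _).trans hv1
    have h9 : |(z k).re| ≤ W + |(z k).im| := by
      have h10 : (z k).re = (v k).re - ((v k).re - (z k).re) := by ring
      rw [h10]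
      exact (abs_sub _ _).trans (by linarith)
    have h10 : (z k).re + (z k).im ^ 2 ≤ 1 / 4 := hzP k
    have h11 : |(z k).im| ≤ 2 + W := by
      by_contra hcon
      push Not at hcon
      have h12 : (z k).im ^ 2 = |(z k).im| ^ 2 := (sq_abs _).symm
      have h13 := neg_abs_le (z k).re
      nlinarith
    have h14 := Complex.norm_le_abs_re_add_abs_im (z k)
    linarith
  obtain ⟨z', -, φ, hφ, hlim⟩ := (isCompact_closedBall (0 : ℂ) (4 + 3 * W)).tendsto_subseq hbd
  have hNt : Tendsto (fun k => N (φ k)) atTop atTop :=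
    tendsto_atTop_mono (fun k => (hφ.id_le k).trans (hN (φ k))) tendsto_id
  have hvt : Tendsto v atTop (𝓝 w) := by
    rw [tendsto_iff_norm_sub_tendsto_zero]
    exact squeeze_zero (fun _ => norm_nonneg _) (fun k => (hv k).le)
      tendsto_one_div_add_atTop_nhds_zero_nat
  have hineq : ‖w - (z'.re : ℂ)‖ ≤ |z'.im| := by
    have ha : Tendsto (fun k => ‖v (φ k) - ((z (φ k)).re : ℂ)‖) atTop (𝓝 ‖w - (z'.re : ℂ)‖) := by
      have h4 : Tendsto (fun k => (((z (φ k)).re : ℝ) : ℂ)) atTop (𝓝 (z'.re : ℂ)) :=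
        (Complex.continuous_ofReal.tendsto _).comp ((Complex.continuous_re.tendsto _).comp hlim)
      exact ((hvt.comp hφ.tendsto_atTop).sub h4).norm
    have hb : Tendsto (fun k => |(z (φ k)).im|) atTop (𝓝 |z'.im|) :=
      ((Complex.continuous_im.tendsto _).comp hlim).abs
    exact le_of_tendsto_of_tendsto' ha hb (fun k => hzv (φ k))
  refine ⟨z', ?_, ?_, hineq⟩
  · intro h0
    have h5 := Complex.abs_im_le_norm (w - (z'.re : ℂ))
    simp only [Complex.sub_im, Complex.ofReal_im, sub_zero] at h5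
    rw [h0, abs_zero] at hineq
    linarith
  · have hcomp : TendstoLocallyUniformly
        (fun (k : ℕ) (x : ℂ) => aeval x (P (N (φ k)))) f atTop := by
      intro u hu x
      obtain ⟨t, ht, h⟩ := hder0 u hu x
      exact ⟨t, ht, hNt.eventually h⟩
    have ht := hcomp.tendsto_comp hfd.continuous.continuousAt hlim
    have hzero : (fun k => aeval ((z ∘ φ) k) (P (N (φ k)))) = fun _ => (0 : ℂ) := by
      funext k
      exact hz0 (φ k)
    rw [hzero] at ht
    exact (tendsto_nhds_unique ht tendsto_const_nhds)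

end Pool.Agent.H24R2.JP
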