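import Pool.Agent.H24R2.JP.OpBase

set_option autoImplicit false

/-!
# The operators `a f + x f'` keep the class `Good`
-/

namespace Pool.Agent.H24R2.JP

open Complex Filter Topology Polynomial OpBase

namespace OpGoodAux

/-- the polynomial operator -/
noncomputable def QQ (a : ℝ) (P : ℝ[X]) : ℝ[X] := Polynomial.C a * P + Polynomial.X * derivative P

theorem aeval_QQ (a : ℝ) (P : ℝ[X]) (x : ℂ) :
    aeval x (QQ a P) = (a : ℂ) * aeval x P + x * aeval x (derivative P) := by
  simp [QQ]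

theorem zero_mem_par : (0 : ℂ) ∈ Par := by
  simp [Par]

/-- separation of a point outside `Par` from `Par` -/
theorem sep {w p : ℂ} (hw : w ∉ Par) (hp : p ∈ Par) :
    0 < ((1 + 2 * (w.im : ℂ) * I) * (1 / (w - p))).re := by
  simp only [Par, Set.mem_setOf_eq, not_le] at hw hp
  have hne : w - p ≠ 0 := by
    intro h
    rw [sub_eq_zero] at h
    rw [h] at hw
    linarith
  have hpos : 0 < Complex.normSq (w - p) := Complex.normSq_pos.2 hne
  have e : ((1 + 2 * (w.im : ℂ) * I) * (1 / (w - p))).re =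
      ((w.re - p.re) + 2 * w.im * (w.im - p.im)) / Complex.normSq (w - p) := by
    rw [one_div, Complex.mul_re, Complex.inv_re, Complex.inv_im]
    simp only [Complex.add_re, Complex.add_im, Complex.one_re, Complex.one_im, Complex.mul_re,
      Complex.mul_im, Complex.ofReal_re, Complex.ofReal_im, Complex.I_re, Complex.I_im,
      Complex.sub_re, Complex.sub_im, Complex.re_ofNat, Complex.im_ofNat]
    field_simp
    ring
  rw [e]
  apply div_pos _ hpos
  nlinarith [sq_nonneg (w.im - p.im)]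

theorem sum_nonneg_re (s : Multiset ℂ) (u : ℂ) (f : ℂ → ℂ) (h : ∀ z ∈ s, 0 < (u * f z).re) :
    0 ≤ (u * (s.map f).sum).re := by
  induction s using Multiset.induction_on with
  | empty => simp
  | cons a s ih =>
    rw [Multiset.map_cons, Multiset.sum_cons, mul_add, Complex.add_re]
    have ha := h a (Multiset.mem_cons_self a s)
    have := ih (fun z hz => h z (Multiset.mem_cons_of_mem hz))
    linarith

/-- Gauss-Lucas for `a P + X P'` -/
theorem gl_QQ (a : ℝ) (ha : 0 < a) (P : ℝ[X]) (hP : ∀ x : ℂ, aeval x P = 0 → x ∈ Par) (w : ℂ)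
    (hw : aeval w (QQ a P) = 0) : w ∈ Par := by
  by_contra hcon
  have hPw : aeval w P ≠ 0 := fun h => hcon (hP w h)
  set Q : ℂ[X] := P.map (algebraMap ℝ ℂ) with hQ
  have hQe : ∀ z : ℂ, Q.eval z = aeval z P := by
    intro z
    rw [hQ, eval_map_algebraMap]
  have hQd : ∀ z : ℂ, Q.derivative.eval z = aeval z (derivative P) := by
    intro z
    rw [hQ, derivative_map, eval_map_algebraMap]
  have hQw : Q.eval w ≠ 0 := by
    rw [hQe]
    exact hPw
  have hQ0 : Q ≠ 0 := by
    intro h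
    rw [h] at hQw
    simp at hQw
  have e1 := (IsAlgClosed.splits Q).eval_derivative_div_eval_of_ne_zero hQw
  rw [aeval_QQ] at hw
  have hw0 : w ≠ 0 := by
    intro h
    rw [h] at hcon
    exact hcon zero_mem_par
  have e2 : (a : ℂ) * (1 / (w - 0)) + (Q.roots.map fun z => 1 / (w - z)).sum = 0 := by
    rw [← e1, hQd, hQe, sub_zero]
    field_simp
    linear_combination hw
  have h1 : 0 ≤ ((1 + 2 * (w.im : ℂ) * I) * (Q.roots.map fun z => 1 / (w - z)).sum).re := by
    apply sum_nonneg_re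
    intro z hz
    apply sep hcon
    apply hP
    rw [mem_roots hQ0, IsRoot, hQe] at hz
    exact hz
  have h2 := sep hcon zero_mem_par
  have h3 : 0 < ((a : ℂ) * ((1 + 2 * (w.im : ℂ) * I) * (1 / (w - 0)))).re := by
    rw [Complex.re_ofReal_mul]
    exact mul_pos ha h2
  have h4 := congrArg (fun c => ((1 + 2 * (w.im : ℂ) * I) * c).re) e2
  simp only [mul_zero, Complex.zero_re] at h4
  have h5 : ((1 + 2 * (w.im : ℂ) * I) * ((a : ℂ) * (1 / (w - 0)) +
      (Q.roots.map fun z => 1 / (w - z)).sum)).re =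
      ((a : ℂ) * ((1 + 2 * (w.im : ℂ) * I) * (1 / (w - 0)))).re +
      ((1 + 2 * (w.im : ℂ) * I) * (Q.roots.map fun z => 1 / (w - z)).sum).re := by
    rw [← Complex.add_re]
    congr 1
    ring
  linarith

/-- convergence -/
theorem tend_QQ (h1 : SDer) {f : ℂ → ℂ} {P : ℕ → ℝ[X]} (hP : App f P) (a : ℝ) :
    TendstoLocallyUniformly (fun (N : ℕ) (x : ℂ) => aeval x (QQ a (P N))) (TT a f) atTop := by
  have hd := (h1 f P hP 1).1
  have hf := hP.2
  rw [iteratedDeriv_one] at hd
  rw [← tendstoLocallyUniformlyOn_univ,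
    tendstoLocallyUniformlyOn_iff_forall_isCompact isOpen_univ] at hd hf ⊢
  intro K hKu hK
  have hd' := hd K hKu hK
  have hf' := hf K hKu hK
  rw [Metric.tendstoUniformlyOn_iff] at hd' hf' ⊢
  obtain ⟨R, hR⟩ := hK.isBounded.subset_closedBall 0
  intro ε hε
  have hM : 0 < |a| + |R| + 1 := by positivity
  filter_upwards [hd' (ε / (2 * (|a| + |R| + 1))) (by positivity),
    hf' (ε / (2 * (|a| + |R| + 1))) (by positivity)] with N hN1 hN2 x hx
  have h3 := hN1 x hx
  have h4 := hN2 x hx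
  have hxR : ‖x‖ ≤ |R| := by
    have := hR hx
    rw [mem_closedBall_zero_iff] at this
    exact this.trans (le_abs_self R)
  rw [dist_eq_norm] at h3 h4 ⊢
  have e : TT a f x - aeval x (QQ a (P N)) = (a : ℂ) * (f x - aeval x (P N)) +
      x * (deriv f x - aeval x (derivative^[1] (P N))) := by
    rw [aeval_QQ]
    simp only [TT, Function.iterate_one]
    ring
  rw [e]
  have h5 : ‖(a : ℂ) * (f x - aeval x (P N))‖ ≤ (|a| + |R| + 1) * ‖f x - aeval x (P N)‖ := by
    rw [norm_mul, Complex.norm_real, Real.norm_eq_abs]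
    gcongr
    have := abs_nonneg R
    linarith
  have h6 : ‖x * (deriv f x - aeval x (derivative^[1] (P N)))‖ ≤
      (|a| + |R| + 1) * ‖deriv f x - aeval x (derivative^[1] (P N))‖ := by
    rw [norm_mul]
    gcongr
    have := abs_nonneg a
    linarith
  have h7 : (|a| + |R| + 1) * (ε / (2 * (|a| + |R| + 1))) = ε / 2 := by
    field_simp
  have h8 : (|a| + |R| + 1) * ‖f x - aeval x (P N)‖ < ε / 2 := by
    rw [← h7]
    exact mul_lt_mul_of_pos_left h4 hM
  have h9 : (|a| + |R| + 1) * ‖deriv f x - aeval x (derivative^[1] (P N))‖ < ε / 2 := by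
    rw [← h7]
    exact mul_lt_mul_of_pos_left h3 hM
  calc _ ≤ ‖(a : ℂ) * (f x - aeval x (P N))‖ + ‖x * (deriv f x - aeval x (derivative^[1] (P N)))‖ :=
        norm_add_le _ _
    _ < ε := by linarith

theorem app_QQ (h1 : SDer) {f : ℂ → ℂ} {P : ℕ → ℝ[X]} (hP : App f P) {a : ℝ} (ha : 0 < a) :
    App (TT a f) (fun N => QQ a (P N)) :=
  ⟨fun N x hx => gl_QQ a ha (P N) (hP.1 N) x hx, tend_QQ h1 hP a⟩

end OpGoodAux

open OpGoodAux

theorem opGood (h : SDer) : SOpGood := by
  intro f a hf ha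
  obtain ⟨hfd, ⟨P, hP⟩, hne⟩ := hf
  refine ⟨TT_diff a hfd, ⟨_, app_QQ h hP ha⟩, fun k => ?_⟩
  rw [iter_TT a hfd k]
  unfold TT
  rw [zero_mul, add_zero]
  have h1 : ((a + (k : ℝ) : ℝ) : ℂ) ≠ 0 := by
    exact_mod_cast (by positivity : (0 : ℝ) < a + k).ne'
  exact mul_ne_zero h1 (hne k)

end Pool.Agent.H24R2.JP
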