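import Pool.Agent.H24R2.JP.Spec2
import Pool.Agent.H24R2.JP.ParCirc

set_option autoImplicit false

namespace Pool.Agent.H24R2.JP.OpLagAux

open Complex Filter Metric Topology Polynomial Set

/-- `(g'/g)' = - ∑ 1/(x-a)^2` for a product of linear factors. -/
theorem logprod (x : ℂ) (s : Multiset ℂ) (hs : x ∉ s) :
    ((s.map (fun a => X - C a)).prod).eval x ≠ 0 ∧
    (derivative (derivative (s.map (fun a => X - C a)).prod)).eval x /
        ((s.map (fun a => X - C a)).prod).eval x -
      ((derivative (s.map (fun a => X - C a)).prod).eval x /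
        ((s.map (fun a => X - C a)).prod).eval x) ^ 2 =
      - (s.map (fun a => 1 / (x - a) ^ 2)).sum := by
  induction s using Multiset.induction_on with
  | empty => simp
  | cons a s ih =>
    have hxa : x ≠ a := by
      intro h
      apply hs
      rw [h]
      exact Multiset.mem_cons_self a s
    have hxs : x ∉ s := fun h => hs (Multiset.mem_cons_of_mem h)
    obtain ⟨ih1, ih2⟩ := ih hxs
    have hxa' : x - a ≠ 0 := sub_ne_zero.2 hxa
    rw [Multiset.map_cons, Multiset.prod_cons, Multiset.map_cons, Multiset.sum_cons]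
    set g := (s.map (fun a => X - C a)).prod with hg
    have e0 : ((X - C a) * g).eval x = (x - a) * g.eval x := by simp
    have e1 : (derivative ((X - C a) * g)).eval x = g.eval x + (x - a) * (derivative g).eval x := by
      simp [derivative_mul]
    have e2 : (derivative (derivative ((X - C a) * g))).eval x =
        2 * (derivative g).eval x + (x - a) * (derivative (derivative g)).eval x := by
      simp [derivative_mul]
      ring
    refine ⟨by rw [e0]; exact mul_ne_zero hxa' ih1, ?_⟩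
    rw [e0, e1, e2, neg_add, ← ih2]
    field_simp
    ring

theorem logsum (Q : ℂ[X]) (x : ℂ) (hx : Q.eval x ≠ 0) :
    (derivative (derivative Q)).eval x / Q.eval x - ((derivative Q).eval x / Q.eval x) ^ 2 =
      - (Q.roots.map (fun a => 1 / (x - a) ^ 2)).sum := by
  have hQ : Q ≠ 0 := by
    rintro rfl
    simp at hx
  have hsp : Q = C Q.leadingCoeff * (Q.roots.map (fun a => X - C a)).prod :=
    (IsAlgClosed.splits Q).eq_prod_roots
  have hxr : x ∉ Q.roots := by
    intro h
    exact hx ((mem_roots hQ).1 h)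
  obtain ⟨h1, h2⟩ := logprod x Q.roots hxr
  rw [← h2]
  have hc : Q.leadingCoeff ≠ 0 := leadingCoeff_ne_zero.2 hQ
  set g := (Q.roots.map (fun a => X - C a)).prod with hg
  have e0 : Q.eval x = Q.leadingCoeff * g.eval x := by
    conv_lhs => rw [hsp]
    simp
  have e1 : (derivative Q).eval x = Q.leadingCoeff * (derivative g).eval x := by
    conv_lhs => rw [hsp]
    simp
  have e2 : (derivative (derivative Q)).eval x = Q.leadingCoeff * (derivative (derivative g)).eval x := by
    conv_lhs => rw [hsp]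
    simp
  rw [e0, e1, e2]
  field_simp

theorem re_inv_sq {u : ℂ} (hu : |u.im| ≤ |u.re|) : 0 ≤ (1 / u ^ 2).re := by
  rw [one_div, Complex.inv_re]
  apply div_nonneg _ (Complex.normSq_nonneg _)
  have h : (u ^ 2).re = u.re ^ 2 - u.im ^ 2 := by
    rw [pow_two, Complex.mul_re]; ring
  rw [h]
  have := sq_le_sq.2 hu
  linarith

theorem re_inv_sq_pos {u : ℂ} (hu : |u.im| < |u.re|) : 0 < (1 / u ^ 2).re := by
  rw [one_div, Complex.inv_re]
  have h : (u ^ 2).re = u.re ^ 2 - u.im ^ 2 := by
    rw [pow_two, Complex.mul_re]; ring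
  have h2 := sq_lt_sq.2 hu
  have h3 : 0 < (u ^ 2).re := by rw [h]; linarith
  apply div_pos h3
  apply Complex.normSq_pos.2
  intro h0
  rw [h0] at h3
  simp at h3

/-- far points of the parabola region -/
theorem far {R x0 : ℝ} (hR : 10 ≤ R) (hx : |x0| ≤ R / 2) {z : ℂ} (hz : z ∈ Par) (hzR : R < ‖z‖) :
    |z.im| < |x0 - z.re| := by
  have hz' : z.re + z.im ^ 2 ≤ 1 / 4 := hz
  have hsq : ‖z‖ ^ 2 = z.re ^ 2 + z.im ^ 2 := by
    rw [← Complex.normSq_eq_norm_sq, Complex.normSq_apply]; ring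
  set X := -z.re with hX
  have hre : z.re = -X := by rw [hX]; ring
  have hY : z.im ^ 2 ≤ X + 1 / 4 := by rw [hre] at hz'; linarith
  have hX0 : -(1 / 4) ≤ X := by nlinarith [sq_nonneg z.im]
  have hn : ‖z‖ ≤ X + 1 / 2 := by
    apply le_of_sq_le_sq _ (by linarith)
    rw [hsq, hre]
    nlinarith
  have hXR : R - 1 / 2 < X := by linarith
  have h1 : X / 2 - 1 / 4 ≤ |x0 - z.re| := by
    have h2 : x0 + X ≤ |x0 - z.re| := by
      have := le_abs_self (x0 - z.re)
      rw [hre] at this ⊢
      linarith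
    have h3 := neg_abs_le x0
    linarith
  have h4 : |z.im| < X / 2 - 1 / 4 := by
    apply lt_of_pow_lt_pow_left₀ 2 (by linarith)
    rw [sq_abs]
    nlinarith
  linarith

/-- All roots of the approximants are good with respect to `x0`. -/
theorem roots_good {f : ℂ → ℂ} {P : ℕ → ℝ[X]} (hf : Differentiable ℂ f) (hP : App f P) {R x0 : ℝ}
    (hR : 10 ≤ R) (hz : ∀ w : ℂ, ‖w‖ ≤ R → f w = 0 → w.im = 0) (hx : |x0| ≤ R / 2)
    (h0 : f (x0 : ℂ) ≠ 0) :
    ∀ᶠ N in atTop, ∀ z : ℂ, aeval z (P N) = 0 → |z.im| < |x0 - z.re| := by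
  set K : Set ℂ := closedBall (0 : ℂ) R ∩ {z : ℂ | |x0 - z.re| ≤ |z.im|} with hK
  have hKc : IsCompact K := by
    apply (isCompact_closedBall (0 : ℂ) R).inter_right
    apply isClosed_le
    · exact (continuous_const.sub Complex.continuous_re).abs
    · exact Complex.continuous_im.abs
  have hKf : ∀ z ∈ K, f z ≠ 0 := by
    intro z hzK h
    have h1 : ‖z‖ ≤ R := by simpa using hzK.1
    have him := hz z h1 h
    have h2 : |x0 - z.re| ≤ |z.im| := hzK.2
    rw [him, abs_zero] at h2
    have h3 : x0 - z.re = 0 := abs_eq_zero.1 (le_antisymm h2 (abs_nonneg _))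
    apply h0
    have : (x0 : ℂ) = z := by
      apply Complex.ext
      · rw [Complex.ofReal_re]; linarith
      · rw [Complex.ofReal_im, him]
    rw [this, h]
  obtain ⟨δ, hδ, hδf⟩ : ∃ δ : ℝ, 0 < δ ∧ ∀ z ∈ K, δ ≤ ‖f z‖ := by
    rcases K.eq_empty_or_nonempty with he | hne
    · exact ⟨1, one_pos, by simp [he]⟩
    · obtain ⟨w, hw, hmin⟩ := hKc.exists_isMinOn hne hf.continuous.norm.continuousOn
      exact ⟨‖f w‖, norm_pos_iff.2 (hKf w hw), fun z hzK => hmin hzK⟩
  have hunif : TendstoUniformlyOn (fun (N : ℕ) (x : ℂ) => aeval x (P N)) f atTop K :=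
    (tendstoLocallyUniformlyOn_iff_forall_isCompact isOpen_univ).1
      (hP.2.tendstoLocallyUniformlyOn) _ (subset_univ _) hKc
  have hev := (Metric.tendstoUniformlyOn_iff.1 hunif) δ hδ
  filter_upwards [hev] with N hN z hz0
  rcases le_or_gt ‖z‖ R with h1 | h1
  · by_contra hcon
    push Not at hcon
    have hzK : z ∈ K := ⟨by simpa using h1, hcon⟩
    have h2 := hN z hzK
    have h3 := hδf z hzK
    rw [hz0, dist_zero_right] at h2
    linarith
  · exact far hR hx (hP.1 N z hz0) h1

theorem eval_map_eq (Q : ℝ[X]) (x : ℂ) : (Q.map (algebraMap ℝ ℂ)).eval x = aeval x Q := by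
  rw [eval_map_algebraMap]

theorem pw {F : ℕ → ℂ → ℂ} {f : ℂ → ℂ} (h : TendstoLocallyUniformly F f atTop) (x : ℂ) :
    Tendsto (fun N => F N x) atTop (𝓝 (f x)) :=
  (tendstoLocallyUniformlyOn_univ.2 h).tendsto_at (mem_univ x)

/-- The second logarithmic derivative of the approximants converges. -/
theorem tends (h1 : SDer) {f : ℂ → ℂ} {P : ℕ → ℝ[X]} (hP : App f P) {x : ℂ} (h0 : f x ≠ 0) :
    Tendsto (fun N => (((P N).map (algebraMap ℝ ℂ)).roots.map (fun a => 1 / (x - a) ^ 2)).sum) atTop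
      (𝓝 (-(iteratedDeriv 2 f x / f x - (iteratedDeriv 1 f x / f x) ^ 2))) := by
  have t0 : Tendsto (fun N => aeval x (P N)) atTop (𝓝 (f x)) := by
    have := pw (h1 f P hP 0).1 x
    simpa using this
  have t1 : Tendsto (fun N => aeval x (derivative (P N))) atTop (𝓝 (iteratedDeriv 1 f x)) := by
    have := pw (h1 f P hP 1).1 x
    simpa using this
  have t2 : Tendsto (fun N => aeval x (derivative (derivative (P N)))) atTop
      (𝓝 (iteratedDeriv 2 f x)) := by
    have := pw (h1 f P hP 2).1 x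
    simpa using this
  have t := ((t2.div t0 h0).sub ((t1.div t0 h0).pow 2)).neg
  refine t.congr' ?_
  filter_upwards [t0.eventually_ne h0] with N hN
  have hN' : ((P N).map (algebraMap ℝ ℂ)).eval x ≠ 0 := by rwa [eval_map_eq]
  have h := logsum ((P N).map (algebraMap ℝ ℂ)) x hN'
  rw [derivative_map, derivative_map, eval_map_eq, eval_map_eq, eval_map_eq] at h
  simp only [Pi.div_apply, Pi.sub_apply, Pi.pow_apply, Pi.neg_apply]
  rw [h, neg_neg]

theorem sum_re (s : Multiset ℂ) (F : ℂ → ℂ) (hF : ∀ a ∈ s, 0 ≤ (F a).re) :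
    0 ≤ ((s.map F).sum).re := by
  induction s using Multiset.induction_on with
  | empty => simp
  | cons a s ih =>
    rw [Multiset.map_cons, Multiset.sum_cons, Complex.add_re]
    exact add_nonneg (hF a (Multiset.mem_cons_self a s))
      (ih (fun b hb => hF b (Multiset.mem_cons_of_mem hb)))

theorem le_sum_re (s : Multiset ℂ) (F : ℂ → ℂ) (hF : ∀ a ∈ s, 0 ≤ (F a).re) {b : ℂ} (hb : b ∈ s) :
    (F b).re ≤ ((s.map F).sum).re := by
  obtain ⟨t, rfl⟩ := Multiset.exists_cons_of_mem hb
  rw [Multiset.map_cons, Multiset.sum_cons, Complex.add_re]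
  have := sum_re t F (fun a ha => hF a (Multiset.mem_cons_of_mem ha))
  linarith

/-- Main lemma, weak form. -/
theorem core (h1 : SDer) {f : ℂ → ℂ} {P : ℕ → ℝ[X]} (hf : Differentiable ℂ f) (hP : App f P)
    {R x0 : ℝ} (hR : 10 ≤ R) (hz : ∀ w : ℂ, ‖w‖ ≤ R → f w = 0 → w.im = 0) (hx : |x0| ≤ R / 2)
    (h0 : f (x0 : ℂ) ≠ 0) :
    (iteratedDeriv 2 f x0 / f x0 - (iteratedDeriv 1 f x0 / f x0) ^ 2).re ≤ 0 := by
  have t := tends h1 hP h0
  have t' := (Complex.continuous_re.tendsto _).comp t
  have hnn : 0 ≤ (-(iteratedDeriv 2 f x0 / f x0 - (iteratedDeriv 1 f x0 / f x0) ^ 2)).re := by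
    refine ge_of_tendsto t' ?_
    filter_upwards [roots_good hf hP hR hz hx h0] with N hN
    apply sum_re
    intro a ha
    have ha0 : aeval a (P N) = 0 := by
      rw [← eval_map_eq]
      by_cases hne : (P N).map (algebraMap ℝ ℂ) = 0
      · rw [hne]; simp
      · exact (mem_roots hne).1 ha
    apply re_inv_sq
    simp only [Complex.sub_im, Complex.ofReal_im, Complex.sub_re, Complex.ofReal_re, zero_sub, abs_neg]
    exact (hN a ha0).le
  rw [Complex.neg_re] at hnn
  linarith

/-- Main lemma, strict form. -/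
theorem core_lt (h1 : SDer) {f : ℂ → ℂ} {P : ℕ → ℝ[X]} (hf : Differentiable ℂ f) (hP : App f P)
    {R x0 : ℝ} (hR : 10 ≤ R) (hz : ∀ w : ℂ, ‖w‖ ≤ R → f w = 0 → w.im = 0) (hx : |x0| ≤ R / 2)
    (h0 : f (x0 : ℂ) ≠ 0) {w : ℂ} (hw : f w = 0) :
    (iteratedDeriv 2 f x0 / f x0 - (iteratedDeriv 1 f x0 / f x0) ^ 2).re < 0 := by
  have hwx : |w.im| < |x0 - w.re| := by
    rcases le_or_gt ‖w‖ R with h2 | h2
    · have him := hz w h2 hw
      rw [him, abs_zero]
      apply abs_pos.2
      intro h3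
      apply h0
      have : (x0 : ℂ) = w := by
        apply Complex.ext
        · rw [Complex.ofReal_re]; linarith
        · rw [Complex.ofReal_im, him]
      rw [this, hw]
    · refine far hR hx ?_ h2
      have key : w ∈ closure Par := by
        rw [Metric.mem_closure_iff]
        intro ε hε
        have hh := ParCircAux.hurw (F := fun (N : ℕ) (x : ℂ) => aeval x (P N))
          (fun N => ParCircAux.diff_aeval _) hP.2 hf hw h0 hε
        obtain ⟨N, z, hz1, hz0⟩ := hh.exists
        refine ⟨z, hP.1 N z hz0, ?_⟩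
        rw [dist_comm, dist_eq_norm]
        exact hz1
      rwa [ParCircAux.closed_par.closure_eq] at key
  set F : ℂ → ℂ := fun a => 1 / ((x0 : ℂ) - a) ^ 2 with hF
  have hFw : 0 < (F w).re := by
    apply re_inv_sq_pos
    simpa using hwx
  have hne : (x0 : ℂ) - w ≠ 0 := by
    intro h
    rw [hF] at hFw
    simp only [h] at hFw
    simp at hFw
  have hcont : ContinuousAt (fun a => (F a).re) w := by
    apply Complex.continuous_re.continuousAt.comp
    apply ContinuousAt.div continuousAt_const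
    · fun_prop
    · exact pow_ne_zero 2 hne
  have hnear : ∀ᶠ a in 𝓝 w, (F w).re / 2 < (F a).re := hcont.eventually_const_lt (by linarith)
  obtain ⟨ε, hε, hball⟩ := Metric.eventually_nhds_iff_ball.1 hnear
  have hh := ParCircAux.hurw (F := fun (N : ℕ) (x : ℂ) => aeval x (P N))
    (fun N => ParCircAux.diff_aeval _) hP.2 hf hw h0 hε
  have t := tends h1 hP h0
  have t' := (Complex.continuous_re.tendsto _).comp t
  have hev : ∀ᶠ N in atTop, aeval (x0 : ℂ) (P N) ≠ 0 := by
    have t0 : Tendsto (fun N => aeval (x0 : ℂ) (P N)) atTop (𝓝 (f x0)) := pw hP.2 (x0 : ℂ)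
    exact t0.eventually_ne h0
  have hnn : (F w).re / 2 ≤ (-(iteratedDeriv 2 f x0 / f x0 - (iteratedDeriv 1 f x0 / f x0) ^ 2)).re := by
    refine ge_of_tendsto t' ?_
    filter_upwards [roots_good hf hP hR hz hx h0, hh, hev] with N hN ⟨b, hb, hb0⟩ hN0
    have hne0 : (P N).map (algebraMap ℝ ℂ) ≠ 0 := by
      intro h
      apply hN0
      rw [← eval_map_eq, h]
      simp
    have hbm : b ∈ ((P N).map (algebraMap ℝ ℂ)).roots := by
      rw [mem_roots hne0, IsRoot.def, eval_map_eq]
      exact hb0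
    have hle := le_sum_re ((P N).map (algebraMap ℝ ℂ)).roots F (by
      intro a ha
      have ha0 : aeval a (P N) = 0 := by
        rw [← eval_map_eq]
        exact (mem_roots hne0).1 ha
      apply re_inv_sq
      simp only [Complex.sub_im, Complex.ofReal_im, Complex.sub_re, Complex.ofReal_re, zero_sub, abs_neg]
      exact (hN a ha0).le) hbm
    have hb2 := hball b (by rwa [mem_ball, dist_eq_norm])
    simp only [Function.comp_apply]
    exact (hb2.le.trans hle)
  rw [Complex.neg_re] at hnn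
  linarith

end Pool.Agent.H24R2.JP.OpLagAux

namespace Pool.Agent.H24R2.JP

open Complex Filter Topology Polynomial OpLagAux

theorem opLag (h1 : SDer) : SOpLag := by
  intro f a R x0 hf ha hR hz hx0 hx hT hT'
  by_contra h0
  obtain ⟨hfd, ⟨P, hP⟩, -⟩ := hf
  have hc := core h1 hfd hP hR hz hx h0
  have hd1 : Differentiable ℂ (deriv f) := by
    have := ParCircAux.diff_iter hfd 1
    rwa [iteratedDeriv_one] at this
  have hx0' : (x0 : ℂ) ≠ 0 := by exact_mod_cast hx0
  have hderiv : deriv (TT a f) (x0 : ℂ) =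
      (a : ℂ) * deriv f x0 + (deriv f x0 + (x0 : ℂ) * deriv (deriv f) x0) := by
    have e : TT a f = fun x => (a : ℂ) * f x + x * deriv f x := rfl
    rw [e]
    have h2 : HasDerivAt (fun x : ℂ => (a : ℂ) * f x + x * deriv f x)
        ((a : ℂ) * deriv f x0 + (1 * deriv f x0 + (x0 : ℂ) * deriv (deriv f) x0)) (x0 : ℂ) :=
      ((hfd _).hasDerivAt.const_mul _).add ((hasDerivAt_id _).mul (hd1 _).hasDerivAt)
    rw [h2.deriv, one_mul]
  have e1 : iteratedDeriv 1 f x0 = deriv f x0 := by rw [iteratedDeriv_one]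
  have e2 : iteratedDeriv 2 f x0 = deriv (deriv f) x0 := by
    rw [iteratedDeriv_succ, iteratedDeriv_one]
  rw [e1, e2] at hc
  have hTT : (a : ℂ) * f x0 + (x0 : ℂ) * deriv f x0 = 0 := hT
  rw [hderiv] at hT'
  have ef1 : deriv f (x0 : ℂ) = -(a : ℂ) * f x0 / x0 := by
    field_simp
    linear_combination hTT
  have ef2 : deriv (deriv f) (x0 : ℂ) = (a : ℂ) * (a + 1) * f x0 / (x0 : ℂ) ^ 2 := by
    have h3 : (x0 : ℂ) * deriv (deriv f) x0 = -((a : ℂ) + 1) * deriv f x0 := by
      linear_combination hT'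
    rw [ef1] at h3
    field_simp
    field_simp at h3
    linear_combination h3
  have hval : deriv (deriv f) (x0 : ℂ) / f x0 - (deriv f x0 / f x0) ^ 2 = ((a / x0 ^ 2 : ℝ) : ℂ) := by
    rw [ef1, ef2]
    push_cast
    field_simp
    ring
  rw [hval, Complex.ofReal_re] at hc
  have : 0 < a / x0 ^ 2 := by positivity
  linarith

end Pool.Agent.H24R2.JP
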