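import Pool.Agent.H24R2.JP.Spec

set_option autoImplicit false

namespace Pool.Agent.H24R2.JP

namespace SectorAux

open Complex Polynomial

/-- The operator `f(D)` on `ℂ[X]`. -/
noncomputable def op (f : ℝ[X]) : Module.End ℂ ℂ[X] :=
  aeval (derivative : Module.End ℂ ℂ[X]) f

lemma op_mul (f g : ℝ[X]) (Q : ℂ[X]) : op (f * g) Q = op f (op g Q) := by
  unfold op
  rw [map_mul]
  rfl

lemma op_C (c : ℝ) (Q : ℂ[X]) : op (C c) Q = C (c : ℂ) * Q := by
  unfold op
  rw [aeval_C, Module.algebraMap_end_apply]
  rw [← smul_eq_C_mul]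
  ext n
  simp

lemma op_X (Q : ℂ[X]) : op X Q = derivative Q := by
  unfold op
  rw [aeval_X]

lemma op_lin (r : ℝ) (Q : ℂ[X]) : op (X - C r) Q = derivative Q - C (r : ℂ) * Q := by
  have h : op (X - C r) = op X - op (C r) := by unfold op; rw [map_sub]
  rw [h, LinearMap.sub_apply, op_X, op_C]

lemma op_quad (a : ℂ) (Q : ℂ[X]) : op (X ^ 2 - C (2 * a.re) * X + C (‖a‖ ^ 2)) Q =
    C ((‖a‖ ^ 2 : ℝ) : ℂ) * Q - C ((2 * a.re : ℝ) : ℂ) * derivative Q +
    derivative (derivative Q) := by
  have h : op (X ^ 2 - C (2 * a.re) * X + C (‖a‖ ^ 2)) =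
      op (X * X) - op (C (2 * a.re) * X) + op (C (‖a‖ ^ 2)) := by
    unfold op
    rw [map_add, map_sub, pow_two]
  rw [h, LinearMap.add_apply, LinearMap.sub_apply, op_mul, op_mul, op_X, op_X, op_C, op_C]
  ring

/-- all roots real -/
def RR (Q : ℂ[X]) : Prop := ∀ z, Q.IsRoot z → z.im = 0

lemma RR.ne_zero {Q : ℂ[X]} (h : RR Q) : Q ≠ 0 := by
  rintro rfl
  have := h I (by simp [IsRoot])
  simp at this

lemma lin_real (Q : ℂ[X]) (hQ : RR Q) (r : ℝ) (hr : r ≠ 0) :
    RR (derivative Q - C (r : ℂ) * Q) := by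
  intro z hz
  by_contra him
  have hQz : Q.eval z ≠ 0 := fun h => him (hQ z h)
  have h1 : (derivative Q).eval z = (r : ℂ) * Q.eval z := by
    have := hz
    rw [IsRoot, eval_sub, eval_mul, eval_C, sub_eq_zero] at this
    exact this
  have h2 := (IsAlgClosed.splits Q).eval_derivative_div_eval_of_ne_zero hQz
  rw [h1, mul_div_assoc, div_self hQz, mul_one] at h2
  have h3 : ((Q.roots.map fun x => 1 / (z - x)).sum).im = 0 := by
    rw [← h2]; exact ofReal_im r
  -- each term has imaginary part of the sign of `-z.im`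
  have h4 : ∀ s : Multiset ℂ, (∀ x ∈ s, x.im = 0) →
      z.im * ((s.map fun x => 1 / (z - x)).sum).im ≤ 0 ∧
      (s ≠ 0 → z.im * ((s.map fun x => 1 / (z - x)).sum).im < 0) := by
    intro s
    induction s using Multiset.induction_on with
    | empty => intro _; simp
    | cons a s ih =>
      intro hs
      have ha : a.im = 0 := hs a (Multiset.mem_cons_self a s)
      obtain ⟨i1, i2⟩ := ih fun x hx => hs x (Multiset.mem_cons_of_mem hx)
      have hza : z - a ≠ 0 := by
        intro h
        have : (z - a).im = 0 := by rw [h]; simp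
        rw [sub_im, ha, sub_zero] at this
        exact him this
      have hneg : z.im * (1 / (z - a)).im < 0 := by
        rw [one_div, inv_im, sub_im, ha, sub_zero]
        have hp : 0 < normSq (z - a) := normSq_pos.2 hza
        have : z.im * (-z.im / normSq (z - a)) = -(z.im ^ 2 / normSq (z - a)) := by ring
        rw [this, neg_lt_zero]
        positivity
      rw [Multiset.map_cons, Multiset.sum_cons, add_im, mul_add]
      constructor
      · linarith
      · intro _; linarith
  have hroots : ∀ x ∈ Q.roots, x.im = 0 := fun x hx => hQ x (isRoot_of_mem_roots hx)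
  obtain ⟨_, h5⟩ := h4 Q.roots hroots
  by_cases h6 : Q.roots = 0
  · rw [h6, Multiset.map_zero, Multiset.sum_zero] at h2
    exact hr (by exact_mod_cast h2)
  · have := h5 h6
    rw [h3, mul_zero] at this
    exact lt_irrefl _ this

lemma main (hC : SChasse) (d : ℕ) : ∀ (N : ℕ) (f : ℝ[X]), f.natDegree ≤ N → f.coeff 0 ≠ 0 →
    (∀ a : ℂ, aeval a f = 0 → (d : ℝ) * a.im ^ 2 ≤ ‖a‖ ^ 2) →
    ∀ Q : ℂ[X], Q.natDegree ≤ d → RR Q → RR (op f Q) := by
  intro N
  induction N with
  | zero =>
    intro f hf h0 _ Q _ hQ z hz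
    obtain ⟨c, rfl⟩ := natDegree_eq_zero.1 (Nat.le_zero.1 hf)
    rw [op_C, IsRoot, eval_mul, eval_C] at hz
    rw [coeff_C_zero] at h0
    rcases mul_eq_zero.1 hz with h | h
    · exact absurd (by exact_mod_cast h) h0
    · exact hQ z h
  | succ N ih =>
    intro f hf h0 hs Q hd hQ
    by_cases hdeg : f.natDegree ≤ N
    · exact ih f hdeg h0 hs Q hd hQ
    have hfd : f.natDegree = N + 1 := by omega
    have hf0 : f ≠ 0 := by rintro rfl; simp at h0
    have hdeg0 : f.degree ≠ 0 := by
      rw [degree_eq_natDegree hf0, hfd]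
      exact_mod_cast Nat.succ_ne_zero N
    obtain ⟨a, ha⟩ := IsAlgClosed.exists_aeval_eq_zero ℂ f hdeg0
    have ha0 : a ≠ 0 := by
      rintro rfl
      rw [← coeff_zero_eq_aeval_zero'] at ha
      exact h0 (by simpa using ha)
    by_cases him : a.im = 0
    · -- real root
      have har : a = ((a.re : ℝ) : ℂ) := by
        apply Complex.ext
        · simp
        · simp [him]
      have hroot : f.IsRoot a.re := by
        rw [har] at ha
        have h1 : aeval ((a.re : ℝ) : ℂ) f = ((f.eval a.re : ℝ) : ℂ) := by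
          have := aeval_algebraMap_apply ℂ a.re f
          simpa using this
        rw [h1] at ha
        exact_mod_cast ha
      obtain ⟨g, hg⟩ := dvd_iff_isRoot.2 hroot
      have hr0 : a.re ≠ 0 := by
        intro h
        apply ha0
        rw [har, h]; simp
      have hg0 : g ≠ 0 := by rintro rfl; rw [mul_zero] at hg; exact hf0 hg
      have hgdeg : g.natDegree ≤ N := by
        have := hfd
        rw [hg, natDegree_mul (X_sub_C_ne_zero _) hg0, natDegree_X_sub_C] at this
        omega
      have hgc : g.coeff 0 ≠ 0 := by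
        intro h
        apply h0
        rw [hg, mul_coeff_zero, h, mul_zero]
      have hgs : ∀ b : ℂ, aeval b g = 0 → (d : ℝ) * b.im ^ 2 ≤ ‖b‖ ^ 2 := by
        intro b hb
        apply hs
        rw [hg, map_mul, hb, mul_zero]
      rw [hg, mul_comm, op_mul, op_lin]
      refine ih g hgdeg hgc hgs _ ?_ (lin_real Q hQ _ hr0)
      refine (natDegree_sub_le _ _).trans (max_le ?_ ?_)
      · exact (natDegree_derivative_le Q).trans (by omega)
      · exact (natDegree_C_mul_le _ _).trans hd
    · -- pair of conjugate roots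
      obtain ⟨g, hg⟩ := quadratic_dvd_of_aeval_eq_zero_im_ne_zero f ha him
      have hg0 : g ≠ 0 := by rintro rfl; rw [mul_zero] at hg; exact hf0 hg
      have hq : (X ^ 2 - C (2 * a.re) * X + C (‖a‖ ^ 2) : ℝ[X]).natDegree = 2 := by
        have : (X ^ 2 - C (2 * a.re) * X + C (‖a‖ ^ 2) : ℝ[X]) =
            C 1 * X ^ 2 + C (-(2 * a.re)) * X + C (‖a‖ ^ 2) := by
          simp only [map_neg, map_one]; ring
        rw [this]
        exact natDegree_quadratic one_ne_zero
      have hq0 : (X ^ 2 - C (2 * a.re) * X + C (‖a‖ ^ 2) : ℝ[X]) ≠ 0 := by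
        intro h
        rw [h] at hq
        simp at hq
      have hgdeg : g.natDegree ≤ N := by
        have := hfd
        rw [hg, natDegree_mul hq0 hg0, hq] at this
        omega
      have hgc : g.coeff 0 ≠ 0 := by
        intro h
        apply h0
        rw [hg, mul_coeff_zero, h, mul_zero]
      have hgs : ∀ b : ℂ, aeval b g = 0 → (d : ℝ) * b.im ^ 2 ≤ ‖b‖ ^ 2 := by
        intro b hb
        apply hs
        rw [hg, map_mul, hb, mul_zero]
      rw [hg, mul_comm, op_mul, op_quad]
      refine ih g hgdeg hgc hgs _ ?_ (hC Q d a hd hQ ha0 (hs a ha))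
      refine (natDegree_add_le _ _).trans (max_le ((natDegree_sub_le _ _).trans
        (max_le ?_ ?_)) ?_)
      · exact (natDegree_C_mul_le _ _).trans hd
      · exact (natDegree_C_mul_le _ _).trans ((natDegree_derivative_le Q).trans (by omega))
      · exact (natDegree_derivative_le _).trans
          ((Nat.sub_le _ _).trans ((natDegree_derivative_le Q).trans (by omega)))

lemma op_pow (f : ℝ[X]) (d : ℕ) (z : ℂ) : (op f (X ^ d)).eval z =
    ∑ j ∈ Finset.range (d + 1),
      (d.choose j : ℂ) * ((j.factorial : ℂ) * ((f.coeff j : ℝ) : ℂ)) * z ^ (d - j) := by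
  have h1 : op f (X ^ d) = ∑ j ∈ Finset.range (max (f.natDegree + 1) (d + 1)),
      C ((f.coeff j : ℝ) : ℂ) * derivative^[j] (X ^ d) := by
    unfold op
    rw [aeval_eq_sum_range' (lt_of_lt_of_le (Nat.lt_succ_self _) (le_max_left _ _)),
      LinearMap.sum_apply]
    refine Finset.sum_congr rfl fun j _ => ?_
    rw [LinearMap.smul_apply, Module.End.pow_apply]
    ext n
    simp
  rw [h1, eval_finsetSum]
  symm
  refine (Finset.sum_subset (Finset.range_subset_range.2 (le_max_right (f.natDegree + 1) (d + 1)))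
    ?_).trans ?_
  · intro j _ hj
    have : d < j := by simpa using hj
    rw [Nat.choose_eq_zero_of_lt this]
    simp
  · refine Finset.sum_congr rfl fun j _ => ?_
    rw [iterate_derivative_X_pow_eq_C_mul, Nat.descFactorial_eq_factorial_mul_choose]
    simp only [eval_mul, eval_C, eval_pow, eval_X, Nat.cast_mul]
    ring

end SectorAux

open Polynomial in
theorem sector (h : SChasse) : SSector := by
  intro f d h0 hs z hz
  rw [← SectorAux.op_pow] at hz
  refine SectorAux.main h d f.natDegree f le_rfl h0 hs (X ^ d) (natDegree_X_pow d).le ?_ z hz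
  intro w hw
  rw [IsRoot, eval_pow, eval_X] at hw
  rcases Nat.eq_zero_or_pos d with hd | hd
  · subst hd; simp at hw
  · rw [pow_eq_zero_iff hd.ne'] at hw
    rw [hw]; simp

end Pool.Agent.H24R2.JP
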