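import Pool.Agent.H24R2.JP.Spec

/-!
# Basic facts about `FF` (task B1, helper455)
-/

set_option autoImplicit false

namespace Pool.Agent.H24R2.JP

open Complex Filter Topology Polynomial

namespace B1h

theorem c2 : (starRingEnd ℂ) (2 : ℂ) = 2 := map_ofNat (starRingEnd ℂ) 2

theorem c4 : (starRingEnd ℂ) (4 : ℂ) = 4 := map_ofNat (starRingEnd ℂ) 4

theorem XX_neg (z : ℂ) : XX (-z) = XX z := by
  unfold XX
  have h : completedRiemannZeta₀ (1 / 2 + -z) = completedRiemannZeta₀ (1 / 2 + z) := by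
    rw [← completedRiemannZeta₀_one_sub]
    congr 1
    ring
  rw [h]
  ring

theorem XX_diff : Differentiable ℂ XX := by
  unfold XX
  have h : Differentiable ℂ fun z : ℂ => completedRiemannZeta₀ (1 / 2 + z) :=
    differentiable_completedZeta₀.comp ((differentiable_const _).add differentiable_id)
  exact (((differentiable_const _).mul (differentiable_id.pow 2)).sub
    (differentiable_const _)).mul h |>.add (differentiable_const _)

theorem XX_zeta (z : ℂ) (hz : 0 ≤ z.re) :
    XX z = (4 * z ^ 2 - 1) * (Gammaℝ (1 / 2 + z) * riemannZeta (1 / 2 + z) + 1 / (1 / 2 + z) +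
      1 / (1 - (1 / 2 + z))) + 4 := by
  have hs0 : (1 / 2 + z : ℂ) ≠ 0 := by
    intro h
    have := congrArg Complex.re h
    simp at this
    linarith
  have hre : 0 < (1 / 2 + z : ℂ).re := by
    simp
    linarith
  have h2 := completedRiemannZeta_eq (1 / 2 + z)
  have h3 := riemannZeta_def_of_ne_zero hs0
  have h4 : Gammaℝ (1 / 2 + z) ≠ 0 := Gammaℝ_ne_zero_of_re_pos hre
  have h5 : completedRiemannZeta (1 / 2 + z) = Gammaℝ (1 / 2 + z) * riemannZeta (1 / 2 + z) := by
    rw [h3, mul_div_cancel₀ _ h4]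
  unfold XX
  rw [← h5, h2]
  ring

theorem GR_conj (s : ℂ) : Gammaℝ ((starRingEnd ℂ) s) = (starRingEnd ℂ) (Gammaℝ s) := by
  unfold Gammaℝ
  rw [map_mul, ← Complex.Gamma_conj]
  have h1 : (starRingEnd ℂ) s / 2 = (starRingEnd ℂ) (s / 2) := by
    rw [map_div₀, c2]
  have h2 : -(starRingEnd ℂ) s / 2 = (starRingEnd ℂ) (-s / 2) := by
    rw [map_div₀, map_neg, c2]
  rw [h1, h2, cpow_conj _ _ (by rw [Complex.arg_ofReal_of_nonneg Real.pi_pos.le]; exact Real.pi_pos.ne)]
  simp

theorem XX_conj (z : ℂ) : XX ((starRingEnd ℂ) z) = (starRingEnd ℂ) (XX z) := by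
  wlog hz : 0 ≤ z.re generalizing z with H
  · have := H (-z) (by rw [Complex.neg_re]; linarith)
    rw [map_neg, XX_neg, XX_neg] at this
    exact this
  · rw [XX_zeta z hz, XX_zeta _ (by simpa using hz)]
    have e : (1 / 2 + (starRingEnd ℂ) z : ℂ) = (starRingEnd ℂ) (1 / 2 + z) := by
      rw [map_add, map_div₀, map_one, c2]
    rw [e, GR_conj, riemannZeta_conj]
    simp only [map_add, map_mul, map_sub, map_div₀, map_pow, map_one, c2, c4]

theorem iter_conj (f : ℂ → ℂ) (hf : ∀ z, f ((starRingEnd ℂ) z) = (starRingEnd ℂ) (f z)) (n : ℕ) :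
    ∀ z, iteratedDeriv n f ((starRingEnd ℂ) z) = (starRingEnd ℂ) (iteratedDeriv n f z) := by
  induction n generalizing f with
  | zero => simpa using hf
  | succ n ih =>
    intro z
    rw [iteratedDeriv_succ']
    refine ih (deriv f) ?_ z
    intro w
    have e : f = (starRingEnd ℂ) ∘ f ∘ (starRingEnd ℂ) := by
      funext u
      rw [Function.comp_apply, Function.comp_apply, hf, Complex.conj_conj]
    conv_lhs => rw [e]
    rw [deriv_conj_conj, Function.comp_apply, Function.comp_apply, Complex.conj_conj]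

theorem hcongr {f g : ℕ → ℂ} {a : ℂ} (h : HasSum f a) (e : ∀ k, g k = f k) :
    HasSum g a := by
  have : g = f := funext e
  rw [this]
  exact h

theorem odd_zero (k : ℕ) : iteratedDeriv (2 * k + 1) XX 0 = 0 := by
  have h := iteratedDeriv_comp_neg (2 * k + 1) XX 0
  have e : (fun x => XX (-x)) = XX := by
    funext x
    exact XX_neg x
  rw [e, neg_zero, pow_succ, pow_mul] at h
  simp at h
  linear_combination (1 / 2 : ℂ) * h

theorem even_real (k : ℕ) : ((iteratedDeriv (2 * k) XX 0).re : ℂ) = iteratedDeriv (2 * k) XX 0 := by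
  have h := iter_conj XX XX_conj (2 * k) 0
  rw [map_zero] at h
  exact Complex.conj_eq_iff_re.1 h.symm

theorem hasSum_XX (z : ℂ) :
    HasSum (fun k : ℕ => ((gam k : ℝ) : ℂ) / (k.factorial : ℂ) * (z ^ 2) ^ k) (XX z) := by
  have h := hasSum_taylorSeries_of_entire XX_diff 0 z
  have hinj : Function.Injective (fun k : ℕ => 2 * k) := fun a b hab => by
    have : 2 * a = 2 * b := hab
    omega
  rw [← hinj.hasSum_iff] at h
  · refine hcongr h fun k => ?_
    show _ = (((2 * k).factorial : ℂ))⁻¹ • (z - 0) ^ (2 * k) • iteratedDeriv (2 * k) XX 0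
    unfold gam
    have h1 : (k.factorial : ℂ) ≠ 0 := by exact_mod_cast k.factorial_ne_zero
    have h2 : ((2 * k).factorial : ℂ) ≠ 0 := by exact_mod_cast (2 * k).factorial_ne_zero
    rw [← even_real k]
    push_cast
    rw [smul_eq_mul, smul_eq_mul, sub_zero, pow_mul, Complex.ofReal_re]
    field_simp
  · intro x hx
    have hodd : ∃ k, x = 2 * k + 1 := by
      rcases Nat.even_or_odd' x with ⟨k, hk | hk⟩
      · exact absurd ⟨k, hk.symm⟩ hx
      · exact ⟨k, hk⟩
    obtain ⟨k, rfl⟩ := hodd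
    rw [odd_zero, smul_zero, smul_zero]

theorem FF_sq (z : ℂ) : FF (z ^ 2) = XX z := (hasSum_XX z).tsum_eq

theorem hasSum_FF (x : ℂ) :
    HasSum (fun k : ℕ => ((gam k : ℝ) : ℂ) / (k.factorial : ℂ) * x ^ k) (FF x) := by
  obtain ⟨z, hz⟩ := IsAlgClosed.exists_pow_nat_eq x (n := 2) (by norm_num)
  rw [← hz, FF_sq]
  exact hasSum_XX z

theorem FF_conj (x : ℂ) : FF ((starRingEnd ℂ) x) = (starRingEnd ℂ) (FF x) := by
  have h1 := hasSum_FF ((starRingEnd ℂ) x)
  have h2 := Complex.hasSum_conj'.2 (hasSum_FF x)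
  refine h1.unique (hcongr h2 fun k => ?_)
  rw [map_mul, map_div₀, map_pow, Complex.conj_ofReal, map_natCast]

/-- the power series -/
noncomputable def ps : FormalMultilinearSeries ℂ ℂ ℂ :=
  FormalMultilinearSeries.ofScalars ℂ (fun k : ℕ => ((gam k : ℝ) : ℂ) / (k.factorial : ℂ))

theorem ps_apply (n : ℕ) (x : ℂ) :
    ps n (fun _ => x) = ((gam n : ℝ) : ℂ) / (n.factorial : ℂ) * x ^ n := by
  unfold ps
  rw [FormalMultilinearSeries.ofScalars_apply_eq, smul_eq_mul]

theorem ps_norm (n : ℕ) : ‖ps n‖ = ‖((gam n : ℝ) : ℂ) / (n.factorial : ℂ)‖ := by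
  unfold ps
  exact FormalMultilinearSeries.ofScalars_norm (𝕜 := ℂ) (E := ℂ) (fun k : ℕ => ((gam k : ℝ) : ℂ) / (k.factorial : ℂ)) n

theorem ps_radius : ps.radius = ⊤ := by
  refine FormalMultilinearSeries.radius_eq_top_of_summable_norm _ fun r => ?_
  have h := (hasSum_FF ((r : ℝ) : ℂ)).summable.norm
  refine h.congr fun n => ?_
  rw [ps_norm, norm_mul, norm_pow]
  simp

theorem hfps : HasFPowerSeriesOnBall FF ps 0 ⊤ := by
  refine ⟨by rw [ps_radius], by simp, ?_⟩
  intro y _
  rw [zero_add]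
  simp only [ps_apply]
  exact hasSum_FF y

end B1h

open B1h in
theorem b1 : SB1 := by
  refine ⟨?_, FF_sq, FF_conj, fun n => ?_⟩
  · intro x
    exact hfps.differentiableOn.differentiableAt (by simp)
  · have h := hfps.factorial_smul 1 n
    rw [← iteratedDeriv_eq_iteratedFDeriv, ps_apply, one_pow, mul_one, nsmul_eq_mul] at h
    rw [← h]
    have h1 : (n.factorial : ℂ) ≠ 0 := by exact_mod_cast n.factorial_ne_zero
    field_simp

end Pool.Agent.H24R2.JP
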