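import Pool.Agent.H24R2.JP.Spec
import Pool.Agent.Helper242.KK.Kernel

set_option autoImplicit false

namespace Pool.Agent.H24R2.JP

open Complex MeasureTheory Filter Topology Pool.Agent.Helper242.KK

namespace MomAux

/-- Rapidly decaying continuous kernels. -/
def Cl (w : ℝ → ℝ) : Prop := Continuous w ∧
  ∀ M : ℝ, ∃ C : ℝ, ∀ t, |w t| * Real.exp (M * |t|) ≤ C * Real.exp (-1 * t ^ 2)

/-- The two-sided Laplace transform. -/
noncomputable def L (w : ℝ → ℝ) (z : ℂ) : ℂ := ∫ t : ℝ, ((w t : ℝ) : ℂ) * cexp (z * t)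

theorem Cl_Ph : Cl Ph := by
  obtain ⟨A, -, hA⟩ := Ph_upper
  exact ⟨continuous_Ph, fun M => ⟨_, fun t => FT_aux_bd hA M t⟩⟩

theorem Cl.mulId {w : ℝ → ℝ} (hw : Cl w) : Cl (fun t => t * w t) := by
  refine ⟨continuous_id.mul hw.1, fun M => ?_⟩
  obtain ⟨C, hC⟩ := hw.2 (M + 1)
  refine ⟨C, fun t => le_trans ?_ (hC t)⟩
  have h1 : |t| ≤ Real.exp |t| := by linarith [Real.add_one_le_exp |t|]
  calc |t * w t| * Real.exp (M * |t|) = |w t| * (|t| * Real.exp (M * |t|)) := by
        rw [abs_mul]; ring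
    _ ≤ |w t| * (Real.exp |t| * Real.exp (M * |t|)) := by gcongr
    _ = _ := by rw [← Real.exp_add]; congr 2; ring

theorem Cl.pow {w : ℝ → ℝ} (hw : Cl w) (n : ℕ) : Cl (fun t => t ^ n * w t) := by
  induction n with
  | zero => simpa using hw
  | succ n ih =>
    have := ih.mulId
    refine (congrArg Cl ?_).mp this
    funext t
    ring

theorem Cl.integrable {w : ℝ → ℝ} (hw : Cl w) : Integrable w := by
  obtain ⟨C, hC⟩ := hw.2 0
  refine Integrable.mono' ((integrable_exp_neg_mul_sq one_pos).const_mul C)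
    hw.1.aestronglyMeasurable (Eventually.of_forall fun t => ?_)
  have := hC t
  simpa using this

theorem L_norm_le (w : ℝ → ℝ) (z : ℂ) (t : ℝ) :
    ‖((w t : ℝ) : ℂ) * cexp (z * t)‖ ≤ |w t| * Real.exp (|z.re| * |t|) := by
  rw [norm_mul, Complex.norm_real, Real.norm_eq_abs, Complex.norm_exp]
  refine mul_le_mul_of_nonneg_left (Real.exp_le_exp.2 ?_) (abs_nonneg _)
  rw [← abs_mul]
  simp only [mul_re, ofReal_re, ofReal_im, mul_zero, sub_zero]
  exact le_abs_self _

theorem L_cont {w : ℝ → ℝ} (hw : Continuous w) (z : ℂ) :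
    Continuous (fun t : ℝ => ((w t : ℝ) : ℂ) * cexp (z * t)) := by fun_prop

theorem L_integrable {w : ℝ → ℝ} (hw : Cl w) (z : ℂ) :
    Integrable (fun t : ℝ => ((w t : ℝ) : ℂ) * cexp (z * t)) := by
  obtain ⟨C, hC⟩ := hw.2 |z.re|
  exact Integrable.mono' ((integrable_exp_neg_mul_sq one_pos).const_mul C)
    (L_cont hw.1 z).aestronglyMeasurable
    (Eventually.of_forall fun t => (L_norm_le w z t).trans (hC t))

theorem L_hasDerivAt {w : ℝ → ℝ} (hw : Cl w) (z0 : ℂ) :
    HasDerivAt (L w) (L (fun t => t * w t) z0) z0 := by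
  obtain ⟨C, hC⟩ := hw.2 (|z0.re| + 2)
  have h := hasDerivAt_integral_of_dominated_loc_of_deriv_le (μ := volume) (𝕜 := ℂ)
    (F := fun (z : ℂ) (t : ℝ) => ((w t : ℝ) : ℂ) * cexp (z * t))
    (F' := fun (z : ℂ) (t : ℝ) => ((t * w t : ℝ) : ℂ) * cexp (z * t))
    (x₀ := z0) (s := Metric.ball z0 1)
    (bound := fun t => C * Real.exp (-1 * t ^ 2))
    (Metric.ball_mem_nhds z0 one_pos)
    (Eventually.of_forall fun z => (L_cont hw.1 z).aestronglyMeasurable)
    (L_integrable hw z0)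
    (L_cont hw.mulId.1 z0).aestronglyMeasurable
    (Eventually.of_forall fun t z hz => ?_) ((integrable_exp_neg_mul_sq one_pos).const_mul C)
    (Eventually.of_forall fun t z hz => ?_)
  · exact h.2
  · have h2 : |z.re| ≤ |z0.re| + 1 := by
      have h3 : |(z - z0).re| < 1 := lt_of_le_of_lt (Complex.abs_re_le_norm _) (by
        rw [Metric.mem_ball, dist_eq_norm] at hz; exact hz)
      rw [Complex.sub_re] at h3
      have h4 : z.re = z0.re + (z.re - z0.re) := by ring
      rw [h4]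
      exact (abs_add_le _ _).trans (by linarith)
    have h1 : |t| ≤ Real.exp |t| := by linarith [Real.add_one_le_exp |t|]
    calc ‖((t * w t : ℝ) : ℂ) * cexp (z * t)‖
        ≤ |t * w t| * Real.exp (|z.re| * |t|) := L_norm_le (fun t => t * w t) z t
      _ = |w t| * (|t| * Real.exp (|z.re| * |t|)) := by rw [abs_mul]; ring
      _ ≤ |w t| * (Real.exp |t| * Real.exp ((|z0.re| + 1) * |t|)) := by gcongr
      _ = |w t| * Real.exp ((|z0.re| + 2) * |t|) := by
          rw [← Real.exp_add]; congr 2; ring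
      _ ≤ _ := hC t
  · have h1 : HasDerivAt (fun z : ℂ => z * t) ((t : ℂ)) z := by
      have := (hasDerivAt_id z).mul_const (t : ℂ)
      simpa using this
    have h2 := h1.cexp.const_mul ((w t : ℝ) : ℂ)
    refine h2.congr_deriv ?_
    push_cast
    ring

theorem iteratedDeriv_L {w : ℝ → ℝ} (hw : Cl w) (n : ℕ) :
    iteratedDeriv n (L w) = L (fun t => t ^ n * w t) := by
  induction n with
  | zero => simp [iteratedDeriv_zero]
  | succ n ih =>
    rw [iteratedDeriv_succ, ih]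
    funext z
    rw [(L_hasDerivAt (hw.pow n) z).deriv]
    congr 1
    funext t
    ring

theorem XX_eq : XX = fun w => 8 * L Ph w := by
  have hd1 : Continuous XX := by
    unfold XX
    have h0 : Continuous completedRiemannZeta₀ := differentiable_completedZeta₀.continuous
    exact ((by fun_prop : Continuous fun z : ℂ => 4 * z ^ 2 - 1).mul
      (h0.comp (by fun_prop))).add continuous_const
  have hd2 : Continuous (fun w => 8 * L Ph w) := by
    have : Continuous (L Ph) := by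
      rw [continuous_iff_continuousAt]
      exact fun z => (L_hasDerivAt Cl_Ph z).continuousAt
    exact continuous_const.mul this
  have hden : Dense ({(1 / 2 : ℂ), -(1 / 2)}ᶜ : Set ℂ) :=
    (Set.Countable.dense_compl ℝ (Set.Finite.countable (by simp)))
  refine Continuous.ext_on hden hd1 hd2 fun w hw => ?_
  simp only [Set.mem_compl_iff, Set.mem_insert_iff, Set.mem_singleton_iff, not_or] at hw
  have h := FT_Ph (1 / 2 + w) (-I * w) (by linear_combination w * I_mul_I)
    (fun h => hw.2 (by linear_combination h)) (fun h => hw.1 (by linear_combination h))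
  have e1 : FT Ph (-I * w) = L Ph w := by
    unfold FT L
    refine integral_congr_ae (Eventually.of_forall fun t => ?_)
    simp only
    congr 2
    linear_combination (-w * t) * I_mul_I
  rw [e1] at h
  show XX w = 8 * L Ph w
  rw [h, completedRiemannZeta_eq]
  have h0 : (1 / 2 + w : ℂ) ≠ 0 := fun h => hw.2 (by linear_combination h)
  have h1 : (1 - (1 / 2 + w) : ℂ) ≠ 0 := fun h => hw.1 (by linear_combination -h)
  unfold XX
  have hx : (1 / 2 + w) * (1 / (1 / 2 + w)) = 1 := mul_one_div_cancel h0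
  have hy : (1 - (1 / 2 + w)) * (1 / (1 - (1 / 2 + w))) = 1 := mul_one_div_cancel h1
  linear_combination 4 * (w - 1 / 2) * hx - 4 * (w + 1 / 2) * hy

/-- The moments. -/
noncomputable def MM (k : ℕ) : ℝ := 8 * ∫ t : ℝ, t ^ (2 * k) * Ph t

theorem iteratedDeriv_XX (n : ℕ) :
    iteratedDeriv n XX 0 = ((8 * ∫ t : ℝ, t ^ n * Ph t : ℝ) : ℂ) := by
  rw [XX_eq, iteratedDeriv_const_mul_field, iteratedDeriv_L Cl_Ph]
  unfold L
  push_cast
  congr 1
  rw [← integral_complex_ofReal]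
  refine integral_congr_ae (Eventually.of_forall fun t => ?_)
  simp

theorem int_pow (n : ℕ) : Integrable (fun t : ℝ => t ^ n * Ph t) := (Cl_Ph.pow n).integrable

theorem c0_pos : 0 < ∫ t : ℝ in (1:ℝ)..2, Ph t :=
  intervalIntegral.intervalIntegral_pos_of_pos (continuous_Ph.intervalIntegrable _ _) Ph_pos
    (by norm_num)

theorem pow_even_nonneg (k : ℕ) (t : ℝ) : 0 ≤ t ^ (2 * k) * Ph t :=
  mul_nonneg (by rw [pow_mul]; positivity) (Ph_pos t).le

theorem MM_ge (k : ℕ) : 8 * ∫ t : ℝ in (1:ℝ)..2, Ph t ≤ MM k := by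
  unfold MM
  refine mul_le_mul_of_nonneg_left ?_ (by norm_num)
  rw [intervalIntegral.integral_of_le (by norm_num)]
  calc ∫ t in Set.Ioc (1:ℝ) 2, Ph t ≤ ∫ t in Set.Ioc (1:ℝ) 2, t ^ (2 * k) * Ph t := by
        refine setIntegral_mono_on (Cl_Ph.integrable.integrableOn) (int_pow _).integrableOn
          measurableSet_Ioc fun t ht => ?_
        have h1 : (1:ℝ) ≤ t ^ (2 * k) := one_le_pow₀ ht.1.le
        nlinarith [Ph_pos t]
    _ ≤ _ := setIntegral_le_integral (int_pow _) (Eventually.of_forall fun t => pow_even_nonneg k t)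

theorem MM_pos (k : ℕ) : 0 < MM k := lt_of_lt_of_le (by linarith [c0_pos]) (MM_ge k)

theorem MM_cs (k : ℕ) : MM (k + 1) ^ 2 ≤ MM k * MM (k + 2) := by
  have h : ∀ a : ℝ, 0 ≤ a ^ 2 * MM k + 2 * a * MM (k + 1) + MM (k + 2) := by
    intro a
    have e : a ^ 2 * MM k + 2 * a * MM (k + 1) + MM (k + 2) =
        8 * ∫ t : ℝ, t ^ (2 * k) * Ph t * (a + t ^ 2) ^ 2 := by
      have e1 : ∀ t : ℝ, t ^ (2 * k) * Ph t * (a + t ^ 2) ^ 2 =
          a ^ 2 * (t ^ (2 * k) * Ph t) + 2 * a * (t ^ (2 * (k + 1)) * Ph t) +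
            t ^ (2 * (k + 2)) * Ph t := by
        intro t
        ring
      simp_rw [e1]
      have i1 := (int_pow (2 * k)).const_mul (a ^ 2)
      have i2 := (int_pow (2 * (k + 1))).const_mul (2 * a)
      have i3 := int_pow (2 * (k + 2))
      have i12 : Integrable fun t : ℝ =>
        a ^ 2 * (t ^ (2 * k) * Ph t) + 2 * a * (t ^ (2 * (k + 1)) * Ph t) := i1.add i2
      rw [integral_add i12 i3, integral_add i1 i2, integral_const_mul, integral_const_mul]
      unfold MM
      ring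
    rw [e]
    exact mul_nonneg (by norm_num) (integral_nonneg fun t =>
      mul_nonneg (pow_even_nonneg k t) (sq_nonneg _))
  have h1 := h (-(MM (k + 1)) / MM k)
  have hk := MM_pos k
  have h2 : (-(MM (k + 1)) / MM k) ^ 2 * MM k + 2 * (-(MM (k + 1)) / MM k) * MM (k + 1) +
      MM (k + 2) = (MM k * MM (k + 2) - MM (k + 1) ^ 2) / MM k := by
    field_simp
    ring
  rw [h2] at h1
  have h3 := (div_nonneg_iff.1 h1).resolve_right (fun h => absurd h.2 (not_le.2 hk))
  linarith [h3.1]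

theorem tail_exp {t : ℝ} (ht : 0 ≤ t) :
    2 * (t / 3) ^ 8 * t + 6 * t ≤ Real.pi * Real.exp (2 * t) := by
  have h1 := Real.pow_div_factorial_le_exp (2 * t) (by positivity) 9
  have h2 := Real.quadratic_le_exp_of_nonneg (show 0 ≤ 2 * t by positivity)
  have h3 : 3 * Real.exp (2 * t) ≤ Real.pi * Real.exp (2 * t) :=
    mul_le_mul_of_nonneg_right Real.pi_gt_three.le (Real.exp_pos _).le
  have h4 : (2 * t) ^ 9 / (Nat.factorial 9 : ℝ) = 512 / 362880 * t ^ 9 := by
    have : (Nat.factorial 9 : ℝ) = 362880 := by norm_num [Nat.factorial]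
    rw [this]
    ring
  rw [h4] at h1
  have h5 : 2 * (t / 3) ^ 8 * t = 2 / 6561 * t ^ 9 := by ring
  rw [h5]
  have h6 : 0 ≤ t ^ 9 := by positivity
  nlinarith [sq_nonneg (t - 1 / 2)]

theorem tail_bound {A : ℝ} (hA : 0 < A)
    (hb : ∀ t : ℝ, |Ph t| ≤ A * Real.exp (5 * |t| - Real.pi * Real.exp (2 * |t|)))
    (k : ℕ) {t : ℝ} (ht : ((k : ℝ) + 1) ≤ (|t| / 3) ^ 8) :
    t ^ (2 * (k + 1)) * Ph t ≤ A * Real.exp (-|t|) := by
  have h0 : 0 ≤ |t| := abs_nonneg t
  have h1 : t ^ (2 * (k + 1)) ≤ Real.exp (2 * (|t| / 3) ^ 8 * |t|) := by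
    have e : t ^ (2 * (k + 1)) = |t| ^ (2 * (k + 1)) := by
      rw [pow_mul, pow_mul, sq_abs]
    rw [e]
    calc |t| ^ (2 * (k + 1)) ≤ (Real.exp |t|) ^ (2 * (k + 1)) := by
          refine pow_le_pow_left₀ h0 ?_ _
          linarith [Real.add_one_le_exp |t|]
      _ = Real.exp ((2 * (k + 1) : ℕ) * |t|) := by rw [Real.exp_nat_mul]
      _ ≤ _ := by
          refine Real.exp_le_exp.2 ?_
          push_cast
          nlinarith
  have h2 : Ph t ≤ A * Real.exp (5 * |t| - Real.pi * Real.exp (2 * |t|)) :=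
    (le_abs_self _).trans (hb t)
  calc t ^ (2 * (k + 1)) * Ph t ≤ Real.exp (2 * (|t| / 3) ^ 8 * |t|) *
        (A * Real.exp (5 * |t| - Real.pi * Real.exp (2 * |t|))) :=
        mul_le_mul h1 h2 (Ph_pos t).le (Real.exp_pos _).le
    _ = A * Real.exp (2 * (|t| / 3) ^ 8 * |t| + (5 * |t| - Real.pi * Real.exp (2 * |t|))) := by
        rw [Real.exp_add]; ring
    _ ≤ _ := by
        refine mul_le_mul_of_nonneg_left (Real.exp_le_exp.2 ?_) hA.le
        have := tail_exp h0
        linarith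

theorem MM_ratio : ∃ K : ℝ, 0 < K ∧ ∀ k : ℕ, MM (k + 1) ≤ K * ((k : ℝ) + 1) ^ (1 / 4 : ℝ) * MM k := by
  obtain ⟨A, hA, hb⟩ := Ph_upper
  obtain ⟨E, hE⟩ : ∃ E : ℝ, E = ∫ t : ℝ, Real.exp (-|t|) := ⟨_, rfl⟩
  have hE0 : 0 ≤ E := by rw [hE]; exact integral_nonneg fun t => (Real.exp_pos _).le
  obtain ⟨c, hc⟩ : ∃ c : ℝ, c = ∫ t : ℝ in (1:ℝ)..2, Ph t := ⟨_, rfl⟩
  have hc0 : 0 < c := by rw [hc]; exact c0_pos
  refine ⟨9 + A * E / c, by positivity, fun k => ?_⟩
  have hk1 : (1 : ℝ) ≤ (k : ℝ) + 1 := by linarith [Nat.cast_nonneg (α := ℝ) k]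
  obtain ⟨V, hV⟩ : ∃ V : ℝ, V = ((k : ℝ) + 1) ^ (1 / 4 : ℝ) := ⟨_, rfl⟩
  have hV1 : 1 ≤ V := by rw [hV]; exact Real.one_le_rpow hk1 (by norm_num)
  have hV4 : V ^ 4 = (k : ℝ) + 1 := by
    rw [hV, ← Real.rpow_natCast, ← Real.rpow_mul (by linarith)]
    norm_num
  rw [← hV]
  have hpt : ∀ t : ℝ, t ^ (2 * (k + 1)) * Ph t ≤
      9 * V * (t ^ (2 * k) * Ph t) + A * Real.exp (-|t|) := by
    intro t
    have hp := pow_even_nonneg k t
    rcases le_total (t ^ 2) (9 * V) with h | h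
    · have h1 : t ^ (2 * (k + 1)) * Ph t = t ^ 2 * (t ^ (2 * k) * Ph t) := by ring
      rw [h1]
      have h2 := mul_le_mul_of_nonneg_right h hp
      have h3 : 0 ≤ A * Real.exp (-|t|) := by positivity
      linarith
    · have h1 : ((k : ℝ) + 1) ≤ (|t| / 3) ^ 8 := by
        rw [← hV4]
        have e : (|t| / 3) ^ 8 = (t ^ 2 / 9) ^ 4 := by
          rw [← sq_abs t]; ring
        rw [e]
        exact pow_le_pow_left₀ (by linarith) (by linarith) 4
      have h2 := tail_bound hA hb k h1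
      have h3 : 0 ≤ 9 * V * (t ^ (2 * k) * Ph t) := by positivity
      linarith
  have hI := integral_mono (int_pow (2 * (k + 1)))
    (((int_pow (2 * k)).const_mul (9 * V)).add (integrable_exp_neg_abs_aux.const_mul A)) hpt
  rw [integral_add' ((int_pow (2 * k)).const_mul (9 * V)) (integrable_exp_neg_abs_aux.const_mul A),
    integral_const_mul, integral_const_mul, ← hE] at hI
  have h5 : MM (k + 1) ≤ 9 * V * MM k + 8 * (A * E) := by
    unfold MM
    linarith
  have h6 : 8 * c ≤ MM k := by rw [hc]; exact MM_ge k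
  have h7 : 8 * (A * E) ≤ A * E / c * V * MM k := by
    have h8 : A * E / c * V * MM k ≥ A * E / c * 1 * (8 * c) := by
      have := MM_pos k
      gcongr
    have h9 : A * E / c * 1 * (8 * c) = 8 * (A * E) := by field_simp
    linarith
  nlinarith

end MomAux

open MomAux in
theorem mom : SMom := by
  refine ⟨MM, MM_pos, fun k => ?_, MM_cs, MM_ratio⟩
  unfold gam MM
  rw [iteratedDeriv_XX, ofReal_re]

end Pool.Agent.H24R2.JP
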