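import Pool.Agent.H24R2.JP.Spec

set_option autoImplicit false

namespace Pool.Agent.H24R2.JP.WinAux

open Complex Filter Topology

lemma deriv_conj' {f : ℂ → ℂ} (hd : Differentiable ℂ f)
    (hf : ∀ x, f ((starRingEnd ℂ) x) = (starRingEnd ℂ) (f x)) (x : ℂ) :
    deriv f ((starRingEnd ℂ) x) = (starRingEnd ℂ) (deriv f x) := by
  have h1 : f = (starRingEnd ℂ) ∘ f ∘ (starRingEnd ℂ) := by
    funext y
    simp only [Function.comp_apply]
    rw [hf y, Complex.conj_conj]
  have h2 : HasDerivAt ((starRingEnd ℂ) ∘ f ∘ (starRingEnd ℂ)) ((starRingEnd ℂ) (deriv f x))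
      ((starRingEnd ℂ) x) := (hd x).hasDerivAt.conj_conj
  rw [← h1] at h2
  exact h2.deriv

lemma iter_conj {f : ℂ → ℂ} (hd : Differentiable ℂ f)
    (hf : ∀ x, f ((starRingEnd ℂ) x) = (starRingEnd ℂ) (f x)) (n : ℕ) :
    Differentiable ℂ (iteratedDeriv n f) ∧
    ∀ x, iteratedDeriv n f ((starRingEnd ℂ) x) = (starRingEnd ℂ) (iteratedDeriv n f x) := by
  induction n with
  | zero => simpa [iteratedDeriv_zero] using ⟨hd, hf⟩
  | succ n ih =>
    rw [iteratedDeriv_succ]
    refine ⟨?_, fun x => deriv_conj' ih.1 ih.2 x⟩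
    intro x
    exact ((ih.1.analyticAt x).deriv).differentiableAt

end Pool.Agent.H24R2.JP.WinAux

namespace Pool.Agent.H24R2.JP

open Complex Filter Topology WinAux

theorem win (h1 : SOff) (h2 : SB1) : SWin := by
  obtain ⟨T0, hT0, h⟩ := h1
  -- n large enough
  have hbig : ∃ n1 : ℕ, 1 ≤ n1 ∧ ∀ n : ℕ, n1 ≤ n →
      Real.exp (391 / 2000 * n) ≤ Real.exp (49 / 250 * n) - 1 / 4 ∧ T0 ^ 2 ≤ Real.exp (391 / 2000 * n) := by
    obtain ⟨n1, hn1⟩ := exists_nat_ge (max 10000 (2000 / 391 * T0 ^ 2))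
    have h10 : (10000 : ℝ) ≤ n1 := (le_max_left _ _).trans hn1
    refine ⟨n1, by
      have : (1 : ℝ) ≤ n1 := by linarith
      exact_mod_cast this, fun n hn => ?_⟩
    have hn' : (n1 : ℝ) ≤ n := by exact_mod_cast hn
    constructor
    · have e1 : Real.exp (49 / 250 * (n : ℝ)) = Real.exp (391 / 2000 * n) * Real.exp (1 / 2000 * n) := by
        rw [← Real.exp_add]; congr 1; ring
      have e2 : 1 + 1 / 2000 * (n : ℝ) ≤ Real.exp (1 / 2000 * n) := by
        have := Real.add_one_le_exp (1 / 2000 * (n : ℝ)); linarith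
      have e3 : 1 ≤ Real.exp (391 / 2000 * (n : ℝ)) := Real.one_le_exp (by positivity)
      rw [e1]
      nlinarith
    · have e2 : 1 + 391 / 2000 * (n : ℝ) ≤ Real.exp (391 / 2000 * n) := by
        have := Real.add_one_le_exp (391 / 2000 * (n : ℝ)); linarith
      have e4 : 2000 / 391 * T0 ^ 2 ≤ n := ((le_max_right _ _).trans hn1).trans hn'
      linarith
  obtain ⟨n1, hn1, hbig⟩ := hbig
  -- the case of positive imaginary part
  have main : ∀ n : ℕ, n1 ≤ n → ∀ x : ℂ, x ∈ Par → 0 < x.im →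
      Real.exp (49 / 250 * n) ≤ ‖x‖ → ‖x‖ ≤ Real.exp (51 / 250 * n) → iteratedDeriv n FF x ≠ 0 := by
    intro n hn x hx him hlo hup
    obtain ⟨b1, b2⟩ := hbig n hn
    -- the square root in the first quadrant
    obtain ⟨s, t, hs, ht, hst⟩ : ∃ s t : ℝ, 0 < s ∧ 0 < t ∧ ((s : ℂ) + I * t) ^ 2 = x := by
      set z : ℂ := x ^ (1 / 2 : ℂ) with hz
      have hz2 : z ^ 2 = x := by
        rw [hz, ← Complex.cpow_nat_mul]
        simp
      have hzz : (z.re + I * z.im : ℂ) = z := by
        rw [mul_comm]; exact Complex.re_add_im z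
      have him2 : 2 * z.re * z.im = x.im := by
        have := congrArg Complex.im hz2
        rw [pow_two, Complex.mul_im] at this
        linarith
      rcases lt_trichotomy z.re 0 with h0 | h0 | h0
      · refine ⟨-z.re, -z.im, by linarith, ?_, ?_⟩
        · nlinarith
        · rw [← hz2, ← hzz]; push_cast; simp; ring
      · rw [h0] at him2; simp at him2; linarith
      · refine ⟨z.re, z.im, h0, ?_, by rw [hzz, hz2]⟩
        nlinarith
    have hre : x.re = s ^ 2 - t ^ 2 := by
      rw [← hst, pow_two, Complex.mul_re]; simp; ring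
    have him' : x.im = 2 * s * t := by
      rw [← hst, pow_two, Complex.mul_im]; simp; ring
    have hP : x.re + x.im ^ 2 ≤ 1 / 4 := hx
    rw [hre, him'] at hP
    have hs2 : s ≤ 1 / 2 := by
      by_contra hcon
      push Not at hcon
      have : 0 < (4 * s ^ 2 - 1) * (t ^ 2 + 1 / 4) := by
        apply mul_pos
        · nlinarith
        · positivity
      nlinarith
    have hnorm : ‖x‖ = s ^ 2 + t ^ 2 := by
      rw [← hst, norm_pow, ← Complex.normSq_eq_norm_sq, Complex.normSq_apply]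
      simp; ring
    have hlogt : Om t = Real.log (t ^ 2) / 4 := by
      unfold Om; rw [Real.log_pow]; push_cast; ring
    have ht2 : Real.exp (391 / 2000 * (n : ℝ)) ≤ t ^ 2 := by
      rw [hnorm] at hlo; nlinarith
    have ht2' : t ^ 2 ≤ Real.exp (51 / 250 * (n : ℝ)) := by
      rw [hnorm] at hup; nlinarith
    have htpos : 0 < t ^ 2 := by positivity
    have hO1 : Om t ≤ 51 / 1000 * n := by
      rw [hlogt]
      have := (Real.log_le_log htpos ht2').trans_eq (Real.log_exp _)
      linarith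
    have hO2 : 391 / 8000 * n ≤ Om t := by
      rw [hlogt]
      have := (Real.log_exp _).symm.trans_le (Real.log_le_log (Real.exp_pos _) ht2)
      linarith
    have hn0 : (0 : ℝ) ≤ n := Nat.cast_nonneg n
    have hTt : T0 ≤ t := by
      have : T0 ^ 2 ≤ t ^ 2 := b2.trans ht2
      exact (pow_le_pow_iff_left₀ (by linarith) ht.le two_ne_zero).1 this
    rw [← hst]
    exact h t s n hTt (by linarith) (by linarith) hs hs2
  refine ⟨n1, fun n hn x hx him hlo hup => ?_⟩
  rcases lt_or_gt_of_ne him with h0 | h0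
  · have hx' : (starRingEnd ℂ) x ∈ Par := by
      have hP : x.re + x.im ^ 2 ≤ 1 / 4 := hx
      change ((starRingEnd ℂ) x).re + ((starRingEnd ℂ) x).im ^ 2 ≤ 1 / 4
      simpa using hP
    have := main n hn ((starRingEnd ℂ) x) hx' (by simpa using h0) (by rwa [RCLike.norm_conj])
      (by rwa [RCLike.norm_conj])
    rw [(iter_conj h2.1 h2.2.2.1 n).2 x] at this
    intro hcon
    rw [hcon] at this
    simp at this
  · exact main n hn x hx h0 hlo hup

end Pool.Agent.H24R2.JP
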