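import Pool.Agent.H24R2.JP.Spec2
import Pool.Agent.H24R2.JP.WinS

set_option autoImplicit false

/-!
# The derivatives of `FF` have zeros
-/

namespace Pool.Agent.H24R2.JP

open Complex Filter Topology Polynomial

namespace ExZeroAux

theorem growth {f : ℂ → ℂ} (hd : Differentiable ℂ f) {K : ℝ}
    (hK : ∀ x, ‖f x‖ ≤ Real.exp (K * (1 + ‖x‖) ^ (3 / 4 : ℝ))) (n : ℕ) (x : ℂ) :
    ‖iteratedDeriv n f x‖ ≤
      Real.exp ((2 * |K| + Real.log n.factorial) * (1 + ‖x‖) ^ (3 / 4 : ℝ)) := by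
  have h0 : 0 ≤ ‖x‖ := norm_nonneg x
  set S := (1 + ‖x‖) ^ (3 / 4 : ℝ) with hS
  have hS1 : 1 ≤ S := Real.one_le_rpow (by linarith) (by norm_num)
  have hbd : ∀ z ∈ Metric.sphere x 1, ‖f z‖ ≤ Real.exp (2 * |K| * S) := by
    intro z hz
    refine (hK z).trans (Real.exp_le_exp.2 ?_)
    have hz1 : ‖z‖ ≤ ‖x‖ + 1 := by
      have h1 : ‖z - x‖ = 1 := by
        rw [← dist_eq_norm]; exact Metric.mem_sphere.1 hz
      have h2 : ‖z‖ ≤ ‖z - x‖ + ‖x‖ := by
        simpa using norm_add_le (z - x) x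
      linarith
    have h3 : (1 + ‖z‖) ^ (3 / 4 : ℝ) ≤ 2 * S := by
      calc (1 + ‖z‖) ^ (3 / 4 : ℝ) ≤ (2 * (1 + ‖x‖)) ^ (3 / 4 : ℝ) :=
            Real.rpow_le_rpow (by positivity) (by linarith) (by norm_num)
        _ = 2 ^ (3 / 4 : ℝ) * S := by rw [Real.mul_rpow (by norm_num) (by linarith)]
        _ ≤ 2 * S := by
            refine mul_le_mul_of_nonneg_right ?_ (by linarith)
            calc (2 : ℝ) ^ (3 / 4 : ℝ) ≤ 2 ^ (1 : ℝ) :=
                  Real.rpow_le_rpow_of_exponent_le (by norm_num) (by norm_num)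
              _ = 2 := Real.rpow_one 2
    have h4 : 0 ≤ (1 + ‖z‖) ^ (3 / 4 : ℝ) := by positivity
    calc K * (1 + ‖z‖) ^ (3 / 4 : ℝ) ≤ |K| * (1 + ‖z‖) ^ (3 / 4 : ℝ) :=
          mul_le_mul_of_nonneg_right (le_abs_self K) h4
      _ ≤ |K| * (2 * S) := mul_le_mul_of_nonneg_left h3 (abs_nonneg K)
      _ = 2 * |K| * S := by ring
  have h5 := Complex.norm_iteratedDeriv_le_of_forall_mem_sphere_norm_le n one_pos
    hd.diffContOnCl hbd
  rw [one_pow, div_one] at h5
  refine h5.trans ?_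
  have hfac : (1 : ℝ) ≤ n.factorial := by exact_mod_cast n.factorial_pos
  have h6 : (n.factorial : ℝ) ≤ Real.exp (Real.log n.factorial * S) := by
    calc (n.factorial : ℝ) = Real.exp (Real.log n.factorial) :=
          (Real.exp_log (by linarith)).symm
      _ ≤ Real.exp (Real.log n.factorial * S) := by
          refine Real.exp_le_exp.2 ?_
          have := Real.log_nonneg hfac
          nlinarith
  rw [add_mul, Real.exp_add, mul_comm]
  exact mul_le_mul_of_nonneg_left h6 (Real.exp_pos _).le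

theorem const_of_no_root (P : ℝ[X]) (h : ∀ x : ℂ, aeval x P ≠ 0) (x : ℂ) :
    aeval x P = aeval (0 : ℂ) P := by
  have hdeg : P.degree ≤ 0 := by
    by_contra hcon
    push Not at hcon
    obtain ⟨z, hz⟩ := IsAlgClosed.exists_root (P.map (algebraMap ℝ ℂ)) (by
      rw [degree_map]; exact hcon.ne')
    rw [IsRoot.def, eval_map_algebraMap] at hz
    exact h z hz
  rw [eq_C_of_degree_le_zero hdeg]
  simp

end ExZeroAux

open ExZeroAux in
theorem exZero (h1 : SHad) (h2 : SGrow) (h3 : SB1) (h4 : SGam) : SExZero := by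
  intro n
  by_contra hno
  push Not at hno
  obtain ⟨K, hK⟩ := h2
  obtain ⟨hd, _, hconj, hgam⟩ := h3
  obtain ⟨hfd, hfc⟩ := WinAux.iter_conj hd hconj n
  have hne : ∀ k, iteratedDeriv k FF 0 ≠ 0 := by
    intro k
    rw [hgam k]
    exact_mod_cast (h4.1 k).ne'
  obtain ⟨P, hP, hlim⟩ := h1 (iteratedDeriv n FF) (2 * |K| + Real.log n.factorial) hfd (hne n) hfc
    (growth hd hK n)
  have hconst : ∀ x, iteratedDeriv n FF x = iteratedDeriv n FF 0 := by
    intro x
    have l1 : Tendsto (fun N => aeval x (P N)) atTop (𝓝 (iteratedDeriv n FF x)) :=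
      (hlim.tendstoLocallyUniformlyOn (s := Set.univ)).tendsto_at (Set.mem_univ x)
    have l2 : Tendsto (fun N => aeval (0 : ℂ) (P N)) atTop (𝓝 (iteratedDeriv n FF 0)) :=
      (hlim.tendstoLocallyUniformlyOn (s := Set.univ)).tendsto_at (Set.mem_univ 0)
    refine tendsto_nhds_unique l1 ?_
    refine l2.congr fun N => ?_
    exact (const_of_no_root (P N) (fun z hz => hno z (hP N z hz)) x).symm
  apply hne (n + 1)
  rw [iteratedDeriv_succ]
  have : iteratedDeriv n FF = fun _ => iteratedDeriv n FF 0 := funext hconst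
  rw [this]
  simp

end Pool.Agent.H24R2.JP
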