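import Pool.Agent.H24R2.JP.Spec

set_option autoImplicit false

namespace Pool.Agent.H24R2.JP

open Complex Filter Topology Polynomial

theorem low_iter_add (f : ℂ → ℂ) (n j : ℕ) :
    iteratedDeriv j (iteratedDeriv n f) = iteratedDeriv (n + j) f := by
  rw [iteratedDeriv_eq_iterate, iteratedDeriv_eq_iterate, iteratedDeriv_eq_iterate,
    ← Function.iterate_add_apply, Nat.add_comm]

theorem low_nozero (hB : SB1) (hG : SGam) : ∃ N1 : ℕ, ∀ n : ℕ, N1 ≤ n → ∀ w : ℂ, ‖w‖ ≤ 2 →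
    iteratedDeriv n FF w ≠ 0 := by
  obtain ⟨hd, -, -, h0⟩ := hB
  obtain ⟨hpos, -, hlim⟩ := hG
  have hev : ∀ᶠ n in atTop, gam (n + 1) / gam n < 1 / 8 := hlim.eventually (gt_mem_nhds (by norm_num))
  obtain ⟨N1, hN1⟩ := eventually_atTop.1 hev
  refine ⟨N1, fun n hn w hw hz => ?_⟩
  have hstep : ∀ j : ℕ, gam (n + j) ≤ gam n * (1 / 8) ^ j := by
    intro j
    induction j with
    | zero => simp
    | succ j ih =>
      have h1 := hN1 (n + j) (by omega)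
      rw [div_lt_iff₀ (hpos _)] at h1
      rw [← Nat.add_assoc, pow_succ]
      nlinarith [hpos n]
  have hD : Differentiable ℂ (iteratedDeriv n FF) :=
    (hd.contDiff (n := ⊤)).differentiable_iteratedDeriv n (by exact_mod_cast WithTop.coe_lt_top _)
  have hs := Complex.hasSum_taylorSeries_of_entire hD 0 w
  rw [hz] at hs
  simp only [low_iter_add, h0, sub_zero] at hs
  -- split off the first term
  have hs1 := (hasSum_nat_add_iff' 1).2 hs
  simp only [Finset.range_one, Finset.sum_singleton, Nat.factorial_zero, Nat.cast_one, inv_one,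
    pow_zero, one_smul, Nat.add_zero, zero_sub] at hs1
  have hgeo : HasSum (fun j : ℕ => gam n * (1 / 4) * (1 / 4 : ℝ) ^ j) (gam n * (1 / 4) * (1 - 1 / 4)⁻¹) :=
    (hasSum_geometric_of_lt_one (by norm_num) (by norm_num)).mul_left _
  have hle : ‖-((gam n : ℝ) : ℂ)‖ ≤ gam n * (1 / 4) * (1 - 1 / 4)⁻¹ := by
    refine hs1.norm_le_of_bounded hgeo ?_
    intro j
    have hg := hstep (j + 1)
    have hgp := hpos (n + (j + 1))
    rw [smul_eq_mul, smul_eq_mul, norm_mul, norm_mul, norm_inv, norm_pow, Complex.norm_real,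
      Complex.norm_natCast, Real.norm_of_nonneg hgp.le]
    have hf : (((j + 1).factorial : ℝ))⁻¹ ≤ 1 :=
      inv_le_one_of_one_le₀ (by exact_mod_cast Nat.succ_le_of_lt (Nat.factorial_pos _))
    have hf0 : (0 : ℝ) ≤ (((j + 1).factorial : ℝ))⁻¹ := by positivity
    have hw2 : ‖w‖ ^ (j + 1) ≤ 2 ^ (j + 1) := pow_le_pow_left₀ (norm_nonneg _) hw _
    have h3 : ‖w‖ ^ (j + 1) * gam (n + (j + 1)) ≤ 2 ^ (j + 1) * (gam n * (1 / 8) ^ (j + 1)) :=
      mul_le_mul hw2 hg hgp.le (by positivity)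
    calc (((j + 1).factorial : ℝ))⁻¹ * (‖w‖ ^ (j + 1) * gam (n + (j + 1)))
        ≤ 1 * (2 ^ (j + 1) * (gam n * (1 / 8) ^ (j + 1))) :=
          mul_le_mul hf h3 (mul_nonneg (by positivity) hgp.le) (by norm_num)
      _ = gam n * (1 / 4) * (1 / 4) ^ j := by
          have : (1 / 4 : ℝ) ^ (j + 1) = 2 ^ (j + 1) * (1 / 8) ^ (j + 1) := by
            rw [← mul_pow]; norm_num
          rw [one_mul, mul_left_comm, ← this, pow_succ]; ring
  rw [norm_neg, Complex.norm_real, Real.norm_of_nonneg (hpos n).le] at hle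
  have := hpos n
  nlinarith

theorem low (h1 : SNewton) (h2 : SGood) (h3 : SGam) (h4 : SB1) : SLow := by
  intro C
  obtain ⟨N1, hN1⟩ := low_nozero h4 h3
  obtain ⟨hpos, ⟨K, hK, hKn⟩, -⟩ := h3
  obtain ⟨-, -, -, h0⟩ := h4
  obtain ⟨N2, hN2⟩ := exists_nat_gt ((8 * K * C ^ 2) ^ 2)
  refine ⟨max N1 (max N2 1), fun n hn w hw => ?_⟩
  have hnN1 : N1 ≤ n := (le_max_left _ _).trans hn
  have hnN2 : N2 ≤ n := ((le_max_left _ _).trans (le_max_right _ _)).trans hn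
  have hn1 : 1 ≤ n := ((le_max_right _ _).trans (le_max_right _ _)).trans hn
  have hn0 : (0 : ℝ) < n := by exact_mod_cast hn1
  have hw2 : 2 < ‖w‖ := by
    by_contra hc
    exact hN1 n hnN1 w (not_lt.1 hc) hw
  have hN := h1 FF h2 n (hN1 n hnN1) w hw
  rw [h0, h0, h0] at hN
  have hre : (((gam (n + 1) : ℝ) : ℂ) / ((gam n : ℝ) : ℂ)) ^ 2 - ((gam (n + 2) : ℝ) : ℂ) / ((gam n : ℝ) : ℂ)
      = (((gam (n + 1) / gam n) ^ 2 - gam (n + 2) / gam n : ℝ) : ℂ) := by push_cast; ring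
  rw [hre, Complex.ofReal_re] at hN
  have hle := hN.trans (hKn n hn1)
  by_contra hc
  have hc' : ‖w‖ ≤ C * n := not_lt.1 hc
  have hsq : ‖w‖ ^ 2 ≤ (C * n) ^ 2 := pow_le_pow_left₀ (norm_nonneg _) hc' 2
  have hwpos : 0 < ‖w‖ ^ 2 := by positivity
  have h5 : (n : ℝ) ^ (-(5 / 2) : ℝ) = ((n : ℝ) ^ 2 * Real.sqrt n)⁻¹ := by
    rw [Real.rpow_neg hn0.le, Real.sqrt_eq_rpow, ← Real.rpow_natCast, ← Real.rpow_add hn0]
    norm_num
  rw [h5] at hle
  have hs0 : 0 < Real.sqrt n := Real.sqrt_pos.2 hn0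
  have h6 : (n : ℝ) ^ 2 * Real.sqrt n ≤ K * (8 * ‖w‖ ^ 2) := by
    rw [div_le_iff₀ (by positivity), ← div_eq_mul_inv, div_mul_eq_mul_div, le_div_iff₀ (by positivity),
      one_mul] at hle
    exact hle
  have h7 : (n : ℝ) ^ 2 * Real.sqrt n ≤ (n : ℝ) ^ 2 * (8 * K * C ^ 2) := by nlinarith
  have h8 : Real.sqrt n ≤ 8 * K * C ^ 2 := le_of_mul_le_mul_left h7 (by positivity)
  have h9 : (n : ℝ) ≤ (8 * K * C ^ 2) ^ 2 := by
    have := pow_le_pow_left₀ hs0.le h8 2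
    rwa [Real.sq_sqrt hn0.le] at this
  have h10 : (N2 : ℝ) ≤ n := by exact_mod_cast hnN2
  linarith

end Pool.Agent.H24R2.JP
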