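import Mathlib
import Pool.Agent.H24R2.JP.Spec

set_option autoImplicit false

/-!
# Hyperbolicity of all Jensen polynomials of degree `d` and shift `0` implies RH (helper962)
-/

namespace Pool.Agent.H24R2.JP

open Complex Filter Topology Polynomial

/-- one factor -/
lemma rh2_factor (w : ℂ) (N : ℕ) (hw : w.im ≠ 0) (hN : 4 * ‖w‖ ^ 2 / |w.im| ≤ N) (r : ℝ) (hr : 0 < r) :
    r ^ (N + 1) ≤ ‖w + (r : ℂ)‖ * (1 + r) ^ N := by
  have him : 0 < |w.im| := abs_pos.mpr hw
  have hwn : 0 < ‖w‖ := by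
    rw [norm_pos_iff]; rintro rfl; simp at hw
  have hN0 : 4 * ‖w‖ ^ 2 ≤ N * |w.im| := by
    rwa [div_le_iff₀ him] at hN
  have hle : |w.im| ≤ ‖w‖ := abs_im_le_norm w
  have hN1 : 4 * ‖w‖ ≤ N := by
    have h1 : 4 * ‖w‖ ^ 2 ≤ N * ‖w‖ := hN0.trans (mul_le_mul_of_nonneg_left hle (Nat.cast_nonneg N))
    nlinarith [h1, hwn]
  -- Bernoulli
  have hb : r ^ N * (1 + N / r) ≤ (1 + r) ^ N := by
    have h2 : (1 : ℝ) + N * (1 / r) ≤ (1 + 1 / r) ^ N :=
      one_add_mul_le_pow (by have : 0 < 1 / r := by positivity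
                             linarith) N
    calc r ^ N * (1 + N / r) = r ^ N * (1 + N * (1 / r)) := by ring
      _ ≤ r ^ N * (1 + 1 / r) ^ N := mul_le_mul_of_nonneg_left h2 (by positivity)
      _ = (1 + r) ^ N := by
          rw [← mul_pow]; congr 1; field_simp; ring
  have hn1 : r - ‖w‖ ≤ ‖w + (r : ℂ)‖ := by
    have h3 : ‖((r : ℝ) : ℂ)‖ = r := by simp [abs_of_pos hr]
    have h4 := norm_sub_norm_le ((r : ℝ) : ℂ) (-w)
    rw [h3, norm_neg, sub_neg_eq_add, add_comm (r : ℂ) w] at h4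
    exact h4
  have hn2 : |w.im| ≤ ‖w + (r : ℂ)‖ := by
    have h5 := abs_im_le_norm (w + (r : ℂ))
    simpa using h5
  have key : r ≤ ‖w + (r : ℂ)‖ * (1 + N / r) := by
    have hNr : (0 : ℝ) ≤ 1 + N / r := by positivity
    rcases le_total (2 * ‖w‖) r with h | h
    · have h6 : (r - ‖w‖) * (1 + N / r) ≤ ‖w + (r : ℂ)‖ * (1 + N / r) :=
        mul_le_mul_of_nonneg_right hn1 hNr
      have h7 : r ≤ (r - ‖w‖) * (1 + N / r) := by
        have h8 : (r - ‖w‖) * (1 + N / r) = r - ‖w‖ + N * ((r - ‖w‖) / r) := by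
          field_simp
        have h9 : 1 / 2 ≤ (r - ‖w‖) / r := by
          rw [le_div_iff₀ hr]; linarith
        have h10 : (N : ℝ) * (1 / 2) ≤ N * ((r - ‖w‖) / r) :=
          mul_le_mul_of_nonneg_left h9 (Nat.cast_nonneg N)
        rw [h8]; linarith
      linarith
    · have h6 : |w.im| * (1 + N / r) ≤ ‖w + (r : ℂ)‖ * (1 + N / r) :=
        mul_le_mul_of_nonneg_right hn2 hNr
      have h7 : r ≤ |w.im| * (1 + N / r) := by
        have h8 : |w.im| * (N / r) = (N * |w.im|) / r := by ring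
        have h9 : r ≤ (N * |w.im|) / r := by
          rw [le_div_iff₀ hr]
          nlinarith [h, hN0, hwn, hr]
        nlinarith [h8, h9, him]
      linarith
  calc r ^ (N + 1) = r ^ N * r := pow_succ r N
    _ ≤ r ^ N * (‖w + (r : ℂ)‖ * (1 + N / r)) := mul_le_mul_of_nonneg_left key (by positivity)
    _ = ‖w + (r : ℂ)‖ * (r ^ N * (1 + N / r)) := by ring
    _ ≤ ‖w + (r : ℂ)‖ * (1 + r) ^ N := mul_le_mul_of_nonneg_left hb (norm_nonneg _)

/-- product over the roots -/
lemma rh2_multiset (w : ℂ) (N : ℕ) (hw : w.im ≠ 0) (hN : 4 * ‖w‖ ^ 2 / |w.im| ≤ N)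
    (m : Multiset ℂ) (hm : ∀ r ∈ m, ∃ t : ℝ, 0 < t ∧ r = -(t : ℂ)) :
    ‖(m.map (fun r => (0 : ℂ) - r)).prod‖ ^ (N + 1) ≤
      ‖(m.map (fun r => w - r)).prod‖ * ‖(m.map (fun r => (1 : ℂ) - r)).prod‖ ^ N := by
  induction m using Multiset.induction_on with
  | empty => simp
  | cons r m ih =>
    obtain ⟨t, ht, rfl⟩ := hm r (Multiset.mem_cons_self r m)
    have ih' := ih (fun r hr => hm r (Multiset.mem_cons_of_mem hr))
    simp only [Multiset.map_cons, Multiset.prod_cons, norm_mul, mul_pow]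
    have h1 : ‖(0 : ℂ) - -(t : ℂ)‖ = t := by simp [abs_of_pos ht]
    have h2 : ‖(1 : ℂ) - -(t : ℂ)‖ = 1 + t := by
      have : (1 : ℂ) - -(t : ℂ) = ((1 + t : ℝ) : ℂ) := by push_cast; ring
      rw [this, Complex.norm_real, Real.norm_of_nonneg (by linarith)]
    have h3 : w - -(t : ℂ) = w + (t : ℂ) := by ring
    rw [h1, h2, h3]
    have h4 := rh2_factor w N hw hN t ht
    calc t ^ (N + 1) * ‖(m.map (fun r => (0 : ℂ) - r)).prod‖ ^ (N + 1)
        ≤ (‖w + (t : ℂ)‖ * (1 + t) ^ N) *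
          (‖(m.map (fun r => w - r)).prod‖ * ‖(m.map (fun r => (1 : ℂ) - r)).prod‖ ^ N) :=
          mul_le_mul h4 ih' (by positivity) (by positivity)
      _ = _ := by ring

/-- real-rooted polynomials with positive coefficients -/
lemma rh2_poly (w : ℂ) (N : ℕ) (hw : w.im ≠ 0) (hN : 4 * ‖w‖ ^ 2 / |w.im| ≤ N)
    (P : ℝ[X]) (h0 : 0 < P.coeff 0) (hc : ∀ j, 0 ≤ P.coeff j) (hP : Hyperbolic P) :
    ‖aeval (0 : ℂ) P‖ ^ (N + 1) ≤ ‖aeval w P‖ * ‖aeval (1 : ℂ) P‖ ^ N := by
  have hne : P ≠ 0 := by rintro rfl; simp at h0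
  set Q : ℂ[X] := P.map (algebraMap ℝ ℂ) with hQ
  have hQne : Q ≠ 0 := by
    rw [hQ]; exact (Polynomial.map_ne_zero_iff (algebraMap ℝ ℂ).injective).mpr hne
  have hsplit : Q = Polynomial.C Q.leadingCoeff * (Q.roots.map (fun a => X - Polynomial.C a)).prod :=
    (IsAlgClosed.splits Q).eq_prod_roots
  have hval : ∀ z : ℂ, aeval z P = Q.leadingCoeff * (Q.roots.map (fun r => z - r)).prod := by
    intro z
    have h1 : aeval z P = Q.eval z := by
      rw [hQ, Polynomial.eval_map_algebraMap]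
    rw [h1]
    conv_lhs => rw [hsplit]
    rw [eval_mul, eval_C, eval_multiset_prod, Multiset.map_map]
    congr 2
    apply Multiset.map_congr rfl
    intro a _
    simp
  have hroots : ∀ r ∈ Q.roots, ∃ t : ℝ, 0 < t ∧ r = -(t : ℂ) := by
    intro r hr
    have hr0 : aeval r P = 0 := by
      have := (mem_roots hQne).mp hr
      rwa [IsRoot.def, hQ, Polynomial.eval_map_algebraMap] at this
    have him := hP r hr0
    refine ⟨-r.re, ?_, ?_⟩
    · by_contra hcon
      push Not at hcon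
      have hre : 0 ≤ r.re := by linarith
      have hreq : r = ((r.re : ℝ) : ℂ) := by
        apply Complex.ext <;> simp [him]
      rw [hreq] at hr0
      have h2 : aeval ((r.re : ℝ) : ℂ) P = ((P.eval r.re : ℝ) : ℂ) := by
        have := Polynomial.aeval_algebraMap_apply ℂ r.re P
        simpa using this
      rw [h2] at hr0
      have h3 : P.eval r.re = 0 := by exact_mod_cast hr0
      have h4 : P.coeff 0 ≤ P.eval r.re := by
        rw [Polynomial.eval_eq_sum_range]
        have h5 : P.coeff 0 = P.coeff 0 * r.re ^ 0 := by simp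
        rw [h5]
        exact Finset.single_le_sum (f := fun i => P.coeff i * r.re ^ i)
          (fun i _ => mul_nonneg (hc i) (pow_nonneg hre i)) (Finset.mem_range.mpr (Nat.succ_pos _))
      linarith
    · apply Complex.ext <;> simp [him]
  rw [hval 0, hval w, hval 1]
  simp only [norm_mul, mul_pow]
  have h6 := rh2_multiset w N hw hN Q.roots hroots
  have h7 : (0 : ℝ) ≤ ‖Q.leadingCoeff‖ ^ (N + 1) := by positivity
  calc ‖Q.leadingCoeff‖ ^ (N + 1) * ‖(Q.roots.map (fun r => (0 : ℂ) - r)).prod‖ ^ (N + 1)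
      ≤ ‖Q.leadingCoeff‖ ^ (N + 1) * (‖(Q.roots.map (fun r => w - r)).prod‖ *
        ‖(Q.roots.map (fun r => (1 : ℂ) - r)).prod‖ ^ N) := mul_le_mul_of_nonneg_left h6 h7
    _ = _ := by ring

lemma rh2_choose (j : ℕ) :
    Tendsto (fun d : ℕ => ((d.choose j : ℕ) : ℝ) / (d : ℝ) ^ j) atTop (𝓝 (1 / (j.factorial : ℝ))) := by
  have h1 : Tendsto (fun d : ℕ => ((d.descFactorial j : ℕ) : ℝ) / (d : ℝ) ^ j) atTop (𝓝 1) := by
    induction j with
    | zero => simp
    | succ j ih =>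
      have h2 : Tendsto (fun d : ℕ => (((d - j : ℕ) : ℝ)) / (d : ℝ)) atTop (𝓝 1) := by
        have h3 : Tendsto (fun d : ℕ => 1 - (j : ℝ) / (d : ℝ)) atTop (𝓝 (1 - 0)) :=
          tendsto_const_nhds.sub (tendsto_const_div_atTop_nhds_zero_nat (j : ℝ))
        rw [sub_zero] at h3
        refine h3.congr' ?_
        filter_upwards [eventually_ge_atTop (max j 1)] with d hd
        have hdj : j ≤ d := le_trans (le_max_left _ _) hd
        have hd1 : (d : ℝ) ≠ 0 := by
          have : 1 ≤ d := le_trans (le_max_right _ _) hd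
          positivity
        rw [Nat.cast_sub hdj]
        field_simp
      have h4 := h2.mul ih
      rw [one_mul] at h4
      refine h4.congr' ?_
      filter_upwards with d
      rw [Nat.descFactorial_succ, Nat.cast_mul, pow_succ]
      rw [div_mul_div_comm, mul_comm ((d : ℝ) ^ j) (d : ℝ)]
  have h5 := h1.div_const (j.factorial : ℝ)
  refine h5.congr' ?_
  filter_upwards with d
  have h6 : ((d.descFactorial j : ℕ) : ℝ) = (j.factorial : ℝ) * (d.choose j : ℝ) := by
    rw [Nat.descFactorial_eq_factorial_mul_choose]; push_cast; ring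
  rw [h6]
  have hj : (j.factorial : ℝ) ≠ 0 := by positivity
  field_simp

lemma rh2_choose_le (d j : ℕ) : ((d.choose j : ℕ) : ℝ) / (d : ℝ) ^ j ≤ 1 / (j.factorial : ℝ) := by
  rcases Nat.eq_zero_or_pos d with rfl | hd
  · rcases Nat.eq_zero_or_pos j with rfl | hj
    · simp
    · rw [Nat.choose_eq_zero_of_lt hj]; simp
  · have hd' : (0 : ℝ) < (d : ℝ) ^ j := by positivity
    rw [div_le_div_iff₀ hd' (by positivity)]
    have h6 : (j.factorial : ℕ) * (d.choose j) ≤ d ^ j := by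
      rw [← Nat.descFactorial_eq_factorial_mul_choose]; exact Nat.descFactorial_le_pow d j
    have h7 : (j.factorial : ℝ) * (d.choose j : ℝ) ≤ (d : ℝ) ^ j := by exact_mod_cast h6
    linarith

lemma rh2_summable (h1 : SB1) (x : ℂ) :
    HasSum (fun k : ℕ => ((gam k : ℝ) : ℂ) / (k.factorial : ℂ) * x ^ k) (FF x) := by
  obtain ⟨hd, -, -, hi⟩ := h1
  have h2 := Complex.hasSum_taylorSeries_of_entire hd 0 x
  have h3 : (fun k : ℕ => ((gam k : ℝ) : ℂ) / (k.factorial : ℂ) * x ^ k) =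
      (fun n : ℕ => (n.factorial : ℂ)⁻¹ • (x - 0) ^ n • iteratedDeriv n FF 0) := by
    funext n
    rw [hi n, sub_zero, smul_eq_mul, smul_eq_mul]
    ring
  rw [h3]; exact h2

lemma rh2_aeval_jensen (d : ℕ) (x : ℂ) : aeval x (jensen d 0) =
    ∑ j ∈ Finset.range (d + 1), ((d.choose j : ℕ) : ℂ) * ((gam j : ℝ) : ℂ) * x ^ j := by
  unfold jensen
  rw [map_sum]
  apply Finset.sum_congr rfl
  intro j _
  simp

lemma rh2_tendsto (h1 : SB1) (hg : ∀ k, 0 < gam k) (x : ℂ) :
    Tendsto (fun d : ℕ => aeval (x / (d : ℂ)) (jensen d 0)) atTop (𝓝 (FF x)) := by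
  have hs := rh2_summable h1 x
  have hsn : Summable (fun k : ℕ => ‖((gam k : ℝ) : ℂ) / (k.factorial : ℂ) * x ^ k‖) := hs.summable.norm
  have h2 : Tendsto (fun d : ℕ => ∑' j : ℕ, (((((d.choose j : ℕ) : ℝ) / (d : ℝ) ^ j : ℝ)) : ℂ) *
      (((gam j : ℝ) : ℂ) * x ^ j)) atTop (𝓝 (∑' j : ℕ, ((gam j : ℝ) : ℂ) / (j.factorial : ℂ) * x ^ j)) := by
    apply tendsto_tsum_of_dominated_convergence hsn
    · intro j
      have h3 := (rh2_choose j)
      have h4 : Tendsto (fun d : ℕ => ((((d.choose j : ℕ) : ℝ) / (d : ℝ) ^ j : ℝ) : ℂ)) atTop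
          (𝓝 ((1 / (j.factorial : ℝ) : ℝ) : ℂ)) := (Complex.continuous_ofReal.tendsto _).comp h3
      have h5 := h4.mul_const (((gam j : ℝ) : ℂ) * x ^ j)
      have h6 : ((1 / (j.factorial : ℝ) : ℝ) : ℂ) * (((gam j : ℝ) : ℂ) * x ^ j) =
          ((gam j : ℝ) : ℂ) / (j.factorial : ℂ) * x ^ j := by
        push_cast; ring
      rw [← h6]; exact h5
    · filter_upwards with d
      intro j
      have h7 : (0 : ℝ) ≤ ((d.choose j : ℕ) : ℝ) / (d : ℝ) ^ j := by positivity
      rw [norm_mul, Complex.norm_real, Real.norm_of_nonneg h7]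
      have h8 : ‖((gam j : ℝ) : ℂ) / (j.factorial : ℂ) * x ^ j‖ =
          1 / (j.factorial : ℝ) * ‖((gam j : ℝ) : ℂ) * x ^ j‖ := by
        rw [div_mul_eq_mul_div, norm_div, Complex.norm_natCast]; ring
      rw [h8]
      exact mul_le_mul_of_nonneg_right (rh2_choose_le d j) (norm_nonneg _)
  rw [hs.tsum_eq] at h2
  refine h2.congr' ?_
  filter_upwards [eventually_ge_atTop 1] with d hd
  have hd' : (d : ℂ) ≠ 0 := by exact_mod_cast (by omega : d ≠ 0)
  rw [rh2_aeval_jensen, tsum_eq_sum (s := Finset.range (d + 1))]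
  · apply Finset.sum_congr rfl
    intro j _
    push_cast
    rw [div_pow]
    field_simp
  · intro j hj
    have hj' : d < j := by simpa using hj
    rw [Nat.choose_eq_zero_of_lt hj']
    simp

lemma rh2_real (h1 : SB1) (hg : ∀ k, 0 < gam k) (hJ : ∀ d : ℕ, Hyperbolic (jensen d 0)) (w : ℂ)
    (hw : FF w = 0) : w.im = 0 := by
  by_contra him
  obtain ⟨N, hN⟩ := exists_nat_ge (4 * ‖w‖ ^ 2 / |w.im|)
  have hev : ∀ᶠ d : ℕ in atTop, ‖aeval ((0 : ℂ) / (d : ℂ)) (jensen d 0)‖ ^ (N + 1) ≤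
      ‖aeval (w / (d : ℂ)) (jensen d 0)‖ * ‖aeval ((1 : ℂ) / (d : ℂ)) (jensen d 0)‖ ^ N := by
    filter_upwards [eventually_ge_atTop 1] with d hd
    have hdr : (0 : ℝ) < d := by exact_mod_cast hd
    have hdc : (d : ℂ) ≠ 0 := by exact_mod_cast (by omega : d ≠ 0)
    have hcoef : ∀ j, (jensen d 0).coeff j = ((d.choose j : ℕ) : ℝ) * gam j := by
      intro j
      unfold jensen
      rw [Polynomial.finsetSum_coeff]
      simp only [Polynomial.coeff_C_mul, Polynomial.coeff_X_pow, Nat.zero_add, mul_ite, mul_one, mul_zero]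
      rw [Finset.sum_ite_eq]
      split_ifs with hj
      · rfl
      · have hj' : d < j := by simpa using hj
        rw [Nat.choose_eq_zero_of_lt hj']; simp
    set P : ℝ[X] := (jensen d 0).comp (Polynomial.C (1 / (d : ℝ)) * X) with hP
    have hval : ∀ z : ℂ, aeval z P = aeval (z / (d : ℂ)) (jensen d 0) := by
      intro z
      rw [hP, Polynomial.aeval_comp]
      congr 2
      simp
      ring
    have hPc : ∀ j, P.coeff j = (jensen d 0).coeff j * (1 / (d : ℝ)) ^ j := by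
      intro j
      rw [hP, Polynomial.comp_C_mul_X_coeff]
    have h2 := rh2_poly w N him hN P
      (by rw [hPc, hcoef]; simpa using hg 0)
      (fun j => by rw [hPc, hcoef]; exact mul_nonneg (mul_nonneg (by positivity) (hg j).le) (by positivity))
      (by
        intro z hz
        rw [hval] at hz
        have h3 := hJ d _ hz
        rw [Complex.div_natCast_im] at h3
        rcases div_eq_zero_iff.mp h3 with h | h
        · exact h
        · exact absurd h hdr.ne')
    rwa [hval, hval, hval] at h2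
  have hl0 := ((rh2_tendsto h1 hg 0).norm).pow (N + 1)
  have hlw := ((rh2_tendsto h1 hg w).norm).mul (((rh2_tendsto h1 hg 1).norm).pow N)
  have hle := le_of_tendsto_of_tendsto hl0 hlw hev
  rw [hw, norm_zero, zero_mul] at hle
  have hFF0 : FF 0 = ((gam 0 : ℝ) : ℂ) := by
    have h4 := h1.2.2.2 0
    rwa [iteratedDeriv_zero] at h4
  have hpos : 0 < ‖FF 0‖ ^ (N + 1) := by
    rw [hFF0, Complex.norm_real, Real.norm_of_nonneg (hg 0).le]
    exact pow_pos (hg 0) _
  linarith

theorem rh2 (h1 : SB1) (h2 : SGam) : SRH2 := by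
  intro hJ s hs hntriv hs1
  have hg := h2.1
  have hs0 : s ≠ 0 := by
    rintro rfl
    rw [riemannZeta_zero] at hs
    norm_num at hs
  have hL : completedRiemannZeta s = 0 := by
    rw [riemannZeta_def_of_ne_zero hs0] at hs
    rcases div_eq_zero_iff.mp hs with h | h
    · exact h
    · exfalso
      obtain ⟨n, hn⟩ := Complex.Gammaℝ_eq_zero_iff.mp h
      rcases n with _ | n
      · apply hs0; rw [hn]; simp
      · apply hntriv; exact ⟨n, by rw [hn]; push_cast; ring⟩
  have hXX : XX (s - 1 / 2) = 0 := by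
    unfold XX
    have h3 : (1 / 2 : ℂ) + (s - 1 / 2) = s := by ring
    rw [h3]
    have h4 : completedRiemannZeta₀ s = 1 / s + 1 / (1 - s) := by
      have h5 := completedRiemannZeta_eq s
      rw [hL] at h5
      linear_combination -h5
    rw [h4]
    have h6 : (1 : ℂ) - s ≠ 0 := sub_ne_zero.mpr (Ne.symm hs1)
    field_simp
    ring
  have hFF : FF ((s - 1 / 2) ^ 2) = 0 := by rw [h1.2.1, hXX]
  have him := rh2_real h1 hg hJ _ hFF
  set z := s - 1 / 2 with hz
  have h7 : z.re * z.im = 0 := by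
    have : (z ^ 2).im = 2 * (z.re * z.im) := by
      rw [pow_two, Complex.mul_im]; ring
    rw [this] at him; linarith
  rcases mul_eq_zero.mp h7 with h | h
  · have h8 : z.re = s.re - 1 / 2 := by
      rw [hz]; simp
    linarith
  · exfalso
    have hzr : z ^ 2 = (((z.re) ^ 2 : ℝ) : ℂ) := by
      apply Complex.ext
      · rw [pow_two, Complex.mul_re, h]; simp [pow_two]
      · rw [pow_two, Complex.mul_im, h, Complex.ofReal_im]; simp
    have hsum := rh2_summable h1 (z ^ 2)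
    rw [hFF, hzr] at hsum
    have hre := Complex.hasSum_re hsum
    have hpos : ∀ k : ℕ, 0 ≤ (((gam k : ℝ) : ℂ) / (k.factorial : ℂ) * ((((z.re) ^ 2 : ℝ) : ℂ)) ^ k).re := by
      intro k
      have h9 : ((gam k : ℝ) : ℂ) / (k.factorial : ℂ) * ((((z.re) ^ 2 : ℝ) : ℂ)) ^ k =
          ((gam k / (k.factorial : ℝ) * (z.re ^ 2) ^ k : ℝ) : ℂ) := by push_cast; ring
      rw [h9, Complex.ofReal_re]
      have := hg k
      positivity
    have h0 : (((gam 0 : ℝ) : ℂ) / ((Nat.factorial 0 : ℕ) : ℂ) * ((((z.re) ^ 2 : ℝ) : ℂ)) ^ 0).re = gam 0 := by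
      simp
    have h10 := le_hasSum hre 0 (fun k _ => hpos k)
    rw [h0] at h10
    have := hg 0
    simp at h10
    linarith

end Pool.Agent.H24R2.JP
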