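import Pool.Agent.H24R2.JP.Spec

set_option autoImplicit false

/-!
# Task OFF: no zeros of `FF^(n)` off the line at height `t`, `n ≈ 20 (log t)/2`
-/

namespace Pool.Agent.H24R2.JP

open Complex Filter Topology Polynomial

namespace OffAux

theorem denom_lower (x0 ρ : ℝ) (hρ : 0 < ρ) (x : ℂ) (θ : ℝ) :
    ρ - ‖x - x0‖ ≤ ‖(x0 : ℂ) + ρ * cexp (I * θ) - x‖ := by
  have h1 : ‖(ρ : ℂ) * cexp (I * θ)‖ = ρ := by
    rw [norm_mul, mul_comm I, Complex.norm_exp_ofReal_mul_I, mul_one, Complex.norm_real,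
      Real.norm_eq_abs, abs_of_pos hρ]
  have h2 : (ρ : ℂ) * cexp (I * θ) = ((x0 : ℂ) + ρ * cexp (I * θ) - x) + (x - x0) := by ring
  have h3 := norm_add_le ((x0 : ℂ) + ρ * cexp (I * θ) - x) (x - x0)
  rw [← h2, h1] at h3
  linarith

theorem arc_diff (f : ℂ → ℂ) (hf : Continuous f) (n : ℕ) (x0 ρ a b : ℝ) (hρ : 0 < ρ) (x : ℂ)
    (hx : ‖x - x0‖ < ρ) : DifferentiableAt ℂ (fun x => arc f n x0 ρ a b x) x := by
  set δ : ℝ := (ρ - ‖x - x0‖) / 2 with hδ
  have hδ0 : 0 < δ := by rw [hδ]; linarith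
  set g : ℝ → ℂ := fun θ => f ((x0 : ℂ) + ρ * cexp (I * θ)) * (ρ * cexp (I * θ)) with hg
  have hgc : Continuous g := by
    rw [hg]
    have h1 : Continuous fun θ : ℝ => (x0 : ℂ) + ρ * cexp (I * θ) := by fun_prop
    have h2 : Continuous fun θ : ℝ => (ρ : ℂ) * cexp (I * θ) := by fun_prop
    exact (hf.comp h1).mul h2
  have hlow : ∀ x' ∈ Metric.ball x δ, ∀ θ : ℝ, δ ≤ ‖(x0 : ℂ) + ρ * cexp (I * θ) - x'‖ := by
    intro x' hx' θ
    have h1 := denom_lower x0 ρ hρ x' θ
    have h2 : ‖x' - x0‖ ≤ ‖x' - x‖ + ‖x - x0‖ := by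
      have : x' - x0 = (x' - x) + (x - x0) := by ring
      rw [this]; exact norm_add_le _ _
    have h3 : ‖x' - x‖ < δ := by rwa [mem_ball_iff_norm] at hx'
    have h4 : ρ - ‖x - x0‖ = 2 * δ := by rw [hδ]; ring
    linarith
  have hne : ∀ x' ∈ Metric.ball x δ, ∀ θ : ℝ, (x0 : ℂ) + ρ * cexp (I * θ) - x' ≠ 0 := by
    intro x' hx' θ h0
    have := hlow x' hx' θ
    rw [h0, norm_zero] at this
    linarith
  have hxs : x ∈ Metric.ball x δ := Metric.mem_ball_self hδ0
  set F : ℂ → ℝ → ℂ := fun x' θ => g θ / ((x0 : ℂ) + ρ * cexp (I * θ) - x') ^ (n + 1) with hF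
  set F' : ℂ → ℝ → ℂ := fun x' θ =>
    g θ * ((n + 1 : ℕ) / ((x0 : ℂ) + ρ * cexp (I * θ) - x') ^ (n + 2)) with hF'
  have hden : ∀ x' : ℂ, Continuous fun θ : ℝ => (x0 : ℂ) + ρ * cexp (I * θ) - x' := by
    intro x'; fun_prop
  have hFc : ∀ x' ∈ Metric.ball x δ, Continuous (F x') := by
    intro x' hx'
    exact hgc.div ((hden x').pow _) fun θ => pow_ne_zero _ (hne x' hx' θ)
  have hFc' : Continuous (F' x) := by
    exact hgc.mul (continuous_const.div ((hden x).pow _) fun θ => pow_ne_zero _ (hne x hxs θ))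
  have key := intervalIntegral.hasDerivAt_integral_of_dominated_loc_of_deriv_le
    (μ := MeasureTheory.volume) (F := F) (F' := F') (x₀ := x) (s := Metric.ball x δ) (a := a)
    (b := b) (bound := fun θ => ‖g θ‖ * ((n + 1 : ℕ) / δ ^ (n + 2)))
    (Metric.ball_mem_nhds x hδ0)
    (by
      filter_upwards [Metric.ball_mem_nhds x hδ0] with x' hx'
      exact (hFc x' hx').aestronglyMeasurable)
    ((hFc x hxs).intervalIntegrable _ _)
    hFc'.aestronglyMeasurable
    (by
      refine Eventually.of_forall fun θ _ x' hx' => ?_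
      rw [hF']
      simp only [norm_mul, norm_div, norm_pow]
      apply mul_le_mul_of_nonneg_left _ (norm_nonneg _)
      rw [Complex.norm_natCast]
      exact div_le_div_of_nonneg_left (by positivity) (by positivity)
        (pow_le_pow_left₀ hδ0.le (hlow x' hx' θ) _))
    ((hgc.norm.mul continuous_const).intervalIntegrable _ _)
    (by
      refine Eventually.of_forall fun θ _ x' hx' => ?_
      have h0 := hne x' hx' θ
      have h1 : HasDerivAt (fun y : ℂ => (x0 : ℂ) + ρ * cexp (I * θ) - y) (-1) x' := by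
        simpa using (hasDerivAt_id x').const_sub ((x0 : ℂ) + ρ * cexp (I * θ))
      have h2 := (h1.pow (n + 1)).inv (pow_ne_zero _ h0)
      have h3 := h2.const_mul (g θ)
      rw [hF, hF']
      refine h3.congr_deriv ?_
      simp only [Nat.add_sub_cancel, Pi.pow_apply]
      set D : ℂ := (x0 : ℂ) + ρ * cexp (I * θ) - x' with hD
      field_simp
      ring)
  have h5 := key.2.differentiableAt.const_mul ((n.factorial : ℂ) / (2 * Real.pi))
  exact h5

theorem norm_mt (n : ℕ) (t : ℝ) (s : ℝ) :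
    ‖mt n t (s + I * t)‖ = ‖HH (I * t)‖ * Real.exp (s * (be t).re) *
      ‖(be t / (2 * (I * t))) ^ n‖ := by
  rw [mt, norm_mul, norm_mul, Complex.norm_exp]
  congr 3
  simp
  ring

end OffAux

open OffAux in
theorem off (h1 : SMain) (h2 : SArc) (h3 : SB1) (h4 : SStir) : SOff := by
  obtain ⟨T1, hT1, H1⟩ := h1
  obtain ⟨-, K, T2, hK, hT2, H2⟩ := h4
  refine ⟨max (max T1 T2) (Real.exp (2 * K + 2)), le_max_of_le_left (le_max_of_le_left hT1), ?_⟩
  intro t s n ht hn1 hn2 hs0 hs1 hzero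
  have htT1 : T1 ≤ t := (le_max_left _ _).trans ((le_max_left _ _).trans ht)
  have htT2 : T2 ≤ t := (le_max_right _ _).trans ((le_max_left _ _).trans ht)
  have htE : Real.exp (2 * K + 2) ≤ t := (le_max_right _ _).trans ht
  have ht1 : 1 ≤ t := hT1.trans htT1
  have ht0 : 0 < t := by linarith
  obtain ⟨hHH, hbe, -⟩ := H2 t htT2
  have hOm : K + 1 ≤ Om t := by
    rw [Om]
    have : 2 * K + 2 ≤ Real.log t := (Real.le_log_iff_exp_le ht0).2 htE
    linarith
  have hbre : 1 ≤ (be t).re := by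
    have h5 := Complex.abs_re_le_norm (be t - (Om t : ℂ))
    have h6 : (be t - (Om t : ℂ)).re = (be t).re - Om t := by simp
    rw [h6] at h5
    have h7 := (abs_le.1 (h5.trans hbe)).1
    linarith
  have hbne : be t ≠ 0 := by
    intro h0
    rw [h0] at hbre
    norm_num at hbre
  have hIt : (2 : ℂ) * (I * t) ≠ 0 := by
    have : (t : ℂ) ≠ 0 := by exact_mod_cast ht0.ne'
    simp [this]
  have hmtne : ∀ z, mt n t z ≠ 0 := by
    intro z
    rw [mt]
    exact mul_ne_zero (mul_ne_zero hHH (Complex.exp_ne_zero _))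
      (pow_ne_zero _ (div_ne_zero hbne hIt))
  set A : ℂ → ℂ := fun z => arc FF n (-t ^ 2) (40 * t) 0 Real.pi (z ^ 2) with hA
  set R : ℂ → ℂ := fun z => A z / mt n t z - 1 with hR
  have hρ : 0 < 40 * t := by linarith
  have hin : ∀ z : ℂ, ‖z - I * t‖ ≤ 3 / 4 → ‖z ^ 2 - ((-t ^ 2 : ℝ) : ℂ)‖ < 40 * t := by
    intro z hz
    have e : z ^ 2 - ((-t ^ 2 : ℝ) : ℂ) = (z - I * t) * ((z - I * t) + 2 * (I * t)) := by
      have hI : I ^ 2 = -1 := Complex.I_sq
      push_cast
      linear_combination ((t : ℂ) ^ 2) * hI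
    rw [e, norm_mul]
    have h5 : ‖(z - I * t) + 2 * (I * t)‖ ≤ 3 / 4 + 2 * t := by
      refine (norm_add_le _ _).trans ?_
      have : ‖(2 : ℂ) * (I * t)‖ = 2 * t := by
        simp [abs_of_pos ht0]
      rw [this]
      linarith
    have h6 := norm_nonneg (z - I * t)
    have h7 := norm_nonneg ((z - I * t) + 2 * (I * t))
    nlinarith
  have hRd : ∀ z : ℂ, ‖z - I * t‖ ≤ 3 / 4 → DifferentiableAt ℂ R z := by
    intro z hz
    have h5 : DifferentiableAt ℂ A z := by
      have h6 := arc_diff FF h3.1.continuous n (-t ^ 2) (40 * t) 0 Real.pi hρ (z ^ 2) (hin z hz)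
      have h8 : DifferentiableAt ℂ (fun z : ℂ => z ^ 2) z := by fun_prop
      exact DifferentiableAt.comp (g := fun x => arc FF n (-t ^ 2) (40 * t) 0 Real.pi x)
        (f := fun z : ℂ => z ^ 2) z h6 h8
    have h7 : DifferentiableAt ℂ (fun z => mt n t z) z := by
      unfold mt
      fun_prop
    exact (h5.div h7 (hmtne z)).sub_const 1
  have hRb : ∀ z : ℂ, ‖z - I * t‖ ≤ 3 / 4 → ‖R z‖ ≤ 1 / 10 := by
    intro z hz
    have h5 := H1 t n z htT1 ⟨hn1, hn2, hz⟩
    have h6 : R z = (A z - mt n t z) / mt n t z := by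
      rw [hR]; simp only
      rw [sub_div, div_self (hmtne z)]
    rw [h6, norm_div, div_le_iff₀ (norm_pos_iff.2 (hmtne z))]
    exact h5
  -- derivative bound
  have hder : ∀ c ∈ Metric.closedBall (I * t : ℂ) (1 / 2), ‖deriv R c‖ ≤ (1 / 10) / (1 / 4) := by
    intro c hc
    rw [mem_closedBall_iff_norm] at hc
    have hsub : ∀ z ∈ Metric.closedBall c (1 / 4 : ℝ), ‖z - I * t‖ ≤ 3 / 4 := by
      intro z hz
      rw [mem_closedBall_iff_norm] at hz
      have : z - I * t = (z - c) + (c - I * t) := by ring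
      rw [this]
      refine (norm_add_le _ _).trans ?_
      linarith
    apply Complex.norm_deriv_le_of_forall_mem_sphere_norm_le (by norm_num)
    · apply DifferentiableOn.diffContOnCl
      intro z hz
      rw [closure_ball c (by norm_num)] at hz
      exact (hRd z (hsub z hz)).differentiableWithinAt
    · intro z hz
      exact hRb z (hsub z (Metric.sphere_subset_closedBall hz))
  have hz1 : (s + I * t : ℂ) ∈ Metric.closedBall (I * t : ℂ) (1 / 2) := by
    rw [mem_closedBall_iff_norm]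
    simp only [add_sub_cancel_right, Complex.norm_real, Real.norm_eq_abs]
    rw [abs_of_pos hs0]; exact hs1
  have hz2 : (((-s : ℝ) : ℂ) + I * t : ℂ) ∈ Metric.closedBall (I * t : ℂ) (1 / 2) := by
    rw [mem_closedBall_iff_norm]
    simp only [add_sub_cancel_right, Complex.norm_real, Real.norm_eq_abs]
    rw [abs_neg, abs_of_pos hs0]; exact hs1
  have hlip : ‖R (s + I * t) - R (((-s : ℝ) : ℂ) + I * t)‖ ≤ (1 / 10) / (1 / 4) * (2 * s) := by
    have h5 := Convex.norm_image_sub_le_of_norm_deriv_le (𝕜 := ℂ) (f := R)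
      (s := Metric.closedBall (I * t : ℂ) (1 / 2)) (x := ((-s : ℝ) : ℂ) + I * t)
      (y := (s : ℂ) + I * t) (C := (1 / 10) / (1 / 4))
      (fun z hz => hRd z (by rw [mem_closedBall_iff_norm] at hz; linarith)) hder
      (convex_closedBall _ _) hz2 hz1
    refine h5.trans (le_of_eq ?_)
    congr 1
    have : (s : ℂ) + I * t - (((-s : ℝ) : ℂ) + I * t) = ((2 * s : ℝ) : ℂ) := by
      push_cast; ring
    rw [this, Complex.norm_real, Real.norm_eq_abs, abs_of_pos (by linarith)]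
  -- the reflection
  have hxball : ((s : ℂ) + I * t) ^ 2 ∈ Metric.ball (((-t ^ 2 : ℝ) : ℂ)) (40 * t) := by
    rw [mem_ball_iff_norm]
    apply hin
    rw [mem_closedBall_iff_norm] at hz1
    linarith
  obtain ⟨e1, e2⟩ := h2 FF n (-t ^ 2) (40 * t) (((s : ℂ) + I * t) ^ 2) hρ
    (fun ξ _ => h3.1 ξ) hxball
  have e3 := e2 h3.2.2.1
  have hconj : (starRingEnd ℂ) (((s : ℂ) + I * t) ^ 2) = (((-s : ℝ) : ℂ) + I * t) ^ 2 := by
    simp only [map_pow, map_add, map_mul, Complex.conj_I, Complex.conj_ofReal]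
    push_cast
    ring
  rw [hconj] at e3
  have e4 : A (s + I * t) + (starRingEnd ℂ) (A (((-s : ℝ) : ℂ) + I * t)) = 0 := by
    rw [hA]; simp only
    rw [← e3, ← e1]; exact hzero
  have e5 : ‖A (s + I * t)‖ = ‖A (((-s : ℝ) : ℂ) + I * t)‖ := by
    have : A (s + I * t) = -(starRingEnd ℂ) (A (((-s : ℝ) : ℂ) + I * t)) := by
      linear_combination e4
    rw [this, norm_neg, RCLike.norm_conj]
  have hAR : ∀ z, A z = (R z + 1) * mt n t z := by
    intro z
    rw [hR]; simp only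
    rw [sub_add_cancel, div_mul_cancel₀ _ (hmtne z)]
  rw [hAR, hAR, norm_mul, norm_mul, norm_mt, norm_mt] at e5
  set q1 : ℝ := ‖R (s + I * t) + 1‖ with hq1
  set q2 : ℝ := ‖R (((-s : ℝ) : ℂ) + I * t) + 1‖ with hq2
  set b : ℝ := (be t).re with hb
  have hP : 0 < ‖HH (I * t)‖ * ‖(be t / (2 * (I * t))) ^ n‖ :=
    mul_pos (norm_pos_iff.2 hHH) (norm_pos_iff.2 (pow_ne_zero _ (div_ne_zero hbne hIt)))
  have e6 : q1 * Real.exp (s * b) = q2 * Real.exp (-s * b) := by
    have : (q1 * Real.exp (s * b)) * (‖HH (I * t)‖ * ‖(be t / (2 * (I * t))) ^ n‖) =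
        (q2 * Real.exp (-s * b)) * (‖HH (I * t)‖ * ‖(be t / (2 * (I * t))) ^ n‖) := by
      linear_combination e5
    exact mul_right_cancel₀ hP.ne' this
  have e7 : q1 * Real.exp (2 * s * b) = q2 := by
    have h5 : Real.exp (2 * s * b) = Real.exp (s * b) * Real.exp (s * b) := by
      rw [← Real.exp_add]; congr 1; ring
    have h6 : Real.exp (-s * b) * Real.exp (s * b) = 1 := by
      rw [← Real.exp_add]; simp
    rw [h5, ← mul_assoc, e6, mul_assoc, h6, mul_one]
  have e8 : 1 + 2 * s ≤ Real.exp (2 * s * b) := by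
    have h5 := Real.add_one_le_exp (2 * s * b)
    nlinarith
  have hq2l : 9 / 10 ≤ q2 := by
    have h5 := hRb (((-s : ℝ) : ℂ) + I * t) (by rw [mem_closedBall_iff_norm] at hz2; linarith)
    have h6 : ‖(1 : ℂ)‖ ≤ ‖R (((-s : ℝ) : ℂ) + I * t) + 1‖ + ‖R (((-s : ℝ) : ℂ) + I * t)‖ := by
      have : (1 : ℂ) = (R (((-s : ℝ) : ℂ) + I * t) + 1) - R (((-s : ℝ) : ℂ) + I * t) := by ring
      conv_lhs => rw [this]
      exact norm_sub_le _ _
    rw [norm_one] at h6
    linarith
  have hq12 : q2 - 4 / 5 * s ≤ q1 := by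
    have h6 : ‖R (((-s : ℝ) : ℂ) + I * t) + 1‖ ≤ ‖R (s + I * t) + 1‖ +
        ‖R (s + I * t) - R (((-s : ℝ) : ℂ) + I * t)‖ := by
      have : R (((-s : ℝ) : ℂ) + I * t) + 1 = (R (s + I * t) + 1) -
        (R (s + I * t) - R (((-s : ℝ) : ℂ) + I * t)) := by ring
      conv_lhs => rw [this]
      exact norm_sub_le _ _
    linarith
  have hq1p : 0 ≤ q1 := norm_nonneg _
  nlinarith

end Pool.Agent.H24R2.JP
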