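import Pool.Agent.H24R2.JP.Spec

set_option autoImplicit false

/-!
# SPiece: the derivative of a single piece (helper986)
-/

namespace Pool.Agent.H24R2.JP.Piece

open Complex Filter Topology

theorem sq_pow (ξ : ℂ) : sq ξ ^ 2 = ξ := by
  unfold sq
  have h := Complex.cpow_nat_inv_pow (-ξ) (n := 2) two_ne_zero
  have h2 : ((-ξ) ^ (1 / 2 : ℂ)) ^ 2 = -ξ := by
    rw [one_div]; exact_mod_cast h
  rw [mul_pow, h2, I_sq]; ring

theorem sq_im (ξ : ℂ) (a : ℝ) (h : a ^ 2 ≤ (-ξ).re) : a ≤ (sq ξ).im := by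
  unfold sq
  have h1 : (I * (-ξ) ^ (1 / 2 : ℂ)).im = ((-ξ) ^ (2⁻¹ : ℂ)).re := by simp
  rw [h1, cpow_inv_two_re]
  apply Real.le_sqrt_of_sq_le
  have := Complex.re_le_norm (-ξ)
  linarith

theorem fact_bound (n : ℕ) (hn : 1 ≤ n) :
    (n.factorial : ℝ) * Real.exp n ≤ Real.exp 1 * n * (n : ℝ) ^ n := by
  induction n, hn using Nat.le_induction with
  | base => simp
  | succ n hn ih =>
    have hn0 : (0 : ℝ) < n := by exact_mod_cast hn
    have h1 : Real.exp 1 ≤ (((n : ℝ) + 1) / n) ^ (n + 1) := by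
      have h2 : 1 ≤ ((n : ℝ) + 1) * Real.log (((n : ℝ) + 1) / n) := by
        have h3 := Real.one_sub_inv_le_log_of_pos (x := ((n : ℝ) + 1) / n) (by positivity)
        have h4 : 1 - (((n : ℝ) + 1) / n)⁻¹ = 1 / (n + 1) := by field_simp; ring
        rw [h4] at h3
        calc (1:ℝ) = ((n : ℝ) + 1) * (1 / (n + 1)) := by field_simp
          _ ≤ _ := by gcongr
      calc Real.exp 1 ≤ Real.exp (((n : ℝ) + 1) * Real.log (((n : ℝ) + 1) / n)) :=
            Real.exp_le_exp.2 h2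
        _ = Real.exp (((n + 1 : ℕ) : ℝ) * Real.log (((n : ℝ) + 1) / n)) := by push_cast; rfl
        _ = _ := by
          rw [Real.exp_nat_mul, Real.exp_log (by positivity)]
    have key : Real.exp 1 * (n : ℝ) ^ (n + 1) ≤ ((n : ℝ) + 1) ^ (n + 1) := by
      rw [div_pow, le_div_iff₀ (by positivity)] at h1
      exact h1
    rw [Nat.factorial_succ]
    push_cast
    rw [Real.exp_add]
    calc ((n : ℝ) + 1) * (n.factorial : ℝ) * (Real.exp n * Real.exp 1)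
        = ((n : ℝ) + 1) * Real.exp 1 * ((n.factorial : ℝ) * Real.exp n) := by ring
      _ ≤ ((n : ℝ) + 1) * Real.exp 1 * (Real.exp 1 * n * (n : ℝ) ^ n) := by gcongr
      _ = ((n : ℝ) + 1) * Real.exp 1 * (Real.exp 1 * (n : ℝ) ^ (n + 1)) := by ring
      _ ≤ ((n : ℝ) + 1) * Real.exp 1 * (((n : ℝ) + 1) ^ (n + 1)) := by gcongr
      _ = Real.exp 1 * ((n : ℝ) + 1) * ((n : ℝ) + 1) ^ (n + 1) := by ring

/-- Numerical facts in the window. -/
theorem window_facts {K0 t : ℝ} {n m : ℕ} {z : ℂ} (hK : 1 ≤ K0) (ht : 1000000 ≤ t)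
    (ht2 : Real.exp (40 * K0) ≤ t) (hw : Win t n z) (hm : 1 ≤ m)
    (hm2 : (m : ℝ) ≤ t ^ (1 / 5 : ℝ)) (hb : ‖be t - (Om t : ℂ)‖ ≤ K0) :
    0 < ‖be t - (Real.log m : ℂ)‖ ∧ 1 ≤ n ∧ (n : ℝ) ≤ 75 / 2 * ‖be t - (Real.log m : ℂ)‖ ∧
      20 * (n : ℝ) ≤ t := by
  obtain ⟨h1, h2, h3⟩ := hw
  have htpos : 0 < t := by linarith
  have hlog : 40 * K0 ≤ Real.log t := by
    rw [Real.le_log_iff_exp_le htpos]; exact ht2
  have hOm : Om t = Real.log t / 2 := rfl
  have hmpos : (0 : ℝ) < m := by exact_mod_cast hm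
  have hlm : Real.log m ≤ 1 / 5 * Real.log t := by
    rw [← Real.log_rpow htpos]
    exact Real.log_le_log hmpos hm2
  have hre : 11 / 20 * Om t ≤ ‖be t - (Real.log m : ℂ)‖ := by
    have h4 : (be t - (Real.log m : ℂ)).re ≤ ‖be t - (Real.log m : ℂ)‖ := Complex.re_le_norm _
    have h5 : |(be t - (Om t : ℂ)).re| ≤ K0 := (Complex.abs_re_le_norm _).trans hb
    have h6 := (abs_le.1 h5).1
    simp only [Complex.sub_re, Complex.ofReal_re] at h4 h6
    linarith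
  have hsq : Real.log t ≤ 2 * (Real.sqrt t - 1) := by
    have h7 : Real.log t = 2 * Real.log (Real.sqrt t) := by
      rw [Real.log_sqrt htpos.le]; ring
    rw [h7]
    have := Real.log_le_sub_one_of_pos (Real.sqrt_pos.2 htpos)
    linarith
  have hsq2 : 1000 ≤ Real.sqrt t := by
    apply Real.le_sqrt_of_sq_le; linarith
  have hsq3 : Real.sqrt t * Real.sqrt t = t := Real.mul_self_sqrt htpos.le
  refine ⟨by linarith, ?_, by linarith, ?_⟩
  · have : (1 : ℝ) ≤ n := by linarith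
    exact_mod_cast this
  · nlinarith

/-- Geometry: the square root stays in the disc of radius `50`. -/
theorem geometry {t : ℝ} {z ξ : ℂ} {r : ℝ} (ht : 1000000 ≤ t) (hz : ‖z - I * t‖ ≤ 3 / 4)
    (hr : r ≤ 75 * t) (hξ : ‖ξ - z ^ 2‖ ≤ r) :
    (99 / 100 * t) ^ 2 ≤ (-ξ).re ∧ 99 / 100 * t ≤ (sq ξ).im ∧
    (sq ξ - z) * (sq ξ + z) = ξ - z ^ 2 ∧ ‖sq ξ - z‖ ≤ r / (198 / 100 * t) ∧
    ‖sq ξ - z‖ ≤ 38 ∧ ‖sq ξ - I * t‖ ≤ 155 / 4 := by
  have htpos : 0 < t := by linarith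
  have h1 : (99 / 100 * t) ^ 2 ≤ (-ξ).re := by
    have e : -ξ = (t : ℂ) ^ 2 - (2 * I * t * (z - I * t) + (z - I * t) ^ 2 + (ξ - z ^ 2)) := by
      ring_nf
      simp only [I_sq]
      ring
    have hn : ‖2 * I * t * (z - I * t) + (z - I * t) ^ 2 + (ξ - z ^ 2)‖ ≤
        2 * t * (3 / 4) + (3 / 4) ^ 2 + 75 * t := by
      refine (norm_add₃_le).trans ?_
      have e1 : ‖2 * I * (t : ℂ) * (z - I * t)‖ ≤ 2 * t * (3 / 4) := by
        simp only [norm_mul, Complex.norm_I, Complex.norm_real, Real.norm_eq_abs,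
          abs_of_pos htpos, Complex.norm_ofNat, mul_one]
        gcongr
      have e2 : ‖(z - I * t) ^ 2‖ ≤ (3 / 4) ^ 2 := by
        rw [norm_pow]; gcongr
      linarith
    have hre := (Complex.abs_re_le_norm
      (2 * I * t * (z - I * t) + (z - I * t) ^ 2 + (ξ - z ^ 2))).trans hn
    have hre2 := (abs_le.1 hre).2
    rw [e, Complex.sub_re]
    have e3 : ((t : ℂ) ^ 2).re = t ^ 2 := by
      rw [← Complex.ofReal_pow, Complex.ofReal_re]
    rw [e3]
    nlinarith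
  have h2 : 99 / 100 * t ≤ (sq ξ).im := sq_im ξ _ h1
  have h3 : (sq ξ - z) * (sq ξ + z) = ξ - z ^ 2 := by
    have := sq_pow ξ
    linear_combination this
  have hzim : 99 / 100 * t ≤ z.im := by
    have h5 := (Complex.abs_im_le_norm (z - I * t)).trans hz
    have h6 := (abs_le.1 h5).1
    simp at h6
    linarith
  have h4 : 198 / 100 * t ≤ ‖sq ξ + z‖ := by
    have := Complex.im_le_norm (sq ξ + z)
    rw [Complex.add_im] at this
    linarith
  have h5 : ‖sq ξ - z‖ ≤ r / (198 / 100 * t) := by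
    rw [le_div_iff₀ (by positivity)]
    calc ‖sq ξ - z‖ * (198 / 100 * t) ≤ ‖sq ξ - z‖ * ‖sq ξ + z‖ := by gcongr
      _ = ‖ξ - z ^ 2‖ := by rw [← norm_mul, h3]
      _ ≤ r := hξ
  have h6 : ‖sq ξ - z‖ ≤ 38 := by
    refine h5.trans ?_
    rw [div_le_iff₀ (by positivity)]
    linarith
  refine ⟨h1, h2, h3, h5, h6, ?_⟩
  calc ‖sq ξ - I * t‖ = ‖(sq ξ - z) + (z - I * t)‖ := by ring_nf
    _ ≤ ‖sq ξ - z‖ + ‖z - I * t‖ := norm_add_le _ _
    _ ≤ 38 + 3 / 4 := by linarith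
    _ = 155 / 4 := by norm_num

theorem diff_sq {ξ : ℂ} (h : 0 < (-ξ).re) : DifferentiableAt ℂ sq ξ := by
  unfold sq
  have : DifferentiableAt ℂ (fun ξ : ℂ => (-ξ) ^ (1 / 2 : ℂ)) ξ := by
    refine DifferentiableAt.cpow_const ?_ ?_
    · fun_prop
    · exact Or.inl h
  exact this.const_mul I

theorem diff_GG (hd : ∀ z : ℂ, 0 < z.im → DifferentiableAt ℂ HH z) {m : ℕ} (hm : 1 ≤ m) {ξ : ℂ}
    (h : 0 < (-ξ).re) (h2 : 0 < (sq ξ).im) : DifferentiableAt ℂ (GG m) ξ := by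
  unfold GG
  have hs := diff_sq h
  refine DifferentiableAt.mul ?_ ?_
  · exact DifferentiableAt.comp ξ (hd _ h2) hs
  · refine DifferentiableAt.const_cpow ?_ ?_
    · exact (differentiableAt_const _).sub hs
    · left
      have : m ≠ 0 := by omega
      exact_mod_cast this

/-- The pointwise comparison on the ball. -/
theorem pointwise {K0 t : ℝ} {n m : ℕ} {z ξ : ℂ} (hK : 1 ≤ K0) (ht : 1000000 ≤ t)
    (hm : 1 ≤ m) (hn : 1 ≤ n) (hnt : 20 * (n : ℝ) ≤ t) (hz : ‖z - I * t‖ ≤ 3 / 4)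
    (hlam : 0 < ‖be t - (Real.log m : ℂ)‖)
    (hnl : (n : ℝ) ≤ 75 / 2 * ‖be t - (Real.log m : ℂ)‖)
    (hst : ∀ u : ℂ, ‖u‖ ≤ 50 →
      ‖HH (I * t + u) - HH (I * t) * cexp (be t * u)‖ ≤ K0 / t * ‖HH (I * t) * cexp (be t * u)‖)
    (hξ : ‖ξ - z ^ 2‖ ≤ 2 * t * n / ‖be t - (Real.log m : ℂ)‖) :
    ‖GG m ξ - HH (I * t) * cexp (be t * (z - I * t)) * (m : ℂ) ^ (-(1 / 2) - z) *
      cexp ((be t - (Real.log m : ℂ)) / (2 * (I * t)) * (ξ - z ^ 2))‖ ≤
    ‖HH (I * t) * cexp (be t * (z - I * t)) * (m : ℂ) ^ (-(1 / 2) - z)‖ *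
      Real.exp n * ((3 * K0 + 40) * n / t) := by
  have htpos : 0 < t := by linarith
  have hnpos : (0 : ℝ) < n := by exact_mod_cast hn
  set lam : ℂ := be t - (Real.log m : ℂ) with hlamdef
  set c : ℂ := HH (I * t) * cexp (be t * (z - I * t)) * (m : ℂ) ^ (-(1 / 2) - z) with hc
  set r : ℝ := 2 * t * n / ‖lam‖ with hr
  have hr75 : r ≤ 75 * t := by
    rw [hr, div_le_iff₀ hlam]
    nlinarith
  have hr0 : 0 ≤ r := by positivity
  obtain ⟨g1, g2, g3, g4, g5, g6⟩ := geometry ht hz hr75 hξ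
  set ζ : ℂ := sq ξ with hζ
  have hm0 : (m : ℂ) ≠ 0 := by
    have : m ≠ 0 := by omega
    exact_mod_cast this
  have hlogm : Complex.log (m : ℂ) = ((Real.log m : ℝ) : ℂ) := by
    rw [Complex.ofReal_log (by positivity)]; simp
  -- the exact identity
  have hid : HH (I * t) * cexp (be t * (ζ - I * t)) * (m : ℂ) ^ (-(1 / 2) - ζ) =
      c * cexp (lam * (ζ - z)) := by
    have e1 : (m : ℂ) ^ (-(1 / 2) - ζ) = (m : ℂ) ^ (-(1 / 2) - z) *
        cexp (-((Real.log m : ℝ) : ℂ) * (ζ - z)) := by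
      rw [Complex.cpow_def_of_ne_zero hm0, Complex.cpow_def_of_ne_zero hm0, hlogm, ← Complex.exp_add]
      congr 1; ring
    have e2 : cexp (be t * (ζ - I * t)) = cexp (be t * (z - I * t)) * cexp (be t * (ζ - z)) := by
      rw [← Complex.exp_add]; congr 1; ring
    have e3 : cexp (lam * (ζ - z)) = cexp (be t * (ζ - z)) *
        cexp (-((Real.log m : ℝ) : ℂ) * (ζ - z)) := by
      rw [← Complex.exp_add, hlamdef]; congr 1; ring
    rw [e1, e2, e3, hc]; ring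
  have h1 : ‖GG m ξ - c * cexp (lam * (ζ - z))‖ ≤ K0 / t * ‖c * cexp (lam * (ζ - z))‖ := by
    have hs := hst (ζ - I * t) (g6.trans (by norm_num))
    have e : I * t + (ζ - I * t) = ζ := by ring
    rw [e] at hs
    have e4 : GG m ξ - c * cexp (lam * (ζ - z)) =
        (HH ζ - HH (I * t) * cexp (be t * (ζ - I * t))) * (m : ℂ) ^ (-(1 / 2) - ζ) := by
      rw [← hid]; unfold GG; ring
    rw [e4, ← hid, norm_mul, norm_mul (HH (I * t) * cexp (be t * (ζ - I * t)))]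
    calc _ ≤ (K0 / t * ‖HH (I * t) * cexp (be t * (ζ - I * t))‖) * ‖(m : ℂ) ^ (-(1 / 2) - ζ)‖ := by
          gcongr
      _ = _ := by ring
  set w0 : ℂ := lam / (2 * (I * t)) * (ξ - z ^ 2) with hw0
  have htC : (t : ℂ) ≠ 0 := by exact_mod_cast htpos.ne'
  have hw0n : ‖w0‖ ≤ n := by
    rw [hw0, norm_mul, norm_div]
    have : ‖2 * (I * (t : ℂ))‖ = 2 * t := by
      simp [abs_of_pos htpos]
    rw [this]
    calc ‖lam‖ / (2 * t) * ‖ξ - z ^ 2‖ ≤ ‖lam‖ / (2 * t) * (2 * t * n / ‖lam‖) := by gcongr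
      _ = n := by field_simp
  set δ : ℂ := lam * (ζ - z) - w0 with hδ
  have hδn : ‖δ‖ ≤ 20 * n / t := by
    have e5 : δ = lam * (ζ - z) * ((2 * (I * t) - (ζ + z)) / (2 * (I * t))) := by
      rw [hδ, hw0, ← g3]
      field_simp
    have e6 : ‖2 * (I * (t : ℂ))‖ = 2 * t := by simp [abs_of_pos htpos]
    have e7 : ‖2 * (I * (t : ℂ)) - (ζ + z)‖ ≤ 79 / 2 := by
      have : 2 * (I * (t : ℂ)) - (ζ + z) = -((ζ - I * t) + (z - I * t)) := by ring
      rw [this, norm_neg]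
      refine (norm_add_le _ _).trans ?_
      linarith
    rw [e5, norm_mul, norm_div, norm_mul, e6]
    calc ‖lam‖ * ‖ζ - z‖ * (‖2 * (I * (t : ℂ)) - (ζ + z)‖ / (2 * t))
        ≤ ‖lam‖ * (r / (198 / 100 * t)) * ((79 / 2) / (2 * t)) := by gcongr
      _ = (100 / 198 * (79 / 2)) * n / t := by
        rw [hr]; field_simp
      _ ≤ 20 * n / t := by gcongr; norm_num
  have hδ1 : ‖δ‖ ≤ 1 := by
    refine hδn.trans ?_
    rw [div_le_one htpos]; exact hnt
  have hE := Complex.norm_exp_sub_one_le hδ1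
  have hE2 : ‖cexp δ‖ ≤ 3 := by
    have : cexp δ = (cexp δ - 1) + 1 := by ring
    rw [this]
    refine (norm_add_le _ _).trans ?_
    rw [norm_one]; linarith
  have hw0e : ‖cexp w0‖ ≤ Real.exp n := by
    refine (Complex.norm_exp_le_exp_norm _).trans (Real.exp_le_exp.2 hw0n)
  have hsplit : cexp (lam * (ζ - z)) = cexp w0 * cexp δ := by
    rw [← Complex.exp_add, hδ]; congr 1; ring
  have h2 : ‖c * cexp (lam * (ζ - z)) - c * cexp w0‖ ≤ ‖c‖ * Real.exp n * (40 * n / t) := by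
    have e8 : c * cexp (lam * (ζ - z)) - c * cexp w0 = c * cexp w0 * (cexp δ - 1) := by
      rw [hsplit]; ring
    rw [e8, norm_mul, norm_mul]
    have e9 : ‖cexp δ - 1‖ ≤ 40 * n / t := by
      refine hE.trans ?_
      calc 2 * ‖δ‖ ≤ 2 * (20 * n / t) := by gcongr
        _ = 40 * n / t := by ring
    gcongr
  have h3 : K0 / t * ‖c * cexp (lam * (ζ - z))‖ ≤ ‖c‖ * Real.exp n * (3 * K0 * n / t) := by
    rw [hsplit, norm_mul c, norm_mul (cexp w0)]
    have hn1 : (1 : ℝ) ≤ n := by exact_mod_cast hn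
    calc K0 / t * (‖c‖ * (‖cexp w0‖ * ‖cexp δ‖)) ≤ K0 / t * (‖c‖ * (Real.exp n * 3)) := by gcongr
      _ = ‖c‖ * Real.exp n * (3 * K0 * 1 / t) := by ring
      _ ≤ ‖c‖ * Real.exp n * (3 * K0 * n / t) := by gcongr
  calc ‖GG m ξ - c * cexp w0‖ = ‖(GG m ξ - c * cexp (lam * (ζ - z))) +
        (c * cexp (lam * (ζ - z)) - c * cexp w0)‖ := by congr 1; ring
    _ ≤ ‖GG m ξ - c * cexp (lam * (ζ - z))‖ + ‖c * cexp (lam * (ζ - z)) - c * cexp w0‖ :=
        norm_add_le _ _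
    _ ≤ ‖c‖ * Real.exp n * (3 * K0 * n / t) + ‖c‖ * Real.exp n * (40 * n / t) :=
        add_le_add (h1.trans h3) h2
    _ = ‖c‖ * Real.exp n * ((3 * K0 + 40) * n / t) := by ring

end Pool.Agent.H24R2.JP.Piece

namespace Pool.Agent.H24R2.JP

open Complex Filter Topology Piece

theorem piece (h : SStir) : SPiece := by
  obtain ⟨hd, K0, T0, hK0, hT0, hst⟩ := h
  refine ⟨9 * K0 + 120, max T0 (max 1000000 (Real.exp (40 * K0))), by linarith,
    le_max_of_le_left hT0, ?_⟩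
  intro t n m z ht hw hm hm2
  have htT0 : T0 ≤ t := (le_max_left _ _).trans ht
  have ht6 : 1000000 ≤ t := (le_max_left _ _).trans ((le_max_right _ _).trans ht)
  have hte : Real.exp (40 * K0) ≤ t := (le_max_right _ _).trans ((le_max_right _ _).trans ht)
  obtain ⟨hH, hb, hst⟩ := hst t htT0
  obtain ⟨hlam, hn, hnl, hnt⟩ := window_facts hK0 ht6 hte hw hm hm2 hb
  have hz := hw.2.2
  have htpos : 0 < t := by linarith
  have hnpos : (0 : ℝ) < n := by exact_mod_cast hn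
  set lam : ℂ := be t - (Real.log m : ℂ) with hlamdef
  set c : ℂ := HH (I * t) * cexp (be t * (z - I * t)) * (m : ℂ) ^ (-(1 / 2) - z) with hc
  set r : ℝ := 2 * t * n / ‖lam‖ with hr
  have hrpos : 0 < r := by positivity
  have hr75 : r ≤ 75 * t := by
    rw [hr, div_le_iff₀ hlam]
    nlinarith
  -- the comparison function
  set g : ℂ → ℂ := fun ξ => c * cexp (lam / (2 * (I * t)) * (ξ - z ^ 2)) with hg
  have hgd : Differentiable ℂ g := by
    intro ξ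
    rw [hg]
    fun_prop
  have hGd : ∀ ξ ∈ Metric.closedBall (z ^ 2) r, DifferentiableAt ℂ (GG m) ξ := by
    intro ξ hξ
    rw [mem_closedBall_iff_norm] at hξ
    obtain ⟨g1, g2, -, -, -, -⟩ := geometry ht6 hz hr75 hξ
    exact diff_GG hd hm (by nlinarith) (by nlinarith)
  have hpt : ∀ ξ ∈ Metric.sphere (z ^ 2) r, ‖(GG m - g) ξ‖ ≤
      ‖c‖ * Real.exp n * ((3 * K0 + 40) * n / t) := by
    intro ξ hξ
    rw [mem_sphere_iff_norm] at hξ
    exact pointwise hK0 ht6 hm hn hnt hz hlam hnl hst hξ.le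
  have hdc : DiffContOnCl ℂ (GG m - g) (Metric.ball (z ^ 2) r) := by
    apply DifferentiableOn.diffContOnCl
    rw [closure_ball _ hrpos.ne']
    intro ξ hξ
    exact ((hGd ξ hξ).sub (hgd ξ)).differentiableWithinAt
  have hC := Complex.norm_iteratedDeriv_le_of_forall_mem_sphere_norm_le n hrpos hdc hpt
  have hGan : ContDiffAt ℂ n (GG m) (z ^ 2) := by
    have : AnalyticAt ℂ (GG m) (z ^ 2) := by
      have hO : DifferentiableOn ℂ (GG m) (Metric.ball (z ^ 2) r) := fun ξ hξ =>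
        (hGd ξ (Metric.ball_subset_closedBall hξ)).differentiableWithinAt
      exact hO.analyticAt (Metric.ball_mem_nhds _ hrpos)
    exact this.contDiffAt
  have hgan : ContDiffAt ℂ n g (z ^ 2) := (hgd.contDiff).contDiffAt
  rw [iteratedDeriv_sub hGan hgan] at hC
  have hgder : iteratedDeriv n g (z ^ 2) = c * (lam / (2 * (I * t))) ^ n := by
    rw [hg]
    rw [iteratedDeriv_const_mul_field]
    congr 1
    have e := iteratedDeriv_comp_sub_const (𝕜 := ℂ) (F := ℂ) n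
      (fun w : ℂ => cexp (lam / (2 * (I * t)) * w)) (z ^ 2)
    have e2 := congrFun e (z ^ 2)
    rw [e2, iteratedDeriv_cexp_const_mul]
    simp
  rw [hgder] at hC
  refine hC.trans ?_
  have hfb := fact_bound n hn
  have hnorm : ‖c * (lam / (2 * (I * t))) ^ n‖ = ‖c‖ * (‖lam‖ / (2 * t)) ^ n := by
    rw [norm_mul, norm_pow, norm_div]
    have : ‖2 * (I * (t : ℂ))‖ = 2 * t := by simp [abs_of_pos htpos]
    rw [this]
  rw [hnorm, hr]
  have e3 : (n.factorial : ℝ) * (‖c‖ * Real.exp n * ((3 * K0 + 40) * n / t)) /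
      (2 * t * n / ‖lam‖) ^ n = ‖c‖ * (‖lam‖ / (2 * t)) ^ n *
      (((n.factorial : ℝ) * Real.exp n) / (n : ℝ) ^ n * ((3 * K0 + 40) * n / t)) := by
    rw [div_pow, div_pow, mul_pow]
    field_simp
  rw [e3]
  have e4 : ((n.factorial : ℝ) * Real.exp n) / (n : ℝ) ^ n ≤ 3 * n := by
    rw [div_le_iff₀ (by positivity)]
    refine hfb.trans ?_
    have := Real.exp_one_lt_d9
    have h3 : Real.exp 1 ≤ 3 := by linarith
    gcongr
  calc ‖c‖ * (‖lam‖ / (2 * t)) ^ n *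
      (((n.factorial : ℝ) * Real.exp n) / (n : ℝ) ^ n * ((3 * K0 + 40) * n / t))
      ≤ ‖c‖ * (‖lam‖ / (2 * t)) ^ n * (3 * n * ((3 * K0 + 40) * n / t)) := by gcongr
    _ = (9 * K0 + 120) * (n : ℝ) ^ 2 / t * (‖c‖ * (‖lam‖ / (2 * t)) ^ n) := by ring

end Pool.Agent.H24R2.JP
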