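import Pool.Agent.H24R2.JP.Spec2

set_option autoImplicit false

/-!
# The operators `TT a`: elementary identities
-/

namespace Pool.Agent.H24R2.JP.OpBase

open Complex Filter Topology Polynomial

theorem diff_deriv {f : ℂ → ℂ} (hf : Differentiable ℂ f) : Differentiable ℂ (deriv f) := by
  have := (hf.contDiff (n := (⊤ : ℕ∞))).differentiable_iteratedDeriv 1
    (by exact_mod_cast WithTop.coe_lt_top 1)
  rwa [iteratedDeriv_one] at this

theorem diff_iter {f : ℂ → ℂ} (hf : Differentiable ℂ f) (n : ℕ) :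
    Differentiable ℂ (iteratedDeriv n f) :=
  (hf.contDiff (n := (⊤ : ℕ∞))).differentiable_iteratedDeriv n (by exact_mod_cast WithTop.coe_lt_top n)

theorem TT_diff (a : ℝ) {f : ℂ → ℂ} (hf : Differentiable ℂ f) : Differentiable ℂ (TT a f) := by
  have h := diff_deriv hf
  unfold TT
  fun_prop

theorem deriv_TT (a : ℝ) {f : ℂ → ℂ} (hf : Differentiable ℂ f) :
    deriv (TT a f) = TT (a + 1) (deriv f) := by
  funext x
  have h := diff_deriv hf
  have h1 : HasDerivAt (TT a f) ((a : ℂ) * deriv f x + (1 * deriv f x + x * deriv (deriv f) x)) x := by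
    refine HasDerivAt.add ((hf x).hasDerivAt.const_mul _) ?_
    exact (hasDerivAt_id x).mul (h x).hasDerivAt
  rw [h1.deriv]
  unfold TT
  push_cast
  ring

theorem iter_TT (a : ℝ) {f : ℂ → ℂ} (hf : Differentiable ℂ f) (k : ℕ) :
    iteratedDeriv k (TT a f) = TT (a + k) (iteratedDeriv k f) := by
  induction k with
  | zero => simp
  | succ k ih =>
    rw [iteratedDeriv_succ, ih, deriv_TT _ (diff_iter hf k), iteratedDeriv_succ]
    congr 1
    push_cast
    ring

theorem TI_diff (b : ℝ) (m : ℕ) : ∀ {f : ℂ → ℂ}, Differentiable ℂ f → Differentiable ℂ (TI b m f) := by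
  induction m with
  | zero => intro f hf; exact hf
  | succ m ih => intro f hf; exact ih (TT_diff _ hf)

theorem TI_succ' (m : ℕ) : ∀ (b : ℝ) (f : ℂ → ℂ), TI b (m + 1) f = TT b (TI (b + 1) m f) := by
  induction m with
  | zero =>
    intro b f
    show TT (b + ((0 : ℕ) : ℝ)) f = TT b f
    simp
  | succ m ih =>
    intro b f
    show TI b (m + 1) (TT (b + ((m + 1 : ℕ) : ℝ)) f) = TT b (TI (b + 1) m (TT (b + 1 + (m : ℝ)) f))
    have e : b + ((m + 1 : ℕ) : ℝ) = b + 1 + (m : ℝ) := by
      push_cast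
      ring
    rw [ih, e]

theorem deriv_TI (m : ℕ) : ∀ (b : ℝ) {f : ℂ → ℂ}, Differentiable ℂ f →
    deriv (TI b m f) = TI (b + 1) m (deriv f) := by
  induction m with
  | zero => intro b f _; rfl
  | succ m ih =>
    intro b f hf
    show deriv (TI b m (TT (b + (m : ℝ)) f)) = TI (b + 1) m (TT (b + 1 + (m : ℝ)) (deriv f))
    rw [ih b (TT_diff _ hf), deriv_TT _ hf]
    congr 2
    ring

end Pool.Agent.H24R2.JP.OpBase
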