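import Pool.Agent.H24R2.JP.Spec
import Pool.Agent.H382R2.Gam

set_option autoImplicit false

open Complex Filter Topology Set

namespace Pool.Agent.H24R2.JP

namespace StirAux

lemma im_half {z : ℂ} : (1 / 2 + z).im = z.im := by simp

lemma re_half {z : ℂ} : (1 / 2 + z).re = 1 / 2 + z.re := by simp

lemma quad_ne {z : ℂ} (hz : 0 < z.im) : (4 * z ^ 2 - 1 : ℂ) ≠ 0 := by
  intro h
  have h1 : (2 * z - 1) * (2 * z + 1) = 0 := by linear_combination h
  rcases mul_eq_zero.1 h1 with h2 | h2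
  · have := congrArg Complex.im h2
    simp at this
    linarith
  · have := congrArg Complex.im h2
    simp at this
    linarith

lemma HH_ne {z : ℂ} (hz : 0 < z.im) : HH z ≠ 0 := by
  unfold HH
  exact mul_ne_zero (quad_ne hz) (SG.GamAux.GR_ne (by rw [im_half]; exact hz.ne'))

/-- the log derivative -/
noncomputable def ld (z : ℂ) : ℂ :=
  8 * z / (4 * z ^ 2 - 1) + (-(Real.log Real.pi / 2 : ℝ) + logDeriv Complex.Gamma ((1 / 2 + z) / 2) / 2)

lemma HH_deriv {z : ℂ} (hz : 0 < z.im) : HasDerivAt HH (HH z * ld z) z := by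
  have h1 : HasDerivAt (fun z : ℂ => 4 * z ^ 2 - 1) (8 * z) z := by
    have h0 := ((hasDerivAt_id z).fun_pow 2).const_mul (4 : ℂ)
    have h2 := h0.sub_const 1
    refine h2.congr_deriv ?_
    simp
    ring
  have h2 : HasDerivAt (fun z : ℂ => 1 / 2 + z) 1 z := (hasDerivAt_id z).const_add _
  have h3 := HasDerivAt.comp z (SG.GamAux.GR_deriv (s := 1 / 2 + z) (by rw [im_half]; exact hz.ne')) h2
  have h4 := h1.mul h3
  have e : HH = (fun z : ℂ => 4 * z ^ 2 - 1) * (Gammaℝ ∘ fun z : ℂ => 1 / 2 + z) := by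
    funext w
    simp [HH]
  rw [e]
  refine h4.congr_deriv ?_
  have hq : (4 * z ^ 2 - 1) * (8 * z / (4 * z ^ 2 - 1)) = 8 * z := mul_div_cancel₀ _ (quad_ne hz)
  simp only [Pi.mul_apply, Function.comp_apply, ld]
  linear_combination Gammaℝ (1 / 2 + z) * hq.symm

lemma ld_eq {z : ℂ} (hz : 0 < z.im) : logDeriv HH z = ld z := by
  rw [logDeriv_apply, (HH_deriv hz).deriv, mul_comm, mul_div_assoc, div_self (HH_ne hz), mul_one]

lemma HH_diff {z : ℂ} (hz : 0 < z.im) : DifferentiableAt ℂ HH z := (HH_deriv hz).differentiableAt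

lemma upper_open : IsOpen {z : ℂ | 0 < z.im} := isOpen_lt continuous_const Complex.continuous_im

lemma ld_diff {z : ℂ} (hz : 0 < z.im) : DifferentiableAt ℂ (logDeriv HH) z := by
  have h1 : DifferentiableOn ℂ HH {z : ℂ | 0 < z.im} := fun w hw => (HH_diff hw).differentiableWithinAt
  have h2 : AnalyticAt ℂ HH z := h1.analyticAt (upper_open.mem_nhds hz)
  have h3 : AnalyticAt ℂ (deriv HH) z := h2.deriv
  have h4 : AnalyticAt ℂ (deriv HH / HH) z := h3.div h2 (HH_ne hz)
  exact h4.differentiableAt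

lemma bound1 : ∃ K : ℝ, 1 ≤ K ∧ ∀ (t : ℝ) (z : ℂ), 400 ≤ t → ‖z - I * t‖ ≤ t / 4 →
    0 < z.im ∧ ‖logDeriv HH z - (Om t : ℂ)‖ ≤ K := by
  obtain ⟨C, hC, h⟩ := SG.GamAux.ld_bound
  have hl2 : 0 < Real.log 2 := Real.log_pos (by norm_num)
  refine ⟨C + Real.log 2 + 1, by linarith, ?_⟩
  intro t z ht hz
  have him : |z.im - t| ≤ t / 4 := by
    have := Complex.abs_im_le_norm (z - I * t)
    simp at this
    linarith
  have hre : |z.re| ≤ t / 4 := by
    have := Complex.abs_re_le_norm (z - I * t)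
    simp at this
    linarith
  rw [abs_le] at him hre
  have hpos : 0 < z.im := by linarith
  refine ⟨hpos, ?_⟩
  rw [ld_eq hpos]
  have habs : |(1 / 2 + z).im| = z.im := by rw [im_half, abs_of_pos hpos]
  have h1 := h (1 / 2 + z) (by rw [habs]; linarith) (by
    rw [habs, re_half, abs_le]
    constructor <;> linarith)
  rw [habs] at h1
  have h2 : |Real.log z.im / 2 - Real.log t / 2| ≤ Real.log 2 := by
    have a1 : Real.log z.im ≤ Real.log (2 * t) := Real.log_le_log hpos (by linarith)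
    have a2 : Real.log t ≤ Real.log (2 * z.im) := Real.log_le_log (by linarith) (by linarith)
    rw [Real.log_mul (by norm_num) (by linarith)] at a1
    rw [Real.log_mul (by norm_num) hpos.ne'] at a2
    rw [abs_le]
    constructor <;> linarith
  have h3 : ‖8 * z / (4 * z ^ 2 - 1)‖ ≤ 1 := by
    have hn : 300 ≤ ‖z‖ := by
      have := Complex.abs_im_le_norm z
      rw [abs_of_pos hpos] at this
      linarith
    rw [norm_div, div_le_one (norm_pos_iff.2 (quad_ne hpos))]
    have e1 : ‖8 * z‖ = 8 * ‖z‖ := by simp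
    have e2 : ‖(4 * z ^ 2 : ℂ)‖ = 4 * ‖z‖ ^ 2 := by simp
    have e3 : ‖(4 * z ^ 2 : ℂ)‖ - ‖(1 : ℂ)‖ ≤ ‖(4 * z ^ 2 - 1 : ℂ)‖ := norm_sub_norm_le _ _
    rw [e2, norm_one] at e3
    rw [e1]
    nlinarith
  have e : ld z - (Om t : ℂ) = 8 * z / (4 * z ^ 2 - 1) +
      ((-(Real.log Real.pi / 2 : ℝ) + logDeriv Complex.Gamma ((1 / 2 + z) / 2) / 2) -
        (Real.log z.im / 2 : ℝ)) + ((Real.log z.im / 2 - Real.log t / 2 : ℝ) : ℂ) := by
    unfold ld Om
    push_cast
    ring
  rw [e]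
  refine (norm_add_le _ _).trans ?_
  refine (add_le_add (norm_add_le _ _) le_rfl).trans ?_
  rw [Complex.norm_real, Real.norm_eq_abs]
  linarith

lemma bound2 : ∃ K : ℝ, 1 ≤ K ∧ ∀ (t : ℝ), 400 ≤ t →
    ‖be t - (Om t : ℂ)‖ ≤ K ∧ ∀ u : ℂ, ‖u‖ ≤ 50 → 0 < (I * t + u).im ∧
      ‖logDeriv HH (I * t + u) - be t‖ ≤ 500 * K / t := by
  obtain ⟨K, hK, h⟩ := bound1
  refine ⟨K, hK, ?_⟩
  intro t ht
  have ht0 : 0 < t := by linarith
  refine ⟨(h t (I * t) ht (by simp; linarith)).2, ?_⟩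
  intro u hu
  refine ⟨(h t (I * t + u) ht (by simp; linarith)).1, ?_⟩
  have hcv : Convex ℝ (Metric.ball (I * t : ℂ) (t / 8 + 1)) := convex_ball _ _
  have hd : ∀ z ∈ Metric.ball (I * t : ℂ) (t / 8 + 1), DifferentiableAt ℂ (logDeriv HH) z := by
    intro z hz
    apply ld_diff
    refine (h t z ht ?_).1
    rw [Metric.mem_ball, dist_eq_norm] at hz
    linarith
  have hdb : ∀ z ∈ Metric.ball (I * t : ℂ) (t / 8 + 1), ‖deriv (logDeriv HH) z‖ ≤ 8 * K / (t - 8) * 1 := by
    intro z hz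
    rw [Metric.mem_ball, dist_eq_norm] at hz
    have hr : 0 < t / 8 - 1 := by linarith
    have e0 : deriv (logDeriv HH) z = deriv (fun w => logDeriv HH w - (Om t : ℂ)) z := by
      rw [deriv_sub_const]
    rw [e0]
    have := Complex.norm_deriv_le_of_forall_mem_sphere_norm_le (f := fun w => logDeriv HH w - (Om t : ℂ))
      (c := z) (C := K) hr ?_ ?_
    · refine this.trans (le_of_eq ?_)
      field_simp
    · constructor
      · intro w hw
        rw [Metric.mem_ball, dist_eq_norm] at hw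
        have : ‖w - I * t‖ ≤ t / 4 := by
          calc ‖w - I * t‖ = ‖(w - z) + (z - I * t)‖ := by ring_nf
            _ ≤ ‖w - z‖ + ‖z - I * t‖ := norm_add_le _ _
            _ ≤ t / 4 := by linarith
        exact ((ld_diff (h t w ht this).1).sub_const _).differentiableWithinAt
      · rw [closure_ball _ hr.ne']
        intro w hw
        rw [Metric.mem_closedBall, dist_eq_norm] at hw
        have : ‖w - I * t‖ ≤ t / 4 := by
          calc ‖w - I * t‖ = ‖(w - z) + (z - I * t)‖ := by ring_nf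
            _ ≤ ‖w - z‖ + ‖z - I * t‖ := norm_add_le _ _
            _ ≤ t / 4 := by linarith
        exact ((ld_diff (h t w ht this).1).sub_const _).continuousAt.continuousWithinAt
    · intro w hw
      rw [mem_sphere_iff_norm] at hw
      have : ‖w - I * t‖ ≤ t / 4 := by
        calc ‖w - I * t‖ = ‖(w - z) + (z - I * t)‖ := by ring_nf
          _ ≤ ‖w - z‖ + ‖z - I * t‖ := norm_add_le _ _
          _ ≤ t / 4 := by linarith
      exact (h t w ht this).2
  have hx : (I * t : ℂ) ∈ Metric.ball (I * t : ℂ) (t / 8 + 1) := Metric.mem_ball_self (by linarith)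
  have hy : (I * t + u : ℂ) ∈ Metric.ball (I * t : ℂ) (t / 8 + 1) := by
    rw [Metric.mem_ball, dist_eq_norm]
    simp
    linarith
  have := hcv.norm_image_sub_le_of_norm_deriv_le hd hdb hx hy
  unfold be
  refine this.trans ?_
  rw [mul_one, add_sub_cancel_left]
  have h8 : 0 < t - 8 := by linarith
  calc 8 * K / (t - 8) * ‖u‖ ≤ 8 * K / (t - 8) * 50 := by gcongr
    _ = 400 * K / (t - 8) := by ring
    _ ≤ 500 * K / t := by
      rw [div_le_div_iff₀ h8 ht0]
      nlinarith

end StirAux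

open StirAux in
theorem stir : SStir := by
  refine ⟨fun z hz => HH_diff hz, ?_⟩
  obtain ⟨K, hK, h⟩ := bound2
  refine ⟨50000 * K, 25000 * K, by linarith, by linarith, ?_⟩
  intro t ht
  have ht4 : 400 ≤ t := by linarith
  have ht0 : 0 < t := by linarith
  obtain ⟨hb, hu⟩ := h t ht4
  have hne : HH (I * t) ≠ 0 := HH_ne (by simp; linarith)
  refine ⟨hne, by linarith, ?_⟩
  intro u hu50
  rcases eq_or_ne u 0 with rfl | hu0
  · simp
    positivity
  have hun : 0 < ‖u‖ := norm_pos_iff.2 hu0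
  set κ : ℝ := 25000 * K / t with hκ
  have hκ0 : 0 < κ := by positivity
  have key := SG.GamAux.gron (fun x : ℝ => HH (I * t + x * u) * cexp (-(x * (be t * u))))
    (fun x : ℝ => HH (I * t + x * u) * cexp (-(x * (be t * u))) *
      ((logDeriv HH (I * t + x * u) - be t) * u)) κ hκ0 ?_ ?_
  · obtain ⟨-, key⟩ := key
    simp only [Complex.ofReal_one, one_mul, Complex.ofReal_zero, zero_mul, add_zero, neg_zero,
      Complex.exp_zero, mul_one] at key
    have hκ1 : κ ≤ 1 := by
      rw [hκ, div_le_one ht0]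
      exact ht
    have he : Real.exp κ - 1 ≤ 2 * κ := by
      have := Real.abs_exp_sub_one_le (x := κ) (by rw [abs_of_pos hκ0]; exact hκ1)
      rw [abs_of_pos hκ0] at this
      exact (le_abs_self _).trans this
    have e1 : HH (I * t + u) - HH (I * t) * cexp (be t * u) =
        (HH (I * t + u) * cexp (-(be t * u)) - HH (I * t)) * cexp (be t * u) := by
      rw [sub_mul, mul_assoc, ← Complex.exp_add]
      simp
    rw [e1, norm_mul, norm_mul]
    calc ‖HH (I * t + u) * cexp (-(be t * u)) - HH (I * t)‖ * ‖cexp (be t * u)‖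
        ≤ ((Real.exp κ - 1) * ‖HH (I * t)‖) * ‖cexp (be t * u)‖ := by gcongr
      _ ≤ ((2 * κ) * ‖HH (I * t)‖) * ‖cexp (be t * u)‖ := by gcongr
      _ = 50000 * K / t * (‖HH (I * t)‖ * ‖cexp (be t * u)‖) := by rw [hκ]; ring
  · intro x hx
    have hxu : ‖(x : ℂ) * u‖ ≤ 50 := by
      rw [norm_mul, Complex.norm_real, Real.norm_eq_abs, abs_of_nonneg hx.1]
      nlinarith [hx.2]
    obtain ⟨him, -⟩ := hu (x * u) hxu
    have hlin : HasDerivAt (fun x : ℝ => I * t + (x : ℂ) * u) u x := by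
      have h0 : HasDerivAt (fun x : ℝ => (x : ℂ)) 1 x := Complex.ofRealCLM.hasDerivAt
      simpa using (h0.mul_const u).const_add (I * t)
    have h1 : HasDerivAt (fun x : ℝ => HH (I * t + (x : ℂ) * u))
        (HH (I * t + x * u) * ld (I * t + x * u) * u) x := HasDerivAt.comp x (HH_deriv him) hlin
    have h2 : HasDerivAt (fun x : ℝ => cexp (-((x : ℂ) * (be t * u))))
        (cexp (-((x : ℂ) * (be t * u))) * (-(be t * u))) x := by
      have h0 : HasDerivAt (fun x : ℝ => (x : ℂ)) 1 x := Complex.ofRealCLM.hasDerivAt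
      have h0' : HasDerivAt (fun x : ℝ => -((x : ℂ) * (be t * u))) (-(1 * (be t * u))) x :=
        (h0.mul_const (be t * u)).fun_neg
      rw [one_mul] at h0'
      exact h0'.cexp
    refine (h1.mul h2).congr_deriv ?_
    rw [← ld_eq him]
    ring
  · intro x hx
    have hxu : ‖(x : ℂ) * u‖ ≤ 50 := by
      rw [norm_mul, Complex.norm_real, Real.norm_eq_abs, abs_of_nonneg hx.1]
      nlinarith [hx.2]
    obtain ⟨-, hb2⟩ := hu (x * u) hxu
    rw [norm_mul _ ((logDeriv HH (I * t + x * u) - be t) * u), norm_mul (_ - _) u, mul_comm]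
    have : ‖logDeriv HH (I * t + x * u) - be t‖ * ‖u‖ ≤ κ := by
      calc ‖logDeriv HH (I * t + x * u) - be t‖ * ‖u‖ ≤ 500 * K / t * 50 := by gcongr
        _ = κ := by rw [hκ]; ring
    gcongr

end Pool.Agent.H24R2.JP
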