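import Pool.Agent.H24R2.JP.Spec
import Pool.Agent.H307R2.LU

set_option autoImplicit false

namespace Pool.Agent.H24R2.JP

open Complex Filter Topology Polynomial

namespace ZetaTask

theorem part1 (z : ℂ) (hz : 0 < z.im) : XX z = HH z * riemannZeta (1 / 2 + z) := by
  have him : (1 / 2 + z : ℂ).im = z.im := by simp
  have hs0 : (1 / 2 + z : ℂ) ≠ 0 := by
    intro h
    have : (1 / 2 + z : ℂ).im = 0 := by rw [h]; simp
    rw [him] at this
    linarith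
  have hs1 : (1 - (1 / 2 + z) : ℂ) ≠ 0 := by
    intro h
    have h2 : (1 - (1 / 2 + z) : ℂ).im = 0 := by rw [h]; simp
    rw [Complex.sub_im, him] at h2
    simp at h2
    linarith
  have hG : Gammaℝ (1 / 2 + z) ≠ 0 := by
    rw [Ne, Complex.Gammaℝ_eq_zero_iff]
    rintro ⟨n, hn⟩
    have h2 : (1 / 2 + z : ℂ).im = 0 := by rw [hn]; simp
    rw [him] at h2
    linarith
  unfold XX HH
  rw [riemannZeta_def_of_ne_zero hs0, completedRiemannZeta_eq]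
  have e1 : ∀ (A G L : ℂ), G ≠ 0 → A * G * (L / G) = A * L := by
    intro A G L hG'
    field_simp
  rw [e1 _ _ _ hG]
  have e2 : (1 / (1 / 2 + z) + 1 / (1 - (1 / 2 + z)) : ℂ) * (4 * z ^ 2 - 1) = -4 := by
    generalize hs : (1 / 2 + z : ℂ) = s at *
    have hz' : z = s - 1 / 2 := by rw [← hs]; ring
    rw [hz']
    field_simp
    ring
  linear_combination e2

theorem part2 (s : ℂ) (M : ℕ) (h1 : 1 / 2 ≤ s.re) (h2 : 1 ≤ s.im) (hM : 1 ≤ M) :
    ‖riemannZeta s - ∑ m ∈ Finset.Icc 1 M, (m : ℂ) ^ (-s)‖ ≤ 3 * ‖s‖ * (M : ℝ) ^ (1 - s.re) := by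
  have hs : 0 < s.re := by linarith
  have hs1 : s ≠ 1 := by
    intro h
    rw [h] at h2
    simp at h2
    linarith
  have hM0 : (0 : ℝ) < M := by exact_mod_cast hM
  have hM1 : (1 : ℝ) ≤ M := by exact_mod_cast hM
  rw [Pool.Agent.H307R2.zeta_eq hM hs hs1]
  have e : ∑ n ∈ Finset.Icc 1 M, (n : ℂ) ^ (-s) + (M : ℂ) ^ (1 - s) / (s - 1) +
      s * Pool.Agent.H307R2.TM M Pool.Agent.H307R2.Ez s - ∑ m ∈ Finset.Icc 1 M, (m : ℂ) ^ (-s) =
      (M : ℂ) ^ (1 - s) / (s - 1) + s * Pool.Agent.H307R2.TM M Pool.Agent.H307R2.Ez s := by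
    ring
  rw [e]
  have n1 : ‖(M : ℂ) ^ (1 - s)‖ = (M : ℝ) ^ (1 - s.re) := by
    have := Complex.norm_cpow_eq_rpow_re_of_pos hM0 (1 - s)
    rw [Complex.ofReal_natCast] at this
    rw [this]
    simp
  have n2 : 1 ≤ ‖s - 1‖ := by
    have := Complex.abs_im_le_norm (s - 1)
    have h3 : (s - 1).im = s.im := by simp
    rw [h3] at this
    exact h2.trans ((le_abs_self _).trans this)
  have n3 : 1 ≤ ‖s‖ := h2.trans ((le_abs_self _).trans (Complex.abs_im_le_norm s))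
  have n4 := Pool.Agent.H307R2.TM_norm_le hM Pool.Agent.H307R2.Ez_norm_le hs
  have n5 : (M : ℝ) ^ (-s.re) ≤ (M : ℝ) ^ (1 - s.re) :=
    Real.rpow_le_rpow_of_exponent_le hM1 (by linarith)
  have p0 : 0 < (M : ℝ) ^ (1 - s.re) := Real.rpow_pos_of_pos hM0 _
  have n6 : (M : ℝ) ^ (-s.re) / s.re ≤ 2 * (M : ℝ) ^ (1 - s.re) := by
    rw [div_le_iff₀ hs]
    nlinarith
  have n7 : ‖(M : ℂ) ^ (1 - s) / (s - 1)‖ ≤ (M : ℝ) ^ (1 - s.re) := by
    rw [norm_div, n1]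
    exact div_le_self p0.le n2
  calc ‖(M : ℂ) ^ (1 - s) / (s - 1) + s * Pool.Agent.H307R2.TM M Pool.Agent.H307R2.Ez s‖
      ≤ ‖(M : ℂ) ^ (1 - s) / (s - 1)‖ +
        ‖s‖ * ‖Pool.Agent.H307R2.TM M Pool.Agent.H307R2.Ez s‖ := by
        refine (norm_add_le _ _).trans ?_
        rw [norm_mul]
    _ ≤ (M : ℝ) ^ (1 - s.re) + ‖s‖ * (2 * (M : ℝ) ^ (1 - s.re)) := by
        refine add_le_add n7 (mul_le_mul_of_nonneg_left ?_ (norm_nonneg _))
        refine n4.trans ?_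
        rw [one_mul]
        exact n6
    _ ≤ 3 * ‖s‖ * (M : ℝ) ^ (1 - s.re) := by nlinarith

end ZetaTask

theorem zetaS : SZeta :=
  ⟨ZetaTask.part1, 3, by norm_num, ZetaTask.part2⟩

end Pool.Agent.H24R2.JP
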