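import Pool.Agent.H24R2.JP.UpDownAux

set_option autoImplicit false

namespace Pool.Agent.H24R2.JP

open Complex Filter Topology UD

theorem down (h1 : SStir) : SDown := by
  intro ε hε
  have h1' := h1
  obtain ⟨-, K, T1, hK, hT1, hst⟩ := h1'
  have hev := (final h1 (2 * Real.exp (201 / 10 * K)) ε (by positivity) hε).and
    ((eventually_ge_atTop T1).and ((eventually_ge_atTop K).and ((eventually_ge_atTop (10000 : ℝ)).and
      (Om_tendsto.eventually_ge_atTop 0))))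
  obtain ⟨T0, hT0⟩ := Filter.eventually_atTop.1 hev
  refine ⟨max T0 1, le_max_right _ _, ?_⟩
  intro t n z ht hw
  obtain ⟨hfin, htT1, htK, ht4, hO⟩ := hT0 t ((le_max_left _ _).trans ht)
  obtain ⟨-, hbe, hu⟩ := hst t htT1
  have ht1 : 1 ≤ t := by linarith
  have hterm : ∀ m ∈ Finset.Icc 1 ⌊t ^ (1 / 5 : ℝ)⌋₊,
      ‖arc (GG m) n (-t ^ 2) (40 * t) Real.pi (2 * Real.pi) (z ^ 2)‖ ≤
        (n.factorial : ℝ) / (38 * t) ^ n * (2 * Real.exp (201 / 10 * K) * ‖HH (I * t)‖) := by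
    intro m hm
    rw [Finset.mem_Icc] at hm
    have hm0 : 0 < m := by omega
    have hmt : (m : ℝ) ≤ t ^ (1 / 5 : ℝ) := by
      refine le_trans ?_ (Nat.floor_le (by positivity))
      exact_mod_cast hm.2
    have hlog := log_le t ht1 m hm.1 hmt
    have hlog0 : 0 ≤ Real.log m := Real.log_natCast_nonneg m
    apply arc_bound (GG m) n t _ _ _ z ht4 (by linarith [Real.pi_pos]) (by linarith) hw.2.2
      (by positivity)
    intro θ hθ
    obtain ⟨-, hg2, -, -, hg5, -⟩ := geom t ht4 θ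
    have hsin : Real.sin θ ≤ 0 := by
      have h := Real.sin_nonneg_of_nonneg_of_le_pi (x := θ - Real.pi) (by linarith [hθ.1])
        (by linarith [hθ.2])
      rw [Real.sin_sub_pi] at h
      linarith
    have hσ := hg5 hsin
    set ζ := sq (((-t ^ 2 : ℝ) : ℂ) + ((40 * t : ℝ) : ℂ) * cexp (I * θ)) with hζ
    have hH := HH_bound t K (ζ - I * t) hK htK hg2 hbe (hu (ζ - I * t) (hg2.trans (by norm_num)))
    have e1 : I * (t : ℂ) + (ζ - I * t) = ζ := by ring
    have e2 : (ζ - I * (t : ℂ)).re = ζ.re := by simp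
    rw [e1, e2] at hH
    have hGG : ‖GG m (((-t ^ 2 : ℝ) : ℂ) + ((40 * t : ℝ) : ℂ) * cexp (I * θ))‖ =
        ‖HH ζ‖ * Real.exp (Real.log m * (-(1 / 2) - ζ.re)) := by
      unfold GG
      rw [← hζ, norm_mul, Complex.norm_natCast_cpow_of_pos hm0,
        Real.rpow_def_of_pos (by exact_mod_cast hm0)]
      congr 3
      simp
    rw [hGG]
    calc ‖HH ζ‖ * Real.exp (Real.log m * (-(1 / 2) - ζ.re))
        ≤ (2 * Real.exp (201 / 10 * K) * ‖HH (I * t)‖ * Real.exp (Om t * ζ.re)) *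
          Real.exp (2 / 5 * Om t * (-ζ.re)) := by
          have h5 : Real.log m * (-(1 / 2) - ζ.re) ≤ 2 / 5 * Om t * (-ζ.re) := by
            nlinarith [mul_le_mul_of_nonneg_right hlog (show 0 ≤ -ζ.re by linarith)]
          gcongr
      _ = 2 * Real.exp (201 / 10 * K) * ‖HH (I * t)‖ * Real.exp (3 / 5 * (Om t * ζ.re)) := by
          rw [mul_assoc _ (Real.exp _) (Real.exp _), ← Real.exp_add]
          congr 2
          ring
      _ ≤ 2 * Real.exp (201 / 10 * K) * ‖HH (I * t)‖ * 1 := by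
          have h6 : Real.exp (3 / 5 * (Om t * ζ.re)) ≤ 1 := by
            rw [Real.exp_le_one_iff]
            nlinarith
          gcongr
      _ = _ := by ring
  calc ∑ m ∈ Finset.Icc 1 ⌊t ^ (1 / 5 : ℝ)⌋₊,
        ‖arc (GG m) n (-t ^ 2) (40 * t) Real.pi (2 * Real.pi) (z ^ 2)‖
      ≤ ∑ _m ∈ Finset.Icc 1 ⌊t ^ (1 / 5 : ℝ)⌋₊,
        (n.factorial : ℝ) / (38 * t) ^ n * (2 * Real.exp (201 / 10 * K) * ‖HH (I * t)‖) :=
        Finset.sum_le_sum hterm
    _ = (n.factorial : ℝ) / (38 * t) ^ n *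
        (((⌊t ^ (1 / 5 : ℝ)⌋₊ : ℕ) : ℝ) * (2 * Real.exp (201 / 10 * K) * ‖HH (I * t)‖)) := by
        rw [Finset.sum_const, Nat.card_Icc, Nat.add_sub_cancel, nsmul_eq_mul]
        ring
    _ ≤ ε * ‖mt n t z‖ := by
        apply hfin n z hw
        have h7 : ((⌊t ^ (1 / 5 : ℝ)⌋₊ : ℕ) : ℝ) ≤ Real.exp (143 / 10 * Om t) :=
          (M_le t ht1).trans (Real.exp_le_exp.2 (by linarith))
        calc ((⌊t ^ (1 / 5 : ℝ)⌋₊ : ℕ) : ℝ) * (2 * Real.exp (201 / 10 * K) * ‖HH (I * t)‖)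
            ≤ Real.exp (143 / 10 * Om t) * (2 * Real.exp (201 / 10 * K) * ‖HH (I * t)‖) := by
              gcongr
          _ = _ := by ring

end Pool.Agent.H24R2.JP
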