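import Pool.Agent.H24R2.JP.Spec

set_option autoImplicit false

namespace Pool.Agent.H24R2.JP

open Complex Filter Topology

namespace GamAux

theorem ratio1 {M : ℕ → ℝ} (hM : ∀ k, 0 < M k)
    (hg : ∀ k, gam k = (k.factorial : ℝ) / ((2 * k).factorial : ℝ) * M k) (n : ℕ) :
    gam (n + 1) / gam n = M (n + 1) / M n / (2 * (2 * n + 1)) := by
  have h0 : (n.factorial : ℝ) ≠ 0 := Nat.cast_ne_zero.2 n.factorial_ne_zero
  have h1 : ((2 * n).factorial : ℝ) ≠ 0 := Nat.cast_ne_zero.2 (2 * n).factorial_ne_zero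
  have h2 := (hM n).ne'
  have e1 : ((n + 1).factorial : ℝ) = (n + 1) * n.factorial := by
    rw [Nat.factorial_succ]; push_cast; ring
  have e2 : ((2 * (n + 1)).factorial : ℝ) = (2 * n + 2) * ((2 * n + 1) * (2 * n).factorial) := by
    rw [show 2 * (n + 1) = (2 * n + 1) + 1 by ring, Nat.factorial_succ, Nat.factorial_succ]
    push_cast; ring
  have h3 : ((n : ℝ) + 1) ≠ 0 := by positivity
  have h4 : (2 * (n : ℝ) + 1) ≠ 0 := by positivity
  have h5 : (2 * (n : ℝ) + 2) ≠ 0 := by positivity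
  rw [hg, hg, e1, e2]
  field_simp

theorem ratio2 {M : ℕ → ℝ} (hM : ∀ k, 0 < M k)
    (hg : ∀ k, gam k = (k.factorial : ℝ) / ((2 * k).factorial : ℝ) * M k) (n : ℕ) :
    gam (n + 2) / gam n = M (n + 2) / M n / (4 * (2 * n + 1) * (2 * n + 3)) := by
  have h := ratio1 hM hg (n + 1)
  have h' := ratio1 hM hg n
  have g1 : 0 < gam (n + 1) := by rw [hg]; have := hM (n + 1); positivity
  have g0 : 0 < gam n := by rw [hg]; have := hM n; positivity
  have e : gam (n + 2) / gam n = (gam (n + 1 + 1) / gam (n + 1)) * (gam (n + 1) / gam n) := by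
    rw [show n + 1 + 1 = n + 2 by rfl]
    field_simp
  have h2 := (hM n).ne'
  have h3 := (hM (n + 1)).ne'
  have h4 : (2 * (n : ℝ) + 1) ≠ 0 := by positivity
  have h5 : (2 * (n : ℝ) + 3) ≠ 0 := by positivity
  rw [e, h, h', show n + 1 + 1 = n + 2 by rfl]
  push_cast
  rw [show (2 * ((n : ℝ) + 1) + 1) = 2 * n + 3 by ring]
  field_simp
  ring

end GamAux

open GamAux in
theorem gamS (h : SMom) : SGam := by
  obtain ⟨M, hM, hg, hcs, K, hK, hr⟩ := h
  have gpos : ∀ k, 0 < gam k := fun k => by rw [hg]; have := hM k; positivity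
  have hm : ∀ n : ℕ, M (n + 1) / M n ≤ K * ((n : ℝ) + 1) ^ (1 / 4 : ℝ) := fun n => by
    rw [div_le_iff₀ (hM n)]; exact hr n
  have hm0 : ∀ n : ℕ, 0 ≤ M (n + 1) / M n := fun n => (div_pos (hM _) (hM _)).le
  refine ⟨gpos, ⟨K ^ 2, by positivity, fun n hn => ?_⟩, ?_⟩
  · rw [ratio1 hM hg, ratio2 hM hg]
    obtain ⟨a, ha⟩ : ∃ a, a = M (n + 1) / M n := ⟨_, rfl⟩
    obtain ⟨b, hb⟩ : ∃ b, b = M (n + 2) / M n := ⟨_, rfl⟩
    have hn' : (1 : ℝ) ≤ n := by exact_mod_cast hn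
    have hab : a ^ 2 ≤ b := by
      rw [ha, hb, div_pow, div_le_div_iff₀ (by have := hM n; positivity) (hM n)]
      nlinarith [hcs n, hM n]
    have ha1 := hm n
    have ha0 := hm0 n
    rw [← ha] at ha1 ha0
    rw [← ha, ← hb]
    have h2 : a ^ 2 ≤ K ^ 2 * ((n : ℝ) + 1) ^ (1 / 2 : ℝ) := by
      calc a ^ 2 ≤ (K * ((n : ℝ) + 1) ^ (1 / 4 : ℝ)) ^ 2 := pow_le_pow_left₀ ha0 ha1 2
        _ = _ := by
          rw [mul_pow, ← Real.rpow_natCast (((n : ℝ) + 1) ^ (1 / 4 : ℝ)),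
            ← Real.rpow_mul (by positivity)]
          norm_num
    have h3 : ((n : ℝ) + 1) ^ (1 / 2 : ℝ) ≤ 2 * (n : ℝ) ^ (1 / 2 : ℝ) := by
      calc ((n : ℝ) + 1) ^ (1 / 2 : ℝ) ≤ (4 * n : ℝ) ^ (1 / 2 : ℝ) :=
            Real.rpow_le_rpow (by positivity) (by linarith) (by norm_num)
        _ = 2 * (n : ℝ) ^ (1 / 2 : ℝ) := by
          rw [Real.mul_rpow (by norm_num) (by positivity)]
          congr 1
          rw [← Real.sqrt_eq_rpow, show (4 : ℝ) = 2 ^ 2 by norm_num, Real.sqrt_sq (by norm_num)]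
    have e1 : (a / (2 * (2 * (n : ℝ) + 1))) ^ 2 - b / (4 * (2 * n + 1) * (2 * n + 3)) ≤
        a ^ 2 / (2 * (2 * n + 1) ^ 2 * (2 * n + 3)) := by
      have h6 : (a / (2 * (2 * (n : ℝ) + 1))) ^ 2 - a ^ 2 / (4 * (2 * n + 1) * (2 * n + 3)) =
          a ^ 2 / (2 * (2 * n + 1) ^ 2 * (2 * n + 3)) := by
        field_simp
        ring
      have h7 : a ^ 2 / (4 * (2 * (n : ℝ) + 1) * (2 * n + 3)) ≤
          b / (4 * (2 * n + 1) * (2 * n + 3)) := by gcongr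
      linarith
    refine e1.trans ?_
    have h8 : (n : ℝ) ^ (-(5 / 2) : ℝ) = (n : ℝ) ^ (1 / 2 : ℝ) / (n : ℝ) ^ 3 := by
      rw [← Real.rpow_natCast, ← Real.rpow_sub (by linarith)]
      norm_num
    rw [h8]
    have hN : 0 ≤ (n : ℝ) ^ (1 / 2 : ℝ) := by positivity
    calc a ^ 2 / (2 * (2 * (n : ℝ) + 1) ^ 2 * (2 * n + 3))
        ≤ (K ^ 2 * (2 * (n : ℝ) ^ (1 / 2 : ℝ))) / (2 * (n : ℝ) ^ 3) := by
          have : K ^ 2 * ((n : ℝ) + 1) ^ (1 / 2 : ℝ) ≤ K ^ 2 * (2 * (n : ℝ) ^ (1 / 2 : ℝ)) := by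
            gcongr
          refine div_le_div₀ (by positivity) (h2.trans this) (by positivity) ?_
          have h9 : (n : ℝ) ^ 2 ≤ (2 * (n : ℝ) + 1) ^ 2 := by nlinarith
          nlinarith [pow_pos (show (0 : ℝ) < n by linarith) 2]
      _ = _ := by field_simp
  · have hz : Tendsto (fun n : ℕ => K / 2 * ((n : ℝ) + 1) ^ (-(3 / 4) : ℝ)) atTop (𝓝 0) := by
      have h1 : Tendsto (fun n : ℕ => ((n : ℝ) + 1)) atTop atTop :=
        tendsto_natCast_atTop_atTop.atTop_add tendsto_const_nhds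
      have h2 := (tendsto_rpow_neg_atTop (show (0 : ℝ) < 3 / 4 by norm_num)).comp h1
      simpa using h2.const_mul (K / 2)
    refine squeeze_zero (fun n => (div_pos (gpos _) (gpos _)).le) (fun n => ?_) hz
    rw [ratio1 hM hg]
    have h1 : ((n : ℝ) + 1) ^ (-(3 / 4) : ℝ) = ((n : ℝ) + 1) ^ (1 / 4 : ℝ) / ((n : ℝ) + 1) := by
      rw [show (-(3 / 4) : ℝ) = 1 / 4 - 1 by norm_num, Real.rpow_sub (by positivity),
        Real.rpow_one]
    rw [h1]
    calc M (n + 1) / M n / (2 * (2 * (n : ℝ) + 1)) ≤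
        (K * ((n : ℝ) + 1) ^ (1 / 4 : ℝ)) / (2 * ((n : ℝ) + 1)) := by
          refine div_le_div₀ (by positivity) (hm n) (by positivity) ?_
          have := Nat.cast_nonneg (α := ℝ) n
          linarith
      _ = _ := by field_simp

end Pool.Agent.H24R2.JP
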