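import Pool.Agent.H24R2.JP.Spec

set_option autoImplicit false

namespace Pool.Agent.H24R2.JP

open Complex Filter Topology Polynomial

theorem good (h1 : SHad) (h2 : SB1) (h3 : SGrow) (h4 : SZeros) (h5 : SGam) : SGood := by
  obtain ⟨hd, -, hc, hi⟩ := h2
  obtain ⟨K, hK⟩ := h3
  have hne : ∀ k, iteratedDeriv k FF 0 ≠ 0 := by
    intro k
    rw [hi k]
    exact_mod_cast (h5.1 k).ne'
  have h0 : FF 0 ≠ 0 := by
    have := hne 0
    rwa [iteratedDeriv_zero] at this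
  obtain ⟨P, hP, hlim⟩ := h1 FF K hd h0 hc hK
  exact ⟨hd, ⟨P, fun N x hx => h4 x (hP N x hx), hlim⟩, hne⟩

end Pool.Agent.H24R2.JP
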