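import Pool.Agent.H24R2.JP.Spec
import Pool.Agent.Helper242.KK.Kernel

set_option autoImplicit false

/-!
# Growth of `FF`
-/

namespace Pool.Agent.H24R2.JP

open Complex Filter Topology Polynomial

/-- `XX` is the transform of the kernel, away from `±1/2`. -/
theorem XX_eq_FT_aux (z : ℂ) (h0 : (1 / 2 : ℂ) + z ≠ 0) (h1 : (1 / 2 : ℂ) + z ≠ 1) :
    XX z = 8 * Pool.Agent.Helper242.KK.FT Pool.Agent.Helper242.KK.Ph (-I * z) := by
  have hs : (1 / 2 : ℂ) + z = 1 / 2 + I * (-I * z) := by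
    have : I * (-I * z) = z := by
      rw [← mul_assoc, mul_neg, I_mul_I]; ring
    rw [this]
  rw [Pool.Agent.Helper242.KK.FT_Ph (1 / 2 + z) (-I * z) hs h0 h1]
  unfold XX
  rw [completedRiemannZeta_eq]
  have h2 : (1 : ℂ) - (1 / 2 + z) ≠ 0 := sub_ne_zero.2 (Ne.symm h1)
  obtain ⟨a, ha⟩ : ∃ a : ℂ, a = 1 / (1 / 2 + z) := ⟨_, rfl⟩
  obtain ⟨b, hb⟩ : ∃ b : ℂ, b = 1 / (1 - (1 / 2 + z)) := ⟨_, rfl⟩
  have ha1 : (1 / 2 + z) * a = 1 := by rw [ha]; exact mul_one_div_cancel h0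
  have hb1 : (1 - (1 / 2 + z)) * b = 1 := by rw [hb]; exact mul_one_div_cancel h2
  rw [← ha, ← hb]
  linear_combination 4 * ((1 / 2 + z) - 1) * ha1 - 4 * (1 / 2 + z) * hb1

theorem grow (h : SB1) : SGrow := by
  obtain ⟨-, hXX, -, -⟩ := h
  obtain ⟨A, -, hA⟩ := Pool.Agent.Helper242.KK.Ph_upper
  obtain ⟨C, hC, hb⟩ := Pool.Agent.Helper242.KK.FT_upper
    Pool.Agent.Helper242.KK.continuous_Ph hA
  obtain ⟨K0, hK0⟩ : ∃ K0 : ℝ, K0 = Real.log (1 + ‖FF (1 / 4)‖) := ⟨_, rfl⟩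
  have hK0' : ‖FF (1 / 4)‖ ≤ Real.exp K0 := by
    rw [hK0, Real.exp_log (by positivity)]; linarith
  have hK0n : 0 ≤ K0 := by
    rw [hK0]; exact Real.log_nonneg (by have := norm_nonneg (FF (1 / 4)); linarith)
  refine ⟨4 + 2 * C + K0, fun x => ?_⟩
  obtain ⟨z, hz⟩ : ∃ z : ℂ, z ^ 2 = x := by
    obtain ⟨z, hz⟩ := IsAlgClosed.exists_pow_nat_eq x (by norm_num : 0 < 2)
    exact ⟨z, hz⟩
  have hu1 : (1 : ℝ) ≤ (1 + ‖x‖) ^ (1 / 4 : ℝ) :=
    Real.one_le_rpow (by have := norm_nonneg x; linarith) (by norm_num)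
  obtain ⟨u, hu⟩ : ∃ u : ℝ, u = (1 + ‖x‖) ^ (1 / 4 : ℝ) := ⟨_, rfl⟩
  rw [← hu] at hu1
  have hx0 : (0 : ℝ) ≤ 1 + ‖x‖ := by positivity
  have hu3 : (1 + ‖x‖) ^ (3 / 4 : ℝ) = u ^ 3 := by
    rw [hu, ← Real.rpow_natCast, ← Real.rpow_mul hx0]; norm_num
  have hu4 : u ^ 4 = 1 + ‖x‖ := by
    rw [hu, ← Real.rpow_natCast, ← Real.rpow_mul hx0]; norm_num
  rw [hu3]
  have hu31 : 1 ≤ u ^ 3 := one_le_pow₀ hu1
  by_cases hc : (1 / 2 : ℂ) + z = 0 ∨ (1 / 2 : ℂ) + z = 1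
  · have hx : x = 1 / 4 := by
      rw [← hz]
      rcases hc with hc | hc
      · have : z = -(1 / 2) := by linear_combination hc
        rw [this]; norm_num
      · have : z = 1 / 2 := by linear_combination hc
        rw [this]; norm_num
    rw [hx]
    refine hK0'.trans (Real.exp_le_exp.2 ?_)
    nlinarith
  · push Not at hc
    have e1 := hXX z
    rw [hz] at e1
    rw [e1, XX_eq_FT_aux z hc.1 hc.2, norm_mul]
    have e2 := hb (-I * z)
    have him : |(-I * z).im| = |z.re| := by simp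
    rw [him] at e2
    have hy : |z.re| ≤ u ^ 2 := by
      have h1 : |z.re| ≤ ‖z‖ := abs_re_le_norm z
      have h2 : ‖z‖ ^ 2 = ‖x‖ := by rw [← hz, norm_pow]
      have h3 : ‖z‖ ^ 2 ≤ (u ^ 2) ^ 2 := by
        rw [h2]; nlinarith
      exact h1.trans (le_of_sq_le_sq h3 (by positivity))
    have hy0 : 0 ≤ |z.re| := abs_nonneg _
    obtain ⟨y, hyd⟩ : ∃ y : ℝ, y = |z.re| := ⟨_, rfl⟩
    rw [← hyd] at e2 hy hy0
    have hlog : Real.log (2 + y) ≤ 2 * u := by
      have h1 : 2 + y ≤ 3 * u ^ 2 := by nlinarith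
      have h2 : Real.log (2 + y) ≤ Real.log (3 * u ^ 2) := Real.log_le_log (by linarith) h1
      rw [Real.log_mul (by norm_num) (by positivity), Real.log_pow] at h2
      have h3 : Real.log 3 ≤ 2 := by
        have := Real.log_le_sub_one_of_pos (by norm_num : (0 : ℝ) < 3)
        linarith
      have h4 : Real.log u ≤ u - 1 := Real.log_le_sub_one_of_pos (by linarith)
      push_cast at h2
      linarith
    have hlog0 : 0 ≤ Real.log (2 + y) := Real.log_nonneg (by linarith)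
    have h8 : (8 : ℝ) ≤ Real.exp 3 := by
      have : (2 : ℝ) ≤ Real.exp 1 := by
        have := Real.add_one_le_exp (1 : ℝ); linarith
      have h := pow_le_pow_left₀ (by norm_num) this 3
      rw [← Real.exp_nat_mul] at h
      norm_num at h
      exact h
    have hbnd : y / 2 * Real.log (2 + y) ≤ u ^ 3 := by
      calc y / 2 * Real.log (2 + y) ≤ u ^ 2 / 2 * (2 * u) := by
            apply mul_le_mul (by linarith) hlog hlog0 (by positivity)
        _ = u ^ 3 := by ring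
    have hCy : C * (1 + y) ≤ 2 * C * u ^ 3 := by
      have h1 : 1 + y ≤ 2 * u ^ 3 := by
        have : u ^ 2 ≤ u ^ 3 := pow_le_pow_right₀ hu1 (by norm_num)
        linarith
      nlinarith
    calc ‖(8 : ℂ)‖ * ‖Pool.Agent.Helper242.KK.FT Pool.Agent.Helper242.KK.Ph (-I * z)‖
        ≤ Real.exp 3 * Real.exp (y / 2 * Real.log (2 + y) + C * (1 + y)) := by
          apply mul_le_mul _ e2 (norm_nonneg _) (Real.exp_pos _).le
          simpa using h8
      _ = Real.exp (3 + (y / 2 * Real.log (2 + y) + C * (1 + y))) := by rw [← Real.exp_add]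
      _ ≤ Real.exp ((4 + 2 * C + K0) * u ^ 3) := by
          apply Real.exp_le_exp.2
          nlinarith [mul_nonneg hK0n (by positivity : (0 : ℝ) ≤ u ^ 3)]

end Pool.Agent.H24R2.JP
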