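import Pool.Agent.H24R2.JP.Spec

set_option autoImplicit false

namespace Pool.Agent.H24R2.JP

open Complex Filter Topology Polynomial

theorem hyp (h1 : SChain) (h2 : SJensen) (h3 : SGood) (h4 : SGam) (h5 : SB1) : SHyp := by
  obtain ⟨N1, hN1⟩ := h1
  have hlog2 : 0 < Real.log 2 := Real.log_pos (by norm_num)
  refine ⟨max 5 (((N1 : ℝ) + 1) / Real.log 2), lt_of_lt_of_le (by norm_num) (le_max_left _ _), ?_⟩
  intro d n hn z hz
  have haev : aeval z (jensen d n) =
      ∑ j ∈ Finset.range (d + 1), (d.choose j : ℂ) * iteratedDeriv (n + j) FF 0 * z ^ j := by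
    unfold jensen
    rw [map_sum]
    refine Finset.sum_congr rfl fun j _ => ?_
    rw [h5.2.2.2 (n + j)]
    simp
  rw [haev] at hz
  rcases Nat.eq_zero_or_pos d with hd | hd
  · subst hd
    exfalso
    simp only [zero_add, Finset.range_one, Finset.sum_singleton, Nat.choose_self, Nat.cast_one, one_mul,
      add_zero, pow_zero, mul_one] at hz
    rw [h5.2.2.2 n] at hz
    exact (h4.1 n).ne' (by exact_mod_cast hz)
  · have hd1 : (1 : ℝ) ≤ d := by exact_mod_cast hd
    have hL : Real.log 2 ≤ Real.log (d + 1) := Real.log_le_log (by norm_num) (by linarith)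
    have hL0 : 0 < Real.log (d + 1) := lt_of_lt_of_le hlog2 hL
    have hA : 5 * Real.log (d + 1) ≤ n :=
      (mul_le_mul_of_nonneg_right (le_max_left _ _) hL0.le).trans hn
    have hB : ((N1 : ℝ) + 1) ≤ n := by
      refine le_trans ?_ hn
      calc ((N1 : ℝ) + 1) = ((N1 : ℝ) + 1) / Real.log 2 * Real.log 2 := by field_simp
        _ ≤ ((N1 : ℝ) + 1) / Real.log 2 * Real.log (d + 1) := by
            apply mul_le_mul_of_nonneg_left hL; positivity
        _ ≤ max 5 (((N1 : ℝ) + 1) / Real.log 2) * Real.log (d + 1) :=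
            mul_le_mul_of_nonneg_right (le_max_right _ _) hL0.le
    have hnN : N1 ≤ n := by
      have : (N1 : ℝ) ≤ n := by linarith
      exact_mod_cast this
    set R : ℝ := Real.exp (n / 5) with hR
    have hdR : (d : ℝ) + 1 ≤ R := by
      rw [hR, ← Real.exp_log (by linarith : (0 : ℝ) < d + 1)]
      exact Real.exp_le_exp.2 (by linarith)
    have hR0 : 0 < R := Real.exp_pos _
    refine h2 FF h3 n d R hR0 ?_ ?_ z hz
    · nlinarith
    · intro w hw hw0
      by_contra him
      exact absurd (hN1 n hnN w him hw0) (not_lt.2 hw)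

end Pool.Agent.H24R2.JP
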