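import Mathlib
import Pool.Agent.H24R2.JP.Spec

set_option autoImplicit false

/-!
# Task MAIN: the upper arc of `FF` is the main term up to a relative error `1/10`
-/

namespace Pool.Agent.H24R2.JP

open Complex Filter Topology

namespace MainT

theorem re_cpow_half_pos {w : ℂ} (hw : w ∈ slitPlane) : 0 < (w ^ (1 / 2 : ℂ)).re := by
  have h0 : w ≠ 0 := slitPlane_ne_zero hw
  rw [cpow_def_of_ne_zero h0, exp_re]
  have harg : w.arg ≠ Real.pi := (mem_slitPlane_iff_arg.1 hw).1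
  have h1 := Complex.neg_pi_lt_arg w
  have h2 := Complex.arg_le_pi w
  have him : (Complex.log w * (1 / 2 : ℂ)).im = w.arg / 2 := by
    have h3 : Complex.log w * (1 / 2 : ℂ) = ((1 / 2 : ℝ) : ℂ) * Complex.log w := by
      push_cast; ring
    rw [h3, Complex.im_ofReal_mul, Complex.log_im]
    ring
  rw [him]
  apply mul_pos (Real.exp_pos _)
  apply Real.cos_pos_of_mem_Ioo
  constructor
  · linarith
  · have := lt_of_le_of_ne h2 harg
    linarith

theorem diff_GG (hH : ∀ z : ℂ, 0 < z.im → DifferentiableAt ℂ HH z) (m : ℕ) (hm : 1 ≤ m) (ξ : ℂ)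
    (hξ : 0 < (-ξ).re) : DifferentiableAt ℂ (GG m) ξ := by
  have hs : -ξ ∈ slitPlane := mem_slitPlane_iff.2 (Or.inl hξ)
  have h1 : DifferentiableAt ℂ sq ξ := by
    unfold sq
    have : DifferentiableAt ℂ (fun ξ : ℂ => (-ξ) ^ (1 / 2 : ℂ)) ξ :=
      DifferentiableAt.cpow (by fun_prop) (by fun_prop) hs
    exact this.const_mul I
  have h2 : 0 < (sq ξ).im := by
    have := re_cpow_half_pos hs
    unfold sq
    rw [Complex.I_mul_im]
    exact this
  have h3 : DifferentiableAt ℂ (fun ξ => HH (sq ξ)) ξ :=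
    DifferentiableAt.comp ξ (hH _ h2) h1
  have hm0 : (m : ℂ) ≠ 0 := by exact_mod_cast (by omega : m ≠ 0)
  have h4 : DifferentiableAt ℂ (fun ξ => (m : ℂ) ^ (-(1 / 2) - sq ξ)) ξ :=
    DifferentiableAt.const_cpow (by fun_prop) (Or.inl hm0)
  exact h3.mul h4

theorem re_neg_pos {t : ℝ} (ht : 40 < t) {ξ : ℂ}
    (h : ξ ∈ Metric.closedBall (((-t ^ 2 : ℝ)) : ℂ) (40 * t)) : 0 < (-ξ).re := by
  rw [mem_closedBall_iff_norm] at h
  have h1 := Complex.abs_re_le_norm (ξ - ((-t ^ 2 : ℝ) : ℂ))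
  rw [Complex.sub_re, Complex.ofReal_re] at h1
  rw [Complex.neg_re]
  have h2 := (abs_le.1 (h1.trans h)).2
  nlinarith

theorem sq_mem_ball {t : ℝ} (ht : 40 < t) {z : ℂ} (hz : ‖z - I * t‖ ≤ 3 / 4) :
    z ^ 2 ∈ Metric.ball (((-t ^ 2 : ℝ)) : ℂ) (40 * t) := by
  rw [mem_ball_iff_norm]
  have e : z ^ 2 - ((-t ^ 2 : ℝ) : ℂ) = (z - I * t) * ((z - I * t) + 2 * (I * t)) := by
    push_cast
    have : I ^ 2 = -1 := Complex.I_sq
    ring_nf
    rw [this]
    ring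
  rw [e, norm_mul]
  have h1 : ‖(z - I * t) + 2 * (I * t)‖ ≤ 3 / 4 + 2 * t := by
    refine (norm_add_le _ _).trans ?_
    have : ‖(2 : ℂ) * (I * t)‖ = 2 * t := by
      rw [norm_mul, norm_mul, Complex.norm_I, Complex.norm_real, Real.norm_eq_abs,
        abs_of_pos (by linarith : (0 : ℝ) < t)]
      norm_num
    rw [this]
    linarith
  calc ‖z - I * t‖ * ‖(z - I * t) + 2 * (I * t)‖ ≤ 3 / 4 * (3 / 4 + 2 * t) := by
        apply mul_le_mul hz h1 (norm_nonneg _) (by norm_num)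
    _ < 40 * t := by linarith

theorem ratio_le (b : ℂ) (O K y : ℝ) (hK : 1 ≤ K) (hO : 100 * K ≤ O) (hb : ‖b - (O : ℂ)‖ ≤ K)
    (hy0 : 0 ≤ y) (hy : y ≤ 2 / 5 * O) (n : ℕ) (hn : 39 / 2 * O ≤ n) :
    ‖b - (y : ℂ)‖ ^ n ≤ Real.exp (-(14 * y)) * ‖b‖ ^ n := by
  have hO0 : 0 < O := by linarith
  have hre : O - K ≤ b.re := by
    have h1 := Complex.abs_re_le_norm (b - (O : ℂ))
    rw [Complex.sub_re, Complex.ofReal_re] at h1
    have := (abs_le.1 (h1.trans hb)).1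
    linarith
  have hnb : ‖b‖ ≤ O + K := by
    have h1 : ‖b‖ ≤ ‖b - (O : ℂ)‖ + ‖(O : ℂ)‖ := by
      have := norm_add_le (b - (O : ℂ)) (O : ℂ)
      rwa [sub_add_cancel] at this
    rw [Complex.norm_real, Real.norm_eq_abs, abs_of_pos hO0] at h1
    linarith
  have hsq : ‖b - (y : ℂ)‖ ^ 2 = ‖b‖ ^ 2 - y * (2 * b.re - y) := by
    rw [Complex.sq_norm, Complex.sq_norm, Complex.normSq_apply, Complex.normSq_apply]
    simp only [Complex.sub_re, Complex.ofReal_re, Complex.sub_im, Complex.ofReal_im]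
    ring
  have hb0 : 0 ≤ ‖b‖ := norm_nonneg b
  have h2 : 3 / 2 * ‖b‖ ^ 2 ≤ O * (2 * b.re - y) := by
    have h3 : ‖b‖ ^ 2 ≤ (O + K) ^ 2 := by
      apply pow_le_pow_left₀ hb0 hnb
    have h4 : 2 * (O - K) - 2 / 5 * O ≤ 2 * b.re - y := by linarith
    have h5 : O * (2 * (O - K) - 2 / 5 * O) ≤ O * (2 * b.re - y) :=
      mul_le_mul_of_nonneg_left h4 hO0.le
    have h6 : 3 / 2 * (O + K) ^ 2 ≤ O * (2 * (O - K) - 2 / 5 * O) := by nlinarith
    linarith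
  have h7 : ‖b - (y : ℂ)‖ ^ 2 ≤ ‖b‖ ^ 2 * Real.exp (-(3 / 2 * y / O)) := by
    have h8 : 1 - 3 / 2 * y / O ≤ Real.exp (-(3 / 2 * y / O)) := by
      have := Real.add_one_le_exp (-(3 / 2 * y / O))
      linarith
    have h9 : ‖b - (y : ℂ)‖ ^ 2 ≤ ‖b‖ ^ 2 * (1 - 3 / 2 * y / O) := by
      rw [hsq]
      have h10 : ‖b‖ ^ 2 * (3 / 2 * y / O) ≤ y * (2 * b.re - y) := by
        rw [show ‖b‖ ^ 2 * (3 / 2 * y / O) = y * (3 / 2 * ‖b‖ ^ 2) / O by ring, div_le_iff₀ hO0]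
        calc y * (3 / 2 * ‖b‖ ^ 2) ≤ y * (O * (2 * b.re - y)) := mul_le_mul_of_nonneg_left h2 hy0
          _ = y * (2 * b.re - y) * O := by ring
      linarith [h10, mul_sub (‖b‖ ^ 2) 1 (3 / 2 * y / O)]
    exact h9.trans (mul_le_mul_of_nonneg_left h8 (by positivity))
  have h11 : ‖b - (y : ℂ)‖ ≤ ‖b‖ * Real.exp (-(3 / 4 * y / O)) := by
    apply le_of_sq_le_sq _ (by positivity)
    rw [mul_pow, ← Real.exp_nat_mul]
    have : ((2 : ℕ) : ℝ) * -(3 / 4 * y / O) = -(3 / 2 * y / O) := by push_cast; ring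
    rw [this]
    exact h7
  calc ‖b - (y : ℂ)‖ ^ n ≤ (‖b‖ * Real.exp (-(3 / 4 * y / O))) ^ n :=
        pow_le_pow_left₀ (norm_nonneg _) h11 n
    _ = Real.exp ((n : ℝ) * -(3 / 4 * y / O)) * ‖b‖ ^ n := by
        rw [mul_pow, ← Real.exp_nat_mul]; ring
    _ ≤ Real.exp (-(14 * y)) * ‖b‖ ^ n := by
        apply mul_le_mul_of_nonneg_right _ (by positivity)
        apply Real.exp_le_exp.2
        have h12 : 14 * y ≤ (n : ℝ) * (3 / 4 * y / O) := by
          rw [show (n : ℝ) * (3 / 4 * y / O) = (n : ℝ) * (3 / 4 * y) / O by ring, le_div_iff₀ hO0]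
          have := mul_le_mul_of_nonneg_right hn (by positivity : 0 ≤ 3 / 4 * y)
          nlinarith [mul_nonneg hy0 hO0.le]
        linarith

/-- The `m`-th main term. -/
noncomputable def mm (m n : ℕ) (t : ℝ) (z : ℂ) : ℂ :=
  HH (I * t) * cexp (be t * (z - I * t)) * (m : ℂ) ^ (-(1 / 2) - z) *
        ((be t - (Real.log m : ℂ)) / (2 * (I * t))) ^ n

theorem mm_one (n : ℕ) (t : ℝ) (z : ℂ) : mm 1 n t z = mt n t z := by
  simp [mm, mt]

theorem norm_mm_le (K : ℝ) (hK : 1 ≤ K) (m n : ℕ) (t : ℝ) (z : ℂ) (ht : 1 ≤ t) (hO : 100 * K ≤ Om t)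
    (hb : ‖be t - (Om t : ℂ)‖ ≤ K) (hm : 1 ≤ m) (hmt : (m : ℝ) ≤ t ^ (1 / 5 : ℝ))
    (hW : Win t n z) : ‖mm m n t z‖ ≤ ‖mt n t z‖ * (1 / (m : ℝ) ^ 13) := by
  have hm1 : (1 : ℝ) ≤ m := by exact_mod_cast hm
  have hm0 : (0 : ℝ) < m := by linarith
  have ht0 : 0 < t := by linarith
  have hy0 : 0 ≤ Real.log m := Real.log_nonneg hm1
  have hy : Real.log m ≤ 2 / 5 * Om t := by
    have := Real.log_le_log hm0 hmt
    rw [Real.log_rpow ht0] at this
    unfold Om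
    linarith
  have h1 := ratio_le (be t) (Om t) K (Real.log m) hK hO hb hy0 hy n hW.1
  have h2 : ‖(m : ℂ) ^ (-(1 / 2) - z)‖ ≤ Real.exp (Real.log m) := by
    have e : (m : ℂ) = ((m : ℝ) : ℂ) := by push_cast; rfl
    rw [e, Complex.norm_cpow_eq_rpow_re_of_pos hm0, Real.rpow_def_of_pos hm0]
    apply Real.exp_le_exp.2
    have hre : -(3 / 4) ≤ z.re := by
      have h3 := Complex.abs_re_le_norm (z - I * t)
      have h4 : (z - I * t).re = z.re := by simp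
      rw [h4] at h3
      have := (abs_le.1 (h3.trans hW.2.2)).1
      linarith
    have h5 : (-(1 / 2) - z : ℂ).re = -(1 / 2) - z.re := by
      simp
    rw [h5]
    nlinarith
  have h3 : ‖((be t - (Real.log m : ℂ)) / (2 * (I * t))) ^ n‖ ≤
      Real.exp (-(14 * Real.log m)) * ‖(be t / (2 * (I * t))) ^ n‖ := by
    rw [norm_pow, norm_pow, norm_div, norm_div, div_pow, div_pow, ← mul_div_assoc]
    exact div_le_div_of_nonneg_right h1 (by positivity)
  unfold mm mt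
  rw [norm_mul, norm_mul, norm_mul (HH (I * t) * cexp (be t * (z - I * t)))]
  calc ‖HH (I * t) * cexp (be t * (z - I * t))‖ * ‖(m : ℂ) ^ (-(1 / 2) - z)‖ *
        ‖((be t - (Real.log m : ℂ)) / (2 * (I * t))) ^ n‖
      ≤ ‖HH (I * t) * cexp (be t * (z - I * t))‖ * Real.exp (Real.log m) *
        (Real.exp (-(14 * Real.log m)) * ‖(be t / (2 * (I * t))) ^ n‖) := by
        gcongr
    _ = ‖HH (I * t) * cexp (be t * (z - I * t))‖ * ‖(be t / (2 * (I * t))) ^ n‖ *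
        (Real.exp (Real.log m) * Real.exp (-(14 * Real.log m))) := by ring
    _ = ‖HH (I * t) * cexp (be t * (z - I * t))‖ * ‖(be t / (2 * (I * t))) ^ n‖ *
        (1 / (m : ℝ) ^ 13) := by
        congr 1
        rw [← Real.exp_add, show Real.log m + -(14 * Real.log m) = -(((13 : ℕ) : ℝ) * Real.log m) by
          push_cast; ring, Real.exp_neg, Real.exp_nat_mul, Real.exp_log hm0, one_div]

theorem sum_pow_le (M : ℕ) (hM : 1 ≤ M) :
    ∑ m ∈ Finset.Icc 1 M, 1 / (m : ℝ) ^ 13 ≤ 1 + 1 / 1000 * (1 - 1 / (M : ℝ)) := by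
  induction M, hM using Nat.le_induction with
  | base => simp
  | succ M hM ih =>
    rw [Finset.sum_Icc_succ_top (by omega)]
    have hM1 : (1 : ℝ) ≤ M := by exact_mod_cast hM
    have h1 : 1 / ((M + 1 : ℕ) : ℝ) ^ 13 ≤ 1 / 1000 * (1 / (M : ℝ) - 1 / ((M + 1 : ℕ) : ℝ)) := by
      push_cast
      have h2 : (1 / (M : ℝ) - 1 / ((M : ℝ) + 1)) = 1 / ((M : ℝ) * (M + 1)) := by
        field_simp
        ring
      rw [h2]
      have h3 : (2 : ℝ) ^ 11 ≤ ((M : ℝ) + 1) ^ 11 := by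
        apply pow_le_pow_left₀ (by norm_num)
        linarith
      have h4 : 1000 * ((M : ℝ) * (M + 1)) ≤ ((M : ℝ) + 1) ^ 13 := by
        calc 1000 * ((M : ℝ) * (M + 1)) ≤ 2 ^ 11 * (((M : ℝ) + 1) * (M + 1)) := by nlinarith
          _ ≤ ((M : ℝ) + 1) ^ 11 * (((M : ℝ) + 1) * (M + 1)) := by
              apply mul_le_mul_of_nonneg_right h3; positivity
          _ = ((M : ℝ) + 1) ^ 13 := by ring
      rw [show 1 / 1000 * (1 / ((M : ℝ) * (M + 1))) = 1 / (1000 * ((M : ℝ) * (M + 1))) by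
        field_simp]
      exact one_div_le_one_div_of_le (by positivity) h4
    linarith

theorem four (a b c d : ℂ) : ‖a + b + c - d‖ ≤ ‖a‖ + ‖b‖ + ‖c‖ + ‖d‖ := by
  have h1 := norm_sub_le (a + b + c) d
  have h2 := norm_add_le (a + b) c
  have h3 := norm_add_le a b
  linarith

end MainT

open MainT in
/-- The upper arc of `FF` is the main term up to a relative error `1/10`. -/
theorem mainS (h1 : SUp) (h2 : SDown) (h3 : SPiece) (h4 : SArc) (h5 : SStir) : SMain := by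
  obtain ⟨T1, hT1, H1⟩ := h1 (1 / 100) (by norm_num)
  obtain ⟨T2, hT2, H2⟩ := h2 (1 / 100) (by norm_num)
  obtain ⟨K3, T3, hK3, hT3, H3⟩ := h3
  obtain ⟨hH, K5, T5, hK5, hT5, H5⟩ := h5
  have hsmall : ∀ᶠ t : ℝ in atTop, K3 * (106 * Real.log t ^ 2) ≤ 1 / 100 * t := by
    have h := (Real.isLittleO_pow_log_id_atTop (n := 2)).bound
      (c := 1 / (100 * (106 * K3))) (by positivity)
    filter_upwards [h, eventually_gt_atTop 1] with t ht ht1
    rw [Real.norm_eq_abs, abs_of_nonneg (by positivity), id, Real.norm_eq_abs,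
      abs_of_pos (by linarith)] at ht
    have := mul_le_mul_of_nonneg_left ht (by positivity : 0 ≤ 106 * K3)
    calc K3 * (106 * Real.log t ^ 2) = 106 * K3 * Real.log t ^ 2 := by ring
      _ ≤ 106 * K3 * (1 / (100 * (106 * K3)) * t) := this
      _ = 1 / 100 * t := by field_simp
  obtain ⟨T6, H6⟩ := eventually_atTop.1 hsmall
  refine ⟨max (max (max T1 T2) (max T3 T5)) (max (max T6 41) (Real.exp (200 * K5))), ?_, ?_⟩
  · exact le_max_of_le_left (le_max_of_le_left (le_max_of_le_left hT1))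
  intro t n z ht hW
  have ht1 : T1 ≤ t := le_trans (by simp) ht
  have ht2 : T2 ≤ t := le_trans (by simp) ht
  have ht3 : T3 ≤ t := le_trans (by simp) ht
  have ht5 : T5 ≤ t := le_trans (by simp) ht
  have ht6 : T6 ≤ t := le_trans (by simp) ht
  have ht41 : 41 ≤ t := le_trans (by simp) ht
  have hte : Real.exp (200 * K5) ≤ t := le_trans (by simp) ht
  have ht0 : 0 < t := by linarith
  have hO : 100 * K5 ≤ Om t := by
    unfold Om
    have := (Real.le_log_iff_exp_le ht0).2 hte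
    linarith
  obtain ⟨-, hb, -⟩ := H5 t ht5
  set M : ℕ := ⌊t ^ (1 / 5 : ℝ)⌋₊ with hM
  have hM1 : 1 ≤ M := by
    rw [hM, Nat.one_le_floor_iff]
    exact Real.one_le_rpow (by linarith) (by norm_num)
  have hmM : ∀ m ∈ Finset.Icc 1 M, (m : ℝ) ≤ t ^ (1 / 5 : ℝ) := by
    intro m hm
    have h := (Finset.mem_Icc.1 hm).2
    exact (Nat.le_floor_iff (by positivity)).1 h
  have hup := H1 t n z ht1 hW
  have hdown := H2 t n z ht2 hW
  have hmm : ∀ m ∈ Finset.Icc 1 M, ‖mm m n t z‖ ≤ ‖mt n t z‖ * (1 / (m : ℝ) ^ 13) := fun m hm =>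
    norm_mm_le K5 hK5 m n t z (by linarith) hO hb (Finset.mem_Icc.1 hm).1 (hmM m hm) hW
  have hS := sum_pow_le M hM1
  have hS' : ∑ m ∈ Finset.Icc 1 M, 1 / (m : ℝ) ^ 13 ≤ 1 + 1 / 1000 := by
    have : (0 : ℝ) ≤ 1 / (M : ℝ) := by positivity
    linarith
  have harc : ∀ m ∈ Finset.Icc 1 M, arc (GG m) n (-t ^ 2) (40 * t) 0 Real.pi (z ^ 2) =
      iteratedDeriv n (GG m) (z ^ 2) -
        arc (GG m) n (-t ^ 2) (40 * t) Real.pi (2 * Real.pi) (z ^ 2) := by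
    intro m hm
    have h := (h4 (GG m) n (-t ^ 2) (40 * t) (z ^ 2) (by linarith)
      (fun ξ hξ => diff_GG hH m (Finset.mem_Icc.1 hm).1 ξ (re_neg_pos (by linarith) hξ))
      (sq_mem_ball (by linarith) hW.2.2)).1
    rw [h]
    ring
  have hn : K3 * (n : ℝ) ^ 2 / t ≤ 1 / 100 := by
    have hlog : 0 ≤ Real.log t := Real.log_nonneg (by linarith)
    have hnle : (n : ℝ) ≤ 41 / 4 * Real.log t := by
      have := hW.2.1
      unfold Om at this
      linarith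
    have h7 : (n : ℝ) ^ 2 ≤ 106 * Real.log t ^ 2 := by
      calc (n : ℝ) ^ 2 ≤ (41 / 4 * Real.log t) ^ 2 := by
            apply pow_le_pow_left₀ (by positivity) hnle
        _ ≤ 106 * Real.log t ^ 2 := by nlinarith [sq_nonneg (Real.log t)]
    rw [div_le_iff₀ ht0]
    calc K3 * (n : ℝ) ^ 2 ≤ K3 * (106 * Real.log t ^ 2) := by
          apply mul_le_mul_of_nonneg_left h7 (by linarith)
      _ ≤ 1 / 100 * t := H6 t ht6
  have hA : ‖mt n t z‖ ≥ 0 := norm_nonneg _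
  -- the errors of the pieces
  have hE : ‖∑ m ∈ Finset.Icc 1 M, (iteratedDeriv n (GG m) (z ^ 2) - mm m n t z)‖ ≤
      1 / 100 * (‖mt n t z‖ * (1 + 1 / 1000)) := by
    refine (norm_sum_le _ _).trans ?_
    calc ∑ m ∈ Finset.Icc 1 M, ‖iteratedDeriv n (GG m) (z ^ 2) - mm m n t z‖
        ≤ ∑ m ∈ Finset.Icc 1 M, 1 / 100 * (‖mt n t z‖ * (1 / (m : ℝ) ^ 13)) := by
          apply Finset.sum_le_sum
          intro m hm
          have h8 := H3 t n m z ht3 hW (Finset.mem_Icc.1 hm).1 (hmM m hm)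
          calc ‖iteratedDeriv n (GG m) (z ^ 2) - mm m n t z‖ ≤ K3 * (n : ℝ) ^ 2 / t * ‖mm m n t z‖ := h8
            _ ≤ 1 / 100 * (‖mt n t z‖ * (1 / (m : ℝ) ^ 13)) :=
                mul_le_mul hn (hmm m hm) (norm_nonneg _) (by norm_num)
      _ = 1 / 100 * (‖mt n t z‖ * ∑ m ∈ Finset.Icc 1 M, 1 / (m : ℝ) ^ 13) := by
          rw [Finset.mul_sum, Finset.mul_sum]
      _ ≤ 1 / 100 * (‖mt n t z‖ * (1 + 1 / 1000)) := by
          apply mul_le_mul_of_nonneg_left _ (by norm_num)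
          exact mul_le_mul_of_nonneg_left hS' (norm_nonneg _)
  -- the main terms `m ≥ 2`
  have hB : ‖∑ m ∈ Finset.Icc 1 M, mm m n t z - mt n t z‖ ≤ ‖mt n t z‖ * (1 / 1000) := by
    have h1mem : 1 ∈ Finset.Icc 1 M := Finset.mem_Icc.2 ⟨le_refl 1, hM1⟩
    rw [← Finset.add_sum_erase _ _ h1mem, mm_one, add_sub_cancel_left]
    refine (norm_sum_le _ _).trans ?_
    calc ∑ m ∈ (Finset.Icc 1 M).erase 1, ‖mm m n t z‖
        ≤ ∑ m ∈ (Finset.Icc 1 M).erase 1, ‖mt n t z‖ * (1 / (m : ℝ) ^ 13) :=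
          Finset.sum_le_sum fun m hm => hmm m (Finset.mem_of_mem_erase hm)
      _ = ‖mt n t z‖ * ∑ m ∈ (Finset.Icc 1 M).erase 1, 1 / (m : ℝ) ^ 13 := by
          rw [Finset.mul_sum]
      _ ≤ ‖mt n t z‖ * (1 / 1000) := by
          apply mul_le_mul_of_nonneg_left _ (norm_nonneg _)
          have h9 := Finset.add_sum_erase (Finset.Icc 1 M) (fun m : ℕ => 1 / (m : ℝ) ^ 13) h1mem
          simp only [Nat.cast_one, one_pow, div_one] at h9
          linarith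
  have hD : ‖∑ m ∈ Finset.Icc 1 M, arc (GG m) n (-t ^ 2) (40 * t) Real.pi (2 * Real.pi) (z ^ 2)‖ ≤
      1 / 100 * ‖mt n t z‖ := (norm_sum_le _ _).trans hdown
  have hsum : ∑ m ∈ Finset.Icc 1 M, arc (GG m) n (-t ^ 2) (40 * t) 0 Real.pi (z ^ 2) =
      ∑ m ∈ Finset.Icc 1 M, (iteratedDeriv n (GG m) (z ^ 2) - mm m n t z) +
      ∑ m ∈ Finset.Icc 1 M, mm m n t z -
      ∑ m ∈ Finset.Icc 1 M, arc (GG m) n (-t ^ 2) (40 * t) Real.pi (2 * Real.pi) (z ^ 2) := by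
    rw [← Finset.sum_add_distrib, ← Finset.sum_sub_distrib]
    apply Finset.sum_congr rfl
    intro m hm
    rw [harc m hm]
    ring
  have hfin : arc FF n (-t ^ 2) (40 * t) 0 Real.pi (z ^ 2) - mt n t z =
      (arc FF n (-t ^ 2) (40 * t) 0 Real.pi (z ^ 2) -
        ∑ m ∈ Finset.Icc 1 M, arc (GG m) n (-t ^ 2) (40 * t) 0 Real.pi (z ^ 2)) +
      ∑ m ∈ Finset.Icc 1 M, (iteratedDeriv n (GG m) (z ^ 2) - mm m n t z) +
      (∑ m ∈ Finset.Icc 1 M, mm m n t z - mt n t z) -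
      ∑ m ∈ Finset.Icc 1 M, arc (GG m) n (-t ^ 2) (40 * t) Real.pi (2 * Real.pi) (z ^ 2) := by
    rw [hsum]
    ring
  rw [hfin]
  refine (four _ _ _ _).trans ?_
  linarith

end Pool.Agent.H24R2.JP
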