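import Mathlib
import Pool.Agent.H24R2.JP.Spec

set_option autoImplicit false

namespace Pool.Agent.H24R2.JP

open Complex Filter Topology Polynomial

namespace Zer

theorem XX_even (z : ℂ) : XX (-z) = XX z := by
  unfold XX
  have h : (1 / 2 + -z : ℂ) = 1 - (1 / 2 + z) := by ring
  rw [h, completedRiemannZeta₀_one_sub]
  ring

theorem XX_eq (z : ℂ) (h1 : (1 / 2 + z : ℂ) ≠ 0) (h2 : (1 - (1 / 2 + z) : ℂ) ≠ 0) :
    XX z = (4 * z ^ 2 - 1) * completedRiemannZeta (1 / 2 + z) := by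
  unfold XX
  rw [completedRiemannZeta_eq]
  have h3 : (4 * z ^ 2 - 1 : ℂ) = -4 * ((1 / 2 + z) * (1 - (1 / 2 + z))) := by ring
  have h4 : ∀ a b L : ℂ, a ≠ 0 → b ≠ 0 → a + b = 1 →
      -4 * (a * b) * L + 4 = -4 * (a * b) * (L - 1 / a - 1 / b) := by
    intro a b L ha hb hab
    field_simp
    linear_combination -hab
  rw [h3]
  exact h4 _ _ _ h1 h2 (by ring)

theorem XX_half : XX (1 / 2) = 4 := by
  unfold XX
  norm_num

theorem XX_neg_half : XX (-(1 / 2)) = 4 := by
  unfold XX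
  norm_num

/-- `XX z = 0` forces `Λ(1/2+z) = 0`, with `1/2 + z` different from `0` and `1`. -/
theorem completed_zero (z : ℂ) (h : XX z = 0) :
    (1 / 2 + z : ℂ) ≠ 0 ∧ (1 - (1 / 2 + z) : ℂ) ≠ 0 ∧ completedRiemannZeta (1 / 2 + z) = 0 := by
  have h1 : (1 / 2 + z : ℂ) ≠ 0 := by
    intro h0
    have : z = -(1 / 2) := by linear_combination h0
    rw [this, XX_neg_half] at h
    norm_num at h
  have h2 : (1 - (1 / 2 + z) : ℂ) ≠ 0 := by
    intro h0
    have : z = 1 / 2 := by linear_combination -h0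
    rw [this, XX_half] at h
    norm_num at h
  refine ⟨h1, h2, ?_⟩
  rw [XX_eq z h1 h2] at h
  rcases mul_eq_zero.1 h with h3 | h3
  · exfalso
    apply mul_ne_zero h1 h2
    linear_combination -h3 / 4
  · exact h3

theorem completed_ne_zero (s : ℂ) (hs : 1 < s.re) : completedRiemannZeta s ≠ 0 := by
  intro h
  have h0 : s ≠ 0 := by
    intro h0
    rw [h0] at hs
    norm_num at hs
  have h1 := riemannZeta_def_of_ne_zero h0
  rw [h, zero_div] at h1
  exact riemannZeta_ne_zero_of_one_lt_re hs h1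

/-- Zeros of `XX` are in the strip `|Re z| ≤ 1/2`. -/
theorem re_le (z : ℂ) (h : XX z = 0) : z.re ≤ 1 / 2 := by
  by_contra hc
  push Not at hc
  obtain ⟨_, _, h3⟩ := completed_zero z h
  refine completed_ne_zero (1 / 2 + z) ?_ h3
  have : (1 / 2 + z : ℂ).re = 1 / 2 + z.re := by
    simp
  rw [this]
  linarith

theorem abs_re_le (z : ℂ) (h : XX z = 0) : |z.re| ≤ 1 / 2 := by
  rw [abs_le]
  constructor
  · have := re_le (-z) (by rw [XX_even]; exact h)
    simp only [Complex.neg_re] at this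
    linarith
  · exact re_le z h

end Zer

theorem zeros (h : SB1) : SZeros := by
  intro x hx
  obtain ⟨z, rfl⟩ := IsAlgClosed.exists_pow_nat_eq x (n := 2) (by norm_num)
  rw [h.2.1 z] at hx
  have h1 := Zer.abs_re_le z hx
  show (z ^ 2).re + (z ^ 2).im ^ 2 ≤ 1 / 4
  have hre : (z ^ 2).re = z.re ^ 2 - z.im ^ 2 := by
    rw [pow_two, Complex.mul_re]; ring
  have him : (z ^ 2).im = 2 * z.re * z.im := by
    rw [pow_two, Complex.mul_im]; ring
  rw [hre, him]
  have h2 : z.re ^ 2 ≤ 1 / 4 := by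
    have := abs_le.1 h1
    nlinarith [this.1, this.2]
  have h3 : 0 ≤ z.im ^ 2 * (1 - 4 * z.re ^ 2) := by
    apply mul_nonneg (sq_nonneg _)
    linarith
  nlinarith

end Pool.Agent.H24R2.JP
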