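import Mathlib
import Pool.Agent.H24R2.JP.Spec
import Pool.Agent.H24R2.JP.Zeros

set_option autoImplicit false

namespace Pool.Agent.H24R2.JP

open Complex Filter Topology Polynomial

namespace RHa

/-- Under RH the zeros of `FF` are real. -/
theorem real_zeros (h : SB1) (hRH : RiemannHypothesis) (x : ℂ) (hx : FF x = 0) : x.im = 0 := by
  obtain ⟨z, rfl⟩ := IsAlgClosed.exists_pow_nat_eq x (n := 2) (by norm_num)
  rw [h.2.1 z] at hx
  obtain ⟨h1, h2, h3⟩ := Zer.completed_zero z hx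
  have h4 : riemannZeta (1 / 2 + z) = 0 := by
    rw [riemannZeta_def_of_ne_zero h1, h3, zero_div]
  have h5 : ¬∃ n : ℕ, (1 / 2 + z : ℂ) = -2 * (n + 1) := by
    rintro ⟨n, hn⟩
    refine Zer.completed_ne_zero (1 - (1 / 2 + z)) ?_ ?_
    · rw [hn]
      have : (1 - -2 * ((n : ℂ) + 1)) = ((3 + 2 * n : ℝ) : ℂ) := by
        push_cast
        ring
      rw [this, Complex.ofReal_re]
      have : (0 : ℝ) ≤ n := Nat.cast_nonneg n
      linarith
    · rw [completedRiemannZeta_one_sub]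
      exact h3
  have h6 : (1 / 2 + z : ℂ) ≠ 1 := by
    intro h0
    apply h2
    rw [h0]
    ring
  have h7 := hRH (1 / 2 + z) h4 h5 h6
  have h8 : z.re = 0 := by
    have : (1 / 2 + z : ℂ).re = 1 / 2 + z.re := by
      simp
    rw [this] at h7
    linarith
  rw [pow_two, Complex.mul_im, h8]
  ring

theorem real_zeros_iter (h1 : SCircle) (h3 : SGood) (h : SB1) (hRH : RiemannHypothesis) (n : ℕ) :
    ∀ w : ℂ, iteratedDeriv n FF w = 0 → w.im = 0 := by
  induction n with
  | zero =>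
    intro w hw
    rw [iteratedDeriv_zero] at hw
    exact real_zeros h hRH w hw
  | succ n ih =>
    intro w hw
    by_contra hne
    obtain ⟨z, hz1, hz2, _⟩ := h1 FF h3 n w hne hw
    exact hz1 (ih z hz2)

theorem aeval_jensen (h : SB1) (d n : ℕ) (z : ℂ) :
    aeval z (jensen d n) =
      ∑ j ∈ Finset.range (d + 1), (d.choose j : ℂ) * iteratedDeriv (n + j) FF 0 * z ^ j := by
  unfold jensen
  rw [map_sum]
  apply Finset.sum_congr rfl
  intro j _
  rw [map_mul, map_pow, aeval_X, aeval_C, h.2.2.2 (n + j)]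
  simp

end RHa

theorem rh1 (h1 : SCircle) (h2 : SJensen) (h3 : SGood) (_h4 : SGam) (h5 : SB1) : SRH1 := by
  intro hRH d n z hz
  rw [RHa.aeval_jensen h5] at hz
  have hd : (0 : ℝ) ≤ d := Nat.cast_nonneg d
  refine h2 FF h3 n d ((d : ℝ) + 1) (by linarith) (by nlinarith) ?_ z hz
  intro w _ hw
  exact RHa.real_zeros_iter h1 h3 h5 hRH n w hw

end Pool.Agent.H24R2.JP
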