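import Pool.Agent.H24R2.JP.UpDownAux

set_option autoImplicit false

namespace Pool.Agent.H24R2.JP

open Complex Filter Topology UD

theorem up (h1 : SStir) (h2 : SZeta) (h3 : SB1) : SUp := by
  intro ε hε
  have h1' := h1
  obtain ⟨hdiff, K, T1, hK, hT1, hst⟩ := h1'
  obtain ⟨hXX, K2, hK2, hz⟩ := h2
  have hev := (final h1 (2 * Real.exp (201 / 10 * K) * (K2 * 2 * 2 ^ (20 : ℝ))) ε
    (by positivity) hε).and
    ((eventually_ge_atTop T1).and ((eventually_ge_atTop K).and ((eventually_ge_atTop (10000 : ℝ)).and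
      (Om_tendsto.eventually_ge_atTop 0))))
  obtain ⟨T0, hT0⟩ := Filter.eventually_atTop.1 hev
  refine ⟨max T0 1, le_max_right _ _, ?_⟩
  intro t n z ht hw
  obtain ⟨hfin, htT1, htK, ht4, hO⟩ := hT0 t ((le_max_left _ _).trans ht)
  obtain ⟨-, hbe, hu⟩ := hst t htT1
  have ht1 : 1 ≤ t := by linarith
  have ht0 : 0 < t := by linarith
  -- distance
  have hdist : ∀ θ : ℝ, ((-t ^ 2 : ℝ) : ℂ) + ((40 * t : ℝ) : ℂ) * cexp (I * θ) - z ^ 2 ≠ 0 := by
    intro θ h0
    have hz2 : z ^ 2 + (t : ℂ) ^ 2 = ((40 * t : ℝ) : ℂ) * cexp (I * θ) := by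
      push_cast at h0 ⊢
      linear_combination -h0
    have e1 : z ^ 2 + (t : ℂ) ^ 2 = (z - I * t) * (z - I * t + 2 * (I * t)) := by
      ring_nf
      rw [I_sq]
      ring
    have h4 : ‖((40 * t : ℝ) : ℂ) * cexp (I * θ)‖ = 40 * t := by
      rw [norm_mul, mul_comm I, Complex.norm_exp_ofReal_mul_I, Complex.norm_real,
        Real.norm_eq_abs, abs_of_pos (by linarith)]
      ring
    have h5 : ‖z - I * t + 2 * (I * t)‖ ≤ 3 / 4 + 2 * t := by
      refine (norm_add_le _ _).trans ?_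
      have h3 : ‖2 * (I * (t : ℂ))‖ = 2 * t := by simp [abs_of_pos ht0]
      rw [h3]
      linarith [hw.2.2]
    have h6 : ‖z - I * t‖ * ‖z - I * t + 2 * (I * t)‖ ≤ 3 / 4 * (3 / 4 + 2 * t) := by
      gcongr
      exact hw.2.2
    rw [← norm_mul, ← e1, hz2, h4] at h6
    linarith
  have hFF : Continuous fun θ : ℝ => FF (((-t ^ 2 : ℝ) : ℂ) + ((40 * t : ℝ) : ℂ) * cexp (I * θ)) :=
    h3.1.continuous.comp (by fun_prop)
  have hGGc : ∀ m ∈ Finset.Icc 1 ⌊t ^ (1 / 5 : ℝ)⌋₊, Continuous fun θ : ℝ =>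
      GG m (((-t ^ 2 : ℝ) : ℂ) + ((40 * t : ℝ) : ℂ) * cexp (I * θ)) := by
    intro m hm
    rw [Finset.mem_Icc] at hm
    rw [continuous_iff_continuousAt]
    intro θ
    obtain ⟨-, -, hg3, -, -, hg6⟩ := geom t ht4 θ
    have hc1 : ContinuousAt (fun θ : ℝ => ((-t ^ 2 : ℝ) : ℂ) + ((40 * t : ℝ) : ℂ) * cexp (I * θ)) θ := by
      fun_prop
    refine ContinuousAt.comp (f := fun θ : ℝ => ((-t ^ 2 : ℝ) : ℂ) + ((40 * t : ℝ) : ℂ) * cexp (I * θ))
      (g := GG m) ?_ hc1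
    have hsq : ContinuousAt sq (((-t ^ 2 : ℝ) : ℂ) + ((40 * t : ℝ) : ℂ) * cexp (I * θ)) := by
      unfold sq
      apply ContinuousAt.mul continuousAt_const
      exact (continuousAt_cpow_const hg6).comp (f := fun ξ : ℂ => -ξ) continuousAt_neg
    unfold GG
    apply ContinuousAt.mul
    · exact ContinuousAt.comp (hdiff _ (by linarith)).continuousAt hsq
    · apply ContinuousAt.const_cpow
      · exact continuousAt_const.sub hsq
      · left
        exact_mod_cast (show m ≠ 0 by omega)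
  rw [arc_lin FF GG _ n (-t ^ 2) (40 * t) 0 Real.pi (z ^ 2) hFF hGGc hdist]
  set M := ⌊t ^ (1 / 5 : ℝ)⌋₊ with hM
  have hy1 : 1 ≤ t ^ (1 / 5 : ℝ) := Real.one_le_rpow ht1 (by norm_num)
  have hM1 : 1 ≤ M := Nat.le_floor (by simpa using hy1)
  have hM0 : (0 : ℝ) < M := by exact_mod_cast hM1
  have hMle : (M : ℝ) ≤ Real.exp (2 / 5 * Om t) := M_le t ht1
  have hMge : Real.exp (2 / 5 * Om t) ≤ 2 * M := by
    have h4 : t ^ (1 / 5 : ℝ) = Real.exp (2 / 5 * Om t) := by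
      rw [Real.rpow_def_of_pos ht0]
      unfold Om
      congr 1
      ring
    have h5 : t ^ (1 / 5 : ℝ) < M + 1 := Nat.lt_floor_add_one _
    have h6 : (1 : ℝ) ≤ M := by exact_mod_cast hM1
    rw [← h4]
    linarith
  have hlogM : Real.log M ≤ 2 / 5 * Om t := by
    have := Real.log_le_log hM0 hMle
    rwa [Real.log_exp] at this
  have hlogM2 : 2 / 5 * Om t - Real.log 2 ≤ Real.log M := by
    have := Real.log_le_log (Real.exp_pos _) hMge
    rw [Real.log_exp, Real.log_mul (by norm_num) hM0.ne'] at this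
    linarith
  have hpt : ∀ θ ∈ Set.Icc 0 Real.pi,
      ‖FF (((-t ^ 2 : ℝ) : ℂ) + ((40 * t : ℝ) : ℂ) * cexp (I * θ)) -
        ∑ m ∈ Finset.Icc 1 M, GG m (((-t ^ 2 : ℝ) : ℂ) + ((40 * t : ℝ) : ℂ) * cexp (I * θ))‖ ≤
      2 * Real.exp (201 / 10 * K) * (K2 * 2 * 2 ^ (20 : ℝ)) * Real.exp (143 / 10 * Om t) *
        ‖HH (I * t)‖ := by
    intro θ hθ
    obtain ⟨hg1, hg2, hg3, hg4, -, -⟩ := geom t ht4 θ
    have hsin : 0 ≤ Real.sin θ := Real.sin_nonneg_of_nonneg_of_le_pi hθ.1 hθ.2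
    have hσ := hg4 hsin
    set ξ := ((-t ^ 2 : ℝ) : ℂ) + ((40 * t : ℝ) : ℂ) * cexp (I * θ) with hξ
    set ζ := sq ξ with hζ
    have hζim : 0 < ζ.im := by linarith
    have hH := HH_bound t K (ζ - I * t) hK htK hg2 hbe (hu (ζ - I * t) (hg2.trans (by norm_num)))
    have e1 : I * (t : ℂ) + (ζ - I * t) = ζ := by ring
    have e2 : (ζ - I * (t : ℂ)).re = ζ.re := by simp
    rw [e1, e2] at hH
    have hσ2 : ζ.re ≤ 201 / 10 := by
      rw [← e2]
      exact (Complex.re_le_norm _).trans hg2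
    have hrew : FF ξ - ∑ m ∈ Finset.Icc 1 M, GG m ξ =
        HH ζ * (riemannZeta (1 / 2 + ζ) - ∑ m ∈ Finset.Icc 1 M, (m : ℂ) ^ (-(1 / 2 + ζ))) := by
      have h4 : FF ξ = HH ζ * riemannZeta (1 / 2 + ζ) := by
        rw [← hXX ζ hζim, ← h3.2.1, hg1]
      rw [h4, mul_sub, Finset.mul_sum]
      congr 1
      apply Finset.sum_congr rfl
      intro m _
      unfold GG
      rw [← hζ]
      congr 2
      ring
    rw [hrew, norm_mul]
    have hre : (1 / 2 + ζ).re = 1 / 2 + ζ.re := by simp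
    have him : (1 / 2 + ζ).im = ζ.im := by simp
    have hzz := hz (1 / 2 + ζ) M (by rw [hre]; linarith) (by rw [him]; linarith) hM1
    have hns : ‖1 / 2 + ζ‖ ≤ 2 * t := by
      have h4 : (1 / 2 + ζ) = 1 / 2 + (ζ - I * t) + I * t := by ring
      rw [h4]
      refine (norm_add_le _ _).trans ?_
      have h5 : ‖(1 / 2 : ℂ) + (ζ - I * t)‖ ≤ 1 / 2 + 201 / 10 := by
        refine (norm_add_le _ _).trans ?_
        have : ‖(1 / 2 : ℂ)‖ = 1 / 2 := by norm_num
        rw [this]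
        linarith
      have h6 : ‖I * (t : ℂ)‖ = t := by simp [abs_of_pos ht0]
      rw [h6]
      linarith
    have hMpow : (M : ℝ) ^ (1 - (1 / 2 + ζ).re) ≤
        2 ^ (20 : ℝ) * Real.exp (2 / 5 * Om t * (1 / 2 - ζ.re)) := by
      rw [hre, Real.rpow_def_of_pos hM0, Real.rpow_def_of_pos (by norm_num : (0 : ℝ) < 2),
        ← Real.exp_add]
      apply Real.exp_le_exp.2
      have hl2 : 0 ≤ Real.log 2 := Real.log_nonneg (by norm_num)
      rcases le_total ζ.re (1 / 2) with h | h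
      · have h5 : 0 ≤ 1 / 2 - ζ.re := by linarith
        have := mul_le_mul_of_nonneg_right hlogM h5
        nlinarith
      · have h5 : 0 ≤ ζ.re - 1 / 2 := by linarith
        have := mul_le_mul_of_nonneg_right hlogM2 h5
        nlinarith
    calc ‖HH ζ‖ * ‖riemannZeta (1 / 2 + ζ) - ∑ m ∈ Finset.Icc 1 M, (m : ℂ) ^ (-(1 / 2 + ζ))‖
        ≤ (2 * Real.exp (201 / 10 * K) * ‖HH (I * t)‖ * Real.exp (Om t * ζ.re)) *
          (K2 * (2 * t) * (2 ^ (20 : ℝ) * Real.exp (2 / 5 * Om t * (1 / 2 - ζ.re)))) := by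
          gcongr
          refine hzz.trans ?_
          gcongr
      _ = 2 * Real.exp (201 / 10 * K) * (K2 * 2 * 2 ^ (20 : ℝ)) * ‖HH (I * t)‖ *
          (Real.exp (Om t * ζ.re) * t * Real.exp (2 / 5 * Om t * (1 / 2 - ζ.re))) := by ring
      _ ≤ 2 * Real.exp (201 / 10 * K) * (K2 * 2 * 2 ^ (20 : ℝ)) * ‖HH (I * t)‖ *
          Real.exp (143 / 10 * Om t) := by
          have h7 : Real.exp (Om t * ζ.re) * t * Real.exp (2 / 5 * Om t * (1 / 2 - ζ.re)) ≤
              Real.exp (143 / 10 * Om t) := by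
            nth_rewrite 2 [← exp_Om t ht0]
            rw [← Real.exp_add, ← Real.exp_add]
            apply Real.exp_le_exp.2
            nlinarith [mul_le_mul_of_nonneg_left hσ2 hO]
          gcongr
      _ = _ := by ring
  refine (arc_bound _ n t 0 Real.pi _ z ht4 Real.pi_pos.le (by linarith) hw.2.2
    (by positivity) hpt).trans ?_
  exact hfin n z hw _ le_rfl

end Pool.Agent.H24R2.JP
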