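import Pool.Agent.H24R2.JP.Arc
import Pool.Agent.H24R2.JP.B1
import Pool.Agent.H24R2.JP.Chasse
import Pool.Agent.H24R2.JP.Chain
import Pool.Agent.H24R2.JP.Der
import Pool.Agent.H24R2.JP.Down
import Pool.Agent.H24R2.JP.Gam
import Pool.Agent.H24R2.JP.Good
import Pool.Agent.H24R2.JP.Grow
import Pool.Agent.H24R2.JP.Had
import Pool.Agent.H24R2.JP.Hyp
import Pool.Agent.H24R2.JP.JensenS
import Pool.Agent.H24R2.JP.Limit
import Pool.Agent.H24R2.JP.Low
import Pool.Agent.H24R2.JP.MainT
import Pool.Agent.H24R2.JP.Mom
import Pool.Agent.H24R2.JP.Newton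
import Pool.Agent.H24R2.JP.Off
import Pool.Agent.H24R2.JP.ParCirc
import Pool.Agent.H24R2.JP.Piece
import Pool.Agent.H24R2.JP.Polys
import Pool.Agent.H24R2.JP.RH1
import Pool.Agent.H24R2.JP.RH2
import Pool.Agent.H24R2.JP.Sector
import Pool.Agent.H24R2.JP.Stir
import Pool.Agent.H24R2.JP.Up
import Pool.Agent.H24R2.JP.WinS
import Pool.Agent.H24R2.JP.Zeros
import Pool.Agent.H24R2.JP.Zeta

set_option autoImplicit false

namespace Pool.Agent.H24R2.JP

theorem gamT : SGam := gamS mom
theorem growT : SGrow := grow b1
theorem zerosT : SZeros := zeros b1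
theorem goodT : SGood := good had b1 growT zerosT gamT
theorem parT : SPar := par der gl
theorem circT : SCircle := circ der gl jen
theorem jensenT : SJensen := jensenS der gl (sector chasse) limit
theorem newtonT : SNewton := newton der gl
theorem lowT : SLow := low newtonT goodT gamT b1
theorem pieceT : SPiece := piece stir
theorem upT : SUp := up stir zetaS b1
theorem downT : SDown := down stir
theorem mainT : SMain := mainS upT downT pieceT arcS stir
theorem offT : SOff := off mainT arcS b1 stir
theorem winT : SWin := win offT b1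
theorem chainT : SChain := chain parT circT winT lowT goodT
theorem hypT : SHyp := hyp chainT jensenT goodT gamT b1
theorem rh1T : SRH1 := rh1 circT jensenT goodT gamT b1
theorem rh2T : SRH2 := rh2 b1 gamT

end Pool.Agent.H24R2.JP
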