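import Pool.Agent.H24R2.JP.Spec2

set_option autoImplicit false

namespace Pool.Agent.H24R2.JP

open Complex Filter Topology Polynomial

theorem itGood (h1 : SDer) (h2 : SGL) : SIterGood := by
  intro f n hf
  obtain ⟨hd, ⟨P, hP⟩, hk⟩ := hf
  have hD := (h1 f P hP n).1
  have hpt : Tendsto (fun N : ℕ => aeval (0 : ℂ) (derivative^[n] (P N))) atTop
      (𝓝 (iteratedDeriv n f 0)) := by
    have h3 := tendstoLocallyUniformlyOn_univ.2 hD
    exact h3.tendsto_at (Set.mem_univ 0)
  have hne : ∀ᶠ N in atTop, aeval (0 : ℂ) (derivative^[n] (P N)) ≠ 0 :=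
    hpt.eventually_ne (hk n)
  obtain ⟨N0, hN0⟩ := eventually_atTop.1 hne
  refine ⟨?_, ⟨fun N => derivative^[n] (P (N + N0)), ?_, ?_⟩, fun k => ?_⟩
  · exact hd.contDiff.differentiable_iteratedDeriv' n
  · intro N x hx
    refine h2 (P (N + N0)) n (hP.1 _) (fun h0 => ?_) x hx
    exact hN0 (N + N0) (by omega) (by rw [h0]; simp)
  · intro u hu x
    obtain ⟨t, ht, h⟩ := hD u hu x
    exact ⟨t, ht, (tendsto_add_atTop_nat N0).eventually h⟩
  · have e : iteratedDeriv k (iteratedDeriv n f) = iteratedDeriv (k + n) f := by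
      rw [iteratedDeriv_eq_iterate, iteratedDeriv_eq_iterate, iteratedDeriv_eq_iterate,
        Function.iterate_add_apply]
    rw [e]
    exact hk _

end Pool.Agent.H24R2.JP
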