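import Pool.Agent.H24R2.JP.Spec2

set_option autoImplicit false

namespace Pool.Agent.H24R2.JP

open Complex Filter Topology Polynomial

open scoped ComplexOrder in
theorem simple_pos (h8 : SGam) (h9 : SB1) (n : ℕ) {x : ℝ} (hx : 0 ≤ x) :
    iteratedDeriv n FF (x : ℂ) ≠ 0 := by
  obtain ⟨hd, -, -, h0⟩ := h9
  have hdn : Differentiable ℂ (iteratedDeriv n FF) := hd.contDiff.differentiable_iteratedDeriv' n
  have hle := Differentiable.apply_le_of_iteratedDeriv_nonneg (c := 0) hdn (fun m _ => by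
    have e : iteratedDeriv m (iteratedDeriv n FF) = iteratedDeriv (m + n) FF := by
      rw [iteratedDeriv_eq_iterate, iteratedDeriv_eq_iterate, iteratedDeriv_eq_iterate,
        Function.iterate_add_apply]
    rw [e, h0]
    exact Complex.zero_le_real.2 (h8.1 _).le) (z := (x : ℂ)) (Complex.zero_le_real.2 hx)
  rw [h0] at hle
  intro h
  rw [h] at hle
  have := (Complex.le_def.1 hle).1
  simp only [ofReal_re, zero_re] at this
  linarith [h8.1 n]

theorem simple (h1 : SChain) (h2 : SLow) (h3 : SSimpleWin) (h4 : SDerLag) (h5 : SExZero)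
    (h6 : SIterGood) (h7 : SGood) (h8 : SGam) (h9 : SB1) : SSimple := by
  obtain ⟨N1, hN1⟩ := h1
  obtain ⟨N0, hN0⟩ := h2 1
  obtain ⟨T0, hT0, hW⟩ := h3
  obtain ⟨B, hB⟩ : ∃ B : ℝ, B = T0 ^ 2 + Real.exp 36 + Real.exp (4 * (N1 + 1)) := ⟨_, rfl⟩
  refine ⟨N1 + N0 + ⌈B⌉₊, fun n hn w hw h0 => ?_⟩
  have hnN1 : N1 ≤ n := by omega
  have hnN0 : N0 ≤ n := by omega
  have hnB : B ≤ n := by
    refine (Nat.le_ceil B).trans ?_
    exact_mod_cast (by omega : ⌈B⌉₊ ≤ n)
  have hn0 : (0 : ℝ) ≤ n := Nat.cast_nonneg n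
  have him : w.im = 0 := by
    by_contra h
    have h10 := hN1 n hnN1 w h h0
    have h11 : Real.exp (n / 6) ≤ Real.exp (n / 5) := Real.exp_le_exp.2 (by linarith)
    linarith
  have hwre : w = (w.re : ℂ) := by
    apply Complex.ext
    · simp
    · simpa using him
  have hre : w.re < 0 := by
    by_contra h
    refine simple_pos h8 h9 n (not_lt.1 h) ?_
    rw [← hwre]
    exact h0
  refine ⟨him, hre, fun hs => ?_⟩
  -- the height
  have hnw : (n : ℝ) < ‖w‖ := by
    have := hN0 n hnN0 w h0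
    simpa using this
  obtain ⟨t, ht⟩ : ∃ t : ℝ, t = Real.sqrt ‖w‖ := ⟨_, rfl⟩
  have hwn : 0 < ‖w‖ := lt_of_le_of_lt hn0 hnw
  have ht0 : 0 < t := by rw [ht]; exact Real.sqrt_pos.2 hwn
  have ht2 : t ^ 2 = ‖w‖ := by rw [ht]; exact Real.sq_sqrt hwn.le
  have hnorm : ‖w‖ = -w.re := by
    rw [hwre, Complex.norm_real, Real.norm_eq_abs, abs_of_neg hre, ofReal_re]
  have hwt : w = (I * t) ^ 2 := by
    rw [mul_pow, I_sq, ← ofReal_pow, ht2, hnorm]
    push_cast
    rw [← hwre]
    ring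
  have hBpos : T0 ^ 2 ≤ B ∧ Real.exp 36 ≤ B ∧ Real.exp (4 * (N1 + 1)) ≤ B := by
    have e1 := Real.exp_pos 36
    have e2 := Real.exp_pos (4 * ((N1 : ℝ) + 1))
    have e3 := sq_nonneg T0
    rw [hB]
    refine ⟨by linarith, by linarith, by linarith⟩
  have hT0t : T0 ≤ t := by
    have : T0 ^ 2 ≤ t ^ 2 := by rw [ht2]; linarith [hBpos.1]
    exact le_of_sq_le_sq this ht0.le
  have hlog2 : Real.log ‖w‖ = 2 * Real.log t := by
    rw [← ht2, Real.log_pow]; norm_num
  have hOm : Real.log ‖w‖ = 4 * Om t := by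
    rw [hlog2]; unfold Om; ring
  have hOm1 : 9 ≤ Om t := by
    have e1 : 36 ≤ Real.log ‖w‖ := by
      rw [Real.le_log_iff_exp_le hwn]
      linarith [hBpos.2.1]
    linarith
  have hOm2 : (N1 : ℝ) + 1 ≤ Om t := by
    have e1 : 4 * ((N1 : ℝ) + 1) ≤ Real.log ‖w‖ := by
      rw [Real.le_log_iff_exp_le hwn]
      linarith [hBpos.2.2]
    linarith
  have hOm3 : 4 * Om t ≤ n / 6 := by
    rw [← hOm, Real.log_le_iff_le_exp hwn]
    exact hw
  -- the level of the window
  obtain ⟨k0, hk0⟩ : ∃ k0 : ℕ, k0 = ⌊41 / 2 * Om t⌋₊ := ⟨_, rfl⟩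
  have hk1 : (k0 : ℝ) ≤ 41 / 2 * Om t := by
    rw [hk0]; exact Nat.floor_le (by linarith)
  have hk2 : 41 / 2 * Om t - 1 < k0 := by
    rw [hk0]; linarith [Nat.lt_floor_add_one (41 / 2 * Om t)]
  have hk0n : k0 ≤ n := by
    have : (k0 : ℝ) ≤ n := by linarith
    exact_mod_cast this
  have hk0N1 : N1 ≤ k0 := by
    have : (N1 : ℝ) ≤ k0 := by linarith
    exact_mod_cast this
  have hlogtwo : Real.log 2 ≤ 7 / 10 := by
    have := Real.log_two_lt_d9; linarith
  have hR : 2 * ‖w‖ ≤ Real.exp ((k0 : ℝ) / 5) := by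
    rw [← Real.log_le_iff_le_exp (by positivity), Real.log_mul (by norm_num) hwn.ne', hOm]
    linarith
  have hR10 : 10 ≤ Real.exp ((k0 : ℝ) / 5) := by
    have := Real.add_one_le_exp ((k0 : ℝ) / 5)
    linarith
  -- downward induction
  have key : ∀ j : ℕ, j ≤ n - k0 → iteratedDeriv (n - j) FF w = 0 ∧
      iteratedDeriv (n - j + 1) FF w = 0 := by
    intro j
    induction j with
    | zero => intro _; exact ⟨h0, hs⟩
    | succ j ih =>
      intro hj
      have ih' := ih (by omega)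
      obtain ⟨k, hk⟩ : ∃ k, k = n - (j + 1) := ⟨_, rfl⟩
      have e1 : n - j = k + 1 := by omega
      rw [← hk]
      rw [e1] at ih'
      refine ⟨?_, ih'.1⟩
      have hkk : k0 ≤ k := by omega
      have hkr : (k0 : ℝ) ≤ k := by exact_mod_cast hkk
      have hexp : Real.exp ((k0 : ℝ) / 5) ≤ Real.exp ((k : ℝ) / 5) :=
        Real.exp_le_exp.2 (by linarith)
      have hG : Good (iteratedDeriv k FF) := h6 FF k h7
      have hd1 : deriv (iteratedDeriv k FF) = iteratedDeriv (k + 1) FF := by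
        rw [iteratedDeriv_succ]
      have hd2 : deriv (deriv (iteratedDeriv k FF)) = iteratedDeriv (k + 1 + 1) FF := by
        rw [hd1, ← iteratedDeriv_succ]
      have := h4 (iteratedDeriv k FF) (Real.exp ((k : ℝ) / 5)) w.re hG (h5 k) (by linarith)
        (fun v hv hv0 => by
          by_contra h
          have := hN1 k (by omega) v h hv0
          linarith)
        (by
          rw [abs_of_neg hre, ← hnorm]
          linarith)
        (by rw [hd1, ← hwre]; exact ih'.1) (by rw [hd2, ← hwre]; exact ih'.2)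
      rw [hwre]
      exact this
  have hfin := key (n - k0) le_rfl
  have e2 : n - (n - k0) = k0 := by omega
  rw [e2] at hfin
  have := hW t k0 hT0t (by linarith) hk1 (by rw [← hwt]; exact hfin.1)
  rw [← hwt] at this
  exact this hfin.2

end Pool.Agent.H24R2.JP
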