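import Pool.Agent.H24R2.JP.Spec2
import Pool.Agent.H24R2.JP.Off

set_option autoImplicit false

/-!
# Task SWIN2: in the window the zeros of `FF^(n)` on the line are simple
-/

namespace Pool.Agent.H24R2.JP

open Complex Filter Topology Polynomial

open OffAux in
theorem simpleWin (h1 : SMain) (h2 : SArc) (h3 : SB1) (h4 : SStir) : SSimpleWin := by
  obtain ⟨T1, hT1, H1⟩ := h1
  obtain ⟨-, K, T2, hK, hT2, H2⟩ := h4
  refine ⟨max (max T1 T2) (Real.exp (2 * K + 2)), le_max_of_le_left (le_max_of_le_left hT1), ?_⟩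
  intro t n ht hn1 hn2 hzero hzero'
  have htT1 : T1 ≤ t := (le_max_left _ _).trans ((le_max_left _ _).trans ht)
  have htT2 : T2 ≤ t := (le_max_right _ _).trans ((le_max_left _ _).trans ht)
  have htE : Real.exp (2 * K + 2) ≤ t := (le_max_right _ _).trans ht
  have ht1 : 1 ≤ t := hT1.trans htT1
  have ht0 : 0 < t := by linarith
  obtain ⟨hHH, hbe, -⟩ := H2 t htT2
  have hOm : K + 1 ≤ Om t := by
    rw [Om]
    have : 2 * K + 2 ≤ Real.log t := (Real.le_log_iff_exp_le ht0).2 htE
    linarith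
  have hbre : 1 ≤ (be t).re := by
    have h5 := Complex.abs_re_le_norm (be t - (Om t : ℂ))
    have h6 : (be t - (Om t : ℂ)).re = (be t).re - Om t := by simp
    rw [h6] at h5
    have h7 := (abs_le.1 (h5.trans hbe)).1
    linarith
  have hbne : be t ≠ 0 := by
    intro h0
    rw [h0] at hbre
    norm_num at hbre
  have hIt : (2 : ℂ) * (I * t) ≠ 0 := by
    have : (t : ℂ) ≠ 0 := by exact_mod_cast ht0.ne'
    simp [this]
  have hmtne : ∀ z, mt n t z ≠ 0 := by
    intro z
    rw [mt]
    exact mul_ne_zero (mul_ne_zero hHH (Complex.exp_ne_zero _))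
      (pow_ne_zero _ (div_ne_zero hbne hIt))
  set A : ℂ → ℂ := fun z => arc FF n (-t ^ 2) (40 * t) 0 Real.pi (z ^ 2) with hA
  set R : ℂ → ℂ := fun z => A z / mt n t z - 1 with hR
  have hρ : 0 < 40 * t := by linarith
  have hin : ∀ z : ℂ, ‖z - I * t‖ ≤ 3 / 4 → ‖z ^ 2 - ((-t ^ 2 : ℝ) : ℂ)‖ < 40 * t := by
    intro z hz
    have e : z ^ 2 - ((-t ^ 2 : ℝ) : ℂ) = (z - I * t) * ((z - I * t) + 2 * (I * t)) := by
      have hI : I ^ 2 = -1 := Complex.I_sq
      push_cast
      linear_combination ((t : ℂ) ^ 2) * hI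
    rw [e, norm_mul]
    have h5 : ‖(z - I * t) + 2 * (I * t)‖ ≤ 3 / 4 + 2 * t := by
      refine (norm_add_le _ _).trans ?_
      have : ‖(2 : ℂ) * (I * t)‖ = 2 * t := by
        simp [abs_of_pos ht0]
      rw [this]
      linarith
    have h6 := norm_nonneg (z - I * t)
    have h7 := norm_nonneg ((z - I * t) + 2 * (I * t))
    nlinarith
  have hRd : ∀ z : ℂ, ‖z - I * t‖ ≤ 3 / 4 → DifferentiableAt ℂ R z := by
    intro z hz
    have h5 : DifferentiableAt ℂ A z := by
      have h6 := arc_diff FF h3.1.continuous n (-t ^ 2) (40 * t) 0 Real.pi hρ (z ^ 2) (hin z hz)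
      have h8 : DifferentiableAt ℂ (fun z : ℂ => z ^ 2) z := by fun_prop
      exact DifferentiableAt.comp (g := fun x => arc FF n (-t ^ 2) (40 * t) 0 Real.pi x)
        (f := fun z : ℂ => z ^ 2) z h6 h8
    have h7 : DifferentiableAt ℂ (fun z => mt n t z) z := by
      unfold mt
      fun_prop
    exact (h5.div h7 (hmtne z)).sub_const 1
  have hRb : ∀ z : ℂ, ‖z - I * t‖ ≤ 3 / 4 → ‖R z‖ ≤ 1 / 10 := by
    intro z hz
    have h5 := H1 t n z htT1 ⟨hn1, hn2, hz⟩
    have h6 : R z = (A z - mt n t z) / mt n t z := by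
      rw [hR]; simp only
      rw [sub_div, div_self (hmtne z)]
    rw [h6, norm_div, div_le_iff₀ (norm_pos_iff.2 (hmtne z))]
    exact h5
  -- derivative bound
  have hder : ‖deriv R (I * t)‖ ≤ (1 / 10) / (3 / 4) := by
    apply Complex.norm_deriv_le_of_forall_mem_sphere_norm_le (by norm_num)
    · apply DifferentiableOn.diffContOnCl
      intro z hz
      rw [closure_ball _ (by norm_num)] at hz
      exact (hRd z (by rwa [mem_closedBall_iff_norm] at hz)).differentiableWithinAt
    · intro z hz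
      exact hRb z (by
        have := Metric.sphere_subset_closedBall hz
        rwa [mem_closedBall_iff_norm] at this)
  have hAR : ∀ z, A z = (R z + 1) * mt n t z := by
    intro z
    rw [hR]; simp only
    rw [sub_add_cancel, div_mul_cancel₀ _ (hmtne z)]
  have hc0 : ‖(I * t : ℂ) - I * t‖ ≤ 3 / 4 := by
    rw [sub_self, norm_zero]; norm_num
  -- the derivative of `A`
  have hAd : HasDerivAt A ((deriv R (I * t) + (R (I * t) + 1) * be t) * mt n t (I * t)) (I * t) := by
    have h5 : HasDerivAt (fun z => R z + 1) (deriv R (I * t)) (I * t) :=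
      (hRd _ hc0).hasDerivAt.add_const 1
    have h6 : HasDerivAt (fun z => mt n t z) (be t * mt n t (I * t)) (I * t) := by
      have h7 : HasDerivAt (fun z : ℂ => be t * (z - I * t)) (be t) (I * t) := by
        simpa using ((hasDerivAt_id (I * t : ℂ)).sub_const (I * t : ℂ)).const_mul (be t)
      have h8 := ((h7.cexp).const_mul (HH (I * t))).mul_const ((be t / (2 * (I * t))) ^ n)
      refine h8.congr_deriv ?_
      rw [mt]
      ring
    have h9 := h5.mul h6
    have h10 : (fun z => (R z + 1) * mt n t z) = A := by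
      funext z; rw [hAR]
    have h11 : HasDerivAt (fun z => (R z + 1) * mt n t z)
        (deriv R (I * t) * mt n t (I * t) + (R (I * t) + 1) * (be t * mt n t (I * t))) (I * t) := h9
    rw [h10] at h11
    refine h11.congr_deriv ?_
    ring
  -- the reflection formula for real `s`
  have hfs : ∀ s : ℝ, |s| ≤ 1 / 2 → iteratedDeriv n FF ((s + I * t) ^ 2) =
      A (s + I * t) + (starRingEnd ℂ) (A (((-s : ℝ) : ℂ) + I * t)) := by
    intro s hs
    have hxball : ((s : ℂ) + I * t) ^ 2 ∈ Metric.ball (((-t ^ 2 : ℝ) : ℂ)) (40 * t) := by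
      rw [mem_ball_iff_norm]
      apply hin
      simp only [add_sub_cancel_right, Complex.norm_real, Real.norm_eq_abs]
      linarith
    obtain ⟨e1, e2⟩ := h2 FF n (-t ^ 2) (40 * t) (((s : ℂ) + I * t) ^ 2) hρ
      (fun ξ _ => h3.1 ξ) hxball
    have e3 := e2 h3.2.2.1
    have hconj : (starRingEnd ℂ) (((s : ℂ) + I * t) ^ 2) = (((-s : ℝ) : ℂ) + I * t) ^ 2 := by
      simp only [map_pow, map_add, map_mul, Complex.conj_I, Complex.conj_ofReal]
      push_cast
      ring
    rw [hconj] at e3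
    rw [hA]; simp only
    rw [← e3, ← e1]
  have h00 : A (I * t) + (starRingEnd ℂ) (A (I * t)) = 0 := by
    have h5 := hfs 0 (by norm_num)
    have h6 : (((0 : ℝ) : ℂ) + I * t) = I * t := by simp
    have h7 : ((((-0 : ℝ)) : ℂ) + I * t) = I * t := by simp
    rw [h6, h7, hzero] at h5
    exact h5.symm
  -- derivative along the real direction, two ways
  set D : ℂ := (deriv R (I * t) + (R (I * t) + 1) * be t) * mt n t (I * t) with hD
  have hd1 : HasDerivAt (fun s : ℝ => iteratedDeriv n FF (((s : ℂ) + I * t) ^ 2)) 0 0 := by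
    have hdiff : HasDerivAt (iteratedDeriv n FF) (iteratedDeriv (n + 1) FF ((I * t) ^ 2))
        ((I * t) ^ 2) := by
      rw [iteratedDeriv_succ]
      have h5 : ContDiff ℂ (n + 1 : ℕ) FF := h3.1.contDiff
      have h6 : Differentiable ℂ (iteratedDeriv n FF) :=
        h5.differentiable_iteratedDeriv n (by exact_mod_cast Nat.lt_succ_self n)
      exact (h6 _).hasDerivAt
    rw [hzero'] at hdiff
    have h7 : HasDerivAt (fun z : ℂ => (z + I * t) ^ 2) (2 * (I * t)) ((0 : ℝ) : ℂ) := by
      have h8 := ((hasDerivAt_id ((0 : ℝ) : ℂ)).add_const (I * t : ℂ)).pow 2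
      refine h8.congr_deriv ?_
      simp
    have h9 : HasDerivAt (iteratedDeriv n FF) 0 ((fun z : ℂ => (z + I * t) ^ 2) ((0 : ℝ) : ℂ)) := by
      have : (fun z : ℂ => (z + I * t) ^ 2) ((0 : ℝ) : ℂ) = (I * t) ^ 2 := by simp
      rw [this]; exact hdiff
    have h10 := HasDerivAt.comp (h₂ := iteratedDeriv n FF) ((0 : ℝ) : ℂ) h9 h7
    have h11 := h10.comp_ofReal
    refine h11.congr_deriv ?_
    simp
  have hd2 : HasDerivAt (fun s : ℝ => A (s + I * t) +
      (starRingEnd ℂ) (A (((-s : ℝ) : ℂ) + I * t))) (D - (starRingEnd ℂ) D) 0 := by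
    have hAd' : HasDerivAt A D (((0 : ℝ) : ℂ) + I * t) := by
      have : ((0 : ℝ) : ℂ) + I * t = I * t := by simp
      rw [this]; exact hAd
    have h5 : HasDerivAt (fun s : ℝ => A (s + I * t)) D 0 := by
      have h6 : HasDerivAt (fun z : ℂ => z + I * t) 1 ((0 : ℝ) : ℂ) := by
        simpa using (hasDerivAt_id ((0 : ℝ) : ℂ)).add_const (I * t : ℂ)
      have h7 := HasDerivAt.comp (h₂ := A) ((0 : ℝ) : ℂ) hAd' h6
      have h8 := h7.comp_ofReal
      refine h8.congr_deriv ?_
      simp
    have h9 : HasDerivAt (fun s : ℝ => A (((-s : ℝ) : ℂ) + I * t)) (-D) 0 := by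
      have h10 : HasDerivAt (fun s : ℝ => -s) (-1) 0 := hasDerivAt_neg 0
      have h11 : HasDerivAt (fun s : ℝ => A (s + I * t)) D (-0 : ℝ) := by
        rw [neg_zero]; exact h5
      have h12 := HasDerivAt.scomp (0 : ℝ) h11 h10
      refine h12.congr_deriv ?_
      simp
    have h13 : HasDerivAt (fun s : ℝ => (starRingEnd ℂ) (A (((-s : ℝ) : ℂ) + I * t)))
        ((starRingEnd ℂ) (-D)) 0 := h9.star
    refine (h5.add h13).congr_deriv ?_
    rw [map_neg, sub_eq_add_neg]
  have hd3 : HasDerivAt (fun s : ℝ => iteratedDeriv n FF (((s : ℂ) + I * t) ^ 2))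
      (D - (starRingEnd ℂ) D) 0 := by
    refine hd2.congr_of_eventuallyEq ?_
    have h5 : Metric.ball (0 : ℝ) (1 / 2) ∈ 𝓝 (0 : ℝ) := Metric.ball_mem_nhds _ (by norm_num)
    filter_upwards [h5] with s hs
    rw [Metric.mem_ball, Real.dist_eq, sub_zero] at hs
    exact hfs s hs.le
  have hD0 : D - (starRingEnd ℂ) D = 0 := hd3.unique hd1
  have hDim : D.im = 0 := by
    have h5 := congrArg Complex.im hD0
    simp only [Complex.sub_im, Complex.conj_im, Complex.zero_im] at h5
    linarith
  -- `A (I t)` is purely imaginary and nonzero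
  have hAre : (A (I * t)).re = 0 := by
    have h5 := congrArg Complex.re h00
    simp only [Complex.add_re, Complex.conj_re, Complex.zero_re] at h5
    linarith
  have hR1 : 9 / 10 ≤ ‖R (I * t) + 1‖ := by
    have h5 := hRb _ hc0
    have h6 : ‖(1 : ℂ)‖ ≤ ‖R (I * t) + 1‖ + ‖R (I * t)‖ := by
      have : (1 : ℂ) = (R (I * t) + 1) - R (I * t) := by ring
      conv_lhs => rw [this]
      exact norm_sub_le _ _
    rw [norm_one] at h6
    linarith
  have hR1ne : R (I * t) + 1 ≠ 0 := by
    intro h0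
    rw [h0, norm_zero] at hR1
    norm_num at hR1
  have hAne : A (I * t) ≠ 0 := by
    rw [hAR]; exact mul_ne_zero hR1ne (hmtne _)
  set L : ℂ := be t + deriv R (I * t) / (R (I * t) + 1) with hL
  have hDL : D = L * A (I * t) := by
    rw [hD, hL, hAR]
    field_simp
    ring
  have hLre : 0 < L.re := by
    have h5 : ‖deriv R (I * t) / (R (I * t) + 1)‖ ≤ 1 / 2 := by
      rw [norm_div, div_le_iff₀ (by linarith)]
      linarith
    have h6 := (abs_le.1 ((Complex.abs_re_le_norm _).trans h5)).1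
    rw [hL, Complex.add_re]
    linarith
  rw [hDL, Complex.mul_im, hAre, mul_zero, add_zero] at hDim
  have hAim : (A (I * t)).im ≠ 0 := by
    intro h0
    exact hAne (Complex.ext hAre h0)
  exact (mul_ne_zero hLre.ne' hAim) hDim

end Pool.Agent.H24R2.JP
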