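import Pool.Agent.H24R2.JP.Spec2

set_option autoImplicit false

/-!
# Zeros of the derivatives of the Riemann xi function: final assembly
-/

namespace Pool.Agent.H24R2.JP

open Complex Filter Topology Polynomial

namespace XiFin

/-- All Taylor coefficients at `0` are positive. -/
def PosC (f : ℂ → ℂ) : Prop := ∀ j : ℕ, ∃ c : ℝ, 0 < c ∧ iteratedDeriv j f 0 = (c : ℂ)

theorem iter_add (f : ℂ → ℂ) (j m : ℕ) :
    iteratedDeriv j (iteratedDeriv m f) = iteratedDeriv (j + m) f := by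
  rw [iteratedDeriv_eq_iterate, iteratedDeriv_eq_iterate, iteratedDeriv_eq_iterate,
    Function.iterate_add_apply]

theorem diff_deriv {f : ℂ → ℂ} (hf : Differentiable ℂ f) : Differentiable ℂ (deriv f) := by
  have h : ContDiff ℂ (1 + 1) f := hf.contDiff
  have h2 := (contDiff_succ_iff_deriv.1 h).2.2
  exact h2.differentiable (by norm_num)

theorem diff_TT {f : ℂ → ℂ} (hf : Differentiable ℂ f) (a : ℝ) : Differentiable ℂ (TT a f) := by
  unfold TT
  exact (hf.const_mul _).add (differentiable_id.mul (diff_deriv hf))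

theorem deriv_TT {f : ℂ → ℂ} (hf : Differentiable ℂ f) (a : ℝ) :
    deriv (TT a f) = TT (a + 1) (deriv f) := by
  funext x
  have h1 : HasDerivAt f (deriv f x) x := (hf x).hasDerivAt
  have h2 : HasDerivAt (deriv f) (deriv (deriv f) x) x := (diff_deriv hf x).hasDerivAt
  have h3 : HasDerivAt (TT a f) ((a : ℂ) * deriv f x + (1 * deriv f x + x * deriv (deriv f) x)) x :=
    (h1.const_mul (a : ℂ)).add ((hasDerivAt_id x).mul h2)
  rw [h3.deriv]
  unfold TT
  push_cast
  ring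

theorem iter_TT {f : ℂ → ℂ} (hf : Differentiable ℂ f) (a : ℝ) (j : ℕ) :
    iteratedDeriv j (TT a f) = TT (a + j) (iteratedDeriv j f) := by
  induction j generalizing a f with
  | zero => simp
  | succ j ih =>
    rw [iteratedDeriv_succ', deriv_TT hf, ih (diff_deriv hf), iteratedDeriv_succ']
    congr 1
    push_cast
    ring

theorem posC_TT {f : ℂ → ℂ} (hf : Differentiable ℂ f) (hp : PosC f) (a : ℝ) (ha : 0 < a) :
    PosC (TT a f) := by
  intro j
  obtain ⟨c, hc, h⟩ := hp j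
  refine ⟨(a + j) * c, by positivity, ?_⟩
  rw [iter_TT hf]
  unfold TT
  rw [h]
  push_cast
  ring

theorem posC_TI (b : ℝ) (hb : 0 < b) (m : ℕ) {f : ℂ → ℂ} (hf : Differentiable ℂ f) (hp : PosC f) :
    PosC (TI b m f) := by
  induction m generalizing f with
  | zero => exact hp
  | succ m ih => exact ih (diff_TT hf _) (posC_TT hf hp _ (by positivity))

theorem pos_ne {f : ℂ → ℂ} (hf : Differentiable ℂ f) (hp : PosC f) (x : ℝ) (hx : 0 ≤ x) :
    f (x : ℂ) ≠ 0 := by
  choose c hc h using hp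
  have h1 := Complex.hasSum_taylorSeries_of_entire hf 0 (x : ℂ)
  have h2 := Complex.hasSum_re h1
  intro h0
  rw [h0] at h2
  have h3 : ∀ n : ℕ, (((n.factorial : ℂ)⁻¹ • ((x : ℂ) - 0) ^ n • iteratedDeriv n f 0)).re
      = (n.factorial : ℝ)⁻¹ * (x ^ n * c n) := by
    intro n
    rw [h n, sub_zero, smul_eq_mul, smul_eq_mul]
    have : ((n.factorial : ℂ)⁻¹ * ((x : ℂ) ^ n * (c n : ℂ)))
        = (((n.factorial : ℝ)⁻¹ * (x ^ n * c n) : ℝ) : ℂ) := by push_cast; ring
    rw [this, Complex.ofReal_re]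
  have h4 : HasSum (fun n : ℕ => (n.factorial : ℝ)⁻¹ * (x ^ n * c n)) 0 := by
    have h5 := h2
    simp only [Complex.zero_re] at h5
    refine h5.congr_fun ?_ |> fun q => q
    intro n
    exact (h3 n).symm
  have h6 : (Nat.factorial 0 : ℝ)⁻¹ * (x ^ 0 * c 0) ≤ 0 :=
    le_hasSum h4 0 (fun n _ => mul_nonneg (by positivity) (mul_nonneg (pow_nonneg hx n) (hc n).le))
  have := hc 0
  simp at h6
  linarith

theorem xi_eq (s : ℂ) : xi s = (1 / 8) * XX (s - 1 / 2) := by
  unfold xi XX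
  have h : (1 / 2 : ℂ) + (s - 1 / 2) = s := by ring
  rw [h]
  ring

theorem iter_xi (n : ℕ) (s : ℂ) : iteratedDeriv n xi s = (1 / 8) * iteratedDeriv n XX (s - 1 / 2) := by
  have h : xi = fun s => (1 / 8) * XX (s - 1 / 2) := funext xi_eq
  rw [h, iteratedDeriv_const_mul_field, iteratedDeriv_comp_sub_const]

theorem FF_iter_diff (h7 : SB1) (k : ℕ) : Differentiable ℂ (iteratedDeriv k FF) := by
  have h : ContDiff ℂ (k + 1 : ℕ) FF := h7.1.contDiff
  exact h.differentiable_iteratedDeriv k (by exact_mod_cast Nat.lt_succ_self k)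

theorem posC_FF (h7 : SB1) (h8 : SGam) (k : ℕ) : PosC (iteratedDeriv k FF) := by
  intro j
  refine ⟨gam (j + k), h8.1 _, ?_⟩
  rw [iter_add, h7.2.2.2]

/-- The numerical facts for large `m`. -/
theorem asym : ∃ M : ℕ, ∀ m : ℕ, M ≤ m → 2 * (m : ℝ) + 4 ≤ Real.exp (m / 12) ∧
    Real.exp ((2 * m + 1) / 25) ^ 2 + 1 / 4 ≤ (Real.exp (m / 12) - 2 * m) ^ 2 / 2 := by
  have h1 : ∀ᶠ m : ℕ in atTop, 4 * (m : ℝ) + 4 ≤ Real.exp (m / 12) := by
    have ht : Tendsto (fun m : ℕ => (m : ℝ) / 12) atTop atTop :=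
      tendsto_natCast_atTop_atTop.atTop_div_const (by norm_num)
    have h := (Real.tendsto_exp_div_pow_atTop 1).comp ht
    have h2 := h.eventually_ge_atTop 100
    filter_upwards [h2, eventually_ge_atTop 1] with m hm hm1
    have hm1' : (1 : ℝ) ≤ m := by exact_mod_cast hm1
    simp only [Function.comp, pow_one] at hm
    rw [le_div_iff₀ (by positivity)] at hm
    linarith
  have h2 : ∀ᶠ m : ℕ in atTop, (2 : ℝ) ≤ m / 12 ∧ (100 : ℝ) ≤ m := by
    have ht : Tendsto (fun m : ℕ => (m : ℝ)) atTop atTop := tendsto_natCast_atTop_atTop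
    filter_upwards [ht.eventually_ge_atTop 100] with m hm
    exact ⟨by linarith, hm⟩
  have h3 : ∀ᶠ m : ℕ in atTop, (16 : ℝ) * Real.exp (2 / 25) ≤ Real.exp (m / 150) := by
    have ht : Tendsto (fun m : ℕ => (m : ℝ) / 150) atTop atTop :=
      tendsto_natCast_atTop_atTop.atTop_div_const (by norm_num)
    exact (Real.tendsto_exp_atTop.comp ht).eventually_ge_atTop _
  obtain ⟨M, hM⟩ := eventually_atTop.1 (h1.and (h2.and h3))
  refine ⟨M, fun m hm => ?_⟩
  obtain ⟨a1, ⟨a2, a3⟩, a4⟩ := hM m hm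
  have hm0 : (0 : ℝ) ≤ m := Nat.cast_nonneg m
  refine ⟨by linarith, ?_⟩
  set E := Real.exp ((m : ℝ) / 12) with hE
  have hEpos : 0 < E := Real.exp_pos _
  have e1 : E / 2 ≤ E - 2 * m := by linarith
  have e2 : (E / 2) ^ 2 ≤ (E - 2 * m) ^ 2 := by
    apply pow_le_pow_left₀ (by positivity) e1
  have e3 : Real.exp ((2 * (m : ℝ) + 1) / 25) ^ 2 * Real.exp (m / 150) = E ^ 2 * Real.exp (2 / 25) := by
    rw [hE, ← Real.exp_nat_mul, ← Real.exp_nat_mul, ← Real.exp_add, ← Real.exp_add]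
    congr 1
    push_cast
    ring
  have e4 : 16 * Real.exp ((2 * (m : ℝ) + 1) / 25) ^ 2 ≤ E ^ 2 := by
    have hp : 0 < Real.exp (2 / 25) := Real.exp_pos _
    have : Real.exp ((2 * (m : ℝ) + 1) / 25) ^ 2 * (16 * Real.exp (2 / 25)) ≤ E ^ 2 * Real.exp (2 / 25) := by
      rw [← e3]
      exact mul_le_mul_of_nonneg_left a4 (by positivity)
    nlinarith
  have e5 : (4 : ℝ) ≤ E := by linarith
  nlinarith

/-- The common part of the two parities. -/
theorem core (h1 : SSimple) (h3 : SOpChain) (h4 : SIterGood) (h5 : SGood) (h6 : SPar) (h7 : SB1)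
    (h8 : SGam) : ∃ M : ℕ, ∀ (m k : ℕ) (b : ℝ) (z : ℂ), M ≤ m → m ≤ k → 0 < b →
      |z.im| ≤ Real.exp ((2 * m + 1) / 25) → TI b m (iteratedDeriv k FF) (z ^ 2) = 0 →
      z.re = 0 ∧ z ≠ 0 ∧ deriv (TI b m (iteratedDeriv k FF)) (z ^ 2) ≠ 0 := by
  obtain ⟨N1, hN1⟩ := h1
  obtain ⟨M0, hM0⟩ := asym
  refine ⟨max N1 M0, fun m k b z hm hk hb hz h0 => ?_⟩
  obtain ⟨r1, r2⟩ := hM0 m (le_trans (le_max_right _ _) hm)
  have hmk : (m : ℝ) ≤ k := by exact_mod_cast hk
  have hgood : Good (iteratedDeriv k FF) := h4 FF k h5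
  obtain ⟨g1, g2⟩ := h3 (iteratedDeriv k FF) b (Real.exp (m / 12)) m hgood hb r1 (by
    intro w hw hw0
    have hw' : ‖w‖ ≤ Real.exp (k / 6) := by
      refine le_trans hw ?_
      rw [← Real.exp_nat_mul]
      apply Real.exp_le_exp.2
      push_cast
      linarith
    obtain ⟨w1, -, w3⟩ := hN1 k (le_trans (le_trans (le_max_left _ _) hm) hk) w hw' hw0
    refine ⟨w1, ?_⟩
    rw [iteratedDeriv_succ] at w3
    exact w3)
  have hpar : z ^ 2 ∈ Par := h6 _ g1 0 (z ^ 2) (by rw [iteratedDeriv_zero]; exact h0)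
  have hre : (z ^ 2).re = z.re ^ 2 - z.im ^ 2 := by rw [pow_two, Complex.mul_re]; ring
  have him : (z ^ 2).im = 2 * z.re * z.im := by rw [pow_two, Complex.mul_im]; ring
  have hp1 : (z ^ 2).re + (z ^ 2).im ^ 2 ≤ 1 / 4 := hpar
  rw [hre, him] at hp1
  have hs : z.re ^ 2 ≤ 1 / 4 := by
    have h : (z.re ^ 2 - 1 / 4) * (4 * z.im ^ 2 + 1) ≤ 0 := by nlinarith
    by_contra hc
    push Not at hc
    have : 0 < (z.re ^ 2 - 1 / 4) * (4 * z.im ^ 2 + 1) := by
      apply mul_pos (by linarith) (by positivity)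
    linarith
  have hnorm : ‖z ^ 2‖ ≤ (Real.exp (m / 12) - 2 * m) ^ 2 / 2 := by
    rw [norm_pow]
    have e : ‖z‖ ^ 2 = z.re ^ 2 + z.im ^ 2 := by
      rw [← Complex.normSq_eq_norm_sq, Complex.normSq_apply]; ring
    have e2 : z.im ^ 2 ≤ Real.exp ((2 * m + 1) / 25) ^ 2 := by
      rw [← sq_abs z.im]
      exact pow_le_pow_left₀ (abs_nonneg _) hz 2
    rw [e]
    linarith
  obtain ⟨k1, k2⟩ := g2 (z ^ 2) hnorm h0
  have hneg : (z ^ 2).re < 0 := by
    by_contra hc
    push Not at hc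
    have hx : z ^ 2 = (((z ^ 2).re : ℝ) : ℂ) := by
      apply Complex.ext
      · simp
      · simpa using k1
    have := pos_ne g1.1 (posC_TI b hb m (FF_iter_diff h7 k) (posC_FF h7 h8 k)) (z ^ 2).re hc
    rw [← hx] at this
    exact this h0
  rw [hre] at hneg
  rw [him] at k1
  have hz0 : z ≠ 0 := by
    rintro rfl
    simp at hneg
  refine ⟨?_, hz0, k2⟩
  have hk3 : z.re * z.im = 0 := by linarith
  rcases mul_eq_zero.1 hk3 with h | h
  · exact h
  · rw [h] at hneg
    nlinarith [sq_nonneg z.re]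

end XiFin

open XiFin in
theorem xiF (h1 : SSimple) (h2 : SXder) (h3 : SOpChain) (h4 : SIterGood) (h5 : SGood) (h6 : SPar)
    (h7 : SB1) (h8 : SGam) : SXi := by
  obtain ⟨M, hM⟩ := core h1 h3 h4 h5 h6 h7 h8
  refine ⟨2 * M + 1, fun n hn s hs him => ?_⟩
  rw [iter_xi] at hs
  have hs' : iteratedDeriv n XX (s - 1 / 2) = 0 := by
    rcases mul_eq_zero.1 hs with h | h
    · norm_num at h
    · exact h
  rw [iter_xi]
  set z : ℂ := s - 1 / 2 with hz
  have hzim : z.im = s.im := by simp [hz]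
  have hzre : z.re = s.re - 1 / 2 := by
    rw [hz, Complex.sub_re]
    norm_num
  rw [← hzim] at him
  suffices h : z.re = 0 ∧ iteratedDeriv (n + 1) XX z ≠ 0 by
    refine ⟨by linarith [h.1, hzre], ?_⟩
    exact mul_ne_zero (by norm_num) h.2
  have hgood : ∀ k b m, 0 < b → Differentiable ℂ (TI b m (iteratedDeriv k FF)) ∧
      PosC (TI b m (iteratedDeriv k FF)) := by
    intro k b m hb
    refine ⟨?_, posC_TI b hb m (FF_iter_diff h7 k) (posC_FF h7 h8 k)⟩
    have hd := FF_iter_diff h7 k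
    clear him
    generalize iteratedDeriv k FF = f at hd
    induction m generalizing f with
    | zero => exact hd
    | succ m ih => exact ih _ (diff_TT hd _)
  rcases Nat.even_or_odd' n with ⟨m, hm | hm⟩
  · -- even
    subst hm
    have hmM : M ≤ m := by omega
    rw [(h2 m z).1] at hs'
    have h0 : TI (1 / 2) m (iteratedDeriv m FF) (z ^ 2) = 0 := by
      rcases mul_eq_zero.1 hs' with h | h
      · exact absurd h (pow_ne_zero _ (by norm_num))
      · exact h
    obtain ⟨c1, c2, c3⟩ := hM m m (1 / 2) z hmM le_rfl (by norm_num) (le_trans him (by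
      apply Real.exp_le_exp.2
      push_cast
      linarith)) h0
    refine ⟨c1, ?_⟩
    have hfun : iteratedDeriv (2 * m) XX =
        fun z : ℂ => 4 ^ m * TI (1 / 2) m (iteratedDeriv m FF) (z ^ 2) := by
      funext z
      exact (h2 m z).1
    rw [iteratedDeriv_succ, hfun]
    have hd : HasDerivAt (TI (1 / 2) m (iteratedDeriv m FF))
        (deriv (TI (1 / 2) m (iteratedDeriv m FF)) (z ^ 2)) (z ^ 2) :=
      ((hgood m (1 / 2) m (by norm_num)).1 _).hasDerivAt
    have hd2 : HasDerivAt (fun z : ℂ => z ^ 2) (2 * z) z := by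
      simpa using hasDerivAt_pow 2 z
    have hd3 : HasDerivAt (fun z : ℂ => 4 ^ m * TI (1 / 2) m (iteratedDeriv m FF) (z ^ 2))
        (4 ^ m * (deriv (TI (1 / 2) m (iteratedDeriv m FF)) (z ^ 2) * (2 * z))) z :=
      (HasDerivAt.comp z hd hd2).const_mul _
    rw [hd3.deriv]
    exact mul_ne_zero (pow_ne_zero _ (by norm_num)) (mul_ne_zero c3 (mul_ne_zero two_ne_zero c2))
  · -- odd
    subst hm
    have hmM : M ≤ m := by omega
    rw [(h2 m z).2] at hs'
    have hfun : iteratedDeriv (2 * m + 1) XX =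
        fun z : ℂ => 2 * 4 ^ m * z * TI (3 / 2) m (iteratedDeriv (m + 1) FF) (z ^ 2) := by
      funext z
      exact (h2 m z).2
    have hd : ∀ z : ℂ, HasDerivAt (TI (3 / 2) m (iteratedDeriv (m + 1) FF))
        (deriv (TI (3 / 2) m (iteratedDeriv (m + 1) FF)) (z ^ 2)) (z ^ 2) := fun z =>
      ((hgood (m + 1) (3 / 2) m (by norm_num)).1 _).hasDerivAt
    have hd2 : HasDerivAt (fun z : ℂ => z ^ 2) (2 * z) z := by
      simpa using hasDerivAt_pow 2 z
    have hd3 : HasDerivAt (fun z : ℂ => 2 * 4 ^ m * z * TI (3 / 2) m (iteratedDeriv (m + 1) FF) (z ^ 2))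
        (2 * 4 ^ m * TI (3 / 2) m (iteratedDeriv (m + 1) FF) (z ^ 2) +
          2 * 4 ^ m * z * (deriv (TI (3 / 2) m (iteratedDeriv (m + 1) FF)) (z ^ 2) * (2 * z))) z := by
      have e := (((hasDerivAt_id z).const_mul (2 * 4 ^ m : ℂ)).mul (HasDerivAt.comp z (hd z) hd2))
      simp only [id, mul_one] at e
      exact e
    rw [iteratedDeriv_succ, hfun, hd3.deriv]
    have h24 : (2 * 4 ^ m : ℂ) ≠ 0 := mul_ne_zero two_ne_zero (pow_ne_zero _ (by norm_num))
    by_cases hz0 : z = 0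
    · refine ⟨by rw [hz0]; rfl, ?_⟩
      rw [hz0]
      have hne := pos_ne (hgood (m + 1) (3 / 2) m (by norm_num)).1
        (hgood (m + 1) (3 / 2) m (by norm_num)).2 0 le_rfl
      simp only [mul_zero, add_zero]
      refine mul_ne_zero h24 ?_
      have : ((0 : ℂ) ^ 2) = ((0 : ℝ) : ℂ) := by norm_num
      rw [this]
      exact hne
    · have h0 : TI (3 / 2) m (iteratedDeriv (m + 1) FF) (z ^ 2) = 0 := by
        rcases mul_eq_zero.1 hs' with h | h
        · exact absurd h (mul_ne_zero h24 hz0)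
        · exact h
      obtain ⟨c1, c2, c3⟩ := hM m (m + 1) (3 / 2) z hmM (Nat.le_succ m) (by norm_num) (le_trans him (by
        apply Real.exp_le_exp.2
        push_cast
        linarith)) h0
      refine ⟨c1, ?_⟩
      rw [h0, mul_zero, zero_add]
      exact mul_ne_zero (mul_ne_zero h24 hz0)
        (mul_ne_zero c3 (mul_ne_zero two_ne_zero hz0))

end Pool.Agent.H24R2.JP
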