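import Pool.Agent.H24R2.JP.All
import Pool.Agent.H24R2.JP.DerLag
import Pool.Agent.H24R2.JP.ExZero
import Pool.Agent.H24R2.JP.OpLag
import Pool.Agent.H24R2.JP.ItGood
import Pool.Agent.H24R2.JP.OpCirc
import Pool.Agent.H24R2.JP.XiFinal
import Pool.Agent.H24R2.JP.XDer
import Pool.Agent.H24R2.JP.SimpleWin
import Pool.Agent.H24R2.JP.OpGood
import Pool.Agent.H24R2.JP.OpChain
import Pool.Agent.H24R2.JP.Simple

set_option autoImplicit false

namespace Pool.Agent.H24R2.JP

theorem simpleT : SSimple :=
  simple chainT lowT (simpleWin mainT arcS b1 stir) (derLag der) (exZero had growT b1 gamT)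
    (itGood der gl) goodT gamT b1

theorem opChainT : SOpChain := opChain parT (opGood der) (opCirc der) (opLag der)

theorem xiT : SXi := xiF simpleT (xder b1) opChainT (itGood der gl) goodT parT b1 gamT

end Pool.Agent.H24R2.JP
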