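import Pool.Agent.H24R2.JP.Spec

set_option autoImplicit false

/-!
# Zeros of the derivatives of the Riemann xi function: specifications

Every task is one `Prop` below (`S...`).
-/

namespace Pool.Agent.H24R2.JP

open Complex Filter Topology Polynomial

/-- `a f + x f'`. -/
noncomputable def TT (a : ℝ) (f : ℂ → ℂ) (x : ℂ) : ℂ := (a : ℂ) * f x + x * deriv f x

/-- `T_b T_{b+1} ... T_{b+m-1} f`. -/
noncomputable def TI (b : ℝ) : ℕ → (ℂ → ℂ) → (ℂ → ℂ)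
  | 0, f => f
  | m + 1, f => TI b m (TT (b + m) f)

/-- The operators keep the class `Good`. -/
def SOpGood : Prop := ∀ (f : ℂ → ℂ) (a : ℝ), Good f → 0 < a → Good (TT a f)

/-- Jensen circles for `a f + x f'`. -/
def SOpCircle : Prop := ∀ (f : ℂ → ℂ) (a : ℝ), Good f → 0 < a → ∀ w : ℂ, w.im ≠ 0 → TT a f w = 0 →
  ∃ z : ℂ, z.im ≠ 0 ∧ f z = 0 ∧ ‖w - (z.re : ℂ)‖ ≤ |z.im|

/-- A multiple zero of `a f + x f'` is a zero of `f`. -/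
def SOpLag : Prop := ∀ (f : ℂ → ℂ) (a R x0 : ℝ), Good f → 0 < a → 10 ≤ R →
  (∀ w : ℂ, ‖w‖ ≤ R → f w = 0 → w.im = 0) → x0 ≠ 0 → |x0| ≤ R / 2 →
  TT a f (x0 : ℂ) = 0 → deriv (TT a f) (x0 : ℂ) = 0 → f (x0 : ℂ) = 0

/-- Derivatives keep the class `Good`. -/
def SIterGood : Prop := ∀ (f : ℂ → ℂ) (n : ℕ), Good f → Good (iteratedDeriv n f)

/-- A multiple zero of `f'` is a zero of `f`. -/
def SDerLag : Prop := ∀ (f : ℂ → ℂ) (R x0 : ℝ), Good f → (∃ w, f w = 0) → 10 ≤ R →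
  (∀ w : ℂ, ‖w‖ ≤ R → f w = 0 → w.im = 0) → |x0| ≤ R / 2 →
  deriv f (x0 : ℂ) = 0 → deriv (deriv f) (x0 : ℂ) = 0 → f (x0 : ℂ) = 0

def SExZero : Prop := ∀ n : ℕ, ∃ w : ℂ, iteratedDeriv n FF w = 0

/-- In the window the zeros on the line are simple. -/
def SSimpleWin : Prop := ∃ T0 : ℝ, 1 ≤ T0 ∧ ∀ (t : ℝ) (n : ℕ), T0 ≤ t → 39 / 2 * Om t ≤ n →
  (n : ℝ) ≤ 41 / 2 * Om t → iteratedDeriv n FF ((I * t) ^ 2) = 0 →
  iteratedDeriv (n + 1) FF ((I * t) ^ 2) ≠ 0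

/-- The zeros of `FF^(n)` in `|x| ≤ exp (n/6)` are real, negative and simple. -/
def SSimple : Prop := ∃ N1 : ℕ, ∀ n : ℕ, N1 ≤ n → ∀ w : ℂ, ‖w‖ ≤ Real.exp (n / 6) →
  iteratedDeriv n FF w = 0 → w.im = 0 ∧ w.re < 0 ∧ iteratedDeriv (n + 1) FF w ≠ 0

/-- Derivatives of `XX` in terms of derivatives of `FF`. -/
def SXder : Prop := ∀ (m : ℕ) (z : ℂ),
  iteratedDeriv (2 * m) XX z = 4 ^ m * TI (1 / 2) m (iteratedDeriv m FF) (z ^ 2) ∧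
  iteratedDeriv (2 * m + 1) XX z = 2 * 4 ^ m * z * TI (3 / 2) m (iteratedDeriv (m + 1) FF) (z ^ 2)

/-- The chain for the operators. -/
def SOpChain : Prop := ∀ (f : ℂ → ℂ) (b r : ℝ) (m : ℕ), Good f → 0 < b → 2 * (m : ℝ) + 4 ≤ r →
  (∀ w : ℂ, ‖w‖ ≤ r ^ 2 → f w = 0 → w.im = 0 ∧ deriv f w ≠ 0) →
  Good (TI b m f) ∧ ∀ w : ℂ, ‖w‖ ≤ (r - 2 * m) ^ 2 / 2 → TI b m f w = 0 →
    w.im = 0 ∧ deriv (TI b m f) w ≠ 0

/-- The Riemann xi function `s (s - 1) π^(-s/2) Γ(s/2) ζ(s) / 2`, as an entire function. -/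
noncomputable def xi (s : ℂ) : ℂ := s * (s - 1) / 2 * completedRiemannZeta₀ s + 1 / 2

/-- Final statement. -/
def SXi : Prop := ∃ N0 : ℕ, ∀ n : ℕ, N0 ≤ n → ∀ s : ℂ, iteratedDeriv n xi s = 0 →
  |s.im| ≤ Real.exp (n / 25) → s.re = 1 / 2 ∧ iteratedDeriv (n + 1) xi s ≠ 0

end Pool.Agent.H24R2.JP
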