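import Pool.Agent.H24R2.JP.Spec

set_option autoImplicit false

namespace Pool.Agent.H24R2.JP.UD

open Complex Filter Topology

lemma fact_le (n : ℕ) (hn : 1 ≤ n) :
    (n.factorial : ℝ) ≤ n * (n : ℝ) ^ n * Real.exp (1 - n) := by
  induction n, hn using Nat.le_induction with
  | base => simp
  | succ n hn ih =>
    have hn0 : (0 : ℝ) < n := by exact_mod_cast hn
    have h1 : Real.exp 1 * (n : ℝ) ^ (n + 1) ≤ ((n : ℝ) + 1) ^ (n + 1) := by
      have h2 : 1 / ((n : ℝ) + 1) ≤ Real.log (((n : ℝ) + 1) / n) := by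
        have := Real.one_sub_inv_le_log_of_pos (x := ((n : ℝ) + 1) / n) (by positivity)
        have h3 : 1 - (((n : ℝ) + 1) / n)⁻¹ = 1 / ((n : ℝ) + 1) := by
          field_simp
          ring
        linarith
      have h3 : Real.exp 1 ≤ (((n : ℝ) + 1) / n) ^ (n + 1) := by
        rw [← Real.exp_log (show (0 : ℝ) < ((n : ℝ) + 1) / n by positivity), ← Real.exp_nat_mul]
        apply Real.exp_le_exp.2
        have h4 := mul_le_mul_of_nonneg_left h2 (show (0 : ℝ) ≤ (n : ℝ) + 1 by positivity)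
        rw [mul_one_div_cancel (by positivity)] at h4
        push_cast
        exact h4
      rw [div_pow, le_div_iff₀ (by positivity)] at h3
      exact h3
    have h5 : Real.exp (1 - (n : ℝ)) = Real.exp 1 * Real.exp (1 - ((n : ℝ) + 1)) := by
      rw [← Real.exp_add]
      congr 1
      ring
    rw [Nat.factorial_succ]
    push_cast
    calc ((n : ℝ) + 1) * (n.factorial : ℝ) ≤ ((n : ℝ) + 1) * (n * (n : ℝ) ^ n * Real.exp (1 - n)) :=
          mul_le_mul_of_nonneg_left ih (by positivity)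
      _ = ((n : ℝ) + 1) * (Real.exp 1 * (n : ℝ) ^ (n + 1)) * Real.exp (1 - ((n : ℝ) + 1)) := by
          rw [h5]; ring
      _ ≤ ((n : ℝ) + 1) * (((n : ℝ) + 1) ^ (n + 1)) * Real.exp (1 - ((n : ℝ) + 1)) := by
          gcongr

lemma Om_tendsto : Tendsto Om atTop atTop := by
  unfold Om
  exact Real.tendsto_log_atTop.atTop_div_const (by norm_num)

lemma exp_Om (t : ℝ) (ht : 0 < t) : Real.exp (2 * Om t) = t := by
  unfold Om
  rw [mul_div_cancel₀ _ (by norm_num), Real.exp_log ht]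

/-- The key asymptotic estimate. -/
lemma key (K C ε : ℝ) (_hK : 0 ≤ K) (hC : 0 ≤ C) (hε : 0 < ε) :
    ∀ᶠ t : ℝ in atTop, ∀ n : ℕ, 39 / 2 * Om t ≤ n → (n : ℝ) ≤ 41 / 2 * Om t →
      C * Real.exp (151 / 10 * Om t) * (n.factorial : ℝ) ≤ ε * (19 * (Om t - K)) ^ n := by
  have hlim : Tendsto (fun t : ℝ => C * 30 * Real.exp (-(1 / 2) * Om t)) atTop (𝓝 (C * 30 * 0)) := by
    apply Tendsto.const_mul
    apply Real.tendsto_exp_atBot.comp
    apply Tendsto.const_mul_atTop_of_neg (by norm_num) Om_tendsto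
  rw [mul_zero] at hlim
  filter_upwards [Om_tendsto.eventually_ge_atTop 1, Om_tendsto.eventually_ge_atTop (101 * K),
    hlim.eventually (gt_mem_nhds hε)] with t h1 h2 h3 n hn1 hn2
  have hn0 : (0 : ℝ) < n := by linarith
  have hnn : 1 ≤ n := by exact_mod_cast hn0
  have hA : (n : ℝ) ≤ Real.exp (1 / 10) * (19 * (Om t - K)) := by
    have he : (11 / 10 : ℝ) ≤ Real.exp (1 / 10) := by
      have := Real.add_one_le_exp (1 / 10 : ℝ)
      linarith
    have hp : 0 ≤ 19 * (Om t - K) := by linarith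
    calc (n : ℝ) ≤ 11 / 10 * (19 * (Om t - K)) := by linarith
      _ ≤ _ := mul_le_mul_of_nonneg_right he hp
  have hp : 0 < 19 * (Om t - K) := by linarith
  have hA' : (n : ℝ) ^ n ≤ Real.exp (1 / 10 * n) * (19 * (Om t - K)) ^ n := by
    calc (n : ℝ) ^ n ≤ (Real.exp (1 / 10) * (19 * (Om t - K))) ^ n := by gcongr
      _ = _ := by
        rw [mul_pow, ← Real.exp_nat_mul]
        congr 2
        ring
  have hx : (n : ℝ) * Real.exp (-(1 / 10) * n) ≤ 10 := by
    have := Real.add_one_le_exp (1 / 10 * (n : ℝ))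
    have h4 : Real.exp (-(1 / 10) * n) = (Real.exp (1 / 10 * n))⁻¹ := by
      rw [← Real.exp_neg]
      congr 1
      ring
    rw [h4, ← div_eq_mul_inv, div_le_iff₀ (Real.exp_pos _)]
    linarith
  have he3 : Real.exp 1 ≤ 3 := by
    have := Real.exp_one_lt_d9
    linarith
  have hfac := fact_le n hnn
  calc C * Real.exp (151 / 10 * Om t) * (n.factorial : ℝ)
      ≤ C * Real.exp (151 / 10 * Om t) * (n * (n : ℝ) ^ n * Real.exp (1 - n)) := by
        gcongr
    _ ≤ C * Real.exp (151 / 10 * Om t) *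
        (n * (Real.exp (1 / 10 * n) * (19 * (Om t - K)) ^ n) * Real.exp (1 - n)) := by
        gcongr
    _ = C * Real.exp 1 * ((n : ℝ) * Real.exp (-(1 / 10) * n)) *
        Real.exp (151 / 10 * Om t - 4 / 5 * n) * (19 * (Om t - K)) ^ n := by
        have e1 : Real.exp (151 / 10 * Om t) * (Real.exp (1 / 10 * n) * Real.exp (1 - n)) =
            Real.exp 1 * Real.exp (-(1 / 10) * n) * Real.exp (151 / 10 * Om t - 4 / 5 * n) := by
          simp only [← Real.exp_add]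
          congr 1
          ring
        linear_combination (C * n * (19 * (Om t - K)) ^ n) * e1
    _ ≤ C * 3 * 10 * Real.exp (-(1 / 2) * Om t) * (19 * (Om t - K)) ^ n := by
        have e2 : 151 / 10 * Om t - 4 / 5 * n ≤ -(1 / 2) * Om t := by linarith
        gcongr
    _ ≤ ε * (19 * (Om t - K)) ^ n := by
        have : C * 3 * 10 * Real.exp (-(1 / 2) * Om t) = C * 30 * Real.exp (-(1 / 2) * Om t) := by ring
        rw [this]
        gcongr

/-- lower bound for the main term -/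
lemma mt_lower (t K : ℝ) (n : ℕ) (z : ℂ) (ht : 0 < t) (hKO : K ≤ Om t)
    (hbe : ‖be t - (Om t : ℂ)‖ ≤ K) (hz : ‖z - I * t‖ ≤ 3 / 4) :
    ‖HH (I * t)‖ * (Real.exp (-(3 / 4) * (Om t + K)) * ((Om t - K) / (2 * t)) ^ n) ≤ ‖mt n t z‖ := by
  have hO : 0 ≤ Om t := by
    have : 0 ≤ K := (norm_nonneg _).trans hbe
    linarith
  have hnO : ‖(Om t : ℂ)‖ = Om t := by
    rw [Complex.norm_real, Real.norm_eq_abs, abs_of_nonneg hO]
  have h1 : Om t - K ≤ ‖be t‖ := by
    have := norm_sub_norm_le (Om t : ℂ) (be t)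
    rw [norm_sub_rev, hnO] at this
    linarith
  have h2 : ‖be t‖ ≤ Om t + K := by
    have := norm_sub_norm_le (be t) (Om t : ℂ)
    rw [hnO] at this
    linarith
  unfold mt
  rw [norm_mul, norm_mul, mul_assoc]
  apply mul_le_mul_of_nonneg_left _ (norm_nonneg _)
  have hOK : 0 ≤ Om t + K := (norm_nonneg _).trans h2
  have h3 : -(3 / 4) * (Om t + K) ≤ (be t * (z - I * t)).re := by
    have h4 : ‖be t * (z - I * t)‖ ≤ (Om t + K) * (3 / 4) := by
      rw [norm_mul]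
      gcongr
    have h5 := Complex.abs_re_le_norm (be t * (z - I * t))
    have h6 := neg_le_of_abs_le h5
    linarith
  have h7 : ‖cexp (be t * (z - I * t))‖ = Real.exp (be t * (z - I * t)).re := Complex.norm_exp _
  have h8 : ‖(be t / (2 * (I * t))) ^ n‖ = (‖be t‖ / (2 * t)) ^ n := by
    rw [norm_pow, norm_div, norm_mul, norm_mul]
    simp [abs_of_pos ht]
  rw [h7, h8]
  have h9 : 0 ≤ Om t - K := by linarith
  gcongr

/-- the final comparison -/
lemma final (h1 : SStir) (C ε : ℝ) (hC : 0 ≤ C) (hε : 0 < ε) :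
    ∀ᶠ t : ℝ in atTop, ∀ (n : ℕ) (z : ℂ), Win t n z →
      ∀ B : ℝ, B ≤ C * Real.exp (143 / 10 * Om t) * ‖HH (I * t)‖ →
        (n.factorial : ℝ) / (38 * t) ^ n * B ≤ ε * ‖mt n t z‖ := by
  obtain ⟨-, K, T0, hK, hT0, hst⟩ := h1
  have hK0 : 0 ≤ K := by linarith
  filter_upwards [key K (C * Real.exp (3 / 4 * K)) ε hK0 (by positivity) hε, eventually_ge_atTop T0,
    Om_tendsto.eventually_ge_atTop K] with t hkey hT hOm n z hw B hB
  obtain ⟨hn1, hn2, hz⟩ := hw
  have ht : 0 < t := by linarith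
  obtain ⟨-, hbe, -⟩ := hst t hT
  have hlow := mt_lower t K n z ht hOm hbe hz
  have hk := hkey n hn1 hn2
  refine le_trans ?_ (mul_le_mul_of_nonneg_left hlow hε.le)
  have hO : 0 ≤ Om t := by linarith
  calc (n.factorial : ℝ) / (38 * t) ^ n * B
      ≤ (n.factorial : ℝ) / (38 * t) ^ n * (C * Real.exp (143 / 10 * Om t) * ‖HH (I * t)‖) := by
        gcongr
    _ = ‖HH (I * t)‖ * Real.exp (-(3 / 4) * (Om t + K)) / (38 * t) ^ n *
        (C * Real.exp (3 / 4 * K) * Real.exp (1505 / 100 * Om t) * (n.factorial : ℝ)) := by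
        have e1 : Real.exp (143 / 10 * Om t) = Real.exp (-(3 / 4) * (Om t + K)) *
            (Real.exp (3 / 4 * K) * Real.exp (1505 / 100 * Om t)) := by
          simp only [← Real.exp_add]
          congr 1
          ring
        rw [e1]
        ring
    _ ≤ ‖HH (I * t)‖ * Real.exp (-(3 / 4) * (Om t + K)) / (38 * t) ^ n *
        (C * Real.exp (3 / 4 * K) * Real.exp (151 / 10 * Om t) * (n.factorial : ℝ)) := by
        have e3 : Real.exp (1505 / 100 * Om t) ≤ Real.exp (151 / 10 * Om t) :=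
          Real.exp_le_exp.2 (by linarith)
        gcongr
    _ ≤ ‖HH (I * t)‖ * Real.exp (-(3 / 4) * (Om t + K)) / (38 * t) ^ n *
        (ε * (19 * (Om t - K)) ^ n) := by
        gcongr
    _ = ε * (‖HH (I * t)‖ * (Real.exp (-(3 / 4) * (Om t + K)) * ((Om t - K) / (2 * t)) ^ n)) := by
        have e2 : (19 * (Om t - K)) ^ n / (38 * t) ^ n = ((Om t - K) / (2 * t)) ^ n := by
          rw [← div_pow]
          congr 1
          field_simp
          ring
        rw [← e2]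
        ring

/-- geometry of the circle -/
lemma geom (t : ℝ) (ht : 10000 ≤ t) (θ : ℝ) :
    sq (((-t ^ 2 : ℝ) : ℂ) + ((40 * t : ℝ) : ℂ) * cexp (I * θ)) ^ 2 =
        ((-t ^ 2 : ℝ) : ℂ) + ((40 * t : ℝ) : ℂ) * cexp (I * θ) ∧
      ‖sq (((-t ^ 2 : ℝ) : ℂ) + ((40 * t : ℝ) : ℂ) * cexp (I * θ)) - I * t‖ ≤ 201 / 10 ∧
      t - 21 ≤ (sq (((-t ^ 2 : ℝ) : ℂ) + ((40 * t : ℝ) : ℂ) * cexp (I * θ))).im ∧
      (0 ≤ Real.sin θ → 0 ≤ (sq (((-t ^ 2 : ℝ) : ℂ) + ((40 * t : ℝ) : ℂ) * cexp (I * θ))).re) ∧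
      (Real.sin θ ≤ 0 → (sq (((-t ^ 2 : ℝ) : ℂ) + ((40 * t : ℝ) : ℂ) * cexp (I * θ))).re ≤ 0) ∧
      -(((-t ^ 2 : ℝ) : ℂ) + ((40 * t : ℝ) : ℂ) * cexp (I * θ)) ∈ slitPlane := by
  set ξ : ℂ := ((-t ^ 2 : ℝ) : ℂ) + ((40 * t : ℝ) : ℂ) * cexp (I * θ) with hξ
  have hexp : cexp (I * θ) = (Real.cos θ : ℂ) + (Real.sin θ : ℂ) * I := by
    rw [mul_comm, Complex.exp_mul_I]
    simp
  have hre : ξ.re = -t ^ 2 + 40 * t * Real.cos θ := by
    rw [hξ, hexp]
    simp [-ofReal_cos, -ofReal_sin, -ofReal_pow]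
  have him : ξ.im = 40 * t * Real.sin θ := by
    rw [hξ, hexp]
    simp [-ofReal_cos, -ofReal_sin, -ofReal_pow]
  have hnegre : 0 < (-ξ).re := by
    rw [neg_re, hre]
    have := Real.cos_le_one θ
    nlinarith
  have hslit : -ξ ∈ slitPlane := Or.inl hnegre
  have hne : -ξ ≠ 0 := by
    intro h
    rw [h] at hnegre
    simp at hnegre
  set w : ℂ := (-ξ) ^ (1 / 2 : ℂ) with hw
  have hw2 : w ^ 2 = -ξ := by
    rw [hw, ← Complex.cpow_nat_mul]
    norm_num
  have hsq : sq ξ = I * w := rfl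
  have hwre : 0 < w.re := by
    rw [hw, Complex.cpow_def_of_ne_zero hne, Complex.exp_re]
    apply mul_pos (Real.exp_pos _)
    apply Real.cos_pos_of_mem_Ioo
    have h1 : (Complex.log (-ξ) * (1 / 2 : ℂ)).im = (-ξ).arg / 2 := by
      rw [show (1 / 2 : ℂ) = ((1 / 2 : ℝ) : ℂ) by norm_num, Complex.im_mul_ofReal, Complex.log_im]
      ring
    rw [h1]
    have h2 := (Complex.abs_arg_lt_pi_div_two_iff.2 (Or.inl hnegre))
    rw [abs_lt] at h2
    have := Real.pi_pos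
    constructor <;> linarith [h2.1, h2.2]
  have hsqim : (sq ξ).im = w.re := by rw [hsq]; simp
  have hsqre : (sq ξ).re = -w.im := by rw [hsq]; simp
  have hz2 : sq ξ ^ 2 = ξ := by
    rw [hsq, mul_pow, I_sq, hw2]
    ring
  have hprod : (sq ξ - I * t) * (sq ξ + I * t) = ((40 * t : ℝ) : ℂ) * cexp (I * θ) := by
    have : (sq ξ - I * t) * (sq ξ + I * t) = sq ξ ^ 2 + (t : ℂ) ^ 2 := by
      ring_nf
      rw [I_sq]
      ring
    rw [this, hz2, hξ]
    push_cast
    ring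
  have hnorm : ‖sq ξ - I * t‖ * ‖sq ξ + I * t‖ = 40 * t := by
    rw [← norm_mul, hprod, norm_mul, mul_comm I, Complex.norm_exp_ofReal_mul_I, Complex.norm_real,
      Real.norm_eq_abs, abs_of_pos (by linarith)]
    ring
  have him1 : (sq ξ).im + t ≤ ‖sq ξ + I * t‖ := by
    have h := Complex.abs_im_le_norm (sq ξ + I * t)
    have h2 : (sq ξ + I * t).im = (sq ξ).im + t := by simp
    rw [h2] at h
    exact (le_abs_self _).trans h
  have hu1 : ‖sq ξ - I * t‖ ≤ 40 := by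
    by_contra hcon
    push Not at hcon
    have h1 : t < ‖sq ξ + I * t‖ := by
      rw [← hsqim] at hwre
      linarith
    nlinarith [norm_nonneg (sq ξ - I * t)]
  have him2 : t - ‖sq ξ - I * t‖ ≤ (sq ξ).im := by
    have h := Complex.abs_im_le_norm (sq ξ - I * t)
    have h2 : (sq ξ - I * t).im = (sq ξ).im - t := by simp
    rw [h2] at h
    have := neg_le_of_abs_le h
    linarith
  have hu2 : ‖sq ξ - I * t‖ ≤ 201 / 10 := by
    by_contra hcon
    push Not at hcon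
    have h1 : 2 * t - 40 ≤ ‖sq ξ + I * t‖ := by linarith
    nlinarith [norm_nonneg (sq ξ - I * t)]
  have himre : 2 * (sq ξ).re * (sq ξ).im = 40 * t * Real.sin θ := by
    have h1 : (sq ξ ^ 2).im = 2 * (sq ξ).re * (sq ξ).im := by
      rw [pow_two, Complex.mul_im]
      ring
    rw [← h1, hz2, him]
  have himpos : 0 < (sq ξ).im := by rw [hsqim]; exact hwre
  refine ⟨hz2, hu2, by linarith, ?_, ?_, hslit⟩
  · intro hs
    by_contra hcon
    push Not at hcon
    have : 2 * (sq ξ).re * (sq ξ).im < 0 := by nlinarith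
    have h2 : 0 ≤ 40 * t * Real.sin θ := by positivity
    linarith
  · intro hs
    by_contra hcon
    push Not at hcon
    have : 0 < 2 * (sq ξ).re * (sq ξ).im := by positivity
    have h2 : 40 * t * Real.sin θ ≤ 0 := by
      have : 0 ≤ 40 * t := by linarith
      nlinarith
    linarith

/-- kernel bound -/
lemma arc_bound (f : ℂ → ℂ) (n : ℕ) (t a b B : ℝ) (z : ℂ) (ht : 10000 ≤ t) (hab : a ≤ b)
    (hab2 : b ≤ a + Real.pi) (hz : ‖z - I * t‖ ≤ 3 / 4) (hB0 : 0 ≤ B)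
    (hB : ∀ θ ∈ Set.Icc a b, ‖f (((-t ^ 2 : ℝ) : ℂ) + ((40 * t : ℝ) : ℂ) * cexp (I * θ))‖ ≤ B) :
    ‖arc f n (-t ^ 2) (40 * t) a b (z ^ 2)‖ ≤ (n.factorial : ℝ) / (38 * t) ^ n * B := by
  have ht0 : 0 < t := by linarith
  have hdist : ∀ θ : ℝ, 38 * t ≤
      ‖((-t ^ 2 : ℝ) : ℂ) + ((40 * t : ℝ) : ℂ) * cexp (I * θ) - z ^ 2‖ := by
    intro θ
    have h1 : ‖z ^ 2 + (t : ℂ) ^ 2‖ ≤ 2 * t := by
      have e1 : z ^ 2 + (t : ℂ) ^ 2 = (z - I * t) * (z - I * t + 2 * (I * t)) := by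
        ring_nf
        rw [I_sq]
        ring
      rw [e1, norm_mul]
      have h2 : ‖z - I * t + 2 * (I * t)‖ ≤ 3 / 4 + 2 * t := by
        refine (norm_add_le _ _).trans ?_
        have h3 : ‖2 * (I * (t : ℂ))‖ = 2 * t := by simp [abs_of_pos ht0]
        rw [h3]
        linarith
      calc ‖z - I * t‖ * ‖z - I * t + 2 * (I * t)‖ ≤ 3 / 4 * (3 / 4 + 2 * t) := by gcongr
        _ ≤ 2 * t := by linarith
    have h4 : ‖((40 * t : ℝ) : ℂ) * cexp (I * θ)‖ = 40 * t := by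
      rw [norm_mul, mul_comm I, Complex.norm_exp_ofReal_mul_I, Complex.norm_real,
        Real.norm_eq_abs, abs_of_pos (by linarith)]
      ring
    have h5 : ((-t ^ 2 : ℝ) : ℂ) + ((40 * t : ℝ) : ℂ) * cexp (I * θ) - z ^ 2 =
        ((40 * t : ℝ) : ℂ) * cexp (I * θ) - (z ^ 2 + (t : ℂ) ^ 2) := by
      push_cast
      ring
    rw [h5]
    have h6 := norm_sub_norm_le (((40 * t : ℝ) : ℂ) * cexp (I * θ)) (z ^ 2 + (t : ℂ) ^ 2)
    rw [h4] at h6
    linarith
  have hint : ‖∫ θ in a..b, f (((-t ^ 2 : ℝ) : ℂ) + ((40 * t : ℝ) : ℂ) * cexp (I * θ)) *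
      (((40 * t : ℝ) : ℂ) * cexp (I * θ)) /
        (((-t ^ 2 : ℝ) : ℂ) + ((40 * t : ℝ) : ℂ) * cexp (I * θ) - z ^ 2) ^ (n + 1)‖ ≤
      (B * (40 * t) / (38 * t) ^ (n + 1)) * |b - a| := by
    apply intervalIntegral.norm_integral_le_of_norm_le_const
    intro θ hθ
    rw [Set.uIoc_of_le hab] at hθ
    have h7 := hB θ ⟨hθ.1.le, hθ.2⟩
    have h4 : ‖((40 * t : ℝ) : ℂ) * cexp (I * θ)‖ = 40 * t := by
      rw [norm_mul, mul_comm I, Complex.norm_exp_ofReal_mul_I, Complex.norm_real,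
        Real.norm_eq_abs, abs_of_pos (by linarith)]
      ring
    rw [norm_div, norm_mul, h4, norm_pow]
    have h8 := hdist θ
    gcongr
  unfold arc
  rw [norm_mul]
  have hpre : ‖(n.factorial : ℂ) / (2 * Real.pi)‖ = (n.factorial : ℝ) / (2 * Real.pi) := by
    rw [norm_div, norm_mul]
    simp [abs_of_pos Real.pi_pos]
  rw [hpre]
  have hba : |b - a| ≤ Real.pi := by
    rw [abs_of_nonneg (by linarith)]
    linarith
  calc (n.factorial : ℝ) / (2 * Real.pi) * ‖_‖ ≤ (n.factorial : ℝ) / (2 * Real.pi) *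
        ((B * (40 * t) / (38 * t) ^ (n + 1)) * |b - a|) := by
        apply mul_le_mul_of_nonneg_left hint
        have := Real.pi_pos
        positivity
    _ ≤ (n.factorial : ℝ) / (2 * Real.pi) * ((B * (40 * t) / (38 * t) ^ (n + 1)) * Real.pi) := by
        have := Real.pi_pos
        gcongr
    _ = (n.factorial : ℝ) / (38 * t) ^ n * (B * (20 / 38)) := by
        have := Real.pi_pos.ne'
        rw [pow_succ]
        field_simp
        ring
    _ ≤ (n.factorial : ℝ) / (38 * t) ^ n * B := by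
        have hB2 : B * (20 / 38) ≤ B := by linarith
        gcongr

/-- bound for `HH` on the circle -/
lemma HH_bound (t K : ℝ) (u : ℂ) (hK : 1 ≤ K) (htK : K ≤ t) (hu : ‖u‖ ≤ 201 / 10)
    (hbe : ‖be t - (Om t : ℂ)‖ ≤ K)
    (hst : ‖HH (I * t + u) - HH (I * t) * cexp (be t * u)‖ ≤ K / t * ‖HH (I * t) * cexp (be t * u)‖) :
    ‖HH (I * t + u)‖ ≤ 2 * Real.exp (201 / 10 * K) * ‖HH (I * t)‖ * Real.exp (Om t * u.re) := by
  have ht : 0 < t := by linarith
  have h1 : ‖HH (I * t + u)‖ ≤ 2 * ‖HH (I * t) * cexp (be t * u)‖ := by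
    have h2 := norm_le_norm_add_norm_sub' (HH (I * t + u)) (HH (I * t) * cexp (be t * u))
    have h3 : K / t * ‖HH (I * t) * cexp (be t * u)‖ ≤ 1 * ‖HH (I * t) * cexp (be t * u)‖ := by
      gcongr
      rw [div_le_one ht]
      exact htK
    linarith
  have h4 : (be t * u).re ≤ Om t * u.re + 201 / 10 * K := by
    have e1 : be t * u = (Om t : ℂ) * u + (be t - Om t) * u := by ring
    have h5 : ((be t - (Om t : ℂ)) * u).re ≤ 201 / 10 * K := by
      refine (Complex.re_le_norm _).trans ?_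
      rw [norm_mul]
      calc ‖be t - (Om t : ℂ)‖ * ‖u‖ ≤ K * (201 / 10) := by gcongr
        _ = _ := by ring
    rw [e1, add_re, Complex.re_ofReal_mul]
    linarith
  calc ‖HH (I * t + u)‖ ≤ 2 * ‖HH (I * t) * cexp (be t * u)‖ := h1
    _ = 2 * ‖HH (I * t)‖ * Real.exp (be t * u).re := by
        rw [norm_mul, Complex.norm_exp]
        ring
    _ ≤ 2 * ‖HH (I * t)‖ * Real.exp (Om t * u.re + 201 / 10 * K) := by gcongr
    _ = _ := by
        rw [Real.exp_add]
        ring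

lemma log_le (t : ℝ) (ht : 1 ≤ t) (m : ℕ) (hm : 1 ≤ m) (hmt : (m : ℝ) ≤ t ^ (1 / 5 : ℝ)) :
    Real.log m ≤ 2 / 5 * Om t := by
  have hm0 : (0 : ℝ) < m := by exact_mod_cast hm
  have h1 := Real.log_le_log hm0 hmt
  rw [Real.log_rpow (by linarith)] at h1
  unfold Om
  linarith

lemma M_le (t : ℝ) (ht : 1 ≤ t) : ((⌊t ^ (1 / 5 : ℝ)⌋₊ : ℕ) : ℝ) ≤ Real.exp (2 / 5 * Om t) := by
  have h1 : ((⌊t ^ (1 / 5 : ℝ)⌋₊ : ℕ) : ℝ) ≤ t ^ (1 / 5 : ℝ) := Nat.floor_le (by positivity)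
  refine h1.trans (le_of_eq ?_)
  rw [Real.rpow_def_of_pos (by linarith)]
  unfold Om
  congr 1
  ring

lemma arc_lin (f : ℂ → ℂ) (g : ℕ → ℂ → ℂ) (S : Finset ℕ) (n : ℕ) (x0 ρ a b : ℝ) (x : ℂ)
    (hf : Continuous fun θ : ℝ => f ((x0 : ℂ) + ρ * cexp (I * θ)))
    (hg : ∀ m ∈ S, Continuous fun θ : ℝ => g m ((x0 : ℂ) + ρ * cexp (I * θ)))
    (hne : ∀ θ : ℝ, (x0 : ℂ) + ρ * cexp (I * θ) - x ≠ 0) :
    arc f n x0 ρ a b x - ∑ m ∈ S, arc (g m) n x0 ρ a b x =
      arc (fun ξ => f ξ - ∑ m ∈ S, g m ξ) n x0 ρ a b x := by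
  have hk : Continuous fun θ : ℝ => ((x0 : ℂ) + ρ * cexp (I * θ) - x) ^ (n + 1) := by fun_prop
  have hk2 : Continuous fun θ : ℝ => (ρ : ℂ) * cexp (I * θ) := by fun_prop
  unfold arc
  rw [← Finset.mul_sum, ← mul_sub, ← intervalIntegral.integral_finsetSum,
    ← intervalIntegral.integral_sub]
  · congr 1
    apply intervalIntegral.integral_congr
    intro θ _
    simp only
    rw [← Finset.sum_div, ← Finset.sum_mul]
    ring
  · exact ((hf.mul hk2).div hk fun θ => pow_ne_zero _ (hne θ)).intervalIntegrable _ _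
  · exact (continuous_finsetSum _ fun m hm =>
      (((hg m hm).mul hk2).div hk fun θ => pow_ne_zero _ (hne θ))).intervalIntegrable _ _
  · intro m hm
    exact (((hg m hm).mul hk2).div hk fun θ => pow_ne_zero _ (hne θ)).intervalIntegrable _ _

end Pool.Agent.H24R2.JP.UD
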